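import Mathlib

/-!
Tools on L² spaces: countable Hilbert bases, Parseval in `ENNReal`, squares of norms as integrals.
-/

set_option autoImplicit false
open Filter Topology MeasureTheory
open scoped InnerProductSpace ENNReal

namespace Pool.Agent.V1195.L2Tools

noncomputable section

section Basis

variable {E : Type*} [NormedAddCommGroup E] [InnerProductSpace ℂ E]

lemma countable_of_orthonormal [TopologicalSpace.SeparableSpace E] {ι : Type*} {v : ι → E}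
    (hv : Orthonormal ℂ v) : Countable ι := by
  have h1 : (Set.univ : Set ι).Countable := by
    refine Set.PairwiseDisjoint.countable_of_isOpen (s := fun i => Metric.ball (v i) (1 / 2))
      ?_ (fun i _ => Metric.isOpen_ball) (fun i _ => ⟨v i, Metric.mem_ball_self (by norm_num)⟩)
    intro i _ j _ hij
    rw [Function.onFun, Set.disjoint_left]
    intro x hx hy
    rw [Metric.mem_ball] at hx hy
    have h2 : dist (v i) (v j) < 1 := by
      calc dist (v i) (v j) ≤ dist (v i) x + dist x (v j) := dist_triangle _ _ _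
        _ < 1 / 2 + 1 / 2 := by rw [dist_comm (v i) x]; exact add_lt_add hx hy
        _ = 1 := by norm_num
    have h3 : ‖v i - v j‖ ^ 2 = 2 := by
      rw [@norm_sub_sq ℂ, hv.1 i, hv.1 j, hv.2 hij]
      simp; norm_num
    rw [dist_eq_norm] at h2
    nlinarith [norm_nonneg (v i - v j)]
  exact Set.countable_univ_iff.1 h1

/-- Parseval in extended nonnegative reals. -/
lemma parseval {ι : Type*} (b : HilbertBasis ι ℂ E) (x : E) :
    ∑' i, ‖⟪x, b i⟫_ℂ‖ₑ ^ 2 = ‖x‖ₑ ^ 2 := by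
  have h1 := b.hasSum_inner_mul_inner x x
  have h2 : ∀ i, ⟪x, b i⟫_ℂ * ⟪b i, x⟫_ℂ = ((‖⟪x, b i⟫_ℂ‖ ^ 2 : ℝ) : ℂ) := by
    intro i
    rw [← inner_conj_symm (b i) x, Complex.mul_conj, Complex.normSq_eq_norm_sq]
  have h3 : ⟪x, x⟫_ℂ = ((‖x‖ ^ 2 : ℝ) : ℂ) := by
    rw [inner_self_eq_norm_sq_to_K]; simp
  simp_rw [h2] at h1
  rw [h3] at h1
  have h4 : HasSum (fun i => ‖⟪x, b i⟫_ℂ‖ ^ 2) (‖x‖ ^ 2) := by
    exact_mod_cast h1
  have h5 : ∀ y : E, ‖y‖ₑ ^ 2 = ENNReal.ofReal (‖y‖ ^ 2) := by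
    intro y
    rw [ENNReal.ofReal_pow (norm_nonneg _), ofReal_norm]
  have h6 : ∀ y : ℂ, ‖y‖ₑ ^ 2 = ENNReal.ofReal (‖y‖ ^ 2) := by
    intro y
    rw [ENNReal.ofReal_pow (norm_nonneg _), ofReal_norm]
  simp_rw [h6]
  rw [h5, ← h4.tsum_eq, ENNReal.ofReal_tsum_of_nonneg (fun i => by positivity) h4.summable]

end Basis

section Lp

variable {α : Type*} [MeasurableSpace α] {μ : Measure α}

lemma enorm_sq_Lp (f : Lp ℂ 2 μ) : ‖f‖ₑ ^ 2 = ∫⁻ x, ‖f x‖ₑ ^ 2 ∂μ := by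
  rw [Lp.enorm_def, eLpNorm_eq_lintegral_rpow_enorm_toReal (by norm_num) (by norm_num)]
  have h2 : (2 : ℝ≥0∞).toReal = 2 := by norm_num
  rw [h2, ← ENNReal.rpow_natCast, ← ENNReal.rpow_mul]
  simp

/-- The key computation: if `F j` is obtained from the basis through a Carleman kernel `k` then
the sum of the squares of the norms is the square integral of the kernel. -/
lemma sum_sq_kernel {ι : Type*} [Countable ι] (b : HilbertBasis ι ℂ (Lp ℂ 2 μ))
    (k : α → α → ℂ) (hk2 : ∀ᵐ x ∂μ, MemLp (k x) 2 μ)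
    (F : ι → Lp ℂ 2 μ) (hF : ∀ j, F j =ᵐ[μ] fun x => ∫ y, k x y * b j y ∂μ) :
    ∑' j, ‖F j‖ₑ ^ 2 = ∫⁻ x, ∫⁻ y, ‖k x y‖ₑ ^ 2 ∂μ ∂μ := by
  simp_rw [enorm_sq_Lp]
  rw [← lintegral_tsum (fun j => ((Lp.stronglyMeasurable (F j)).enorm.pow_const 2).aemeasurable)]
  refine lintegral_congr_ae ?_
  have hF' : ∀ᵐ x ∂μ, ∀ j, F j x = ∫ y, k x y * b j y ∂μ := ae_all_iff.2 hF
  filter_upwards [hk2, hF'] with x hx hFx
  have hcm : MemLp (fun y => (starRingEnd ℂ) (k x y)) 2 μ := hx.star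
  set g : Lp ℂ 2 μ := hcm.toLp _ with hg
  have h1 : ∀ j, F j x = ⟪g, b j⟫_ℂ := by
    intro j
    rw [hFx j, L2.inner_def]
    refine integral_congr_ae ?_
    filter_upwards [hcm.coeFn_toLp] with y hy
    rw [hg, hy]
    simp [mul_comm]
  simp_rw [h1]
  rw [parseval b g, enorm_sq_Lp]
  refine lintegral_congr_ae ?_
  filter_upwards [hcm.coeFn_toLp] with y hy
  rw [hg, hy]
  simp

end Lp

end

end Pool.Agent.V1195.L2Tools
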