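import Mathlib

/-!
# Linear bijections commuting with mean-type Aluthge transforms: basic tools
-/

set_option autoImplicit false

namespace Pool.Agent.V1195.LinBij

open Asymptotics Filter Topology

section ext

variable {M : Type*} [AddCommGroup M] [Module ℂ M]

/-- Coefficient extraction for polynomials in `t` and `conj t`. -/
lemma ext_coeff (a00 a10 a01 a11 a20 a21 : M)
    (h : ∀ t : ℂ, a00 + t • a10 + (starRingEnd ℂ t) • a01 + (t * starRingEnd ℂ t) • a11 +
      (t ^ 2) • a20 + (t ^ 2 * starRingEnd ℂ t) • a21 = 0) : a20 = 0 ∧ a01 = 0 ∧ a10 + a21 = 0 := by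
  have h1 := h 1
  have h2 := h (-1)
  have h3 := h Complex.I
  have h4 := h (-Complex.I)
  simp only [map_one, map_neg, Complex.conj_I, one_smul, neg_smul, neg_mul, mul_neg, neg_neg,
    one_mul, mul_one, one_pow, Complex.I_mul_I, Complex.I_sq, even_two, Even.neg_pow] at h1 h2 h3 h4
  have e20 : a20 = 0 := by
    have : (4 : ℂ) • a20 = 0 := by
      linear_combination (norm := module) h1 + h2 - h3 - h4
    exact (smul_eq_zero.1 this).resolve_left (by norm_num)
  have e1 : a10 + a01 + a21 = 0 := by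
    have : (2 : ℂ) • (a10 + a01 + a21) = 0 := by
      linear_combination (norm := module) h1 - h2
    exact (smul_eq_zero.1 this).resolve_left (by norm_num)
  have e2 : a10 - a01 + a21 = 0 := by
    have : (2 * Complex.I) • (a10 - a01 + a21) = 0 := by
      linear_combination (norm := module) h3 - h4
    exact (smul_eq_zero.1 this).resolve_left (by simp)
  have e01 : a01 = 0 := by
    have : (2 : ℂ) • a01 = 0 := by
      linear_combination (norm := module) e1 - e2
    exact (smul_eq_zero.1 this).resolve_left (by norm_num)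
  refine ⟨e20, e01, ?_⟩
  rw [e01] at e1
  simpa using e1

end ext

/-- If `e^2 u + e^3 v = O(e^4)` then `u = v = 0`. -/
lemma coeff_zero {E : Type*} [NormedAddCommGroup E] [NormedSpace ℂ E] (u v : E)
    (h : (fun e : ℝ => ((e : ℂ) ^ 2) • u + ((e : ℂ) ^ 3) • v) =O[𝓝[>] (0 : ℝ)] (fun e => e ^ 4)) :
    u = 0 ∧ v = 0 := by
  obtain ⟨K, hK⟩ := h.bound
  have hpos : ∀ᶠ e : ℝ in 𝓝[>] (0 : ℝ), 0 < e := self_mem_nhdsWithin
  have hle : Filter.Tendsto (fun e : ℝ => e) (𝓝[>] (0 : ℝ)) (𝓝 0) := nhdsWithin_le_nhds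
  have h1 : ∀ᶠ e : ℝ in 𝓝[>] (0 : ℝ), ‖u + (e : ℂ) • v‖ ≤ K * e ^ 2 := by
    filter_upwards [hK, hpos] with e he hp
    have h2 : ((e : ℂ) ^ 2) • u + ((e : ℂ) ^ 3) • v = ((e : ℂ) ^ 2) • (u + (e : ℂ) • v) := by
      rw [smul_add, smul_smul]; ring_nf
    rw [h2, norm_smul, norm_pow, Complex.norm_real, norm_pow, Real.norm_eq_abs, abs_of_pos hp] at he
    have h3 : e ^ 2 * ‖u + (e : ℂ) • v‖ ≤ e ^ 2 * (K * e ^ 2) := by
      calc _ ≤ K * e ^ 4 := he
        _ = e ^ 2 * (K * e ^ 2) := by ring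
    exact le_of_mul_le_mul_left h3 (by positivity)
  have hu : u = 0 := by
    have t1 : Filter.Tendsto (fun e : ℝ => ‖u + (e : ℂ) • v‖) (𝓝[>] (0 : ℝ)) (𝓝 ‖u + (0 : ℂ) • v‖) := by
      apply Filter.Tendsto.mono_left _ nhdsWithin_le_nhds
      have : Continuous (fun e : ℝ => ‖u + (e : ℂ) • v‖) := by fun_prop
      have h5 := this.tendsto 0
      simpa using h5
    have t2 : Filter.Tendsto (fun e : ℝ => K * e ^ 2) (𝓝[>] (0 : ℝ)) (𝓝 0) := by
      apply Filter.Tendsto.mono_left _ nhdsWithin_le_nhds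
      have : Continuous (fun e : ℝ => K * e ^ 2) := by fun_prop
      have h5 := this.tendsto 0
      simpa using h5
    have h6 := le_of_tendsto_of_tendsto t1 t2 h1
    rw [zero_smul, add_zero] at h6
    exact norm_le_zero_iff.1 h6
  refine ⟨hu, ?_⟩
  have h7 : ∀ᶠ e : ℝ in 𝓝[>] (0 : ℝ), ‖v‖ ≤ K * e := by
    filter_upwards [h1, hpos] with e he hp
    rw [hu, zero_add, norm_smul, Complex.norm_real, Real.norm_eq_abs, abs_of_pos hp] at he
    have h3 : e * ‖v‖ ≤ e * (K * e) := by
      calc _ ≤ K * e ^ 2 := he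
        _ = e * (K * e) := by ring
    exact le_of_mul_le_mul_left h3 hp
  have t2 : Filter.Tendsto (fun e : ℝ => K * e) (𝓝[>] (0 : ℝ)) (𝓝 0) := by
    apply Filter.Tendsto.mono_left _ nhdsWithin_le_nhds
    have : Continuous (fun e : ℝ => K * e) := by fun_prop
    have h5 := this.tendsto 0
    simpa using h5
  have h6 := le_of_tendsto_of_tendsto tendsto_const_nhds t2 h7
  exact norm_le_zero_iff.1 h6

variable {H : Type*} [NormedAddCommGroup H] [InnerProductSpace ℂ H] [CompleteSpace H]

/-- The commutator. -/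
def cm (X Y : H →L[ℂ] H) : H →L[ℂ] H := X * Y - Y * X

/-- The rank one operator `z ↦ ⟪y, z⟫ x`. -/
noncomputable def ro (x y : H) : H →L[ℂ] H := (innerSL ℂ y).smulRight x

lemma ro_apply (x y z : H) : ro x y z = inner ℂ y z • x := by
  simp [ro]

lemma star_ro (x y : H) : star (ro x y) = ro y x := by
  rw [ContinuousLinearMap.star_eq_adjoint]
  refine ((ContinuousLinearMap.eq_adjoint_iff _ _).2 ?_).symm
  intro u v
  rw [ro_apply, ro_apply, inner_smul_left, inner_smul_right, inner_conj_symm, mul_comm]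

lemma mul_ro (X : H →L[ℂ] H) (x y : H) : X * ro x y = ro (X x) y := by
  ext z; simp [ro_apply]

lemma ro_mul (X : H →L[ℂ] H) (x y : H) : ro x y * X = ro x (star X y) := by
  ext z
  simp only [mul_apply_eq_comp, ro_apply, ContinuousLinearMap.star_eq_adjoint,
    ContinuousLinearMap.adjoint_inner_left]

lemma ro_add_left (x x' y : H) : ro (x + x') y = ro x y + ro x' y := by
  ext z; simp [ro_apply]

lemma ro_add_right (x y y' : H) : ro x (y + y') = ro x y + ro x y' := by
  ext z; simp [ro_apply, inner_add_left, add_smul]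

lemma ro_smul_left (c : ℂ) (x y : H) : ro (c • x) y = c • ro x y := by
  ext z; simp [ro_apply, smul_smul, mul_comm]

lemma ro_smul_right (c : ℂ) (x y : H) : ro x (c • y) = (starRingEnd ℂ c) • ro x y := by
  ext z; simp [ro_apply, inner_smul_left, smul_smul, mul_comm]

lemma ro_zero_left (y : H) : ro 0 y = 0 := by ext z; simp [ro_apply]
lemma ro_zero_right (x : H) : ro x 0 = 0 := by ext z; simp [ro_apply]

/-- An operator commuting with everything is scalar. -/
lemma scalar_of_comm (S : H →L[ℂ] H) (h : ∀ W : H →L[ℂ] H, S * W = W * S) : ∃ c : ℂ, S = c • 1 := by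
  by_cases hH : ∃ y : H, y ≠ 0
  · obtain ⟨y, hy⟩ := hH
    have hy2 : (inner ℂ y y : ℂ) ≠ 0 := inner_self_ne_zero.2 hy
    refine ⟨(inner ℂ y y)⁻¹ * inner ℂ y (S y), ?_⟩
    ext z
    have h1 := congrArg (fun T : H →L[ℂ] H => T y) (h (ro z y))
    simp only [mul_apply_eq_comp, ro_apply, map_smul] at h1
    have h2 : S z = (inner ℂ y y)⁻¹ • (inner ℂ y y • S z) := by
      rw [smul_smul, inv_mul_cancel₀ hy2, one_smul]
    rw [h2, h1, smul_smul]
    simp
  · push Not at hH
    refine ⟨0, ?_⟩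
    ext z
    rw [hH (S z)]; simp

/-- If `(S W - W S) S = 0` for all `W` then `S` is scalar. -/
lemma scalar_of_comm' (S : H →L[ℂ] H) (h : ∀ W : H →L[ℂ] H, S * (W * S) = (W * S) * S) :
    ∃ c : ℂ, S = c • 1 := by
  by_cases hS : S = 0
  · exact ⟨0, by simp [hS]⟩
  · have : ∃ x, S x ≠ 0 := by
      by_contra hcon
      push Not at hcon
      exact hS (ContinuousLinearMap.ext (by simpa using hcon))
    obtain ⟨x, hx⟩ := this
    set y := S x with hy
    have hy2 : (inner ℂ y y : ℂ) ≠ 0 := inner_self_ne_zero.2 hx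
    refine ⟨(inner ℂ y y)⁻¹ * inner ℂ y (S y), ?_⟩
    ext z
    have h1 := congrArg (fun T : H →L[ℂ] H => T x) (h (ro z y))
    simp only [mul_apply_eq_comp, ro_apply, map_smul] at h1
    rw [← hy] at h1
    have h2 : S z = (inner ℂ y y)⁻¹ • (inner ℂ y y • S z) := by
      rw [smul_smul, inv_mul_cancel₀ hy2, one_smul]
    rw [h2, h1, smul_smul]
    simp

/-- Decomposition into self-adjoint parts. -/
lemma sa_decomp (X : H →L[ℂ] H) : ∃ A C : H →L[ℂ] H, star A = A ∧ star C = C ∧
    X = A + Complex.I • C ∧ (∀ P : H →L[ℂ] H, star P = P → P * X = X * P →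
      P * A = A * P ∧ P * C = C * P) := by
  refine ⟨(1 / 2 : ℂ) • (X + star X), (-Complex.I / 2 : ℂ) • (X - star X), ?_, ?_, ?_, ?_⟩
  · rw [star_smul, star_add, star_star, add_comm]
    congr 1
    simp
  · rw [star_smul, star_sub, star_star, ← neg_sub X (star X), smul_neg, ← neg_smul]
    congr 1
    simp [neg_div]
  · rw [smul_smul]
    have : Complex.I * (-Complex.I / 2) = 1 / 2 := by
      rw [mul_div_assoc', mul_neg, Complex.I_mul_I]; norm_num
    rw [this, smul_add, smul_sub]
    have h2 : (1 / 2 : ℂ) • X + (1 / 2 : ℂ) • X = X := by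
      rw [← add_smul]; norm_num
    nth_rewrite 1 [← h2]
    abel
  · intro P hP hPX
    have h2 : P * star X = star X * P := by
      have := congrArg star hPX
      rw [star_mul, star_mul, hP] at this
      exact this.symm
    constructor
    · rw [mul_smul_comm, smul_mul_assoc, mul_add, add_mul, hPX, h2]
    · rw [mul_smul_comm, smul_mul_assoc, mul_sub, sub_mul, hPX, h2]

/-- A normal idempotent is self-adjoint. -/
lemma sa_of_normal_idem (Q : H →L[ℂ] H) (hn : Q * star Q = star Q * Q) (hi : Q * Q = Q) :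
    star Q = Q := by
  have h1 : star (star Q * (1 - Q)) * (star Q * (1 - Q)) = 0 := by
    rw [star_mul, star_star, star_sub, star_one]
    calc (1 - star Q) * Q * (star Q * (1 - Q)) = (1 - star Q) * (Q * star Q) * (1 - Q) := by
          noncomm_ring
      _ = (1 - star Q) * star Q * (Q - Q * Q) := by rw [hn]; noncomm_ring
      _ = 0 := by rw [hi, sub_self, mul_zero]
  have h2 : star Q * (1 - Q) = 0 := by
    rwa [CStarRing.star_mul_self_eq_zero_iff] at h1
  rw [mul_sub, mul_one, sub_eq_zero] at h2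
  have h3 := congrArg star h2
  rw [star_star, star_mul, star_star, ← h2] at h3
  exact h3.symm

end Pool.Agent.V1195.LinBij
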