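import Mathlib

/-! Existence of the polar decomposition of a bounded operator on a complex Hilbert space. -/

namespace Pool.Agent.V1195.PolarEx

open scoped InnerProductSpace

variable {H : Type*} [NormedAddCommGroup H] [InnerProductSpace ℂ H] [CompleteSpace H]

lemma norm_abs_apply (T : H →L[ℂ] H) (x : H) : ‖CFC.abs T x‖ = ‖T x‖ := by
  have hsa : IsSelfAdjoint (CFC.abs T) := CFC.abs_nonneg T |>.isSelfAdjoint
  have h1 : ⟪CFC.abs T x, CFC.abs T x⟫_ℂ = ⟪T x, T x⟫_ℂ := by
    have e1 : ⟪CFC.abs T x, CFC.abs T x⟫_ℂ = ⟪(star (CFC.abs T) * CFC.abs T) x, x⟫_ℂ := by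
      rw [ContinuousLinearMap.mul_apply, ContinuousLinearMap.star_eq_adjoint,
        ContinuousLinearMap.adjoint_inner_left]
    have e2 : ⟪T x, T x⟫_ℂ = ⟪(star T * T) x, x⟫_ℂ := by
      rw [ContinuousLinearMap.mul_apply, ContinuousLinearMap.star_eq_adjoint,
        ContinuousLinearMap.adjoint_inner_left]
    rw [e1, e2, hsa.star_eq, CFC.abs_mul_abs]
  have h2 : ‖CFC.abs T x‖ ^ 2 = ‖T x‖ ^ 2 := by
    have := congrArg Complex.re h1
    rw [← RCLike.re_eq_complex_re, inner_self_eq_norm_sq, inner_self_eq_norm_sq] at this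
    exact this
  exact (sq_eq_sq₀ (norm_nonneg _) (norm_nonneg _)).1 h2

/-- **Polar decomposition**: every bounded operator `T` on a complex Hilbert space is `V * |T|`
with `V` a partial isometry with the same kernel as `T`. -/
theorem exists_polar (T : H →L[ℂ] H) :
    ∃ V : H →L[ℂ] H, V * star V * V = V ∧ (∀ x, V x = 0 ↔ T x = 0) ∧ T = V * CFC.abs T := by
  classical
  set A : H →L[ℂ] H := CFC.abs T with hA
  have hsa : IsSelfAdjoint A := (CFC.abs_nonneg T).isSelfAdjoint
  let R : Submodule ℂ H := LinearMap.range (A : H →ₗ[ℂ] H)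
  let K : Submodule ℂ H := R.topologicalClosure
  have hKc : IsClosed (K : Set H) := R.isClosed_topologicalClosure
  haveI : CompleteSpace K := hKc.completeSpace_coe
  have hmem : ∀ x, A x ∈ K := fun x => R.le_topologicalClosure ⟨x, rfl⟩
  let e : H →ₗ[ℂ] K := LinearMap.codRestrict K (A : H →ₗ[ℂ] H) hmem
  have he : ∀ x, ((e x : K) : H) = A x := fun x => rfl
  have hd : DenseRange e := by
    intro k
    rw [Metric.mem_closure_iff]
    intro ε hε
    have hk : (k : H) ∈ closure (R : Set H) := k.2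
    obtain ⟨y, ⟨x, hx⟩, hy⟩ := Metric.mem_closure_iff.1 hk ε hε
    refine ⟨e x, ⟨x, rfl⟩, ?_⟩
    rw [Subtype.dist_eq, he]
    have : A x = y := hx
    rw [this]; exact hy
  have hn : ∀ x, ‖T x‖ = ‖e x‖ := by
    intro x
    rw [← norm_abs_apply T x]; rfl
  have hC : ∃ C, ∀ x, ‖(T : H →ₗ[ℂ] H) x‖ ≤ C * ‖e x‖ :=
    ⟨1, fun x => by rw [one_mul]; exact (hn x).le⟩
  let W : K →L[ℂ] H := LinearMap.extendOfNorm (T : H →ₗ[ℂ] H) e
  have hW : ∀ x, W (e x) = T x := fun x => LinearMap.extendOfNorm_eq hd hC x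
  have hWn : ∀ k, ‖W k‖ = ‖k‖ := by
    intro k
    have hcl : IsClosed {k : K | ‖W k‖ = ‖k‖} :=
      isClosed_eq (W.continuous.norm) continuous_norm
    have hsub : Set.range e ⊆ {k : K | ‖W k‖ = ‖k‖} := by
      rintro _ ⟨x, rfl⟩
      change ‖W (e x)‖ = ‖e x‖
      rw [hW, hn]
    have : closure (Set.range e) ⊆ {k : K | ‖W k‖ = ‖k‖} := hcl.closure_subset_iff.2 hsub
    exact this (hd k)
  let Wi : K →ₗᵢ[ℂ] H := ⟨(W : K →ₗ[ℂ] H), hWn⟩
  have hWin : ∀ a b : K, ⟪W a, W b⟫_ℂ = ⟪a, b⟫_ℂ := fun a b => Wi.inner_map_map a b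
  let P : H →L[ℂ] K := K.orthogonalProjection
  let V : H →L[ℂ] H := W.comp P
  have hV : ∀ x, V x = W (P x) := fun x => rfl
  have hVT : T = V * A := by
    ext x
    rw [ContinuousLinearMap.mul_apply, hV]
    have : P (A x) = e x := by
      have h3 : P ((e x : K) : H) = e x := K.orthogonalProjection_mem_subspace_eq_self (e x)
      exact h3
    rw [this, hW]
  have hVV : ∀ x, (star V * V) x = (P x : H) := by
    intro x
    apply ext_inner_right ℂ
    intro y
    rw [ContinuousLinearMap.mul_apply, ContinuousLinearMap.star_eq_adjoint,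
      ContinuousLinearMap.adjoint_inner_left, hV, hV, hWin]
    exact K.inner_orthogonalProjection_eq_of_mem_left (P x) y
  refine ⟨V, ?_, ?_, hVT⟩
  · ext x
    rw [mul_assoc, ContinuousLinearMap.mul_apply, hVV, hV, hV]
    congr 1
    exact K.orthogonalProjection_mem_subspace_eq_self (P x)
  · intro x
    have h1 : V x = 0 ↔ P x = 0 := by
      rw [← norm_eq_zero, hV, hWn, norm_eq_zero]
    have h2 : P x = 0 ↔ x ∈ Kᗮ := K.orthogonalProjection_eq_zero_iff
    have h3 : x ∈ Kᗮ ↔ x ∈ Rᗮ := by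
      rw [Submodule.orthogonal_closure]
    have h4 : x ∈ Rᗮ ↔ A x = 0 := by
      rw [Submodule.mem_orthogonal]
      constructor
      · intro h
        have h5 : ⟪A (A x), x⟫_ℂ = 0 := h _ ⟨A x, rfl⟩
        have h6 : ⟪A (A x), x⟫_ℂ = ⟪A x, A x⟫_ℂ := by
          have h7 := ContinuousLinearMap.adjoint_inner_left A x (A x)
          rw [← ContinuousLinearMap.star_eq_adjoint, hsa.star_eq] at h7
          exact h7
        rw [h6] at h5
        exact inner_self_eq_zero.1 h5
      · rintro h _ ⟨z, rfl⟩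
        have h7 := ContinuousLinearMap.adjoint_inner_left A x z
        rw [← ContinuousLinearMap.star_eq_adjoint, hsa.star_eq] at h7
        change ⟪A z, x⟫_ℂ = 0
        rw [h7, h, inner_zero_right]
    rw [h1, h2, h3, h4, ← norm_eq_zero, norm_abs_apply, norm_eq_zero]

end Pool.Agent.V1195.PolarEx
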