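import Mathlib
import Pool.Agent.V1195.LinBijA
import Pool.Agent.V1195.PolarEx

/-!
# Definitions: mean-type transforms as functions on `B(H)` and the properties used
-/

set_option autoImplicit false

namespace Pool.Agent.V1195.LinBij

open Asymptotics Filter Topology

variable {H : Type*} [NormedAddCommGroup H] [InnerProductSpace ℂ H] [CompleteSpace H]

/-- `V` is the canonical polar factor of `T`. -/
def IsPolar (T V : H →L[ℂ] H) : Prop :=
  V * star V * V = V ∧ (∀ x, V x = 0 ↔ T x = 0) ∧ T = V * CFC.abs T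

/-- The canonical polar factor of `T`. -/
noncomputable def pol (T : H →L[ℂ] H) : H →L[ℂ] H :=
  Classical.choose (Pool.Agent.V1195.PolarEx.exists_polar T)

lemma pol_spec (T : H →L[ℂ] H) : IsPolar T (pol T) :=
  Classical.choose_spec (Pool.Agent.V1195.PolarEx.exists_polar T)

/-- The `mu`-Aluthge transform `|T|^mu V |T|^(1-mu)`. -/
noncomputable def alu (mu : ℝ) (T : H →L[ℂ] H) : H →L[ℂ] H :=
  (CFC.abs T) ^ mu * pol T * (CFC.abs T) ^ (1 - mu)

/-- The transform `M_lam(T)`. -/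
noncomputable def Mlam (lam : ℝ) (T : H →L[ℂ] H) : H →L[ℂ] H :=
  (1 / 2 : ℂ) • (alu lam T + alu (1 - lam) T)

/-- The mean transform `(V|T| + |T|V)/2`. -/
noncomputable def meanT (T : H →L[ℂ] H) : H →L[ℂ] H :=
  (1 / 2 : ℂ) • (pol T * CFC.abs T + CFC.abs T * pol T)

/-- The Aluthge transform `|T|^(1/2) V |T|^(1/2)`. -/
noncomputable def aluH (T : H →L[ℂ] H) : H →L[ℂ] H :=
  CFC.sqrt (CFC.abs T) * pol T * CFC.sqrt (CFC.abs T)

/-- The mean-Aluthge transform. -/
noncomputable def meanAlu (T : H →L[ℂ] H) : H →L[ℂ] H := meanT (aluH T)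

/-- The third order coefficient, with constants `k b1 b2`. -/
noncomputable def c3 (k b1 b2 : ℂ) (Y : H →L[ℂ] H) : H →L[ℂ] H :=
  k • cm (star Y * star Y) Y + b1 • cm Y (cm (star Y) Y) + b2 • cm (star Y) (cm (star Y) Y)

/-- The properties of the transforms that the argument uses. -/
structure Good (L : (H →L[ℂ] H) → (H →L[ℂ] H)) : Prop where
  /-- the fixed points are the quasi-normal operators -/
  fix : ∀ T, L T = T ↔ T * (star T * T) = (star T * T) * T
  /-- third order Taylor expansion at (multiples of) the identity -/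
  exp : ∃ a k b1 b2 : ℂ, a ≠ 0 ∧ k ≠ 0 ∧ ∀ (c : ℂ), c ≠ 0 → ∀ Y : H →L[ℂ] H,
    (fun e : ℝ => L (c • (1 + (e : ℂ) • Y)) - c • (1 + (e : ℂ) • Y + ((e : ℂ) ^ 2) • (a • cm (star Y) Y) +
      ((e : ℂ) ^ 3) • c3 k b1 b2 Y)) =O[𝓝[>] (0 : ℝ)] (fun e => e ^ 4)
  /-- block property -/
  blk : ∀ P X : H →L[ℂ] H, star P = P → P * P = P → P * X = X → X * P = X →
    ∀ᶠ e : ℝ in 𝓝[>] (0 : ℝ), L (1 + (e : ℂ) • X) * (1 - P) = 1 - P ∧
      (1 - P) * L (1 + (e : ℂ) • X) = 1 - P
  /-- additivity over orthogonal blocks, one of them self-adjoint -/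
  add : ∀ X N : H →L[ℂ] H, star X = X → X * N = 0 → N * X = 0 →
    ∀ᶠ e : ℝ in 𝓝[>] (0 : ℝ), L (1 + (e : ℂ) • (X + N)) = L (1 + (e : ℂ) • N) + (e : ℂ) • X

end Pool.Agent.V1195.LinBij
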