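/-
The mean-type Aluthge transforms commute with unitary conjugation and with scalars
(written by helper188 for helper95).
-/
import Mathlib
import Pool.Agent.V1195.LinBijDefs

set_option autoImplicit false

namespace Pool.Agent.V1195.Conv

open Pool.Agent.V1195.LinBij

variable {H : Type*} [NormedAddCommGroup H] [InnerProductSpace ℂ H] [CompleteSpace H]

/-- The polar factor is unique. -/
theorem polar_unique {S V W : H →L[ℂ] H} (hV : IsPolar S V) (hW : IsPolar S W) : V = W := by
  have h1 : (V - W) * CFC.abs S = 0 := by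
    rw [sub_mul, ← hV.2.2, ← hW.2.2, sub_self]
  have hsa : star (CFC.abs S) = CFC.abs S := (CFC.abs_nonneg S).isSelfAdjoint.star_eq
  have h2 : CFC.abs S * star (V - W) = 0 := by
    have := congrArg star h1
    rwa [star_mul, hsa, star_zero] at this
  have h3 : (V - W) * star (V - W) = 0 := by
    ext x
    have h4 : CFC.abs S (star (V - W) x) = 0 := by
      have := congrArg (fun A : H →L[ℂ] H => A x) h2
      simpa using this
    have h5 : S (star (V - W) x) = 0 := by
      have := congrArg (fun A : H →L[ℂ] H => A (star (V - W) x)) hV.2.2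
      simp only [ContinuousLinearMap.mul_apply] at this
      rw [this, h4, map_zero]
    have h6 := (hV.2.1 _).2 h5
    have h7 := (hW.2.1 _).2 h5
    show (V - W) (star (V - W) x) = 0
    rw [ContinuousLinearMap.sub_apply, h6, h7, sub_self]
  have h4 : star (V - W) = 0 := by
    rw [← CStarRing.star_mul_self_eq_zero_iff, star_star]
    exact h3
  have h5 : V - W = 0 := by
    rw [← star_star (V - W), h4, star_zero]
  exact sub_eq_zero.1 h5

section conj

variable {U : H →L[ℂ] H} (h1 : star U * U = 1) (h2 : U * star U = 1)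

include h1

theorem conj_mul (A B : H →L[ℂ] H) : (U * A * star U) * (U * B * star U) = U * (A * B) * star U := by
  calc (U * A * star U) * (U * B * star U) = U * A * (star U * U) * B * star U := by
        simp only [mul_assoc]
    _ = U * (A * B) * star U := by rw [h1, mul_one]; simp only [mul_assoc]

omit h1 in
theorem star_conj (A : H →L[ℂ] H) : star (U * A * star U) = U * star A * star U := by
  rw [star_mul, star_mul, star_star, mul_assoc]

theorem abs_conj (T : H →L[ℂ] H) : CFC.abs (U * T * star U) = U * CFC.abs T * star U := by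
  unfold CFC.abs
  refine CFC.sqrt_unique ?_ ?_
  · rw [conj_mul h1, star_conj, conj_mul h1, CFC.sqrt_mul_sqrt_self _ (star_mul_self_nonneg T)]
  · exact star_right_conjugate_nonneg (CFC.sqrt_nonneg _) U

include h2

/-- Conjugation by `U` and the continuous functional calculus. -/
theorem cfc_conj (f : ℝ → ℝ) {A : H →L[ℂ] H} (hA : IsSelfAdjoint A)
    (hf : ContinuousOn f (spectrum ℝ A)) :
    cfc f (U * A * star U) = U * cfc f A * star U := by
  let u : unitary (H →L[ℂ] H) := ⟨U, Unitary.mem_iff.2 ⟨h1, h2⟩⟩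
  have h3 : Continuous (Unitary.conjStarAlgAut ℂ (H →L[ℂ] H) u) := by
    have : (Unitary.conjStarAlgAut ℂ (H →L[ℂ] H) u : (H →L[ℂ] H) → (H →L[ℂ] H)) =
        fun x => U * x * star U := rfl
    rw [this]
    fun_prop
  have h4 : IsSelfAdjoint (Unitary.conjStarAlgAut ℂ (H →L[ℂ] H) u A) := by
    rw [Unitary.conjStarAlgAut_apply]
    exact hA.conjugate U
  have h5 := StarAlgHomClass.map_cfc (S := ℂ) (Unitary.conjStarAlgAut ℂ (H →L[ℂ] H) u) f A hf h3 hA h4
  exact h5.symm

theorem rpow_conj (mu r : ℝ) (hmu : 0 ≤ mu) (hr : 0 ≤ r) {A : H →L[ℂ] H} (hA : 0 ≤ A) :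
    (r • (U * A * star U)) ^ mu = r ^ mu • (U * A ^ mu * star U) := by
  have hcont : Continuous (fun t : ℝ => t ^ mu) := Real.continuous_rpow_const hmu
  have hA' : 0 ≤ U * A * star U := star_right_conjugate_nonneg hA U
  have hrA : 0 ≤ r • (U * A * star U) := smul_nonneg hr hA'
  rw [CFC.rpow_eq_cfc_real hrA, CFC.rpow_eq_cfc_real hA,
    ← cfc_conj h1 h2 (fun t : ℝ => t ^ mu) hA.isSelfAdjoint hcont.continuousOn,
    ← cfc_comp_const_mul r (fun t : ℝ => t ^ mu) (U * A * star U) hcont.continuousOn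
      hA'.isSelfAdjoint,
    ← cfc_const_mul (r ^ mu) (fun t : ℝ => t ^ mu) (U * A * star U) hcont.continuousOn]
  refine cfc_congr fun x hx => ?_
  exact Real.mul_rpow hr (spectrum_nonneg_of_nonneg hA' hx)

theorem pol_conj {c : ℂ} (hc : c ≠ 0) (T : H →L[ℂ] H) :
    IsPolar (c • (U * T * star U)) ((c / (‖c‖ : ℂ)) • (U * pol T * star U)) := by
  have hc' : (‖c‖ : ℂ) ≠ 0 := by
    exact_mod_cast norm_ne_zero_iff.2 hc
  have hd : c / (‖c‖ : ℂ) ≠ 0 := div_ne_zero hc hc'
  have hstar : c / (‖c‖ : ℂ) * star (c / (‖c‖ : ℂ)) = 1 := by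
    rw [Complex.star_def, Complex.mul_conj, Complex.normSq_eq_norm_sq, norm_div, Complex.norm_real,
      norm_norm, div_self (norm_ne_zero_iff.2 hc)]
    norm_num
  obtain ⟨p1, p2, p3⟩ := pol_spec T
  have inj : ∀ x : H, U x = 0 ↔ x = 0 := by
    intro x
    constructor
    · intro h
      have := congrArg (fun A : H →L[ℂ] H => A x) h1
      simp only [ContinuousLinearMap.mul_apply, ContinuousLinearMap.one_apply] at this
      rw [h, map_zero] at this
      exact this.symm
    · rintro rfl; exact map_zero _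
  refine ⟨?_, ?_, ?_⟩
  · rw [star_smul, star_conj, smul_mul_smul_comm, hstar, one_smul, conj_mul h1,
      mul_smul_comm, conj_mul h1, p1]
  · intro x
    simp only [ContinuousLinearMap.smul_apply, ContinuousLinearMap.mul_apply, smul_eq_zero, hd, hc,
      false_or, inj, p2]
  · rw [CFC.abs_smul, abs_conj h1, smul_mul_assoc, mul_smul_comm, conj_mul h1, ← p3]
    rw [← Complex.coe_smul, smul_smul, div_mul_cancel₀ _ hc']

theorem alu_conj (mu : ℝ) (h0 : 0 ≤ mu) (h0' : mu ≤ 1) (c : ℂ) (T : H →L[ℂ] H) :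
    alu mu (c • (U * T * star U)) = c • (U * alu mu T * star U) := by
  by_cases hc : c = 0
  · subst hc
    have hp : pol (0 : H →L[ℂ] H) = 0 := by
      ext x
      have := ((pol_spec (0 : H →L[ℂ] H)).2.1 x).2 rfl
      simpa using this
    rw [zero_smul, zero_smul]
    unfold alu
    rw [hp, mul_zero, zero_mul]
  have hn : 0 < ‖c‖ := norm_pos_iff.2 hc
  have hc' : (‖c‖ : ℂ) ≠ 0 := by exact_mod_cast hn.ne'
  have hp := polar_unique (pol_spec (c • (U * T * star U))) (pol_conj h1 h2 hc T)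
  unfold alu
  rw [hp, CFC.abs_smul, abs_conj h1, rpow_conj h1 h2 mu ‖c‖ h0 hn.le (CFC.abs_nonneg T),
    rpow_conj h1 h2 (1 - mu) ‖c‖ (by linarith) hn.le (CFC.abs_nonneg T)]
  simp only [smul_mul_assoc, mul_smul_comm]
  rw [conj_mul h1, conj_mul h1]
  have hs : ‖c‖ ^ (1 - mu) * ‖c‖ ^ mu = ‖c‖ := by
    rw [← Real.rpow_add hn, sub_add_cancel, Real.rpow_one]
  have hs' : ((‖c‖ ^ (1 - mu) : ℝ) : ℂ) * ((‖c‖ ^ mu : ℝ) : ℂ) = (‖c‖ : ℂ) := by
    rw [← Complex.ofReal_mul, hs]
  simp only [← Complex.coe_smul, smul_smul]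
  congr 1
  calc ((‖c‖ ^ (1 - mu) : ℝ) : ℂ) * ((c / ‖c‖) * ((‖c‖ ^ mu : ℝ) : ℂ))
      = (c / ‖c‖) * (((‖c‖ ^ (1 - mu) : ℝ) : ℂ) * ((‖c‖ ^ mu : ℝ) : ℂ)) := by ring
    _ = c := by rw [hs', div_mul_cancel₀ _ hc']

/-- `M_lam` commutes with unitary conjugation and scalars. -/
theorem Mlam_conj (lam : ℝ) (h0 : 0 ≤ lam) (h0' : lam ≤ 1) (c : ℂ) (T : H →L[ℂ] H) :
    Mlam lam (c • (U * T * star U)) = c • (U * Mlam lam T * star U) := by
  unfold Mlam
  rw [alu_conj h1 h2 lam h0 h0', alu_conj h1 h2 (1 - lam) (by linarith) (by linarith)]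
  simp only [mul_add, add_mul, smul_mul_assoc, mul_smul_comm, smul_add]
  rw [smul_comm c, smul_comm c]

omit h1 h2 in
theorem aluH_eq (S : H →L[ℂ] H) : aluH S = alu (1 / 2) S := by
  unfold aluH alu
  rw [CFC.sqrt_eq_rpow, show (1 - 1 / 2 : ℝ) = 1 / 2 by norm_num]

omit h1 h2 in
theorem meanT_eq (S : H →L[ℂ] H) : meanT S = (1 / 2 : ℂ) • (S + alu 1 S) := by
  unfold meanT alu
  rw [sub_self, CFC.rpow_zero _ (CFC.abs_nonneg S), CFC.rpow_one _ (CFC.abs_nonneg S), mul_one,
    ← (pol_spec S).2.2]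

theorem meanT_conj (c : ℂ) (T : H →L[ℂ] H) :
    meanT (c • (U * T * star U)) = c • (U * meanT T * star U) := by
  rw [meanT_eq, meanT_eq, alu_conj h1 h2 1 (by norm_num) le_rfl]
  simp only [mul_add, add_mul, smul_mul_assoc, mul_smul_comm, smul_add]
  rw [smul_comm c, smul_comm c]

/-- The mean-Aluthge transform commutes with unitary conjugation and scalars. -/
theorem meanAlu_conj (c : ℂ) (T : H →L[ℂ] H) :
    meanAlu (c • (U * T * star U)) = c • (U * meanAlu T * star U) := by
  unfold meanAlu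
  rw [aluH_eq, aluH_eq, alu_conj h1 h2 (1 / 2) (by norm_num) (by norm_num), meanT_conj h1 h2]

end conj

end Pool.Agent.V1195.Conv
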