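import Mathlib

set_option autoImplicit false

namespace Pool.Agent.V1195.CfcBlock

open Polynomial

variable {R : Type*} [CStarAlgebra R]

theorem pow_mul_eq {A B q : R} (h1 : A * q = B * q) (h2 : A * q = q * A) (n : ℕ) :
    A ^ n * q = B ^ n * q := by
  induction n with
  | zero => simp
  | succ n ih =>
    calc A ^ (n + 1) * q = A ^ n * (A * q) := by rw [pow_succ, mul_assoc]
      _ = (A ^ n * q) * A := by rw [h2, mul_assoc]
      _ = B ^ n * (q * A) := by rw [ih, mul_assoc]
      _ = B ^ n * (B * q) := by rw [← h2, h1]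
      _ = B ^ (n + 1) * q := by rw [pow_succ, mul_assoc]

theorem aeval_mul_eq {A B q : R} (h1 : A * q = B * q) (h2 : A * q = q * A) (p : ℝ[X]) :
    aeval A p * q = aeval B p * q := by
  induction p using Polynomial.induction_on' with
  | add p r hp hr => rw [map_add, map_add, add_mul, add_mul, hp, hr]
  | monomial n a =>
    rw [aeval_monomial, aeval_monomial, mul_assoc, mul_assoc, pow_mul_eq h1 h2]

/-- If two selfadjoint elements agree on `q` and `q` commutes with the first, so do their continuous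
functions. -/
theorem cfc_mul_eq {A B q : R} (hA : IsSelfAdjoint A) (hB : IsSelfAdjoint B)
    (h1 : A * q = B * q) (h2 : A * q = q * A) {a b : ℝ}
    (hsA : spectrum ℝ A ⊆ Set.Icc a b) (hsB : spectrum ℝ B ⊆ Set.Icc a b) {f : ℝ → ℝ}
    (hf : ContinuousOn f (Set.Icc a b)) : cfc f A * q = cfc f B * q := by
  have hfA : ContinuousOn f (spectrum ℝ A) := hf.mono hsA
  have hfB : ContinuousOn f (spectrum ℝ B) := hf.mono hsB
  rw [← sub_eq_zero, ← norm_eq_zero]
  refine le_antisymm (le_of_forall_pos_le_add fun δ hδ => ?_) (norm_nonneg _)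
  set ε := δ / (2 * ‖q‖ + 1) with hε
  have hε0 : 0 < ε := by positivity
  obtain ⟨p, hp⟩ := exists_polynomial_near_of_continuousOn a b f hf ε hε0
  have e1 : ‖cfc f A - aeval A p‖ ≤ ε := by
    rw [← cfc_polynomial p A hA, ← cfc_sub f (fun x => p.eval x) A hfA (by fun_prop)]
    refine norm_cfc_le hε0.le fun x hx => ?_
    rw [Real.norm_eq_abs, abs_sub_comm]
    exact (hp x (hsA hx)).le
  have e2 : ‖cfc f B - aeval B p‖ ≤ ε := by
    rw [← cfc_polynomial p B hB, ← cfc_sub f (fun x => p.eval x) B hfB (by fun_prop)]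
    refine norm_cfc_le hε0.le fun x hx => ?_
    rw [Real.norm_eq_abs, abs_sub_comm]
    exact (hp x (hsB hx)).le
  have e3 : cfc f A * q - cfc f B * q =
      (cfc f A - aeval A p) * q - (cfc f B - aeval B p) * q := by
    rw [sub_mul, sub_mul, aeval_mul_eq h1 h2]
    abel
  rw [e3, zero_add]
  calc ‖(cfc f A - aeval A p) * q - (cfc f B - aeval B p) * q‖
      ≤ ‖(cfc f A - aeval A p) * q‖ + ‖(cfc f B - aeval B p) * q‖ := norm_sub_le _ _
    _ ≤ ‖cfc f A - aeval A p‖ * ‖q‖ + ‖cfc f B - aeval B p‖ * ‖q‖ :=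
        add_le_add (norm_mul_le _ _) (norm_mul_le _ _)
    _ ≤ ε * ‖q‖ + ε * ‖q‖ := by
        gcongr
    _ = δ * (2 * ‖q‖ / (2 * ‖q‖ + 1)) := by rw [hε]; ring
    _ ≤ δ * 1 := by
        refine mul_le_mul_of_nonneg_left ?_ hδ.le
        rw [div_le_one (by positivity)]
        linarith
    _ = δ := mul_one δ

/-- The spectra of two selfadjoint elements lie in a common interval. -/
theorem exists_Icc (A B : R) :
    ∃ c : ℝ, 0 ≤ c ∧ spectrum ℝ A ⊆ Set.Icc (-c) c ∧ spectrum ℝ B ⊆ Set.Icc (-c) c := by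
  refine ⟨max (‖A‖ * ‖(1 : R)‖) (‖B‖ * ‖(1 : R)‖), le_max_of_le_left (by positivity), ?_, ?_⟩
  · intro x hx
    have h := spectrum.norm_le_norm_mul_of_mem hx
    rw [Real.norm_eq_abs, abs_le] at h
    exact ⟨by linarith [le_max_left (‖A‖ * ‖(1 : R)‖) (‖B‖ * ‖(1 : R)‖), h.1],
      h.2.trans (le_max_left _ _)⟩
  · intro x hx
    have h := spectrum.norm_le_norm_mul_of_mem hx
    rw [Real.norm_eq_abs, abs_le] at h
    exact ⟨by linarith [le_max_right (‖A‖ * ‖(1 : R)‖) (‖B‖ * ‖(1 : R)‖), h.1],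
      h.2.trans (le_max_right _ _)⟩

/-- Version for functions continuous on the whole real line. -/
theorem cfc_mul_eq' {A B q : R} (hA : IsSelfAdjoint A) (hB : IsSelfAdjoint B)
    (h1 : A * q = B * q) (h2 : A * q = q * A) {f : ℝ → ℝ} (hf : Continuous f) :
    cfc f A * q = cfc f B * q := by
  obtain ⟨c, -, hcA, hcB⟩ := exists_Icc A B
  exact cfc_mul_eq hA hB h1 h2 hcA hcB hf.continuousOn

end Pool.Agent.V1195.CfcBlock
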