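/-
Third order expansion of a solution `D` of `D * G = G * T`, with `G = (T* T)^p`, when
`T = 1 + e Y + e^2 T2 + e^3 T3 + O(e^4)` (written by helper188 for helper95).
-/
import Mathlib

namespace Pool.Agent.V1195.AluExp

open Asymptotics Filter Topology

/-! ### scalar estimate -/

/-- Taylor expansion of order two of `(1 + x) ^ p` at `0`. -/
theorem rpow_taylor (p : ℝ) :
    ∃ K δ : ℝ, 0 ≤ K ∧ 0 < δ ∧ δ ≤ 1 / 2 ∧ ∀ x : ℝ, |x| ≤ δ →
      |(1 + x) ^ p - (1 + p * x + (p * (p - 1) / 2) * x ^ 2)| ≤ K * |x| ^ 3 := by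
  have h := (Real.one_add_rpow_hasFPowerSeriesAt_zero (a := p)).isBigO_sub_partialSum_pow 3
  obtain ⟨K, hK⟩ := h.bound
  rw [Metric.eventually_nhds_iff] at hK
  obtain ⟨d, hd, hK⟩ := hK
  refine ⟨max K 0, min (d / 2) (1 / 2), le_max_right _ _, by positivity, min_le_right _ _, ?_⟩
  intro x hx
  have h1 : dist x 0 < d := by
    rw [Real.dist_eq, sub_zero]
    have := min_le_left (d / 2) (1 / 2)
    linarith
  have h2 := hK h1
  have h3 : (binomialSeries ℝ p).partialSum 3 x = 1 + p * x + (p * (p - 1) / 2) * x ^ 2 := by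
    have h2 : (descPochhammer ℤ 2).smeval p = p * (p - 1) := by
      have : descPochhammer ℤ 2 = Polynomial.X * (Polynomial.X - 1) := by
        simp [descPochhammer]
      rw [this, Polynomial.smeval_mul, Polynomial.smeval_sub]
      simp
    simp only [FormalMultilinearSeries.partialSum, Finset.sum_range_succ, Finset.sum_range_zero,
      binomialSeries_apply]
    rw [Ring.choose_eq_smul (n := 2), h2]
    simp [List.ofFn_succ, Nat.factorial]
    ring
  rw [h3] at h2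
  simp only [zero_add, Real.norm_eq_abs] at h2
  refine h2.trans ?_
  rw [abs_pow, abs_abs]
  exact mul_le_mul_of_nonneg_right (le_max_left _ _) (by positivity)

/-! ### big O calculus at `0` from the right -/

section BigO


theorem small : ∀ᶠ e : ℝ in (𝓝[>] (0 : ℝ)), 0 < e ∧ e < 1 := by
  have h1 : ∀ᶠ e : ℝ in (𝓝[>] (0 : ℝ)), 0 < e := eventually_mem_nhdsWithin
  have h2 : ∀ᶠ e : ℝ in (𝓝[>] (0 : ℝ)), e < 1 :=
    (eventually_lt_nhds (show (0 : ℝ) < 1 by norm_num)).filter_mono nhdsWithin_le_nhds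
  filter_upwards [h1, h2] with e h1 h2 using ⟨h1, h2⟩

theorem powO {m n : ℕ} (h : m ≤ n) :
    (fun e : ℝ => e ^ n) =O[(𝓝[>] (0 : ℝ))] (fun e : ℝ => e ^ m) := by
  refine IsBigO.of_bound 1 ?_
  filter_upwards [small] with e he
  rw [norm_pow, norm_pow, one_mul, Real.norm_eq_abs, abs_of_pos he.1]
  exact pow_le_pow_of_le_one he.1.le he.2.le h

variable {R : Type*} [NormedRing R] [NormedAlgebra ℝ R]

theorem smulO (k : ℕ) (Y : R) : (fun e : ℝ => e ^ k • Y) =O[(𝓝[>] (0 : ℝ))] (fun e : ℝ => e ^ k) := by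
  refine IsBigO.of_bound ‖Y‖ (Eventually.of_forall fun e => ?_)
  rw [norm_smul, mul_comm]

theorem smulO' {k m : ℕ} (h : m ≤ k) (Y : R) :
    (fun e : ℝ => e ^ k • Y) =O[(𝓝[>] (0 : ℝ))] (fun e : ℝ => e ^ m) := (smulO k Y).trans (powO h)

theorem constO (Y : R) : (fun _ : ℝ => Y) =O[(𝓝[>] (0 : ℝ))] (fun e : ℝ => e ^ 0) := by
  simpa using smulO 0 Y

theorem mulO {f g : ℝ → R} {a b c : ℕ} (hf : f =O[(𝓝[>] (0 : ℝ))] (fun e : ℝ => e ^ a))
    (hg : g =O[(𝓝[>] (0 : ℝ))] (fun e : ℝ => e ^ b)) (h : c ≤ a + b) :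
    (fun e => f e * g e) =O[(𝓝[>] (0 : ℝ))] (fun e : ℝ => e ^ c) := by
  have := hf.mul hg
  simp only [← pow_add] at this
  exact this.trans (powO h)

/-- If `D G = G T` near `0+`, the expansion of `D` to third order. -/
theorem expand (T D G : ℝ → R) (Y T2 T3 g1 g2 : R)
    (hT : (fun e : ℝ => T e - (1 + e • Y + e ^ 2 • T2 + e ^ 3 • T3)) =O[(𝓝[>] (0 : ℝ))]
      (fun e : ℝ => e ^ 4))
    (hG : (fun e : ℝ => G e - (1 + e • g1 + e ^ 2 • g2)) =O[(𝓝[>] (0 : ℝ))] (fun e : ℝ => e ^ 3))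
    (hD : ∀ᶠ e in (𝓝[>] (0 : ℝ)), D e * G e = G e * T e) :
    (fun e : ℝ => D e - (1 + e • Y + e ^ 2 • (T2 + (g1 * Y - Y * g1)) +
      e ^ 3 • (T3 + ((g2 * Y - Y * g2) + (g1 * T2 - T2 * g1) - (g1 * Y - Y * g1) * g1))))
      =O[(𝓝[>] (0 : ℝ))] (fun e : ℝ => e ^ 4) := by
  -- remainders
  have hr' : (fun e : ℝ => T e - (1 + e • Y + e ^ 2 • T2)) =O[(𝓝[>] (0 : ℝ))] (fun e : ℝ => e ^ 3) := by
    have := (hT.trans (powO (show 3 ≤ 4 by norm_num))).add (smulO 3 T3)
    refine this.congr_left fun e => ?_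
    abel
  have hG1 : (fun e : ℝ => G e - 1 - e • g1) =O[(𝓝[>] (0 : ℝ))] (fun e : ℝ => e ^ 2) := by
    have := (hG.trans (powO (show 2 ≤ 3 by norm_num))).add (smulO 2 g2)
    refine this.congr_left fun e => ?_
    abel
  have hG0 : (fun e : ℝ => G e - 1) =O[(𝓝[>] (0 : ℝ))] (fun e : ℝ => e ^ 1) := by
    have := (hG1.trans (powO (show 1 ≤ 2 by norm_num))).add (smulO 1 g1)
    refine this.congr_left fun e => ?_
    simp only [pow_one]; abel
  have hT0 : (fun e : ℝ => T e - 1) =O[(𝓝[>] (0 : ℝ))] (fun e : ℝ => e ^ 1) := by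
    have := ((hr'.trans (powO (show 1 ≤ 3 by norm_num))).add (smulO 1 Y)).add
      (smulO' (show 1 ≤ 2 by norm_num) T2)
    refine this.congr_left fun e => ?_
    simp only [pow_one]; abel
  -- the commutator
  set c2 : R := g1 * Y - Y * g1 with hc2
  set c3 : R := (g2 * Y - Y * g2) + (g1 * T2 - T2 * g1) with hc3
  set C : ℝ → R := fun e => (G e - 1) * (T e - 1) - (T e - 1) * (G e - 1) with hC
  have hC4 : (fun e : ℝ => C e - (e ^ 2 • c2 + e ^ 3 • c3)) =O[(𝓝[>] (0 : ℝ))] (fun e : ℝ => e ^ 4) := by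
    have hρ := hG
    have ha : (fun e : ℝ => e • g1 + e ^ 2 • g2) =O[(𝓝[>] (0 : ℝ))] (fun e : ℝ => e ^ 1) := by
      have := (smulO 1 g1).add (smulO' (show 1 ≤ 2 by norm_num) g2)
      refine this.congr_left fun e => ?_
      simp only [pow_one]
    have t1 := mulO ha hr' (show 4 ≤ 1 + 3 by norm_num)
    have t2 := mulO hr' ha (show 4 ≤ 3 + 1 by norm_num)
    have t3 := mulO hρ hT0 (show 4 ≤ 3 + 1 by norm_num)
    have t4 := mulO hT0 hρ (show 4 ≤ 1 + 3 by norm_num)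
    have t5 := smulO 4 (g2 * T2 - T2 * g2)
    have := (((t1.sub t2).add t3).sub t4).add t5
    refine this.congr_left fun e => ?_
    simp only [hC, hc2, hc3]
    have e1 : T e - 1 = (T e - (1 + e • Y + e ^ 2 • T2)) + (e • Y + e ^ 2 • T2) := by abel
    have e2 : G e - 1 = (G e - (1 + e • g1 + e ^ 2 • g2)) + (e • g1 + e ^ 2 • g2) := by abel
    generalize hr : T e - (1 + e • Y + e ^ 2 • T2) = r at *
    generalize hs : G e - (1 + e • g1 + e ^ 2 • g2) = s at *
    rw [e1, e2]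
    simp only [mul_add, add_mul, mul_sub, sub_mul, smul_mul_assoc, mul_smul_comm, smul_add,
      smul_sub, smul_smul]
    ring_nf
    abel
  have hC3 : (fun e : ℝ => C e - e ^ 2 • c2) =O[(𝓝[>] (0 : ℝ))] (fun e : ℝ => e ^ 3) := by
    have := (hC4.trans (powO (show 3 ≤ 4 by norm_num))).add (smulO 3 c3)
    refine this.congr_left fun e => ?_
    abel
  have hC2 : C =O[(𝓝[>] (0 : ℝ))] (fun e : ℝ => e ^ 2) := by
    have := (hC3.trans (powO (show 2 ≤ 3 by norm_num))).add (smulO 2 c2)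
    refine this.congr_left fun e => ?_
    abel
  -- the difference X = D - T
  have hX : ∀ᶠ e in (𝓝[>] (0 : ℝ)), (D e - T e) = C e - (D e - T e) * (G e - 1) := by
    filter_upwards [hD] with e he
    simp only [hC]
    have : (D e - T e) * (G e - 1) = G e * T e - T e * G e - (D e - T e) := by
      rw [mul_sub, mul_one, sub_mul, he]
    rw [this]
    noncomm_ring
  have hX2 : (fun e => D e - T e) =O[(𝓝[>] (0 : ℝ))] (fun e : ℝ => e ^ 2) := by
    have hhalf : ∀ᶠ e in (𝓝[>] (0 : ℝ)), ‖G e - 1‖ ≤ 1 / 2 := by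
      have h0 : Tendsto (fun e : ℝ => e ^ 1) (𝓝[>] (0 : ℝ)) (𝓝 0) := by
        have : Tendsto (fun e : ℝ => e ^ 1) (𝓝 0) (𝓝 0) := by
          have := (continuous_pow 1 : Continuous fun e : ℝ => e ^ 1).tendsto 0
          simpa using this
        exact this.mono_left nhdsWithin_le_nhds
      have h1 := (hG0.trans_tendsto h0).norm
      rw [norm_zero] at h1
      exact (h1.eventually_lt_const (show (0 : ℝ) < 1 / 2 by norm_num)).mono fun e he => he.le
    refine IsBigO.trans (IsBigO.of_bound 2 ?_) hC2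
    filter_upwards [hX, hhalf] with e he h2
    have h3 : ‖D e - T e‖ ≤ ‖C e‖ + ‖D e - T e‖ * ‖G e - 1‖ := by
      calc ‖D e - T e‖ = ‖C e - (D e - T e) * (G e - 1)‖ := by rw [← he]
        _ ≤ ‖C e‖ + ‖(D e - T e) * (G e - 1)‖ := norm_sub_le _ _
        _ ≤ ‖C e‖ + ‖D e - T e‖ * ‖G e - 1‖ := by
            gcongr; exact norm_mul_le _ _
    nlinarith [norm_nonneg (D e - T e), norm_nonneg (C e)]
  have hX3 : (fun e => (D e - T e) - e ^ 2 • c2) =O[(𝓝[>] (0 : ℝ))] (fun e : ℝ => e ^ 3) := by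
    have t := hC3.sub (mulO hX2 hG0 (show 3 ≤ 2 + 1 by norm_num))
    refine t.congr' ?_ EventuallyEq.rfl
    filter_upwards [hX] with e he
    calc C e - e ^ 2 • c2 - (D e - T e) * (G e - 1)
        = (C e - (D e - T e) * (G e - 1)) - e ^ 2 • c2 := by abel
      _ = _ := by rw [← he]
  have hX4 : (fun e => (D e - T e) - (e ^ 2 • c2 + e ^ 3 • (c3 - c2 * g1))) =O[(𝓝[>] (0 : ℝ))]
      (fun e : ℝ => e ^ 4) := by
    have t1 := mulO hX3 hG0 (show 4 ≤ 3 + 1 by norm_num)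
    have t2 := mulO (smulO 2 c2) hG1 (show 4 ≤ 2 + 2 by norm_num)
    have t := (hC4.sub t1).sub t2
    refine t.congr' ?_ EventuallyEq.rfl
    filter_upwards [hX] with e he
    have : (D e - T e) - (e ^ 2 • c2 + e ^ 3 • (c3 - c2 * g1)) =
        (C e - (D e - T e) * (G e - 1)) - (e ^ 2 • c2 + e ^ 3 • (c3 - c2 * g1)) := by
      rw [← he]
    rw [this]
    simp only [mul_add, add_mul, mul_sub, sub_mul, smul_mul_assoc, mul_smul_comm, smul_add,
      smul_sub, smul_smul]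
    ring_nf
    abel
  have t := hX4.add hT
  refine t.congr_left fun e => ?_
  simp only [smul_add, smul_sub]
  abel

end BigO

/-! ### the C*-algebra part -/

section CStar


variable {R : Type*} [CStarAlgebra R]

theorem starO {f : ℝ → R} {g : ℝ → ℝ} (hf : f =O[(𝓝[>] (0 : ℝ))] g) : (fun e => star (f e)) =O[(𝓝[>] (0 : ℝ))] g := by
  refine IsBigO.of_norm_left ?_
  simpa only [norm_star] using hf.norm_left

/-- Distance of the spectrum of `A` to `1`. -/
theorem abs_sub_one_le {A : R} {x : ℝ} (hx : x ∈ spectrum ℝ A) : |x - 1| ≤ ‖A - 1‖ := by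
  rcases subsingleton_or_nontrivial R with hR | hR
  · exfalso
    rw [spectrum.mem_iff] at hx
    exact hx (isUnit_of_subsingleton _)
  · have h : x - 1 ∈ spectrum ℝ (A - 1) := by
      rw [spectrum.mem_iff] at hx ⊢
      have : algebraMap ℝ R (x - 1) - (A - 1) = algebraMap ℝ R x - A := by
        rw [map_sub, map_one]; abel
      rwa [this]
    have := spectrum.norm_le_norm_of_mem h
    rwa [Real.norm_eq_abs] at this

/-- Second order expansion of `A ^ p` near `A = 1`, for selfadjoint `A`. -/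
theorem cfc_taylor (p : ℝ) :
    ∃ K δ : ℝ, 0 ≤ K ∧ 0 < δ ∧ ∀ A : R, IsSelfAdjoint A → ‖A - 1‖ ≤ δ →
      ‖cfc (fun t : ℝ => t ^ p) A - (1 + p • (A - 1) +
        (p * (p - 1) / 2) • ((A - 1) * (A - 1)))‖ ≤ K * ‖A - 1‖ ^ 3 := by
  obtain ⟨K, δ, hK, hδ, hδ2, h⟩ := rpow_taylor p
  refine ⟨K, δ, hK, hδ, fun A hA hAδ => ?_⟩
  have hpos : ∀ x ∈ spectrum ℝ A, x ≠ 0 := by
    intro x hx h0
    have := (abs_sub_one_le hx).trans (hAδ.trans hδ2)
    rw [h0] at this
    norm_num at this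
  have hcont : ContinuousOn (fun t : ℝ => t ^ p) (spectrum ℝ A) := fun x hx =>
    (Real.continuousAt_rpow_const x p (Or.inl (hpos x hx))).continuousWithinAt
  have hpoly : cfc (fun t : ℝ => 1 + p * (t - 1) + (p * (p - 1) / 2) * ((t - 1) * (t - 1))) A =
      1 + p • (A - 1) + (p * (p - 1) / 2) • ((A - 1) * (A - 1)) := by
    have h1 : cfc (fun t : ℝ => t - 1) A = A - 1 := by
      rw [cfc_sub (R := ℝ) (fun t => t) (fun _ => 1) A, cfc_id' ℝ A, cfc_const_one ℝ A]
    rw [cfc_add (R := ℝ) A (fun t => 1 + p * (t - 1))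
        (fun t => (p * (p - 1) / 2) * ((t - 1) * (t - 1))),
      cfc_add (R := ℝ) A (fun _ => 1) (fun t => p * (t - 1)),
      cfc_const_mul (R := ℝ) p (fun t => t - 1) A,
      cfc_const_mul (R := ℝ) (p * (p - 1) / 2) (fun t => (t - 1) * (t - 1)) A,
      cfc_mul (R := ℝ) (fun t => t - 1) (fun t => t - 1) A, h1, cfc_const_one ℝ A]
  rw [← hpoly, ← cfc_sub (R := ℝ) (fun t => t ^ p)
    (fun t => 1 + p * (t - 1) + (p * (p - 1) / 2) * ((t - 1) * (t - 1))) A]
  refine norm_cfc_le (by positivity) fun x hx => ?_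
  have hx1 := abs_sub_one_le hx
  have h2 := h (x - 1) (hx1.trans hAδ)
  rw [Real.norm_eq_abs]
  have e1 : x ^ p - (1 + p * (x - 1) + (p * (p - 1) / 2) * ((x - 1) * (x - 1))) =
      (1 + (x - 1)) ^ p - (1 + p * (x - 1) + (p * (p - 1) / 2) * (x - 1) ^ 2) := by
    rw [show (1 : ℝ) + (x - 1) = x by ring]; ring
  rw [e1]
  refine h2.trans ?_
  gcongr

/-- The expansion of a solution `D` of `D G = G T`, `G = (T* T)^p`. -/
theorem aluthge_expansion (p : ℝ) (T D : ℝ → R) (Y T2 T3 : R)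
    (hT : (fun e : ℝ => T e - (1 + e • Y + e ^ 2 • T2 + e ^ 3 • T3)) =O[(𝓝[>] (0 : ℝ))]
      (fun e : ℝ => e ^ 4))
    (hD : ∀ᶠ e in (𝓝[>] (0 : ℝ)), D e * cfc (fun t : ℝ => t ^ p) (star (T e) * T e) =
      cfc (fun t : ℝ => t ^ p) (star (T e) * T e) * T e)
    (g1 g2 Q : R) (hg1 : g1 = p • (Y + star Y))
    (hg2 : g2 = p • (star Y * Y + T2 + star T2) +
      (p * (p - 1) / 2) • ((Y + star Y) * (Y + star Y)))
    (hQ : Q = (g2 * Y - Y * g2) + (g1 * T2 - T2 * g1) - (g1 * Y - Y * g1) * g1) :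
    (fun e : ℝ => D e - (1 + e • Y + e ^ 2 • (T2 + p • (star Y * Y - Y * star Y)) +
      e ^ 3 • (T3 + Q))) =O[(𝓝[>] (0 : ℝ))] (fun e : ℝ => e ^ 4) := by
  set G : ℝ → R := fun e => cfc (fun t : ℝ => t ^ p) (star (T e) * T e) with hGdef
  have hc2 : p • (star Y * Y - Y * star Y) = g1 * Y - Y * g1 := by
    rw [hg1]
    simp only [smul_mul_assoc, mul_smul_comm, ← smul_sub]
    congr 1
    noncomm_ring
  rw [hc2, hQ]
  refine expand T D G Y T2 T3 g1 g2 hT ?_ hD
  -- expansion of G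
  set h1 : R := Y + star Y with hh1
  set h2 : R := star Y * Y + T2 + star T2 with hh2
  set S : ℝ → R := fun e => 1 + e • Y + e ^ 2 • T2 with hS
  have hr' : (fun e : ℝ => T e - S e) =O[(𝓝[>] (0 : ℝ))] (fun e : ℝ => e ^ 3) := by
    have := (hT.trans (powO (show 3 ≤ 4 by norm_num))).add (smulO 3 T3)
    refine this.congr_left fun e => ?_
    simp only [hS]; abel
  have hrs : (fun e : ℝ => star (T e - S e)) =O[(𝓝[>] (0 : ℝ))] (fun e : ℝ => e ^ 3) := starO hr'
  have hS0 : S =O[(𝓝[>] (0 : ℝ))] (fun e : ℝ => e ^ 0) := by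
    have := ((constO (1 : R)).add (smulO' (show 0 ≤ 1 by norm_num) Y)).add
      (smulO' (show 0 ≤ 2 by norm_num) T2)
    refine this.congr_left fun e => ?_
    simp only [hS, pow_one]
  have hSs0 : (fun e => star (S e)) =O[(𝓝[>] (0 : ℝ))] (fun e : ℝ => e ^ 0) := starO hS0
  have hT0 : T =O[(𝓝[>] (0 : ℝ))] (fun e : ℝ => e ^ 0) := by
    have := (hr'.trans (powO (show 0 ≤ 3 by norm_num))).add hS0
    refine this.congr_left fun e => ?_
    abel
  set E : ℝ → R := fun e => star (T e) * T e - 1 with hE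
  have hE3 : (fun e => E e - (e • h1 + e ^ 2 • h2)) =O[(𝓝[>] (0 : ℝ))] (fun e : ℝ => e ^ 3) := by
    have t1 := mulO hrs hT0 (show 3 ≤ 3 + 0 by norm_num)
    have t2 := mulO hSs0 hr' (show 3 ≤ 0 + 3 by norm_num)
    have t3 := smulO 3 (star Y * T2 + star T2 * Y)
    have t4 := smulO' (show 3 ≤ 4 by norm_num) (star T2 * T2)
    have t := ((t1.add t2).add t3).add t4
    refine t.congr_left fun e => ?_
    have e1 : star (T e - S e) * T e + star (S e) * (T e - S e) =
        star (T e) * T e - star (S e) * S e := by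
      rw [star_sub]; noncomm_ring
    rw [e1]
    simp only [hE, hS, hh1, hh2, star_add, star_smul, star_one, star_trivial]
    simp only [mul_add, add_mul, smul_mul_assoc, mul_smul_comm, smul_add, smul_smul, one_mul,
      mul_one]
    ring_nf
    abel
  have hE2 : (fun e => E e - e • h1) =O[(𝓝[>] (0 : ℝ))] (fun e : ℝ => e ^ 2) := by
    have t := (hE3.trans (powO (show 2 ≤ 3 by norm_num))).add (smulO 2 h2)
    refine t.congr_left fun e => ?_
    abel
  have hE1 : E =O[(𝓝[>] (0 : ℝ))] (fun e : ℝ => e ^ 1) := by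
    have t := (hE2.trans (powO (show 1 ≤ 2 by norm_num))).add (smulO 1 h1)
    refine t.congr_left fun e => ?_
    simp only [pow_one]; abel
  obtain ⟨K, δ, hK, hδ, hKδ⟩ := cfc_taylor (R := R) p
  have hsm : ∀ᶠ e in (𝓝[>] (0 : ℝ)), ‖E e‖ ≤ δ := by
    have h0 : Tendsto (fun e : ℝ => e ^ 1) (𝓝[>] (0 : ℝ)) (𝓝 0) := by
      have : Tendsto (fun e : ℝ => e ^ 1) (𝓝 0) (𝓝 0) := by
        have := (continuous_pow 1 : Continuous fun e : ℝ => e ^ 1).tendsto 0
        simpa using this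
      exact this.mono_left nhdsWithin_le_nhds
    have h1 := (hE1.trans_tendsto h0).norm
    rw [norm_zero] at h1
    exact (h1.eventually_lt_const hδ).mono fun e he => he.le
  have hGE : (fun e => G e - (1 + p • E e + (p * (p - 1) / 2) • (E e * E e))) =O[(𝓝[>] (0 : ℝ))]
      (fun e : ℝ => e ^ 3) := by
    have hE13 := hE1.norm_left.pow 3
    have : (fun e : ℝ => (e ^ 1) ^ 3) = fun e : ℝ => e ^ 3 := by
      funext e; ring
    rw [this] at hE13
    refine IsBigO.trans (IsBigO.of_bound K ?_) hE13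
    filter_upwards [hsm] with e he
    have := hKδ (star (T e) * T e) (IsSelfAdjoint.star_mul_self _) he
    rw [norm_pow, norm_norm]
    exact this
  have hfin : (fun e => (p • E e + (p * (p - 1) / 2) • (E e * E e)) - (e • g1 + e ^ 2 • g2))
      =O[(𝓝[>] (0 : ℝ))] (fun e : ℝ => e ^ 3) := by
    have t1 := mulO hE2 hE1 (show 3 ≤ 2 + 1 by norm_num)
    have t2 := mulO (smulO 1 h1) hE2 (show 3 ≤ 1 + 2 by norm_num)
    have t := (hE3.const_smul_left p).add ((t1.add t2).const_smul_left (p * (p - 1) / 2))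
    refine t.congr_left fun e => ?_
    rw [hg1, hg2]
    simp only [mul_sub, sub_mul, smul_mul_assoc, mul_smul_comm, smul_add,
      smul_sub, smul_smul, Pi.smul_apply]
    ring_nf
    abel
  have t := hGE.add hfin
  refine t.congr_left fun e => ?_
  abel

end CStar

end Pool.Agent.V1195.AluExp
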