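/-
The third order expansion of the mean-type Aluthge transforms at multiples of the identity
(written by helper188 for helper95).
-/
import Mathlib
import Pool.Agent.V1195.AluExp
import Pool.Agent.V1195.LinBijDefs

set_option autoImplicit false

namespace Pool.Agent.V1195.GoodExp

open Asymptotics Filter Topology
open Pool.Agent.V1195.LinBij Pool.Agent.V1195.AluExp


variable {H : Type*} [NormedAddCommGroup H] [InnerProductSpace ℂ H] [CompleteSpace H]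

theorem isUnit_star_mul {T : H →L[ℂ] H} (hT : IsUnit T) : IsUnit (star T * T) :=
  (IsUnit.star hT).mul hT

theorem sp_star_mul {T : H →L[ℂ] H} (hT : IsUnit T) : IsStrictlyPositive (star T * T) :=
  IsStrictlyPositive.iff_of_unital.2 ⟨star_mul_self_nonneg T, isUnit_star_mul hT⟩

theorem isUnit_abs {T : H →L[ℂ] H} (hT : IsUnit T) : IsUnit (CFC.abs T) := by
  have h : IsUnit ((CFC.abs T) ^ 2) := by
    rw [CFC.abs_sq]; exact isUnit_star_mul hT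
  exact (isUnit_pow_iff (two_ne_zero)).1 h

theorem alu_mul (mu : ℝ) {S : H →L[ℂ] H} (hS : IsUnit S) :
    alu mu S * (CFC.abs S) ^ mu = (CFC.abs S) ^ mu * S := by
  have h1 : (CFC.abs S) ^ (1 - mu) * (CFC.abs S) ^ mu = CFC.abs S := by
    rw [← CFC.rpow_add (isUnit_abs hS), sub_add_cancel, CFC.rpow_one _ (CFC.abs_nonneg S)]
  have h2 : pol S * CFC.abs S = S := (pol_spec S).2.2.symm
  unfold alu
  rw [mul_assoc, mul_assoc, h1, h2]

theorem abs_rpow (mu : ℝ) {S : H →L[ℂ] H} (hS : IsUnit S) :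
    (CFC.abs S) ^ mu = cfc (fun t : ℝ => t ^ (mu / 2)) (star S * S) := by
  have h1 : CFC.abs S = (star S * S) ^ (1 / 2 : ℝ) := by
    rw [CFC.abs, CFC.sqrt_eq_rpow]
  rw [h1, CFC.rpow_rpow _ _ _ (by norm_num) (sp_star_mul hS),
    show (1 / 2 : ℝ) * mu = mu / 2 by ring,
    CFC.rpow_eq_cfc_real (star_mul_self_nonneg S)]

theorem spec_pos {T : H →L[ℂ] H} (hT : IsUnit T) {x : ℝ} (hx : x ∈ spectrum ℝ (star T * T)) :
    0 < x := by
  have h1 : 0 ≤ x := spectrum_nonneg_of_nonneg (star_mul_self_nonneg T) hx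
  have h2 : x ≠ 0 := by
    rintro rfl
    exact spectrum.zero_notMem ℝ (isUnit_star_mul hT) hx
  exact lt_of_le_of_ne h1 h2.symm

theorem cfc_scale (q r : ℝ) (hr : 0 < r) {T : H →L[ℂ] H} (hT : IsUnit T) :
    cfc (fun t : ℝ => t ^ q) (r • (star T * T)) = r ^ q • cfc (fun t : ℝ => t ^ q) (star T * T) := by
  have hsa : IsSelfAdjoint (star T * T) := IsSelfAdjoint.star_mul_self T
  have hc : ContinuousOn (fun t : ℝ => t ^ q) (spectrum ℝ (star T * T)) := fun x hx =>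
    (Real.continuousAt_rpow_const x q (Or.inl (spec_pos hT hx).ne')).continuousWithinAt
  rw [← cfc_comp_const_mul r (fun t : ℝ => t ^ q) (star T * T) (by
      rintro _ ⟨x, hx, rfl⟩
      exact (Real.continuousAt_rpow_const _ q
        (Or.inl (mul_pos hr (spec_pos hT hx)).ne')).continuousWithinAt) hsa,
    ← cfc_const_mul (r ^ q) (fun t : ℝ => t ^ q) (star T * T) hc]
  refine cfc_congr fun x hx => ?_
  exact Real.mul_rpow hr.le (spec_pos hT hx).le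

theorem unit_smul {T : H →L[ℂ] H} (hT : IsUnit T) {c : ℂ} (hc : c ≠ 0) : IsUnit (c • T) := by
  have h : c • T = (algebraMap ℂ (H →L[ℂ] H) c) * T := by
    rw [Algebra.algebraMap_eq_smul_one, smul_mul_assoc, one_mul]
  rw [h]
  exact (IsUnit.map (algebraMap ℂ (H →L[ℂ] H)) (isUnit_iff_ne_zero.2 hc)).mul hT

/-- The defining equation of the transform of `c • T`. -/
theorem alu_eq (mu : ℝ) {c : ℂ} (hc : c ≠ 0) {T : H →L[ℂ] H} (hT : IsUnit T) :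
    (c⁻¹ • alu mu (c • T)) * cfc (fun t : ℝ => t ^ (mu / 2)) (star T * T) =
      cfc (fun t : ℝ => t ^ (mu / 2)) (star T * T) * T := by
  have hS := unit_smul hT hc
  have h1 := alu_mul mu hS
  have hr : 0 < ‖c‖ ^ 2 := by positivity
  have h2 : star (c • T) * (c • T) = (‖c‖ ^ 2 : ℝ) • (star T * T) := by
    rw [star_smul, smul_mul_smul_comm]
    have : star c * c = ((‖c‖ ^ 2 : ℝ) : ℂ) := by
      rw [Complex.star_def, mul_comm, Complex.mul_conj, Complex.normSq_eq_norm_sq]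
    rw [this]
    exact Complex.coe_smul _ _
  rw [abs_rpow mu hS, h2, cfc_scale (mu / 2) _ hr hT] at h1
  have hr' : (‖c‖ ^ 2 : ℝ) ^ (mu / 2) ≠ 0 := (Real.rpow_pos_of_pos hr _).ne'
  rw [mul_smul_comm, smul_mul_assoc, mul_smul_comm] at h1
  have h3 := smul_right_injective (H →L[ℂ] H) hr' h1
  rw [smul_mul_assoc, h3, smul_smul, inv_mul_cancel₀ hc, one_smul]

theorem eventually_isUnit {T : ℝ → H →L[ℂ] H} (h : (fun e => T e - 1) =O[(𝓝[>] (0 : ℝ))] (fun e : ℝ => e ^ 1)) :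
    ∀ᶠ e in (𝓝[>] (0 : ℝ)), IsUnit (T e) := by
  have h0 : Tendsto (fun e : ℝ => e ^ 1) (𝓝[>] (0 : ℝ)) (𝓝 0) := by
    have : Tendsto (fun e : ℝ => e ^ 1) (𝓝 0) (𝓝 0) := by
      have := (continuous_pow 1 : Continuous fun e : ℝ => e ^ 1).tendsto 0
      simpa using this
    exact this.mono_left nhdsWithin_le_nhds
  have h1 := (h.trans_tendsto h0).norm
  rw [norm_zero] at h1
  filter_upwards [h1.eventually_lt_const (show (0 : ℝ) < 1 by norm_num)] with e he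
  have : T e = 1 - (1 - T e) := by abel
  rw [this]
  refine (Units.oneSub (1 - T e) ?_).isUnit
  rwa [norm_sub_rev]

/-- Expansion of the transform `alu mu` at `c • T e`. -/
theorem alu_exp (mu : ℝ) {c : ℂ} (hc : c ≠ 0) (T : ℝ → H →L[ℂ] H) (Y T2 T3 : H →L[ℂ] H)
    (hT : (fun e : ℝ => T e - (1 + e • Y + e ^ 2 • T2 + e ^ 3 • T3)) =O[(𝓝[>] (0 : ℝ))]
      (fun e : ℝ => e ^ 4))
    (p : ℝ) (hp : p = mu / 2)
    (g1 g2 Q : H →L[ℂ] H) (hg1 : g1 = p • (Y + star Y))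
    (hg2 : g2 = p • (star Y * Y + T2 + star T2) +
      (p * (p - 1) / 2) • ((Y + star Y) * (Y + star Y)))
    (hQ : Q = (g2 * Y - Y * g2) + (g1 * T2 - T2 * g1) - (g1 * Y - Y * g1) * g1) :
    (fun e : ℝ => c⁻¹ • alu mu (c • T e) -
      (1 + e • Y + e ^ 2 • (T2 + p • (star Y * Y - Y * star Y)) +
      e ^ 3 • (T3 + Q))) =O[(𝓝[>] (0 : ℝ))] (fun e : ℝ => e ^ 4) := by
  have hT1 : (fun e => T e - 1) =O[(𝓝[>] (0 : ℝ))] (fun e : ℝ => e ^ 1) := by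
    have := (((hT.trans (powO (show 1 ≤ 4 by norm_num))).add (smulO 1 Y)).add
      (smulO' (show 1 ≤ 2 by norm_num) T2)).add (smulO' (show 1 ≤ 3 by norm_num) T3)
    refine this.congr_left fun e => ?_
    simp only [pow_one]; abel
  have hU := eventually_isUnit hT1
  subst hp
  refine aluthge_expansion (mu / 2) T (fun e => c⁻¹ • alu mu (c • T e)) Y T2 T3 hT ?_ g1 g2 Q
    hg1 hg2 hQ
  filter_upwards [hU] with e he
  exact alu_eq mu hc he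

/-! ### the coefficients -/

/-- The third order coefficient with real constants. -/
noncomputable def c3r (k b1 b2 : ℝ) (Y : H →L[ℂ] H) : H →L[ℂ] H :=
  k • cm (star Y * star Y) Y + b1 • cm Y (cm (star Y) Y) + b2 • cm (star Y) (cm (star Y) Y)

theorem c3_eq (k b1 b2 : ℝ) (Y : H →L[ℂ] H) : c3 (k : ℂ) (b1 : ℂ) (b2 : ℂ) Y = c3r k b1 b2 Y := by
  unfold c3 c3r
  simp only [Complex.coe_smul]

theorem Q_simple (p : ℝ) (Y g1 g2 : H →L[ℂ] H) (hg1 : g1 = p • (Y + star Y))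
    (hg2 : g2 = p • (star Y * Y + 0 + star (0 : H →L[ℂ] H)) +
      (p * (p - 1) / 2) • ((Y + star Y) * (Y + star Y))) :
    (g2 * Y - Y * g2) + (g1 * 0 - 0 * g1) - (g1 * Y - Y * g1) * g1 =
      c3r (-(p / 2)) (p ^ 2 / 2 - p / 2) (p ^ 2 / 2) Y := by
  rw [hg1, hg2]
  unfold c3r cm
  rw [star_zero]
  generalize star Y = Z
  simp only [mul_add, add_mul, mul_sub, sub_mul, smul_mul_assoc, mul_smul_comm, smul_add,
    smul_sub, smul_smul, mul_assoc, mul_zero, zero_mul, add_zero, smul_zero]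
  module

theorem Q_mean (Y g1 g2 T2 : H →L[ℂ] H) (hT2 : T2 = (1 / 4 : ℝ) • (star Y * Y - Y * star Y))
    (hg1 : g1 = (1 / 2 : ℝ) • (Y + star Y))
    (hg2 : g2 = (1 / 2 : ℝ) • (star Y * Y + T2 + star T2) +
      ((1 / 2 : ℝ) * ((1 / 2 : ℝ) - 1) / 2) • ((Y + star Y) * (Y + star Y))) :
    (g2 * Y - Y * g2) + (g1 * T2 - T2 * g1) - (g1 * Y - Y * g1) * g1 =
      c3r (-(1 / 4)) (-(1 / 4)) (1 / 4) Y := by
  have h1 : star T2 = (1 / 4 : ℝ) • (star Y * Y - Y * star Y) := by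
    rw [hT2, star_smul, star_sub, star_mul, star_mul, star_star, star_trivial]
  rw [hg1, hg2, h1, hT2]
  unfold c3r cm
  generalize star Y = Z
  simp only [mul_add, add_mul, mul_sub, sub_mul, smul_mul_assoc, mul_smul_comm, smul_add,
    smul_sub, smul_smul, mul_assoc]
  module

/-- The expansion in the form of the field `exp` of `Good`, for one transform `alu mu`. -/
theorem alu_exp_one (mu : ℝ) {c : ℂ} (hc : c ≠ 0) (Y : H →L[ℂ] H) :
    (fun e : ℝ => c⁻¹ • alu mu (c • (1 + e • Y)) -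
      (1 + e • Y + e ^ 2 • ((mu / 2) • cm (star Y) Y) +
      e ^ 3 • c3r (-(mu / 2 / 2)) ((mu / 2) ^ 2 / 2 - mu / 2 / 2) ((mu / 2) ^ 2 / 2) Y))
      =O[(𝓝[>] (0 : ℝ))] (fun e : ℝ => e ^ 4) := by
  have hT : (fun e : ℝ => (1 + e • Y) - (1 + e • Y + e ^ 2 • (0 : H →L[ℂ] H) +
      e ^ 3 • (0 : H →L[ℂ] H))) =O[(𝓝[>] (0 : ℝ))] (fun e : ℝ => e ^ 4) := by
    simp only [smul_zero, add_zero, sub_self]
    exact isBigO_zero _ _
  have h := alu_exp mu hc (fun e => 1 + e • Y) Y 0 0 hT (mu / 2) rfl _ _ _ rfl rfl rfl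
  rw [Q_simple (mu / 2) Y _ _ rfl rfl] at h
  refine h.congr_left fun e => ?_
  rw [zero_add, zero_add]
  rfl

theorem to_field {L : (H →L[ℂ] H) → (H →L[ℂ] H)} {c : ℂ} (hc : c ≠ 0) (a k b1 b2 : ℝ)
    (Y : H →L[ℂ] H)
    (h : (fun e : ℝ => c⁻¹ • L (c • (1 + e • Y)) - (1 + e • Y + e ^ 2 • (a • cm (star Y) Y) +
      e ^ 3 • c3r k b1 b2 Y)) =O[(𝓝[>] (0 : ℝ))] (fun e : ℝ => e ^ 4)) :
    (fun e : ℝ => L (c • (1 + (e : ℂ) • Y)) - c • (1 + (e : ℂ) • Y +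
      ((e : ℂ) ^ 2) • ((a : ℂ) • cm (star Y) Y) +
      ((e : ℂ) ^ 3) • c3 (k : ℂ) (b1 : ℂ) (b2 : ℂ) Y)) =O[𝓝[>] (0 : ℝ)] (fun e => e ^ 4) := by
  have h1 := h.const_smul_left c
  refine h1.congr_left fun e => ?_
  rw [c3_eq]
  simp only [← Complex.ofReal_pow, Complex.coe_smul]
  rw [Pi.smul_apply, smul_sub, smul_smul, mul_inv_cancel₀ hc, one_smul]

/-- The field `exp` for `Mlam lam`. -/
theorem exp_Mlam (lam : ℝ) : ∃ a k b1 b2 : ℂ, a ≠ 0 ∧ k ≠ 0 ∧ ∀ (c : ℂ), c ≠ 0 →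
    ∀ Y : H →L[ℂ] H,
    (fun e : ℝ => Mlam lam (c • (1 + (e : ℂ) • Y)) - c • (1 + (e : ℂ) • Y +
      ((e : ℂ) ^ 2) • (a • cm (star Y) Y) +
      ((e : ℂ) ^ 3) • c3 k b1 b2 Y)) =O[𝓝[>] (0 : ℝ)] (fun e => e ^ 4) := by
  refine ⟨((1 / 4 : ℝ) : ℂ), ((-(1 / 8) : ℝ) : ℂ),
    ((((lam / 2) ^ 2 + ((1 - lam) / 2) ^ 2) / 4 - 1 / 8 : ℝ) : ℂ),
    ((((lam / 2) ^ 2 + ((1 - lam) / 2) ^ 2) / 4 : ℝ) : ℂ), ?_, ?_, ?_⟩
  · exact Complex.ofReal_ne_zero.2 (by norm_num)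
  · exact Complex.ofReal_ne_zero.2 (by norm_num)
  intro c hc Y
  apply to_field hc
  have h1 := (alu_exp_one lam hc Y).const_smul_left (1 / 2 : ℝ)
  have h2 := (alu_exp_one (1 - lam) hc Y).const_smul_left (1 / 2 : ℝ)
  refine (h1.add h2).congr_left fun e => ?_
  have h3 : c⁻¹ • Mlam lam (c • (1 + e • Y)) = (1 / 2 : ℝ) • (c⁻¹ • alu lam (c • (1 + e • Y))) +
      (1 / 2 : ℝ) • (c⁻¹ • alu (1 - lam) (c • (1 + e • Y))) := by
    unfold Mlam
    rw [show (1 / 2 : ℂ) = ((1 / 2 : ℝ) : ℂ) by push_cast; ring, Complex.coe_smul,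
      smul_comm c⁻¹, smul_add, smul_add]
  rw [h3]
  simp only [Pi.smul_apply]
  unfold c3r
  module

theorem aluH_eq (S : H →L[ℂ] H) : aluH S = alu (1 / 2) S := by
  unfold aluH alu
  rw [CFC.sqrt_eq_rpow, show (1 - 1 / 2 : ℝ) = 1 / 2 by norm_num]

theorem meanT_eq (S : H →L[ℂ] H) : meanT S = (1 / 2 : ℝ) • (S + alu 1 S) := by
  unfold meanT alu
  rw [sub_self, CFC.rpow_zero _ (CFC.abs_nonneg S), CFC.rpow_one _ (CFC.abs_nonneg S), mul_one,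
    ← (pol_spec S).2.2, show (1 / 2 : ℂ) = ((1 / 2 : ℝ) : ℂ) by push_cast; ring, Complex.coe_smul]

/-- The field `exp` for `meanAlu`. -/
theorem exp_meanAlu : ∃ a k b1 b2 : ℂ, a ≠ 0 ∧ k ≠ 0 ∧ ∀ (c : ℂ), c ≠ 0 →
    ∀ Y : H →L[ℂ] H,
    (fun e : ℝ => meanAlu (c • (1 + (e : ℂ) • Y)) - c • (1 + (e : ℂ) • Y +
      ((e : ℂ) ^ 2) • (a • cm (star Y) Y) +
      ((e : ℂ) ^ 3) • c3 k b1 b2 Y)) =O[𝓝[>] (0 : ℝ)] (fun e => e ^ 4) := by
  refine ⟨((1 / 2 : ℝ) : ℂ), ((-(1 / 4) : ℝ) : ℂ), ((-(7 / 32) : ℝ) : ℂ),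
    ((5 / 32 : ℝ) : ℂ), ?_, ?_, ?_⟩
  · exact Complex.ofReal_ne_zero.2 (by norm_num)
  · exact Complex.ofReal_ne_zero.2 (by norm_num)
  intro c hc Y
  apply to_field hc
  have h1 := alu_exp_one (1 / 2) hc Y
  set D : ℝ → H →L[ℂ] H := fun e => c⁻¹ • alu (1 / 2) (c • (1 + e • Y)) with hD
  set T2 : H →L[ℂ] H := (1 / 4 : ℝ) • (star Y * Y - Y * star Y) with hT2
  set T3 : H →L[ℂ] H := c3r (-(1 / 8)) (1 / 32 - 1 / 8) (1 / 32) Y with hT3
  have hT : (fun e : ℝ => D e - (1 + e • Y + e ^ 2 • T2 + e ^ 3 • T3)) =O[(𝓝[>] (0 : ℝ))]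
      (fun e : ℝ => e ^ 4) := by
    refine h1.congr_left fun e => ?_
    rw [hT2, hT3]
    unfold c3r cm
    simp only [hD]
    module
  have h2 := alu_exp 1 hc D Y T2 T3 hT (1 / 2) rfl _ _ _ rfl rfl rfl
  rw [Q_mean Y _ _ T2 hT2 rfl rfl] at h2
  have h3 := (hT.const_smul_left (1 / 2 : ℝ)).add (h2.const_smul_left (1 / 2 : ℝ))
  refine h3.congr_left fun e => ?_
  have h4 : c⁻¹ • meanAlu (c • (1 + e • Y)) =
      (1 / 2 : ℝ) • D e + (1 / 2 : ℝ) • (c⁻¹ • alu 1 (c • D e)) := by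
    unfold meanAlu
    rw [meanT_eq, aluH_eq]
    have h5 : alu (1 / 2) (c • (1 + e • Y)) = c • D e := by
      rw [hD]; simp only; rw [smul_smul, mul_inv_cancel₀ hc, one_smul]
    rw [h5, smul_comm c⁻¹, smul_add, smul_add, smul_smul, inv_mul_cancel₀ hc, one_smul]
  rw [h4]
  simp only [Pi.smul_apply]
  rw [hT2, hT3]
  unfold c3r cm
  module

end Pool.Agent.V1195.GoodExp
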