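/-
The block property and additivity of the mean-type Aluthge transforms
(written by helper51 for helper95).
-/
import Mathlib
import Pool.Agent.V1195.CfcBlock
import Pool.Agent.V1195.GoodExp

set_option autoImplicit false

namespace Pool.Agent.V1195.GoodBlk

open Asymptotics Filter Topology
open Pool.Agent.V1195.LinBij Pool.Agent.V1195.GoodExp

variable {H : Type*} [NormedAddCommGroup H] [InnerProductSpace ℂ H] [CompleteSpace H]

/-- `|S|^mu` as a function of `star S * S`. -/
noncomputable def gg (mu : ℝ) (S : H →L[ℂ] H) : H →L[ℂ] H :=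
  cfc (fun t : ℝ => t ^ (mu / 2)) (star S * S)

theorem gg_eq (mu : ℝ) {S : H →L[ℂ] H} (hS : IsUnit S) :
    alu mu S * gg mu S = gg mu S * S := by
  have h := alu_mul mu hS
  rw [abs_rpow mu hS] at h
  exact h

theorem gg_unit (mu : ℝ) {S : H →L[ℂ] H} (hS : IsUnit S) : IsUnit (gg mu S) := by
  unfold gg
  rw [← abs_rpow mu hS]
  exact (IsStrictlyPositive.rpow (CFC.abs S) mu (IsStrictlyPositive.iff_of_unital.2 ⟨CFC.abs_nonneg S, isUnit_abs hS⟩)).isUnit

theorem alu_unique (mu : ℝ) {S D : H →L[ℂ] H} (hS : IsUnit S)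
    (h : D * gg mu S = gg mu S * S) : D = alu mu S := by
  have h1 : D * gg mu S = alu mu S * gg mu S := by rw [h, gg_eq mu hS]
  exact (gg_unit mu hS).mul_right_cancel h1

theorem alu_isUnit (mu : ℝ) {S : H →L[ℂ] H} (hS : IsUnit S) : IsUnit (alu mu S) := by
  have h1 := gg_eq mu hS
  have h2 := gg_unit mu hS
  obtain ⟨u, hu⟩ := h2
  have h3 : alu mu S = (u : H →L[ℂ] H) * S * ((u⁻¹ : (H →L[ℂ] H)ˣ) : H →L[ℂ] H) := by
    have : alu mu S * (u : H →L[ℂ] H) = (u : H →L[ℂ] H) * S := by rw [hu]; exact h1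
    rw [← this, mul_assoc, Units.mul_inv, mul_one]
  rw [h3]
  exact (u.isUnit.mul hS).mul (u⁻¹).isUnit

/-- Locality: two invertible operators which agree on a reducing projection have transforms which
agree there. -/
theorem alu_local {mu : ℝ} (hmu : 0 ≤ mu) {S S' Q : H →L[ℂ] H} (hS : IsUnit S) (hS' : IsUnit S')
    (hQ : star Q = Q) (h1 : S * Q = Q * S) (h2 : S' * Q = Q * S') (h3 : S * Q = S' * Q) :
    alu mu S * Q = alu mu S' * Q := by
  have hs1 : star S * Q = Q * star S := by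
    have := congrArg star h1
    rw [star_mul, star_mul, hQ] at this
    exact this.symm
  have hs2 : star S' * Q = Q * star S' := by
    have := congrArg star h2
    rw [star_mul, star_mul, hQ] at this
    exact this.symm
  have hs3 : Q * star S = Q * star S' := by
    have := congrArg star h3
    rw [star_mul, star_mul, hQ] at this
    exact this
  have hA : (star S * S) * Q = Q * (star S * S) := by
    rw [mul_assoc, h1, ← mul_assoc, hs1, mul_assoc]
  have hAB : (star S * S) * Q = (star S' * S') * Q := by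
    calc (star S * S) * Q = star S * (S * Q) := mul_assoc _ _ _
      _ = star S * (Q * S') := by rw [h3, h2]
      _ = (star S * Q) * S' := (mul_assoc _ _ _).symm
      _ = (Q * star S') * S' := by rw [hs1, hs3]
      _ = (star S' * Q) * S' := by rw [hs2]
      _ = star S' * (Q * S') := mul_assoc _ _ _
      _ = star S' * (S' * Q) := by rw [h2]
      _ = (star S' * S') * Q := (mul_assoc _ _ _).symm
  have hG : gg mu S * Q = gg mu S' * Q := by
    unfold gg
    exact Pool.Agent.V1195.CfcBlock.cfc_mul_eq' (IsSelfAdjoint.star_mul_self S)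
      (IsSelfAdjoint.star_mul_self S') hAB hA (Real.continuous_rpow_const (by linarith))
  have hGQ : gg mu S * Q = Q * gg mu S := by
    have hc : Commute (star S * S) Q := hA
    exact (hc.cfc_real _).eq
  have key : alu mu S * Q * gg mu S = alu mu S' * Q * gg mu S := by
    calc alu mu S * Q * gg mu S = alu mu S * gg mu S * Q := by rw [mul_assoc, ← hGQ, mul_assoc]
      _ = gg mu S * S * Q := by rw [gg_eq mu hS]
      _ = gg mu S * (S' * Q) := by rw [mul_assoc, h3]
      _ = gg mu S * (Q * S') := by rw [h2]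
      _ = gg mu S' * (Q * S') := by rw [← mul_assoc, hG, mul_assoc]
      _ = gg mu S' * S' * Q := by rw [← h2, mul_assoc]
      _ = alu mu S' * gg mu S' * Q := by rw [gg_eq mu hS']
      _ = alu mu S' * (gg mu S * Q) := by rw [mul_assoc, hG]
      _ = alu mu S' * Q * gg mu S := by rw [hGQ, mul_assoc]
  exact (gg_unit mu hS).mul_right_cancel key

/-- Invertible self-adjoint operators are fixed. -/
theorem alu_sa (mu : ℝ) {S : H →L[ℂ] H} (hS : IsUnit S) (hsa : star S = S) : alu mu S = S := by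
  symm
  apply alu_unique mu hS
  have hc : Commute (star S * S) S := by
    rw [hsa]; exact (Commute.refl S).mul_left (Commute.refl S)
  have := (hc.cfc_real (fun t : ℝ => t ^ (mu / 2))).eq
  exact this.symm

theorem alu_one (mu : ℝ) : alu mu (1 : H →L[ℂ] H) = 1 := alu_sa mu isUnit_one (star_one _)

/-- The block property. -/
theorem alu_blk {mu : ℝ} (hmu : 0 ≤ mu) {S Q : H →L[ℂ] H} (hS : IsUnit S)
    (hQ : star Q = Q) (h1 : S * Q = Q) (h2 : Q * S = Q) :
    alu mu S * Q = Q ∧ Q * alu mu S = Q := by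
  have e1 : alu mu S * Q = Q := by
    have := alu_local hmu hS isUnit_one hQ (h1.trans h2.symm)
      ((one_mul Q).trans (mul_one Q).symm) (h1.trans (one_mul Q).symm)
    rw [this, alu_one, one_mul]
  refine ⟨e1, ?_⟩
  have hc : Commute (star S * S) Q := by
    have hs1 : star S * Q = Q := by
      have := congrArg star h2
      rwa [star_mul, hQ] at this
    have hs2 : Q * star S = Q := by
      have := congrArg star h1
      rwa [star_mul, hQ] at this
    change (star S * S) * Q = Q * (star S * S)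
    rw [mul_assoc, h1, hs1, ← mul_assoc, hs2, h2]
  have hGQ : gg mu S * Q = Q * gg mu S := (hc.cfc_real _).eq
  have key : Q * alu mu S * gg mu S = Q * gg mu S := by
    rw [mul_assoc, gg_eq mu hS, ← mul_assoc, ← hGQ, mul_assoc, h2]
  exact (gg_unit mu hS).mul_right_cancel key

/-- The range projection of a self-adjoint operator. -/
theorem exists_proj (X : H →L[ℂ] H) (hX : star X = X) : ∃ R : H →L[ℂ] H, star R = R ∧
    R * X = X ∧ X * R = X ∧ (∀ Z : H →L[ℂ] H, Z * X = 0 → Z * R = 0) := by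
  let K : Submodule ℂ H := (LinearMap.range (X : H →ₗ[ℂ] H)).topologicalClosure
  have hKc : IsClosed (K : Set H) := Submodule.isClosed_topologicalClosure _
  have : CompleteSpace K := hKc.completeSpace_coe
  have hmem : ∀ x, X x ∈ K := fun x => Submodule.le_topologicalClosure _ ⟨x, rfl⟩
  have hR : star K.starProjection = K.starProjection := (isSelfAdjoint_starProjection K).star_eq
  have h1 : K.starProjection * X = X := by
    ext x
    exact Submodule.starProjection_eq_self_iff.2 (hmem x)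
  refine ⟨K.starProjection, hR, h1, ?_, ?_⟩
  · have := congrArg star h1
    rwa [star_mul, hR, hX] at this
  · intro Z hZ
    ext x
    have hx : K.starProjection x ∈ closure ((LinearMap.range (X : H →ₗ[ℂ] H) : Submodule ℂ H) : Set H) :=
      Submodule.starProjection_apply_mem K x
    have hcl : IsClosed {y : H | Z y = 0} := isClosed_eq Z.continuous continuous_const
    have hsub : ((LinearMap.range (X : H →ₗ[ℂ] H) : Submodule ℂ H) : Set H) ⊆ {y : H | Z y = 0} := by
      rintro _ ⟨y, rfl⟩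
      have := congrArg (fun W : H →L[ℂ] H => W y) hZ
      exact this
    exact (hcl.closure_subset_iff.2 hsub) hx

/-- Additivity over orthogonal blocks. -/
theorem alu_add {mu : ℝ} (hmu : 0 ≤ mu) {X S : H →L[ℂ] H} (hX : star X = X) (hS : IsUnit S)
    (h1 : S * X = X) (h2 : X * S = X) (hE : IsUnit (1 + X)) :
    alu mu (S + X) = alu mu S + X ∧ alu mu S * X = X ∧ X * alu mu S = X ∧ IsUnit (S + X) := by
  obtain ⟨R, hR, hRX, hXR, hZ⟩ := exists_proj X hX
  have hSR : S * R = R := by
    have := hZ (S - 1) (by rw [sub_mul, h1, one_mul, sub_self])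
    rw [sub_mul, one_mul, sub_eq_zero] at this
    exact this
  have hRS : R * S = R := by
    have h3 : (star S - 1) * X = 0 := by
      have := congrArg star h2
      rw [star_mul, hX] at this
      rw [sub_mul, this, one_mul, sub_self]
    have h4 := hZ _ h3
    rw [sub_mul, one_mul, sub_eq_zero] at h4
    have := congrArg star h4
    rwa [star_mul, star_star, hR] at this
  have hU : IsUnit (S + X) := by
    have : S + X = S * (1 + X) := by rw [mul_add, mul_one, h1]
    rw [this]; exact hS.mul hE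
  obtain ⟨b1, b2⟩ := alu_blk hmu hS hR hSR hRS
  have c1 : alu mu (S + X) * R = R + X := by
    have := alu_local hmu hU hE hR (S := S + X) (S' := 1 + X) (Q := R)
      (by rw [add_mul, mul_add, hSR, hRS, hXR, hRX])
      (by rw [add_mul, mul_add, one_mul, mul_one, hXR, hRX])
      (by rw [add_mul, add_mul, hSR, one_mul])
    rw [this, alu_sa mu hE (by rw [star_add, star_one, hX]), add_mul, one_mul, hXR]
  have hQ : star (1 - R) = 1 - R := by rw [star_sub, star_one, hR]
  have c2 : alu mu (S + X) * (1 - R) = alu mu S * (1 - R) := by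
    refine alu_local hmu hU hS hQ ?_ ?_ ?_
    · rw [add_mul, mul_add, mul_sub, sub_mul, mul_sub, sub_mul, hSR, hRS, hXR, hRX]
      simp only [mul_one, one_mul]
    · rw [mul_sub, sub_mul, hSR, hRS, mul_one, one_mul]
    · rw [add_mul, mul_sub X, mul_one, hXR, sub_self, add_zero]
  refine ⟨?_, ?_, ?_, hU⟩
  · have h5 : alu mu (S + X) = alu mu (S + X) * R + alu mu (S + X) * (1 - R) := by
      rw [← mul_add, add_sub_cancel, mul_one]
    rw [h5, c1, c2, mul_sub, mul_one, b1]
    abel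
  · calc alu mu S * X = alu mu S * (R * X) := by rw [hRX]
      _ = X := by rw [← mul_assoc, b1, hRX]
  · calc X * alu mu S = X * R * alu mu S := by rw [hXR]
      _ = X := by rw [mul_assoc, b2, hXR]

/-! ### the fields -/

theorem half_add_half (Z : H →L[ℂ] H) : (1 / 2 : ℂ) • (Z + Z) = Z := by
  rw [← two_smul ℂ Z, smul_smul]; norm_num

theorem Mlam_blk {lam : ℝ} (h0 : 0 ≤ lam) (h1 : lam ≤ 1 / 2) {S Q : H →L[ℂ] H} (hS : IsUnit S)
    (hQ : star Q = Q) (hSQ : S * Q = Q) (hQS : Q * S = Q) :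
    Mlam lam S * Q = Q ∧ Q * Mlam lam S = Q := by
  obtain ⟨a1, a2⟩ := alu_blk h0 hS hQ hSQ hQS
  obtain ⟨b1, b2⟩ := alu_blk (mu := 1 - lam) (by linarith) hS hQ hSQ hQS
  unfold Mlam
  constructor
  · rw [smul_mul_assoc, add_mul, a1, b1, half_add_half]
  · rw [mul_smul_comm, mul_add, a2, b2, half_add_half]

theorem meanT_eq' (S : H →L[ℂ] H) : meanT S = (1 / 2 : ℂ) • (S + alu 1 S) := by
  rw [meanT_eq, show (1 / 2 : ℂ) = ((1 / 2 : ℝ) : ℂ) by push_cast; ring, Complex.coe_smul]

theorem meanAlu_blk {S Q : H →L[ℂ] H} (hS : IsUnit S)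
    (hQ : star Q = Q) (hSQ : S * Q = Q) (hQS : Q * S = Q) :
    meanAlu S * Q = Q ∧ Q * meanAlu S = Q := by
  obtain ⟨a1, a2⟩ := alu_blk (mu := 1 / 2) (by norm_num) hS hQ hSQ hQS
  have hS' := alu_isUnit (1 / 2) hS
  obtain ⟨b1, b2⟩ := alu_blk (mu := 1) (by norm_num) hS' hQ a1 a2
  unfold meanAlu
  rw [aluH_eq, meanT_eq']
  constructor
  · rw [smul_mul_assoc, add_mul, a1, b1, half_add_half]
  · rw [mul_smul_comm, mul_add, a2, b2, half_add_half]

theorem Mlam_add {lam : ℝ} (h0 : 0 ≤ lam) (h1 : lam ≤ 1 / 2) {X S : H →L[ℂ] H}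
    (hX : star X = X) (hS : IsUnit S) (h1' : S * X = X) (h2 : X * S = X) (hE : IsUnit (1 + X)) :
    Mlam lam (S + X) = Mlam lam S + X := by
  have a := (alu_add h0 hX hS h1' h2 hE).1
  have b := (alu_add (mu := 1 - lam) (by linarith) hX hS h1' h2 hE).1
  unfold Mlam
  rw [a, b, show alu lam S + X + (alu (1 - lam) S + X) = (alu lam S + alu (1 - lam) S) + (X + X) by
    abel, smul_add, half_add_half]

theorem meanAlu_add {X S : H →L[ℂ] H}
    (hX : star X = X) (hS : IsUnit S) (h1' : S * X = X) (h2 : X * S = X) (hE : IsUnit (1 + X)) :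
    meanAlu (S + X) = meanAlu S + X := by
  obtain ⟨a, a1, a2, -⟩ := alu_add (mu := 1 / 2) (by norm_num) hX hS h1' h2 hE
  have hS' := alu_isUnit (1 / 2) hS
  have b := (alu_add (mu := 1) (by norm_num) hX hS' a1 a2 hE).1
  unfold meanAlu
  rw [aluH_eq, aluH_eq, meanT_eq', meanT_eq', a, b,
    show alu (1 / 2) S + X + (alu 1 (alu (1 / 2) S) + X) =
      (alu (1 / 2) S + alu 1 (alu (1 / 2) S)) + (X + X) by abel, smul_add, half_add_half]

theorem ev_unit (X : H →L[ℂ] H) : ∀ᶠ e : ℝ in 𝓝[>] (0 : ℝ), IsUnit (1 + (e : ℂ) • X) := by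
  apply eventually_isUnit (T := fun e : ℝ => 1 + (e : ℂ) • X)
  refine IsBigO.of_bound ‖X‖ ?_
  filter_upwards with e
  rw [add_sub_cancel_left, norm_smul, pow_one, Complex.norm_real, mul_comm]

/-- The block property as a field of `Good`. -/
def BlkField (L : (H →L[ℂ] H) → (H →L[ℂ] H)) : Prop :=
  ∀ P X : H →L[ℂ] H, star P = P → P * P = P → P * X = X → X * P = X →
    ∀ᶠ e : ℝ in 𝓝[>] (0 : ℝ), L (1 + (e : ℂ) • X) * (1 - P) = 1 - P ∧
      (1 - P) * L (1 + (e : ℂ) • X) = 1 - P

/-- The additivity as a field of `Good`. -/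
def AddField (L : (H →L[ℂ] H) → (H →L[ℂ] H)) : Prop :=
  ∀ X N : H →L[ℂ] H, star X = X → X * N = 0 → N * X = 0 →
    ∀ᶠ e : ℝ in 𝓝[>] (0 : ℝ), L (1 + (e : ℂ) • (X + N)) = L (1 + (e : ℂ) • N) + (e : ℂ) • X

theorem blk_of {L : (H →L[ℂ] H) → (H →L[ℂ] H)}
    (h : ∀ S Q : H →L[ℂ] H, IsUnit S → star Q = Q → S * Q = Q → Q * S = Q →
      L S * Q = Q ∧ Q * L S = Q) : BlkField L := by
  intro P X hP hPP hPX hXP
  filter_upwards [ev_unit X] with e he
  refine h _ _ he (by rw [star_sub, star_one, hP]) ?_ ?_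
  · rw [add_mul, one_mul, smul_mul_assoc, mul_sub, mul_one, hXP, sub_self, smul_zero, add_zero]
  · rw [mul_add, mul_one, mul_smul_comm, sub_mul, one_mul, hPX, sub_self, smul_zero, add_zero]

theorem add_of {L : (H →L[ℂ] H) → (H →L[ℂ] H)}
    (h : ∀ X S : H →L[ℂ] H, star X = X → IsUnit S → S * X = X → X * S = X → IsUnit (1 + X) →
      L (S + X) = L S + X) : AddField L := by
  intro X N hX hXN hNX
  filter_upwards [ev_unit X, ev_unit N] with e he1 he2
  have h1 := h ((e : ℂ) • X) (1 + (e : ℂ) • N)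
    (by rw [star_smul, hX, Complex.star_def, Complex.conj_ofReal]) he2
    (by rw [add_mul, one_mul, smul_mul_smul_comm, hNX, smul_zero, add_zero])
    (by rw [mul_add, mul_one, smul_mul_smul_comm, hXN, smul_zero, add_zero]) he1
  rw [← h1]
  congr 1
  rw [smul_add]
  abel

/-- The field `blk` for `Mlam lam`. -/
theorem blk_Mlam {lam : ℝ} (h0 : 0 ≤ lam) (h1 : lam ≤ 1 / 2) :
    ∀ P X : H →L[ℂ] H, star P = P → P * P = P → P * X = X → X * P = X →
    ∀ᶠ e : ℝ in 𝓝[>] (0 : ℝ), Mlam lam (1 + (e : ℂ) • X) * (1 - P) = 1 - P ∧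
      (1 - P) * Mlam lam (1 + (e : ℂ) • X) = 1 - P :=
  blk_of fun _ _ hS hQ a b => Mlam_blk h0 h1 hS hQ a b

/-- The field `blk` for `meanAlu`. -/
theorem blk_meanAlu :
    ∀ P X : H →L[ℂ] H, star P = P → P * P = P → P * X = X → X * P = X →
    ∀ᶠ e : ℝ in 𝓝[>] (0 : ℝ), meanAlu (1 + (e : ℂ) • X) * (1 - P) = 1 - P ∧
      (1 - P) * meanAlu (1 + (e : ℂ) • X) = 1 - P :=
  blk_of fun _ _ hS hQ a b => meanAlu_blk hS hQ a b

/-- The field `add` for `Mlam lam`. -/
theorem add_Mlam {lam : ℝ} (h0 : 0 ≤ lam) (h1 : lam ≤ 1 / 2) :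
    ∀ X N : H →L[ℂ] H, star X = X → X * N = 0 → N * X = 0 →
    ∀ᶠ e : ℝ in 𝓝[>] (0 : ℝ),
      Mlam lam (1 + (e : ℂ) • (X + N)) = Mlam lam (1 + (e : ℂ) • N) + (e : ℂ) • X :=
  add_of fun _ _ hX hS a b hE => Mlam_add h0 h1 hX hS a b hE

/-- The field `add` for `meanAlu`. -/
theorem add_meanAlu :
    ∀ X N : H →L[ℂ] H, star X = X → X * N = 0 → N * X = 0 →
    ∀ᶠ e : ℝ in 𝓝[>] (0 : ℝ),
      meanAlu (1 + (e : ℂ) • (X + N)) = meanAlu (1 + (e : ℂ) • N) + (e : ℂ) • X :=
  add_of fun _ _ hX hS a b hE => meanAlu_add hX hS a b hE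

end Pool.Agent.V1195.GoodBlk
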