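import Mathlib

/-!
Fixed points of the mean lambda-Aluthge transform in a unital C*-algebra.
-/

set_option autoImplicit false
set_option linter.unusedSectionVars false
open Filter Topology

namespace Pool.Agent.V1195.Aluthge

noncomputable section

variable {M : Type*} [CStarAlgebra M] [PartialOrder M] [StarOrderedRing M]

/-- real power of a nonnegative element -/
def pw (A : M) (p : ℝ) : M := cfc (fun t : ℝ => t ^ p) A

lemma cont_rpow {p : ℝ} (hp : 0 ≤ p) : Continuous (fun t : ℝ => t ^ p) :=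
  Real.continuous_rpow_const hp

lemma spec_nonneg {A : M} (hA : 0 ≤ A) {t : ℝ} (ht : t ∈ spectrum ℝ A) : 0 ≤ t :=
  spectrum_nonneg_of_nonneg hA ht

lemma pw_selfAdjoint (A : M) (p : ℝ) : IsSelfAdjoint (pw A p) := cfc_predicate _ A

lemma pw_nonneg {A : M} (hA : 0 ≤ A) (p : ℝ) : 0 ≤ pw A p :=
  cfc_nonneg fun _ ht => Real.rpow_nonneg (spec_nonneg hA ht) p

lemma pw_one {A : M} (hA : 0 ≤ A) : pw A 1 = A := by
  have hsa : IsSelfAdjoint A := hA.isSelfAdjoint
  unfold pw
  simp_rw [Real.rpow_one]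
  exact cfc_id' ℝ A

lemma pw_add {A : M} (hA : 0 ≤ A) {p q : ℝ} (hp : 0 ≤ p) (hq : 0 ≤ q) :
    pw A p * pw A q = pw A (p + q) := by
  have hsa : IsSelfAdjoint A := hA.isSelfAdjoint
  unfold pw
  rw [← cfc_mul _ _ A (cont_rpow hp).continuousOn (cont_rpow hq).continuousOn]
  refine cfc_congr fun t ht => ?_
  exact (Real.rpow_add_of_nonneg (spec_nonneg hA ht) hp hq).symm

/-- The separation lemma. -/
lemma sep_bound {A V : M} (hA : 0 ≤ A) (hV : ‖V‖ ≤ 1) {l : ℝ} (hl0 : 0 < l) (hl1 : l < 1)
    (heq : pw A l * V * pw A (1 - l) + pw A (1 - l) * V * pw A l = V * A + V * A)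
    {a b : ℝ} (ha : 0 < a) (hab : a < b) (n : ℕ) : ∀ f g : ℝ → ℝ, Continuous f → Continuous g →
      (∀ t ∈ spectrum ℝ A, |f t| ≤ 1) → (∀ t ∈ spectrum ℝ A, |g t| ≤ 1) →
      (∀ t ∈ spectrum ℝ A, f t ≠ 0 → t ≤ a) → (∀ t ∈ spectrum ℝ A, g t ≠ 0 → b ≤ t) →
      ‖cfc f A * V * cfc g A‖ ≤ (((a / b) ^ l + (a / b) ^ (1 - l)) / 2) ^ n := by
  have hb : 0 < b := ha.trans hab
  have hsa : IsSelfAdjoint A := hA.isSelfAdjoint
  induction n with
  | zero =>
    intro f g hf hg hf1 hg1 _ _
    rw [pow_zero]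
    have h1 : ‖cfc f A‖ ≤ 1 := norm_cfc_le zero_le_one fun t ht => hf1 t ht
    have h2 : ‖cfc g A‖ ≤ 1 := norm_cfc_le zero_le_one fun t ht => hg1 t ht
    calc ‖cfc f A * V * cfc g A‖ ≤ ‖cfc f A‖ * ‖V‖ * ‖cfc g A‖ := norm_mul₃_le
      _ ≤ 1 * 1 * 1 := by gcongr
      _ = 1 := by norm_num
  | succ n ih =>
    intro f g hf hg hf1 hg1 hfa hgb
    have hmax : Continuous fun t : ℝ => max t b := continuous_id.max continuous_const
    have hmax0 : ∀ t : ℝ, max t b ≠ 0 := fun t => (lt_of_lt_of_le hb (le_max_right t b)).ne'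
    have hl1' : 0 < 1 - l := by linarith
    have hgm : Continuous fun t : ℝ => g t / max t b := hg.div hmax hmax0
    -- the auxiliary functions
    have key : ∀ p : ℝ, 0 < p → p < 1 →
        cfc f A * pw A p = (a ^ p) • cfc (fun t => f t * (t ^ p / a ^ p)) A ∧
        pw A (1 - p) * cfc (fun t => g t / max t b) A =
          (b ^ p)⁻¹ • cfc (fun t => g t * (b ^ p * t ^ (1 - p) / max t b)) A ∧
        Continuous (fun t => f t * (t ^ p / a ^ p)) ∧
        Continuous (fun t => g t * (b ^ p * t ^ (1 - p) / max t b)) ∧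
        (∀ t ∈ spectrum ℝ A, |f t * (t ^ p / a ^ p)| ≤ 1) ∧
        (∀ t ∈ spectrum ℝ A, |g t * (b ^ p * t ^ (1 - p) / max t b)| ≤ 1) := by
      intro p hp0 hp1
      have hp1' : 0 < 1 - p := by linarith
      have hap : 0 < a ^ p := Real.rpow_pos_of_pos ha p
      have hbp : 0 < b ^ p := Real.rpow_pos_of_pos hb p
      have c1 : Continuous (fun t => f t * (t ^ p / a ^ p)) :=
        hf.mul ((cont_rpow hp0.le).div_const _)
      have c2 : Continuous (fun t => g t * (b ^ p * t ^ (1 - p) / max t b)) :=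
        hg.mul ((continuous_const.mul (cont_rpow hp1'.le)).div hmax hmax0)
      refine ⟨?_, ?_, c1, c2, ?_, ?_⟩
      · unfold pw
        rw [← cfc_mul _ _ A hf.continuousOn (cont_rpow hp0.le).continuousOn,
          ← cfc_const_mul _ _ A c1.continuousOn]
        refine cfc_congr fun t _ => ?_
        field_simp
      · unfold pw
        rw [← cfc_mul _ _ A (cont_rpow hp1'.le).continuousOn hgm.continuousOn,
          ← cfc_const_mul _ _ A c2.continuousOn]
        refine cfc_congr fun t _ => ?_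
        have := hmax0 t
        field_simp
      · intro t ht
        have ht0 := spec_nonneg hA ht
        by_cases h0 : f t = 0
        · rw [h0]; simp
        · have h1 := hfa t ht h0
          rw [abs_mul]
          have h2 : |t ^ p / a ^ p| ≤ 1 := by
            rw [abs_of_nonneg (by positivity), div_le_one hap]
            exact Real.rpow_le_rpow ht0 h1 hp0.le
          calc |f t| * |t ^ p / a ^ p| ≤ 1 * 1 := mul_le_mul (hf1 t ht) h2 (abs_nonneg _) zero_le_one
            _ = 1 := one_mul 1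
      · intro t ht
        have ht0 := spec_nonneg hA ht
        by_cases h0 : g t = 0
        · rw [h0]; simp
        · have h1 := hgb t ht h0
          have htp : 0 < t := lt_of_lt_of_le hb h1
          rw [abs_mul]
          have h2 : |b ^ p * t ^ (1 - p) / max t b| ≤ 1 := by
            rw [max_eq_left h1, abs_of_nonneg (by positivity), div_le_one htp]
            calc b ^ p * t ^ (1 - p) ≤ t ^ p * t ^ (1 - p) :=
                  mul_le_mul_of_nonneg_right (Real.rpow_le_rpow hb.le h1 hp0.le) (by positivity)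
              _ = t := by
                  rw [← Real.rpow_add htp]
                  have : p + (1 - p) = 1 := by ring
                  rw [this, Real.rpow_one]
          calc |g t| * |b ^ p * t ^ (1 - p) / max t b| ≤ 1 * 1 :=
                mul_le_mul (hg1 t ht) h2 (abs_nonneg _) zero_le_one
            _ = 1 := one_mul 1
    obtain ⟨e1, e2, c1, c2, b1, b2⟩ := key l hl0 hl1
    obtain ⟨e3, e4, c3, c4, b3, b4⟩ := key (1 - l) hl1' (by linarith)
    have hll : 1 - (1 - l) = l := by ring
    simp only [hll] at e4 c4 b4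
    have hk : A * cfc (fun t => g t / max t b) A = cfc g A := by
      have h1 : A * cfc (fun t => g t / max t b) A =
          cfc (fun t => t * (g t / max t b)) A := by
        rw [cfc_mul (fun t => t) _ A continuous_id.continuousOn hgm.continuousOn,
          cfc_id' ℝ A]
      rw [h1]
      refine cfc_congr fun t ht => ?_
      by_cases h0 : g t = 0
      · simp [h0]
      · have h2 := hgb t ht h0
        have h3 : t ≠ 0 := (lt_of_lt_of_le hb h2).ne'
        simp only [max_eq_left h2]
        field_simp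
    -- the identity
    have hid : cfc f A * V * cfc g A + cfc f A * V * cfc g A =
        (a ^ l * (b ^ l)⁻¹) • (cfc (fun t => f t * (t ^ l / a ^ l)) A * V *
          cfc (fun t => g t * (b ^ l * t ^ (1 - l) / max t b)) A) +
        (a ^ (1 - l) * (b ^ (1 - l))⁻¹) • (cfc (fun t => f t * (t ^ (1 - l) / a ^ (1 - l))) A * V *
          cfc (fun t => g t * (b ^ (1 - l) * t ^ l / max t b)) A) := by
      calc cfc f A * V * cfc g A + cfc f A * V * cfc g A
          = cfc f A * (V * A + V * A) * cfc (fun t => g t / max t b) A := by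
            rw [← hk]; noncomm_ring
        _ = cfc f A * (pw A l * V * pw A (1 - l) + pw A (1 - l) * V * pw A l) *
              cfc (fun t => g t / max t b) A := by rw [heq]
        _ = (cfc f A * pw A l) * V * (pw A (1 - l) * cfc (fun t => g t / max t b) A) +
            (cfc f A * pw A (1 - l)) * V * (pw A l * cfc (fun t => g t / max t b) A) := by
            noncomm_ring
        _ = _ := by
            rw [e1, e2, e3, e4, smul_mul_assoc, smul_mul_assoc, mul_smul_comm, smul_smul,
              smul_mul_assoc, smul_mul_assoc, mul_smul_comm, smul_smul]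
    have i1 := ih _ _ c1 c2 b1 b2 (fun t ht h => hfa t ht (fun h0 => h (by rw [h0]; simp)))
      (fun t ht h => hgb t ht (fun h0 => h (by rw [h0]; simp)))
    have i2 := ih _ _ c3 c4 b3 b4 (fun t ht h => hfa t ht (fun h0 => h (by rw [h0]; simp)))
      (fun t ht h => hgb t ht (fun h0 => h (by rw [h0]; simp)))
    have hn : 2 * ‖cfc f A * V * cfc g A‖ ≤ ((a / b) ^ l + (a / b) ^ (1 - l)) *
        (((a / b) ^ l + (a / b) ^ (1 - l)) / 2) ^ n := by
      have h1 : 2 * ‖cfc f A * V * cfc g A‖ = ‖cfc f A * V * cfc g A + cfc f A * V * cfc g A‖ := by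
        rw [← two_smul ℝ, norm_smul]; norm_num
      rw [h1, hid]
      refine (norm_add_le _ _).trans ?_
      rw [norm_smul, norm_smul, add_mul, Real.norm_eq_abs, Real.norm_eq_abs]
      have hq1 : |a ^ l * (b ^ l)⁻¹| = (a / b) ^ l := by
        rw [abs_of_nonneg (by positivity), Real.div_rpow ha.le hb.le]; rfl
      have hq2 : |a ^ (1 - l) * (b ^ (1 - l))⁻¹| = (a / b) ^ (1 - l) := by
        rw [abs_of_nonneg (by positivity), Real.div_rpow ha.le hb.le]; rfl
      rw [hq1, hq2]
      gcongr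
    rw [pow_succ]
    nlinarith

lemma sep_zero {A V : M} (hA : 0 ≤ A) (hV : ‖V‖ ≤ 1) {l : ℝ} (hl0 : 0 < l) (hl1 : l < 1)
    (heq : pw A l * V * pw A (1 - l) + pw A (1 - l) * V * pw A l = V * A + V * A)
    {a b : ℝ} (ha : 0 < a) (hab : a < b) (f g : ℝ → ℝ) (hf : Continuous f) (hg : Continuous g)
    (hf1 : ∀ t ∈ spectrum ℝ A, |f t| ≤ 1) (hg1 : ∀ t ∈ spectrum ℝ A, |g t| ≤ 1)
    (hfa : ∀ t ∈ spectrum ℝ A, f t ≠ 0 → t ≤ a) (hgb : ∀ t ∈ spectrum ℝ A, g t ≠ 0 → b ≤ t) :
    cfc f A * V * cfc g A = 0 := by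
  have hb : 0 < b := ha.trans hab
  have hr0 : 0 < a / b := by positivity
  have hr1 : a / b < 1 := (div_lt_one hb).2 hab
  have h1 : (a / b) ^ l < 1 := Real.rpow_lt_one hr0.le hr1 hl0
  have h2 : (a / b) ^ (1 - l) < 1 := Real.rpow_lt_one hr0.le hr1 (by linarith)
  have hlim := tendsto_pow_atTop_nhds_zero_of_lt_one
    (r := ((a / b) ^ l + (a / b) ^ (1 - l)) / 2) (by positivity) (by linarith)
  have h3 := ge_of_tendsto' hlim
    (fun n => sep_bound hA hV hl0 hl1 heq ha hab n f g hf hg hf1 hg1 hfa hgb)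
  exact norm_le_zero_iff.1 h3

/-- clamp functions -/
def cl (y : ℝ) : ℝ := min 1 (max 0 y)

lemma continuous_cl : Continuous cl := by unfold cl; fun_prop

lemma cl_nonneg (y : ℝ) : 0 ≤ cl y := le_min zero_le_one (le_max_left _ _)

lemma cl_le_one (y : ℝ) : cl y ≤ 1 := min_le_left _ _

lemma cl_of_le {y : ℝ} (h : y ≤ 0) : cl y = 0 := by
  unfold cl; rw [max_eq_left h]; exact min_eq_right zero_le_one

lemma cl_of_ge {y : ℝ} (h : 1 ≤ y) : cl y = 1 := by
  unfold cl; rw [max_eq_right (by linarith)]; exact min_eq_left h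

lemma cl_mid {y : ℝ} (h0 : 0 ≤ y) (h : y ≤ 1) : cl y = y := by
  unfold cl; rw [max_eq_right h0]; exact min_eq_right h

/-- The clamps add up. -/
lemma sum_cl (N : ℕ) {y : ℝ} (h0 : 0 ≤ y) (h : y ≤ N) : ∑ k ∈ Finset.range N, cl (y - k) = y := by
  induction N generalizing y with
  | zero =>
    simp only [Finset.range_zero, Finset.sum_empty, Nat.cast_zero] at h ⊢
    linarith
  | succ N ih =>
    rw [Finset.sum_range_succ]
    rcases le_total y N with h1 | h1
    · rw [ih h0 h1, cl_of_le (by linarith), add_zero]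
    · have h2 : ∑ k ∈ Finset.range N, cl (y - k) = N := by
        have h3 : ∀ k ∈ Finset.range N, cl (y - k) = 1 := by
          intro k hk
          apply cl_of_ge
          have h4 : (k : ℝ) + 1 ≤ N := by exact_mod_cast Finset.mem_range.1 hk
          linarith
        rw [Finset.sum_congr rfl h3]; simp
      push_cast at h
      rw [h2, cl_mid (by linarith) (by linarith)]
      ring

/-- `V* f(A) V ≥ g(A)` for separated cut-offs. -/
lemma cut_le {A V : M} (hA : 0 ≤ A) (hV : ‖V‖ ≤ 1) (hVA : star V * V * A = A) {l : ℝ}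
    (hl0 : 0 < l) (hl1 : l < 1)
    (heq : pw A l * V * pw A (1 - l) + pw A (1 - l) * V * pw A l = V * A + V * A)
    {a b : ℝ} (ha : 0 < a) (hab : a < b) (f g : ℝ → ℝ) (hf : Continuous f) (hg : Continuous g)
    (hf1 : ∀ t ∈ spectrum ℝ A, 0 ≤ f t ∧ f t ≤ 1) (hg1 : ∀ t ∈ spectrum ℝ A, 0 ≤ g t ∧ g t ≤ 1)
    (hfa : ∀ t ∈ spectrum ℝ A, a < t → f t = 1) (hgb : ∀ t ∈ spectrum ℝ A, t < b → g t = 0) :
    cfc g A ≤ star V * cfc f A * V := by
  have hb : 0 < b := ha.trans hab
  have hsa : IsSelfAdjoint A := hA.isSelfAdjoint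
  have hsF : IsSelfAdjoint (cfc f A) := cfc_predicate _ A
  have hsG : IsSelfAdjoint (cfc g A) := cfc_predicate _ A
  have hF0 : 0 ≤ cfc f A := cfc_nonneg fun t ht => (hf1 t ht).1
  have hX0 : 0 ≤ star V * cfc f A * V := star_left_conjugate_nonneg hF0 V
  -- E G = G
  have hmax : Continuous fun t : ℝ => max t b := continuous_id.max continuous_const
  have hmax0 : ∀ t : ℝ, max t b ≠ 0 := fun t => (lt_of_lt_of_le hb (le_max_right t b)).ne'
  have hgm : Continuous fun t : ℝ => g t / max t b := hg.div hmax hmax0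
  have hk : A * cfc (fun t => g t / max t b) A = cfc g A := by
    have h1 : A * cfc (fun t => g t / max t b) A =
        cfc (fun t => t * (g t / max t b)) A := by
      rw [cfc_mul (fun t => t) _ A continuous_id.continuousOn hgm.continuousOn,
        cfc_id' ℝ A]
    rw [h1]
    refine cfc_congr fun t ht => ?_
    by_cases h0 : t < b
    · simp [hgb t ht h0]
    · have h2 : b ≤ t := not_lt.1 h0
      have h3 : t ≠ 0 := (lt_of_lt_of_le hb h2).ne'
      simp only [max_eq_left h2]
      field_simp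
  have hEG : star V * V * cfc g A = cfc g A := by
    rw [← hk, ← mul_assoc, hVA]
  -- (1 - f)(A) V g(A) = 0
  have hz : cfc (fun t => 1 - f t) A * V * cfc g A = 0 := by
    refine sep_zero hA hV hl0 hl1 heq ha hab _ _ (continuous_const.sub hf) hg ?_ ?_ ?_ ?_
    · intro t ht
      have := hf1 t ht
      rw [abs_le]; constructor <;> linarith
    · intro t ht
      have := hg1 t ht
      rw [abs_le]; constructor <;> linarith
    · intro t ht h
      by_contra hcon
      exact h (by rw [hfa t ht (not_le.1 hcon)]; ring)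
    · intro t ht h
      by_contra hcon
      exact h (hgb t ht (not_le.1 hcon))
  have hFVG : cfc f A * V * cfc g A = V * cfc g A := by
    have h1 : cfc (fun t => 1 - f t) A = 1 - cfc f A := by
      rw [cfc_sub (fun _ => (1 : ℝ)) f A continuousOn_const hf.continuousOn, cfc_const_one ℝ A]
    rw [h1, sub_mul, sub_mul, one_mul, sub_eq_zero] at hz
    exact hz.symm
  have hXG : (star V * cfc f A * V) * cfc g A = cfc g A := by
    have h1 : (star V * cfc f A * V) * cfc g A = star V * (cfc f A * V * cfc g A) := by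
      noncomm_ring
    rw [h1, hFVG, ← mul_assoc, hEG]
  have hcomm : Commute (star V * cfc f A * V) (cfc g A) := by
    have h1 := congrArg star hXG
    rw [star_mul, hsG.star_eq, hX0.isSelfAdjoint.star_eq] at h1
    exact hXG.trans h1.symm
  have h1G : 0 ≤ 1 - cfc g A := by
    have h1 : cfc (fun t => 1 - g t) A = 1 - cfc g A := by
      rw [cfc_sub (fun _ => (1 : ℝ)) g A continuousOn_const hg.continuousOn, cfc_const_one ℝ A]
    rw [← h1]
    exact cfc_nonneg fun t ht => by linarith [(hg1 t ht).2]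
  have h2 := Commute.mul_nonneg hX0 h1G ((Commute.one_right _).sub_right hcomm)
  rw [mul_sub, mul_one, hXG] at h2
  exact sub_nonneg.1 h2

/-- One level of the staircase. -/
lemma level_le {A V : M} (hA : 0 ≤ A) (hV : ‖V‖ ≤ 1) (hVA : star V * V * A = A) {l : ℝ}
    (hl0 : 0 < l) (hl1 : l < 1)
    (heq : pw A l * V * pw A (1 - l) + pw A (1 - l) * V * pw A l = V * A + V * A)
    (psi : ℝ → ℝ) (hpsi : Continuous psi) (K : ℝ) (hK0 : 0 < K)
    (hK : ∀ t ∈ spectrum ℝ A, t ≤ K)
    (hmono : ∀ s t, 0 ≤ s → s ≤ t → t ≤ K → psi s ≤ psi t) (hpsi0 : psi 0 = 0)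
    (k : ℕ) (hkK : (k : ℝ) + 2 < psi K) :
    cfc (fun t => cl (psi t - (k + 2 : ℕ))) A ≤ star V * cfc (fun t => cl (psi t - k)) A * V := by
  have hivt := intermediate_value_Icc hK0.le hpsi.continuousOn
  have hk0 : (0 : ℝ) ≤ k := Nat.cast_nonneg k
  have hmem : (k : ℝ) + 3 / 2 ∈ Set.Icc (psi 0) (psi K) := by
    rw [hpsi0]; constructor <;> linarith
  obtain ⟨c, ⟨hc0, hcK⟩, hc⟩ := hivt hmem
  have hc0' : 0 < c := by
    rcases hc0.eq_or_lt with h | h
    · rw [← h, hpsi0] at hc; linarith
    · exact h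
  have hcK' : c < K := by
    rcases hcK.eq_or_lt with h | h
    · rw [h] at hc; linarith
    · exact h
  obtain ⟨d, hd0, hd⟩ := Metric.continuous_iff.1 hpsi c (1 / 2) (by norm_num)
  -- a and b
  obtain ⟨e, he0, hed, hec, heK⟩ : ∃ e : ℝ, 0 < e ∧ e < d ∧ e < c ∧ e < K - c :=
    ⟨min d (min c (K - c)) / 2, by
      have : 0 < min d (min c (K - c)) := lt_min hd0 (lt_min hc0' (by linarith))
      linarith, by
      have h1 : 0 < min d (min c (K - c)) := lt_min hd0 (lt_min hc0' (by linarith))
      have h2 : min d (min c (K - c)) ≤ d := min_le_left _ _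
      linarith, by
      have h1 : 0 < min d (min c (K - c)) := lt_min hd0 (lt_min hc0' (by linarith))
      have h2 : min d (min c (K - c)) ≤ c := (min_le_right _ _).trans (min_le_left _ _)
      linarith, by
      have h1 : 0 < min d (min c (K - c)) := lt_min hd0 (lt_min hc0' (by linarith))
      have h2 : min d (min c (K - c)) ≤ K - c := (min_le_right _ _).trans (min_le_right _ _)
      linarith⟩
  have hda := hd (c - e) (by
    rw [Real.dist_eq]; rw [abs_lt]; constructor <;> linarith)
  have hdb := hd (c + e) (by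
    rw [Real.dist_eq]; rw [abs_lt]; constructor <;> linarith)
  rw [Real.dist_eq, abs_lt, hc] at hda hdb
  refine cut_le hA hV hVA hl0 hl1 heq (a := c - e) (b := c + e) (by linarith) (by linarith)
    _ _ (continuous_cl.comp (hpsi.sub continuous_const))
    (continuous_cl.comp (hpsi.sub continuous_const))
    (fun t _ => ⟨cl_nonneg _, cl_le_one _⟩) (fun t _ => ⟨cl_nonneg _, cl_le_one _⟩) ?_ ?_
  · intro t ht hat
    apply cl_of_ge
    have := hmono (c - e) t (by linarith) hat.le (hK t ht)
    linarith [hda.1]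
  · intro t ht htb
    apply cl_of_le
    have := hmono t (c + e) (spec_nonneg hA ht) htb.le (by linarith)
    push_cast
    linarith [hdb.2]

lemma level_le' {A V : M} (hA : 0 ≤ A) (hV : ‖V‖ ≤ 1) (hVA : star V * V * A = A) {l : ℝ}
    (hl0 : 0 < l) (hl1 : l < 1)
    (heq : pw A l * V * pw A (1 - l) + pw A (1 - l) * V * pw A l = V * A + V * A)
    (psi : ℝ → ℝ) (hpsi : Continuous psi) (K : ℝ) (hK0 : 0 < K)
    (hK : ∀ t ∈ spectrum ℝ A, t ≤ K)
    (hmono : ∀ s t, 0 ≤ s → s ≤ t → t ≤ K → psi s ≤ psi t) (hpsi0 : psi 0 = 0) (k : ℕ) :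
    cfc (fun t => cl (psi t - (k + 2 : ℕ))) A ≤ star V * cfc (fun t => cl (psi t - k)) A * V := by
  rcases lt_or_ge ((k : ℝ) + 2) (psi K) with h | h
  · exact level_le hA hV hVA hl0 hl1 heq psi hpsi K hK0 hK hmono hpsi0 k h
  · have h0 : cfc (fun t => cl (psi t - (k + 2 : ℕ))) A = 0 := by
      have h1 : cfc (fun t => cl (psi t - (k + 2 : ℕ))) A = cfc (fun _ => (0 : ℝ)) A := by
        refine cfc_congr fun t ht => ?_
        apply cl_of_le
        have := hmono t K (spec_nonneg hA ht) (hK t ht) le_rfl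
        push_cast
        linarith
      rw [h1, cfc_const_zero]
    rw [h0]
    exact star_left_conjugate_nonneg (cfc_nonneg fun t _ => cl_nonneg _) V

/-- The comparison for increasing functions, up to a constant. -/
lemma mono_le_two {A V : M} (hA : 0 ≤ A) (hV : ‖V‖ ≤ 1) (hVA : star V * V * A = A) {l : ℝ}
    (hl0 : 0 < l) (hl1 : l < 1)
    (heq : pw A l * V * pw A (1 - l) + pw A (1 - l) * V * pw A l = V * A + V * A)
    (psi : ℝ → ℝ) (hpsi : Continuous psi) (K : ℝ) (hK0 : 0 < K)
    (hK : ∀ t ∈ spectrum ℝ A, t ≤ K)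
    (hmono : ∀ s t, 0 ≤ s → s ≤ t → t ≤ K → psi s ≤ psi t) (hpsi0 : psi 0 = 0) :
    cfc psi A ≤ star V * cfc psi A * V + (1 + 1) := by
  have hsa : IsSelfAdjoint A := hA.isSelfAdjoint
  obtain ⟨N, hN⟩ := exists_nat_ge (psi K)
  have hcont : ∀ k : ℕ, Continuous fun t => cl (psi t - k) := fun k =>
    continuous_cl.comp (hpsi.sub continuous_const)
  have hrange : ∀ t ∈ spectrum ℝ A, 0 ≤ psi t ∧ psi t ≤ N := by
    intro t ht
    have h0 := spec_nonneg hA ht
    constructor
    · rw [← hpsi0]; exact hmono 0 t le_rfl h0 (hK t ht)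
    · exact (hmono t K h0 (hK t ht) le_rfl).trans hN
  have hsum : ∀ m : ℕ, N ≤ m →
      cfc psi A = ∑ k ∈ Finset.range m, cfc (fun t => cl (psi t - k)) A := by
    intro m hm
    rw [← cfc_sum (fun (k : ℕ) t => cl (psi t - k)) A (Finset.range m)
      (fun k _ => (hcont k).continuousOn)]
    refine cfc_congr fun t ht => ?_
    simp only [Finset.sum_apply]
    exact (sum_cl m (hrange t ht).1 ((hrange t ht).2.trans (by exact_mod_cast hm))).symm
  have h1 : ∀ k : ℕ, cfc (fun t => cl (psi t - k)) A ≤ 1 := by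
    intro k
    rw [← sub_nonneg]
    have h2 : cfc (fun t => 1 - cl (psi t - k)) A = 1 - cfc (fun t => cl (psi t - k)) A := by
      rw [cfc_sub (fun _ => (1 : ℝ)) _ A continuousOn_const (hcont k).continuousOn,
        cfc_const_one ℝ A]
    rw [← h2]
    exact cfc_nonneg fun t _ => by linarith [cl_le_one (psi t - k)]
  calc cfc psi A = ∑ k ∈ Finset.range (N + 2), cfc (fun t => cl (psi t - k)) A :=
        hsum (N + 2) (by omega)
    _ = ∑ k ∈ Finset.range N, cfc (fun t => cl (psi t - (k + 2 : ℕ))) A +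
          cfc (fun t => cl (psi t - (1 : ℕ))) A + cfc (fun t => cl (psi t - (0 : ℕ))) A := by
        rw [Finset.sum_range_succ' _ (N + 1), Finset.sum_range_succ' _ N]
    _ ≤ ∑ k ∈ Finset.range N, star V * cfc (fun t => cl (psi t - k)) A * V + 1 + 1 := by
        refine add_le_add (add_le_add (Finset.sum_le_sum fun k _ => ?_) (h1 1)) (h1 0)
        exact level_le' hA hV hVA hl0 hl1 heq psi hpsi K hK0 hK hmono hpsi0 k
    _ = star V * cfc psi A * V + (1 + 1) := by
        rw [hsum N le_rfl, Finset.mul_sum, Finset.sum_mul, add_assoc]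

/-- The comparison for increasing functions. -/
lemma mono_le {A V : M} (hA : 0 ≤ A) (hV : ‖V‖ ≤ 1) (hVA : star V * V * A = A) {l : ℝ}
    (hl0 : 0 < l) (hl1 : l < 1)
    (heq : pw A l * V * pw A (1 - l) + pw A (1 - l) * V * pw A l = V * A + V * A)
    (phi : ℝ → ℝ) (hphi : Continuous phi) (K : ℝ) (hK0 : 0 < K)
    (hK : ∀ t ∈ spectrum ℝ A, t ≤ K)
    (hmono : ∀ s t, 0 ≤ s → s ≤ t → t ≤ K → phi s ≤ phi t) (hphi0 : phi 0 = 0) :
    cfc phi A ≤ star V * cfc phi A * V := by
  have hN : ∀ n : ℕ, cfc phi A ≤ star V * cfc phi A * V + ((n : ℝ) + 1)⁻¹ • ((1 : M) + 1) := by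
    intro n
    have hn : (0 : ℝ) < (n : ℝ) + 1 := by positivity
    have h := mono_le_two hA hV hVA hl0 hl1 heq (fun t => ((n : ℝ) + 1) * phi t)
      (continuous_const.mul hphi) K hK0 hK
      (fun s t h1 h2 h3 => mul_le_mul_of_nonneg_left (hmono s t h1 h2 h3) hn.le)
      (by simp [hphi0])
    rw [cfc_const_mul _ _ A hphi.continuousOn, mul_smul_comm, smul_mul_assoc] at h
    have h2 := smul_le_smul_of_nonneg_left h (inv_nonneg.2 hn.le)
    rwa [smul_add, smul_smul, smul_smul, inv_mul_cancel₀ hn.ne', one_smul, one_smul] at h2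
  have hlim : Tendsto (fun n : ℕ => star V * cfc phi A * V + ((n : ℝ) + 1)⁻¹ • ((1 : M) + 1)) atTop
      (𝓝 (star V * cfc phi A * V + (0 : ℝ) • ((1 : M) + 1))) := by
    refine tendsto_const_nhds.add (Tendsto.smul_const ?_ _)
    exact tendsto_one_div_add_atTop_nhds_zero_nat.congr fun n => by rw [one_div]
  rw [zero_smul, add_zero] at hlim
  exact ge_of_tendsto' hlim hN

/-- `V*V` fixes all positive powers. -/
lemma E_pw {A E : M} (hA : 0 ≤ A) (hE : E * A = A) {p : ℝ} (hp : 0 < p) :
    E * pw A p = pw A p := by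
  have key : ∀ n : ℕ, ∀ q : ℝ, 0 < q → 1 ≤ 2 ^ n * q → (1 - E) * pw A q = 0 := by
    intro n
    induction n with
    | zero =>
      intro q hq h
      rw [pow_zero, one_mul] at h
      have h1 : pw A q = A * pw A (q - 1) := by
        have h2 := pw_add hA (p := 1) (q := q - 1) zero_le_one (by linarith)
        rw [pw_one hA] at h2
        rw [h2]; congr 1; ring
      rw [h1, ← mul_assoc, sub_mul, one_mul, hE, sub_self, zero_mul]
    | succ n ih =>
      intro q hq h
      have h1 := ih (q + q) (by linarith) (by rw [pow_succ] at h; nlinarith)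
      have h2 : ((1 - E) * pw A q) * star ((1 - E) * pw A q) = 0 := by
        rw [star_mul, (pw_selfAdjoint A q).star_eq]
        calc (1 - E) * pw A q * (pw A q * star (1 - E))
            = (1 - E) * (pw A q * pw A q) * star (1 - E) := by noncomm_ring
          _ = 0 := by rw [pw_add hA hq.le hq.le, h1, zero_mul]
      exact CStarRing.mul_star_self_eq_zero_iff _ |>.1 h2
  obtain ⟨n, hn⟩ := pow_unbounded_of_one_lt (1 / p) (one_lt_two (α := ℝ))
  have h := key n p hp (by
    rw [div_lt_iff₀ hp] at hn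
    exact hn.le)
  rw [sub_mul, one_mul, sub_eq_zero] at h
  exact h.symm

/-- The main lemma: fixed points have commuting polar factors. -/
lemma main_le {A V : M} (hA : 0 ≤ A) (hV : ‖V‖ ≤ 1) (hV3 : V * star V * V = V)
    (hVA : star V * V * A = A) (hker : ∀ Z : M, A * Z = 0 → V * Z = 0) {l : ℝ}
    (hl0 : 0 < l) (hl1 : l ≤ 1 / 2)
    (heq : pw A l * V * pw A (1 - l) + pw A (1 - l) * V * pw A l = V * A + V * A) :
    A * V = V * A := by
  have hsa : IsSelfAdjoint A := hA.isSelfAdjoint
  have hl1' : l < 1 := by linarith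
  have hl1'' : 0 < 1 - l := by linarith
  set K : ℝ := ‖A‖ + 1 with hKdef
  have hK0 : 0 < K := by positivity
  have hK : ∀ t ∈ spectrum ℝ A, t ≤ K := by
    intro t ht
    have h1 : ‖t‖ ≤ ‖A‖ * ‖(1 : M)‖ := spectrum.norm_le_norm_mul_of_mem ht
    have h2 : ‖(1 : M)‖ ≤ 1 := by
      rcases subsingleton_or_nontrivial M with h | h
      · rw [Subsingleton.elim (1 : M) 0, norm_zero]; exact zero_le_one
      · rw [CStarRing.norm_one]
    have h3 : t ≤ ‖t‖ := by rw [Real.norm_eq_abs]; exact le_abs_self t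
    have h4 : ‖A‖ * ‖(1 : M)‖ ≤ ‖A‖ * 1 := mul_le_mul_of_nonneg_left h2 (norm_nonneg _)
    linarith
  have hpm : ∀ q : ℝ, 0 < q → pw A q ≤ star V * pw A q * V := by
    intro q hq
    exact mono_le hA hV hVA hl0 hl1' heq (fun t => t ^ q) (cont_rpow hq.le) K hK0 hK
      (fun s t h1 h2 _ => Real.rpow_le_rpow h1 h2 hq.le) (Real.zero_rpow hq.ne')
  have hVs : star V * V * star V = star V := by
    have h := congrArg star hV3
    rwa [star_mul, star_mul, star_star, ← mul_assoc] at h
  have hEp : ∀ q : ℝ, 0 < q → star V * V * pw A q = pw A q := fun q hq => E_pw hA hVA hq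
  have hpE : ∀ q : ℝ, 0 < q → pw A q * (star V * V) = pw A q := by
    intro q hq
    have h := congrArg star (hEp q hq)
    rwa [star_mul, star_mul, star_star, (pw_selfAdjoint A q).star_eq] at h
  -- cancellation principle
  have hcancel : ∀ X : M, X * A = 0 → X * (star V * V) = X → X = 0 := by
    intro X h1 h2
    have h3 : A * star X = 0 := by
      have h := congrArg star h1
      rwa [star_mul, hsa.star_eq, star_zero] at h
    have h4 := hker _ h3
    have h5 : X * star V = 0 := by
      have h := congrArg star h4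
      rwa [star_mul, star_star, star_zero] at h
    rw [← h2, ← mul_assoc, h5, zero_mul]
  have hpA : ∀ q : ℝ, 0 ≤ q → q ≤ 1 → pw A q * pw A (1 - q) = A := by
    intro q h0 h1
    rw [pw_add hA h0 (by linarith)]
    have : q + (1 - q) = 1 := by ring
    rw [this, pw_one hA]
  have h12 : 0 ≤ 1 - 2 * l := by linarith
  set C1 := star V * pw A l * V with hC1
  set C2 := star V * pw A (1 - l) * V with hC2
  have hC1E : C1 * (star V * V) = C1 := by
    calc star V * pw A l * V * (star V * V) = star V * pw A l * (V * star V * V) := by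
          noncomm_ring
      _ = _ := by rw [hV3]
  have hC2E : C2 * (star V * V) = C2 := by
    calc star V * pw A (1 - l) * V * (star V * V) = star V * pw A (1 - l) * (V * star V * V) := by
          noncomm_ring
      _ = _ := by rw [hV3]
  have hC1s : IsSelfAdjoint C1 := by
    rw [hC1, IsSelfAdjoint, star_mul, star_mul, star_star, (pw_selfAdjoint A l).star_eq, mul_assoc]
  have hC2s : IsSelfAdjoint C2 := by
    rw [hC2, IsSelfAdjoint, star_mul, star_mul, star_star, (pw_selfAdjoint A (1 - l)).star_eq,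
      mul_assoc]
  -- the compressed equation
  have e0 : C1 * pw A (1 - l) + C2 * pw A l = A + A := by
    calc star V * pw A l * V * pw A (1 - l) + star V * pw A (1 - l) * V * pw A l
        = star V * (pw A l * V * pw A (1 - l) + pw A (1 - l) * V * pw A l) := by noncomm_ring
      _ = star V * V * A + star V * V * A := by rw [heq]; noncomm_ring
      _ = A + A := by rw [hVA]
  have e1 : (C1 * pw A (1 - 2 * l) + C2 - (pw A (1 - l) + pw A (1 - l))) = 0 := by
    apply hcancel
    · have h1 : A = pw A l * pw A (1 - l) := (hpA l hl0.le hl1'.le).symm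
      have h2 : pw A (1 - 2 * l) * pw A l = pw A (1 - l) := by
        rw [pw_add hA h12 hl0.le]; congr 1; ring
      have h3 : pw A (1 - l) * pw A l = A := by
        rw [pw_add hA hl1''.le hl0.le]
        have : 1 - l + l = 1 := by ring
        rw [this, pw_one hA]
      calc (C1 * pw A (1 - 2 * l) + C2 - (pw A (1 - l) + pw A (1 - l))) * A
          = (C1 * pw A (1 - 2 * l) + C2 - (pw A (1 - l) + pw A (1 - l))) *
            (pw A l * pw A (1 - l)) := by rw [← h1]
        _ = (C1 * (pw A (1 - 2 * l) * pw A l) + C2 * pw A l -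
              (pw A (1 - l) * pw A l + pw A (1 - l) * pw A l)) * pw A (1 - l) := by noncomm_ring
        _ = 0 := by rw [h2, h3, e0, sub_self, zero_mul]
    · rcases h12.eq_or_lt with h | h
      · have h0 : pw A (1 - 2 * l) = 1 := by
          rw [← h]; unfold pw; simp_rw [Real.rpow_zero]; exact cfc_const_one ℝ A
        rw [h0, mul_one, sub_mul, add_mul, add_mul, hC1E, hC2E, hpE _ hl1'']
      · rw [sub_mul, add_mul, add_mul, hC2E, hpE _ hl1'', mul_assoc, hpE _ h]
  have e2 : C1 * pw A (1 - 2 * l) = pw A (1 - l) + pw A (1 - l) - C2 := by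
    rw [sub_eq_zero] at e1
    rw [← e1]; abel
  have hcomm : Commute C1 (pw A (1 - 2 * l)) := by
    have h1 : IsSelfAdjoint (C1 * pw A (1 - 2 * l)) := by
      rw [e2]
      exact ((pw_selfAdjoint A _).add (pw_selfAdjoint A _)).sub hC2s
    have h2 := h1.star_eq
    rw [star_mul, hC1s.star_eq, (pw_selfAdjoint A _).star_eq] at h2
    exact h2.symm
  have hc1 : 0 ≤ C1 - pw A l := sub_nonneg.2 (hpm l hl0)
  have hc2 : 0 ≤ C2 - pw A (1 - l) := sub_nonneg.2 (hpm (1 - l) hl1'')
  have hpcomm : pw A l * pw A (1 - 2 * l) = pw A (1 - l) := by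
    rw [pw_add hA hl0.le h12]; congr 1; ring
  have hpcomm' : pw A (1 - 2 * l) * pw A l = pw A (1 - l) := by
    rw [pw_add hA h12 hl0.le]; congr 1; ring
  have hc3 : 0 ≤ (C1 - pw A l) * pw A (1 - 2 * l) := by
    refine Commute.mul_nonneg hc1 (pw_nonneg hA _) (hcomm.sub_left ?_)
    exact hpcomm.trans hpcomm'.symm
  have hc4 : (C1 - pw A l) * pw A (1 - 2 * l) + (C2 - pw A (1 - l)) = 0 := by
    rw [sub_mul, e2, hpcomm]; abel
  have hc5 : (C1 - pw A l) * pw A (1 - 2 * l) = 0 := by
    refine le_antisymm ?_ hc3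
    rw [← hc4]
    exact le_add_of_nonneg_right hc2
  have hc6 : C1 = pw A l := by
    rw [← sub_eq_zero]
    apply hcancel
    · have h1 : A = pw A (1 - 2 * l) * pw A (2 * l) := by
        rw [pw_add hA h12 (by linarith)]
        have : 1 - 2 * l + 2 * l = 1 := by ring
        rw [this, pw_one hA]
      calc (C1 - pw A l) * A = (C1 - pw A l) * (pw A (1 - 2 * l) * pw A (2 * l)) := by rw [← h1]
        _ = (C1 - pw A l) * pw A (1 - 2 * l) * pw A (2 * l) := by noncomm_ring
        _ = 0 := by rw [hc5, zero_mul]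
    · rw [sub_mul, hC1E, hpE _ hl0]
  -- the second function
  have hpow2 : ∀ t : ℝ, 0 ≤ t → t ^ (2 * l) = t ^ l * t ^ l := by
    intro t ht
    rw [← Real.rpow_add_of_nonneg ht hl0.le hl0.le]; congr 1; ring
  have hphi2 := mono_le hA hV hVA hl0 hl1' heq (fun t => 2 * K ^ l * t ^ l - t ^ (2 * l))
    ((continuous_const.mul (cont_rpow hl0.le)).sub (cont_rpow (by linarith))) K hK0 hK
    (by
      intro s t hs hst htK
      have ht : 0 ≤ t := hs.trans hst
      rw [hpow2 s hs, hpow2 t ht]
      have h1 : s ^ l ≤ t ^ l := Real.rpow_le_rpow hs hst hl0.le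
      have h2 : t ^ l ≤ K ^ l := Real.rpow_le_rpow ht htK hl0.le
      nlinarith)
    (by rw [Real.zero_rpow hl0.ne', Real.zero_rpow (by linarith)]; ring)
  have hcfc2 : cfc (fun t : ℝ => 2 * K ^ l * t ^ l - t ^ (2 * l)) A =
      (2 * K ^ l) • pw A l - pw A (2 * l) := by
    unfold pw
    rw [cfc_sub (fun t : ℝ => 2 * K ^ l * t ^ l) (fun t : ℝ => t ^ (2 * l)) A
      (continuous_const.mul (cont_rpow hl0.le)).continuousOn (cont_rpow (by linarith)).continuousOn,
      cfc_const_mul _ _ A (cont_rpow hl0.le).continuousOn]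
  rw [hcfc2] at hphi2
  have hC3 : star V * pw A (2 * l) * V = pw A (2 * l) := by
    refine le_antisymm ?_ (hpm (2 * l) (by linarith))
    have h1 : star V * ((2 * K ^ l) • pw A l - pw A (2 * l)) * V =
        (2 * K ^ l) • pw A l - star V * pw A (2 * l) * V := by
      rw [mul_sub, sub_mul, mul_smul_comm, smul_mul_assoc]
      rw [← hC1, hc6]
    rw [h1] at hphi2
    exact (sub_le_sub_iff_left _).1 hphi2
  have hll : pw A l * pw A l = pw A (2 * l) := by
    rw [pw_add hA hl0.le hl0.le]; congr 1; ring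
  have hfin : pw A l * V = V * pw A l := by
    rw [← sub_eq_zero]
    apply (CStarRing.star_mul_self_eq_zero_iff _).1
    rw [star_sub, star_mul, star_mul, (pw_selfAdjoint A l).star_eq]
    calc (star V * pw A l - pw A l * star V) * (pw A l * V - V * pw A l)
        = star V * (pw A l * pw A l) * V - (star V * pw A l * V) * pw A l -
          pw A l * (star V * pw A l * V) + pw A l * (star V * V * pw A l) := by noncomm_ring
      _ = 0 := by rw [hll, hC3, ← hC1, hc6, hll, hEp l hl0, hll]; abel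
  have hcom : Commute (pw A l) V := hfin
  have h1 := hcom.cfc_real (fun t => t ^ l⁻¹)
  have h2 : cfc (fun t : ℝ => t ^ l⁻¹) (pw A l) = A := by
    unfold pw
    rw [← cfc_comp' (fun t : ℝ => t ^ l⁻¹) (fun t : ℝ => t ^ l) A
      (cont_rpow (inv_nonneg.2 hl0.le)).continuousOn (cont_rpow hl0.le).continuousOn]
    conv_rhs => rw [← cfc_id' ℝ A]
    refine cfc_congr fun t ht => ?_
    exact Real.rpow_rpow_inv (spec_nonneg hA ht) hl0.ne'
  rw [h2] at h1
  exact h1

end

end Pool.Agent.V1195.Aluthge
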