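import Mathlib

/-!
# Fixed points of the mean-Aluthge transform: the algebraic core

Everything here takes place in a unital C*-algebra.
-/

set_option autoImplicit false

namespace Pool.Agent.V1195.MeanAlu

variable {R : Type*} [CStarAlgebra R] [PartialOrder R] [StarOrderedRing R]

/-- Operator monotonicity of the square root, in the form needed here. -/
lemma le_of_mul_self_le {X Y : R} (hX : 0 ≤ X) (hY : 0 ≤ Y) (h : X * X ≤ Y * Y) : X ≤ Y := by
  have h1 := CFC.sqrt_le_sqrt _ _ h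
  rwa [CFC.sqrt_mul_self X hX, CFC.sqrt_mul_self Y hY] at h1

lemma smul_nonneg' {c : ℝ} (hc : 0 ≤ c) {X : R} (hX : 0 ≤ X) : 0 ≤ c • X := smul_nonneg hc hX

lemma smul_mono_left {c d : ℝ} (h : c ≤ d) {X : R} (hX : 0 ≤ X) : c • X ≤ d • X :=
  smul_le_smul_of_nonneg_right h hX

lemma smul_mono_right {c : ℝ} (hc : 0 ≤ c) {X Y : R} (h : X ≤ Y) : c • X ≤ c • Y :=
  smul_le_smul_of_nonneg_left h hc

/-- The data of the core theorem. -/
structure Data (R : Type*) [CStarAlgebra R] [PartialOrder R] [StarOrderedRing R] where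
  P : R
  Z : R
  A : R
  V : R
  W : R
  E : R
  hZ : 0 ≤ Z
  hP : P = Z * Z
  hA : 0 ≤ A
  hVE : star V * V = E
  hWE : star W * W = E
  hV : V * E = V
  hW : W * E = W
  hEZ : E * Z = Z
  hEA : E * A = A
  hS : Z * V * Z = W * A
  hfix : V * P + V * P = W * A + A * W

namespace Data

variable (D : Data R)

lemma sZ : star D.Z = D.Z := (IsSelfAdjoint.of_nonneg D.hZ).star_eq
lemma sA : star D.A = D.A := (IsSelfAdjoint.of_nonneg D.hA).star_eq
lemma sP : star D.P = D.P := by rw [D.hP, star_mul, D.sZ]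
lemma sE : star D.E = D.E := by rw [← D.hVE, star_mul, star_star]
lemma hZE : D.Z * D.E = D.Z := by
  have := congrArg star D.hEZ
  rwa [star_mul, D.sZ, D.sE] at this
lemma hAE : D.A * D.E = D.A := by
  have := congrArg star D.hEA
  rwa [star_mul, D.sA, D.sE] at this
lemma hEP : D.E * D.P = D.P := by rw [D.hP, ← mul_assoc, D.hEZ]
lemma hPE : D.P * D.E = D.P := by rw [D.hP, mul_assoc, D.hZE]
lemma P_nonneg : 0 ≤ D.P := by
  have := star_mul_self_nonneg D.Z
  rwa [D.sZ, ← D.hP] at this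

lemma sS : D.Z * star D.V * D.Z = D.A * star D.W := by
  have := congrArg star D.hS
  simpa only [star_mul, D.sZ, D.sA, mul_assoc] using this

/-- `A = Z V* Z W`. -/
lemma A_eq : D.Z * star D.V * D.Z * D.W = D.A := by
  rw [D.sS, mul_assoc, D.hWE, D.hAE]

lemma A_eq' : star D.W * D.Z * D.V * D.Z = D.A := by
  have : star D.W * D.Z * D.V * D.Z = star D.W * (D.Z * D.V * D.Z) := by noncomm_ring
  rw [this, D.hS, ← mul_assoc, D.hWE, D.hEA]

lemma AA : D.A * D.A = D.Z * (star D.V * D.P * D.V) * D.Z := by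
  have h : D.Z * (star D.V * D.P * D.V) * D.Z =
      (D.Z * star D.V * D.Z) * (D.Z * D.V * D.Z) := by rw [D.hP]; noncomm_ring
  rw [h, D.sS, D.hS]
  have h2 : D.A * star D.W * (D.W * D.A) = D.A * (star D.W * D.W) * D.A := by noncomm_ring
  rw [h2, D.hWE, D.hAE]

/-- `1 - W W* ≥ 0`. -/
lemma one_sub_nonneg : 0 ≤ 1 - D.W * star D.W := by
  have h : star (1 - D.W * star D.W) * (1 - D.W * star D.W) = 1 - D.W * star D.W := by
    have h1 : D.W * star D.W * (D.W * star D.W) = D.W * star D.W := by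
      have : D.W * star D.W * (D.W * star D.W) = D.W * (star D.W * D.W) * star D.W := by
        noncomm_ring
      rw [this, D.hWE, D.hW]
    rw [star_sub, star_one, star_mul, star_star]
    calc (1 - D.W * star D.W) * (1 - D.W * star D.W)
        = 1 - D.W * star D.W - D.W * star D.W + D.W * star D.W * (D.W * star D.W) := by
          noncomm_ring
      _ = 1 - D.W * star D.W := by rw [h1]; abel
  rw [← h]
  exact star_mul_self_nonneg _

/-- `B = W* A W`. -/
def B : R := star D.W * D.A * D.W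

lemma B_nonneg : 0 ≤ D.B := star_left_conjugate_nonneg D.hA D.W

lemma WT : star D.W * (D.V * D.P + D.V * D.P) = D.A + D.B := by
  rw [D.hfix, mul_add, ← mul_assoc, D.hWE, D.hEA, B, mul_assoc]

/-- (a) `A + B ≤ 2 P`. -/
lemma stepA : D.A + D.B ≤ D.P + D.P := by
  refine le_of_mul_self_le (add_nonneg D.hA D.B_nonneg) (add_nonneg D.P_nonneg D.P_nonneg) ?_
  have hs : star (D.A + D.B) = D.A + D.B :=
    (IsSelfAdjoint.of_nonneg (add_nonneg D.hA D.B_nonneg)).star_eq
  have h1 : (D.A + D.B) * (D.A + D.B) =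
      star (D.V * D.P + D.V * D.P) * (D.W * star D.W) * (D.V * D.P + D.V * D.P) := by
    conv_lhs => rw [← D.WT]
    nth_rewrite 1 [D.WT]
    rw [← hs, ← D.WT, star_mul, star_star]
    noncomm_ring
  have h2 : (D.P + D.P) * (D.P + D.P) =
      star (D.V * D.P + D.V * D.P) * (D.V * D.P + D.V * D.P) := by
    rw [star_add, star_mul, D.sP]
    have : (D.P * star D.V + D.P * star D.V) * (D.V * D.P + D.V * D.P) =
      (D.P * (star D.V * D.V) + D.P * (star D.V * D.V)) * (D.P + D.P) := by noncomm_ring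
    rw [this, D.hVE, D.hPE]
  rw [← sub_nonneg, h1, h2]
  have h3 : star (D.V * D.P + D.V * D.P) * (D.V * D.P + D.V * D.P) -
      star (D.V * D.P + D.V * D.P) * (D.W * star D.W) * (D.V * D.P + D.V * D.P) =
      star (D.V * D.P + D.V * D.P) * (1 - D.W * star D.W) * (D.V * D.P + D.V * D.P) := by
    noncomm_ring
  rw [h3]
  exact star_left_conjugate_nonneg D.one_sub_nonneg _

lemma stepA_eq (h : D.A + D.B = D.P + D.P) : D.W * D.P = D.V * D.P := by
  -- `W* T = P`, so `T* (1 - W W*) T = 0`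
  have h0 : star D.W * (D.V * D.P) = D.P := by
    have h1 := D.WT
    rw [h, mul_add] at h1
    have h2 : (2 : ℝ) • (star D.W * (D.V * D.P)) = (2 : ℝ) • D.P := by
      rw [two_smul, two_smul]; exact h1
    exact smul_right_injective R (two_ne_zero) h2
  have h1 : star ((1 - D.W * star D.W) * (D.V * D.P)) * ((1 - D.W * star D.W) * (D.V * D.P)) = 0 := by
    have hWW : D.W * star D.W * (D.W * star D.W) = D.W * star D.W := by
      have : D.W * star D.W * (D.W * star D.W) = D.W * (star D.W * D.W) * star D.W := by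
        noncomm_ring
      rw [this, D.hWE, D.hW]
    have h2 : star ((1 - D.W * star D.W) * (D.V * D.P)) * ((1 - D.W * star D.W) * (D.V * D.P)) =
        star (D.V * D.P) * (D.V * D.P) -
          star (star D.W * (D.V * D.P)) * (star D.W * (D.V * D.P)) := by
      rw [star_mul, star_sub, star_one, star_mul D.W, star_star, star_mul (star D.W), star_star]
      calc star (D.V * D.P) * (1 - D.W * star D.W) * ((1 - D.W * star D.W) * (D.V * D.P))
          = star (D.V * D.P) * (1 - D.W * star D.W - D.W * star D.W +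
              D.W * star D.W * (D.W * star D.W)) * (D.V * D.P) := by noncomm_ring
        _ = star (D.V * D.P) * (1 - D.W * star D.W) * (D.V * D.P) := by rw [hWW]; noncomm_ring
        _ = _ := by noncomm_ring
    rw [h2, h0, star_mul, D.sP]
    have h3 : D.P * star D.V * (D.V * D.P) = D.P * (star D.V * D.V) * D.P := by noncomm_ring
    rw [h3, D.hVE, D.hPE, sub_self]
  have h2 : (1 - D.W * star D.W) * (D.V * D.P) = 0 := by
    rwa [CStarRing.star_mul_self_eq_zero_iff] at h1
  rw [sub_mul, one_mul, mul_assoc, h0, sub_eq_zero] at h2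
  exact h2.symm

/-- (i) -/
lemma stepI (t : ℝ) : (2 * t) • D.A ≤ star D.W * D.P * D.W + (t ^ 2) • D.P := by
  have h := star_mul_self_nonneg (D.Z * D.W - t • (D.V * D.Z))
  have h1 : star (D.Z * D.W - t • (D.V * D.Z)) * (D.Z * D.W - t • (D.V * D.Z)) =
      star D.W * D.P * D.W + (t ^ 2) • D.P - (2 * t) • D.A := by
    rw [star_sub, star_smul, star_mul, star_mul, D.sZ, star_trivial t]
    calc (star D.W * D.Z - t • (D.Z * star D.V)) * (D.Z * D.W - t • (D.V * D.Z))
        = star D.W * (D.Z * D.Z) * D.W - t • (star D.W * D.Z * D.V * D.Z)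
          - t • (D.Z * star D.V * D.Z * D.W) + (t ^ 2) • (D.Z * (star D.V * D.V) * D.Z) := by
          simp only [sub_mul, mul_sub, smul_mul_assoc, mul_smul_comm, smul_sub, smul_smul, pow_two,
            mul_assoc]
          abel
      _ = star D.W * D.P * D.W - t • D.A - t • D.A + (t ^ 2) • D.P := by
          rw [D.A_eq, D.A_eq', D.hVE, D.hZE, ← D.hP]
      _ = _ := by
          rw [two_mul, add_smul]; abel
  rw [h1] at h
  exact sub_nonneg.1 h

/-- `P̂ = V P V*`. -/
def Ph : R := D.V * D.P * star D.V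

/-- `Â = W A W*`. -/
def Ah : R := D.W * D.A * star D.W

lemma Ph_nonneg : 0 ≤ D.Ph := star_right_conjugate_nonneg D.P_nonneg D.V
lemma Ah_nonneg : 0 ≤ D.Ah := star_right_conjugate_nonneg D.hA D.W

/-- (ii) `2 P̂ ≤ A + Â`. -/
lemma stepII : D.Ph + D.Ph ≤ D.A + D.Ah := by
  refine le_of_mul_self_le (add_nonneg D.Ph_nonneg D.Ph_nonneg) (add_nonneg D.hA D.Ah_nonneg) ?_
  have h1 : (D.Ph + D.Ph) * (D.Ph + D.Ph) =
      (D.V * D.P + D.V * D.P) * star (D.V * D.P + D.V * D.P) := by
    rw [Ph, star_add, star_mul, D.sP]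
    calc (D.V * D.P * star D.V + D.V * D.P * star D.V) * (D.V * D.P * star D.V + D.V * D.P * star D.V)
        = (D.V * D.P + D.V * D.P) * ((star D.V * D.V) * D.P * star D.V +
            (star D.V * D.V) * D.P * star D.V) := by noncomm_ring
      _ = _ := by rw [D.hVE, D.hEP]
  have h2 : (D.A + D.Ah) * (D.A + D.Ah) - (D.Ph + D.Ph) * (D.Ph + D.Ph) =
      D.A * (1 - D.W * star D.W) * D.A := by
    rw [h1, D.hfix, star_add, star_mul, star_mul, D.sA, Ah]
    have h3 : D.W * D.A * star D.W * (D.W * D.A * star D.W) = D.W * D.A * (D.A * star D.W) := by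
      have : D.W * D.A * star D.W * (D.W * D.A * star D.W) =
        D.W * (D.A * (star D.W * D.W)) * D.A * star D.W := by noncomm_ring
      rw [this, D.hWE, D.hAE]; noncomm_ring
    calc (D.A + D.W * D.A * star D.W) * (D.A + D.W * D.A * star D.W) -
          (D.W * D.A + D.A * D.W) * (D.A * star D.W + star D.W * D.A)
        = D.A * D.A + D.W * D.A * star D.W * (D.W * D.A * star D.W) -
          (D.W * D.A * (D.A * star D.W)) - D.A * D.W * star D.W * D.A := by noncomm_ring
      _ = _ := by rw [h3]; noncomm_ring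
  rw [← sub_nonneg, h2]
  have h4 := star_left_conjugate_nonneg D.one_sub_nonneg D.A
  rwa [D.sA] at h4

/-- (iii) `Â² = Z P̂ Z`. -/
lemma AhAh : D.Ah * D.Ah = D.Z * D.Ph * D.Z := by
  have h3 : D.W * D.A * star D.W * (D.W * D.A * star D.W) = D.W * D.A * (D.A * star D.W) := by
    have : D.W * D.A * star D.W * (D.W * D.A * star D.W) =
      D.W * (D.A * (star D.W * D.W)) * D.A * star D.W := by noncomm_ring
    rw [this, D.hWE, D.hAE]; noncomm_ring
  rw [Ah, h3, ← D.hS, ← D.sS, Ph, D.hP]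
  noncomm_ring

lemma conjZ {X Y : R} (h : X ≤ Y) : D.Z * X * D.Z ≤ D.Z * Y * D.Z := by
  have := star_left_conjugate_le_conjugate h D.Z
  rwa [D.sZ] at this

/-- (iv) -/
lemma stepIV {c : ℝ} (hc : 0 ≤ c) (h : D.Ph ≤ (c ^ 2) • D.P) : D.Ah ≤ c • D.P := by
  refine le_of_mul_self_le D.Ah_nonneg (smul_nonneg hc D.P_nonneg) ?_
  rw [D.AhAh]
  refine (D.conjZ h).trans (le_of_eq ?_)
  have h1 : D.Z * ((c ^ 2) • D.P) * D.Z = (c ^ 2) • (D.Z * D.P * D.Z) := by
    rw [mul_smul_comm, smul_mul_assoc]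
  have h2 : D.Z * D.P * D.Z = D.P * D.P := by
    rw [D.hP]; noncomm_ring
  rw [h1, h2, smul_mul_smul_comm, pow_two]

/-- (v) -/
lemma stepV {c e : ℝ} (hc : 0 ≤ c) (he : 0 ≤ e) (h : D.Ph ≤ (c ^ 2) • (D.P + e • 1)) :
    D.Ah ≤ c • (D.P + e • 1) := by
  have hPe : (0 : R) ≤ D.P + e • 1 := add_nonneg D.P_nonneg (smul_nonneg he zero_le_one)
  refine le_of_mul_self_le D.Ah_nonneg (smul_nonneg hc hPe) ?_
  rw [D.AhAh]
  refine (D.conjZ h).trans ?_
  have h1 : D.Z * ((c ^ 2) • (D.P + e • (1 : R))) * D.Z = (c ^ 2) • (D.P * D.P + e • D.P) := by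
    rw [mul_smul_comm, smul_mul_assoc, mul_add, add_mul, mul_smul_comm, smul_mul_assoc, mul_one,
      ← D.hP]
    congr 2
    rw [D.hP]; noncomm_ring
  rw [h1, smul_mul_smul_comm, ← pow_two c]
  refine smul_le_smul_of_nonneg_left ?_ (sq_nonneg c)
  rw [← sub_nonneg]
  have h2 : (D.P + e • (1 : R)) * (D.P + e • 1) - (D.P * D.P + e • D.P) =
      e • D.P + (e * e) • (1 : R) := by
    simp only [add_mul, mul_add, smul_mul_assoc, mul_smul_comm, one_mul, mul_one, smul_add,
      smul_smul]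
    abel
  rw [h2]
  exact add_nonneg (smul_nonneg he D.P_nonneg) (smul_nonneg (mul_nonneg he he) zero_le_one)

/-- (vi) -/
lemma stepVI {c : ℝ} (hc : 0 ≤ c) (h : D.Ph ≤ (c ^ 2) • D.P) : D.P ≤ c • D.A := by
  refine le_of_mul_self_le D.P_nonneg (smul_nonneg hc D.hA) ?_
  have h1 := star_left_conjugate_le_conjugate h D.V
  have h2 : star D.V * D.Ph * D.V = D.P := by
    have : star D.V * D.Ph * D.V = (star D.V * D.V) * D.P * (star D.V * D.V) := by
      rw [Ph]; noncomm_ring
    rw [this, D.hVE, D.hEP, D.hPE]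
  rw [h2] at h1
  have h3 := D.conjZ h1
  have h4 : D.Z * D.P * D.Z = D.P * D.P := by rw [D.hP]; noncomm_ring
  have h5 : D.Z * (star D.V * ((c ^ 2) • D.P) * D.V) * D.Z = (c • D.A) * (c • D.A) := by
    rw [smul_mul_smul_comm, D.AA, mul_smul_comm, smul_mul_assoc, mul_smul_comm, smul_mul_assoc,
      pow_two]
  rwa [h4, h5] at h3

/-- (vii) -/
lemma stepVII {c t : ℝ} (hc : 0 < c) (ht : 0 < t) (htc : t ^ 2 + c * t = 2 * c)
    (h : D.P ≤ c • D.A) : D.A ≤ t • D.P := by
  -- W* P W ≤ c B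
  have h1 : star D.W * D.P * D.W ≤ c • D.B := by
    have := star_left_conjugate_le_conjugate h D.W
    rwa [mul_smul_comm, smul_mul_assoc] at this
  have h2 := D.stepI t
  have h3 := smul_mono_right hc.le D.stepA
  have h4 : (c + 2 * t) • D.A ≤ (2 * c + t ^ 2) • D.P := by
    calc (c + 2 * t) • D.A = c • D.A + (2 * t) • D.A := by rw [add_smul]
      _ ≤ c • D.A + (star D.W * D.P * D.W + (t ^ 2) • D.P) := by gcongr
      _ ≤ c • D.A + (c • D.B + (t ^ 2) • D.P) := by gcongr
      _ = c • (D.A + D.B) + (t ^ 2) • D.P := by rw [smul_add]; abel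
      _ ≤ c • (D.P + D.P) + (t ^ 2) • D.P := by gcongr
      _ = (2 * c + t ^ 2) • D.P := by rw [smul_add, add_smul, two_mul, add_smul]
  have h5 : 2 * c + t ^ 2 = (c + 2 * t) * t := by nlinarith
  rw [h5, mul_smul] at h4
  have h6 : 0 < c + 2 * t := by positivity
  have h7 := smul_mono_right (inv_nonneg.2 h6.le) h4
  rwa [smul_smul, smul_smul, inv_mul_cancel₀ h6.ne', one_smul, one_smul] at h7

lemma exists_t {c : ℝ} (hc : 0 < c) : ∃ t : ℝ, 0 < t ∧ t ^ 2 + c * t = 2 * c := by
  refine ⟨(Real.sqrt (c ^ 2 + 8 * c) - c) / 2, ?_, ?_⟩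
  · have : c < Real.sqrt (c ^ 2 + 8 * c) := by
      apply Real.lt_sqrt_of_sq_lt
      nlinarith
    linarith
  · have h := Real.sq_sqrt (show 0 ≤ c ^ 2 + 8 * c by positivity)
    nlinarith

lemma A_le : D.A ≤ (2 : ℝ) • D.P := by
  have h := D.stepA
  rw [two_smul]
  exact (le_add_of_nonneg_right D.B_nonneg).trans h

/-- A priori bound. -/
lemma apriori {e : ℝ} (he : 0 < e) : D.Ph ≤ (4 : ℝ) • (D.P + e • 1) := by
  have hPe : (0 : R) ≤ D.P + e • 1 := add_nonneg D.P_nonneg (smul_nonneg he.le zero_le_one)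
  set L : Set ℝ := {c | 0 ≤ c ∧ D.Ph ≤ (c ^ 2) • (D.P + e • 1)} with hL
  have hcl : IsClosed L := by
    apply IsClosed.inter
    · exact isClosed_Ici
    · exact isClosed_le continuous_const (by fun_prop)
  have hne : L.Nonempty := by
    refine ⟨Real.sqrt (‖D.Ph‖ / e), Real.sqrt_nonneg _, ?_⟩
    rw [Real.sq_sqrt (by positivity)]
    have h1 : D.Ph ≤ algebraMap ℝ R ‖D.Ph‖ :=
      IsSelfAdjoint.le_algebraMap_norm_self (IsSelfAdjoint.of_nonneg D.Ph_nonneg)
    refine h1.trans ?_
    rw [Algebra.algebraMap_eq_smul_one, smul_add, smul_smul, div_mul_cancel₀ _ he.ne']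
    exact le_add_of_nonneg_left (smul_nonneg (by positivity) D.P_nonneg)
  have hbd : BddBelow L := ⟨0, fun c hc => hc.1⟩
  have hmem := hcl.csInf_mem hne hbd
  set c := sInf L with hc
  have hc0 := hmem.1
  have h1 := D.stepV hc0 he.le hmem.2
  have h2 : D.Ph + D.Ph ≤ (2 + c) • (D.P + e • (1 : R)) := by
    refine D.stepII.trans ?_
    rw [add_smul]
    refine add_le_add (D.A_le.trans ?_) h1
    refine smul_mono_right (by norm_num) ?_
    exact le_add_of_nonneg_right (smul_nonneg he.le zero_le_one)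
  have h3 : Real.sqrt ((2 + c) / 2) ∈ L := by
    refine ⟨Real.sqrt_nonneg _, ?_⟩
    rw [Real.sq_sqrt (by linarith)]
    have h4 := smul_mono_right (c := (1/2 : ℝ)) (by norm_num) h2
    rw [← two_smul ℝ, smul_smul, smul_smul] at h4
    norm_num at h4
    rw [show (2 + c) / 2 = 1 / 2 * (2 + c) by ring]
    simpa using h4
  have h4 : c ≤ Real.sqrt ((2 + c) / 2) := csInf_le hbd h3
  have h5 : c ^ 2 ≤ (2 + c) / 2 := by
    have := Real.sq_sqrt (show 0 ≤ (2 + c) / 2 by linarith)
    nlinarith [Real.sqrt_nonneg ((2 + c) / 2)]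
  have h6 : c ≤ 2 := by nlinarith
  refine hmem.2.trans (smul_mono_left ?_ hPe)
  nlinarith

lemma apriori' : D.Ph ≤ (4 : ℝ) • D.P := by
  have h1 : ∀ e : ℝ, 0 < e → D.Ph ≤ (4 : ℝ) • (D.P + e • (1 : R)) := fun e he => D.apriori he
  have h2 : Filter.Tendsto (fun e : ℝ => (4 : ℝ) • (D.P + e • (1 : R)))
      (nhdsWithin 0 (Set.Ioi 0)) (nhds ((4 : ℝ) • (D.P + (0 : ℝ) • (1 : R)))) := by
    apply Filter.Tendsto.mono_left _ nhdsWithin_le_nhds
    exact Continuous.tendsto (by fun_prop) 0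
  rw [zero_smul, add_zero] at h2
  refine ge_of_tendsto h2 ?_
  filter_upwards [self_mem_nhdsWithin] with e he
  exact h1 e he

/-- The extremal argument: `A = P`. -/
lemma A_eq_P : D.A = D.P := by
  by_cases hP0 : D.P = 0
  · have h := D.A_le
    rw [hP0, smul_zero] at h
    rw [hP0]
    exact le_antisymm h D.hA
  set L : Set ℝ := {c | 0 ≤ c ∧ D.Ph ≤ (c ^ 2) • D.P} with hL
  have hcl : IsClosed L := by
    apply IsClosed.inter
    · exact isClosed_Ici
    · exact isClosed_le continuous_const (by fun_prop)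
  have hne : L.Nonempty := by
    refine ⟨2, by norm_num, ?_⟩
    have := D.apriori'
    norm_num
    exact this
  have hbd : BddBelow L := ⟨0, fun c hc => hc.1⟩
  have hmem := hcl.csInf_mem hne hbd
  set c := sInf L with hc
  have hc0 := hmem.1
  have hVI := D.stepVI hc0 hmem.2
  have hcpos : 0 < c := by
    rcases hc0.eq_or_lt with h | h
    · exfalso
      rw [← h, zero_smul] at hVI
      exact hP0 (le_antisymm hVI D.P_nonneg)
    · exact h
  obtain ⟨t, ht, htc⟩ := exists_t hcpos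
  have hVII := D.stepVII hcpos ht htc hVI
  have hIV := D.stepIV hc0 hmem.2
  have h2 : D.Ph + D.Ph ≤ (t + c) • D.P := by
    refine D.stepII.trans ?_
    rw [add_smul]
    exact add_le_add hVII hIV
  have h3 : Real.sqrt ((t + c) / 2) ∈ L := by
    refine ⟨Real.sqrt_nonneg _, ?_⟩
    rw [Real.sq_sqrt (by linarith)]
    have h4 := smul_mono_right (c := (1/2 : ℝ)) (by norm_num) h2
    rw [← two_smul ℝ, smul_smul, smul_smul] at h4
    rw [show (t + c) / 2 = 1 / 2 * (t + c) by ring]
    simpa using h4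
  have h4 : c ≤ Real.sqrt ((t + c) / 2) := csInf_le hbd h3
  have h5 : c ^ 2 ≤ (t + c) / 2 := by
    have := Real.sq_sqrt (show 0 ≤ (t + c) / 2 by linarith)
    nlinarith [Real.sqrt_nonneg ((t + c) / 2)]
  -- `c t ≤ 1`
  have h6 : c * t ≤ 1 := by
    have h7 : c * t * (c + t) ≤ 1 * (c + t) := by nlinarith
    exact le_of_mul_le_mul_right h7 (by linarith)
  -- sandwich
  have h7 : c • D.A ≤ (c * t) • D.P := by
    have := smul_mono_right hc0 hVII
    rwa [smul_smul] at this
  have h8 : (c * t) • D.P ≤ D.P := by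
    have := smul_mono_left (X := D.P) h6 D.P_nonneg
    rwa [one_smul] at this
  have h9 : c • D.A = D.P := le_antisymm (h7.trans h8) hVI
  have h10 : (c * t) • D.P = D.P := le_antisymm h8 (hVI.trans h7)
  have h11 : c * t = 1 := by
    have h12 : (c * t - 1) • D.P = 0 := by rw [sub_smul, h10, one_smul, sub_self]
    rcases smul_eq_zero.1 h12 with h | h
    · linarith
    · exact absurd h hP0
  have h12 : t = 1 := by
    -- t^2 + 1 = 2 c, c t = 1 ⇒ t^3 + t = 2
    have h13 : t ^ 3 + t = 2 := by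
      have : t * (t ^ 2 + c * t) = t * (2 * c) := by rw [htc]
      rw [h11] at this
      nlinarith
    have h14 : (t - 1) * (t ^ 2 + t + 2) = 0 := by nlinarith
    rcases mul_eq_zero.1 h14 with h | h
    · linarith
    · nlinarith
  have h13 : c = 1 := by rw [h12, mul_one] at h11; exact h11
  rwa [h13, one_smul] at h9

lemma B_eq_P : D.B = D.P := by
  have hAP := D.A_eq_P
  have h1 : D.B ≤ D.P := by
    have := D.stepA
    rw [hAP] at this
    exact (add_le_add_iff_left _).1 this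
  have h2 := D.stepI 1
  rw [hAP] at h2
  have h3 : star D.W * D.P * D.W = D.B := by rw [B, hAP]
  rw [h3, one_pow, one_smul, mul_one, two_smul] at h2
  exact le_antisymm h1 ((add_le_add_iff_right _).1 h2)

theorem main (hcan : ∀ X : R, D.P * X = 0 → D.E * X = 0) : D.V * D.P = D.P * D.V := by
  have hAP := D.A_eq_P
  have hBP := D.B_eq_P
  have h1 : D.W * D.P = D.V * D.P := D.stepA_eq (by rw [hAP, hBP])
  have h2 : D.W = D.V := by
    have h3 : (D.W - D.V) * D.P = 0 := by rw [sub_mul, h1, sub_self]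
    have h4 := congrArg star h3
    rw [star_mul, D.sP, star_zero] at h4
    have h5 := congrArg star (hcan _ h4)
    rw [star_mul, star_star, D.sE, star_zero, sub_mul, D.hW, D.hV, sub_eq_zero] at h5
    exact h5
  have h3 := D.hfix
  rw [hAP, h2] at h3
  exact add_left_cancel h3

end Data

end Pool.Agent.V1195.MeanAlu
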