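import Mathlib
import Pool.Agent.V1195.Aluthge
import Pool.Agent.V1195.MeanAlu
import Pool.Agent.V1195.LinBijDefs

/-!
# The fixed points of the mean-type transforms are the quasi-normal operators

(Copies of the wrappers of the results of MP_a9e7a9_an and MP_3feef6_an, stated for the
transforms of `LinBijDefs`.)
-/

set_option autoImplicit false

namespace Pool.Agent.V1195.GoodFix.M

open Pool.Agent.V1195.Aluthge

noncomputable section

variable {H : Type*} [NormedAddCommGroup H] [InnerProductSpace ℂ H] [CompleteSpace H]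

/-- `T = V |T|` is the canonical polar decomposition: `V` is a partial isometry
(`V V* V = V`), `ker V = ker T` and `T = V |T|`. -/
def IsPolar (T V : H →L[ℂ] H) : Prop :=
  V * star V * V = V ∧ (∀ x, V x = 0 ↔ T x = 0) ∧ T = V * CFC.abs T

/-- The `mu`-Aluthge transform `|T|^mu V |T|^(1-mu)`. -/
def aluthge (T V : H →L[ℂ] H) (mu : ℝ) : H →L[ℂ] H :=
  (CFC.abs T) ^ mu * V * (CFC.abs T) ^ (1 - mu)

/-- The mean transform `M_lam(T)`. -/
def meanAluthge (lam : ℝ) (T V : H →L[ℂ] H) : H →L[ℂ] H :=
  (1 / 2 : ℂ) • (aluthge T V lam + aluthge T V (1 - lam))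

lemma rpow_eq_pw {A : H →L[ℂ] H} (hA : 0 ≤ A) (p : ℝ) : A ^ p = pw A p := by
  rw [CFC.rpow_eq_cfc_real hA]; rfl

lemma ker_cancel {T V : H →L[ℂ] H} (h : IsPolar T V) (Z : H →L[ℂ] H)
    (hZ : CFC.abs T * Z = 0) : V * Z = 0 := by
  ext x
  have h1 : CFC.abs T (Z x) = 0 := by
    have := congrArg (fun S : H →L[ℂ] H => S x) hZ
    simpa using this
  have h2 : T (Z x) = 0 := by
    rw [h.2.2]; simp [h1]
  simpa using (h.2.1 (Z x)).2 h2

lemma E_abs {T V : H →L[ℂ] H} (h : IsPolar T V) : star V * V * CFC.abs T = CFC.abs T := by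
  have hs : IsSelfAdjoint (CFC.abs T) := (CFC.abs_nonneg T).isSelfAdjoint
  -- `|T| (1 - V*V) = 0` because `V (1 - V*V) = 0`
  have h1 : CFC.abs T * (1 - star V * V) = 0 := by
    ext x
    have hV : V ((1 - star V * V) x) = 0 := by
      have h2 : V * (1 - star V * V) = 0 := by
        rw [mul_sub, mul_one, ← mul_assoc, h.1, sub_self]
      have := congrArg (fun S : H →L[ℂ] H => S x) h2
      simpa using this
    have hT := (h.2.1 _).1 hV
    set y := (1 - star V * V) x with hy
    have h3 : CFC.abs T (CFC.abs T y) = 0 := by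
      have h4 : (CFC.abs T * CFC.abs T) y = 0 := by
        rw [CFC.abs_mul_abs]
        simp [hT]
      simpa using h4
    have h5 : ‖CFC.abs T y‖ ^ 2 = 0 := by
      have h6 : inner ℂ (CFC.abs T y) (CFC.abs T y) = inner ℂ y (CFC.abs T (CFC.abs T y)) := by
        have h7 : star (CFC.abs T) = CFC.abs T := hs.star_eq
        rw [ContinuousLinearMap.star_eq_adjoint] at h7
        conv_lhs => rw [← h7]
        rw [h7, ← ContinuousLinearMap.adjoint_inner_right, h7]
      have h8 := inner_self_eq_norm_sq_to_K (𝕜 := ℂ) (CFC.abs T y)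
      rw [h6, h3, inner_zero_right] at h8
      have h10 : ((‖CFC.abs T y‖ ^ 2 : ℝ) : ℂ) = 0 := by
        rw [h8]; push_cast; rfl
      exact Complex.ofReal_eq_zero.1 h10
    have h9 : CFC.abs T y = 0 := by
      have := pow_eq_zero_iff (two_ne_zero) |>.1 h5
      exact norm_eq_zero.1 this
    simpa [hy] using h9
  have h2 := congrArg star h1
  rw [star_mul, star_sub, star_one, star_mul, star_star, hs.star_eq, star_zero, sub_mul, one_mul,
    sub_eq_zero] at h2
  exact h2.symm

lemma norm_le_one {T V : H →L[ℂ] H} (h : IsPolar T V) : ‖V‖ ≤ 1 := by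
  have h1 : (star V * V) * (star V * V) = star V * V := by
    calc (star V * V) * (star V * V) = star V * (V * star V * V) := by noncomm_ring
      _ = star V * V := by rw [h.1]
  have h2 : ‖star V * V‖ * ‖star V * V‖ = ‖star V * V‖ := by
    have h3 : star (star V * V) = star V * V := by rw [star_mul, star_star]
    have h4 := CStarRing.norm_star_mul_self (x := star V * V)
    rw [h3, h1] at h4
    exact h4.symm
  have h3 : ‖star V * V‖ ≤ 1 := by
    rcases eq_or_ne (‖star V * V‖) 0 with h0 | h0
    · rw [h0]; exact zero_le_one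
    · exact (mul_right_cancel₀ h0 (h2.trans (one_mul _).symm)).le
  rw [CStarRing.norm_star_mul_self] at h3
  nlinarith [norm_nonneg V]

lemma pw_zero (A : H →L[ℂ] H) : pw A 0 = 1 ∨ ¬ IsSelfAdjoint A := by
  by_cases h : IsSelfAdjoint A
  · left; unfold pw; simp_rw [Real.rpow_zero]; exact cfc_const_one ℝ A
  · right; exact h

/-- The polar factors of a fixed point commute, for `lam ∈ [0, 1/2]`. -/
lemma commute_of_fixed {lam : ℝ} (h0 : 0 ≤ lam) (h1 : lam ≤ 1 / 2) {T V : H →L[ℂ] H}
    (h : IsPolar T V) (hfix : aluthge T V lam + aluthge T V (1 - lam) = T + T) :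
    CFC.abs T * V = V * CFC.abs T := by
  have hA : 0 ≤ CFC.abs T := CFC.abs_nonneg T
  have hsa : IsSelfAdjoint (CFC.abs T) := hA.isSelfAdjoint
  have hll : 1 - (1 - lam) = lam := by ring
  unfold aluthge at hfix
  rw [hll, rpow_eq_pw hA, rpow_eq_pw hA] at hfix
  rcases h0.eq_or_lt with h2 | h2
  · -- `lam = 0`
    have hz : pw (CFC.abs T) 0 = 1 := (pw_zero (CFC.abs T)).resolve_right (fun h => h hsa)
    rw [← h2, sub_zero, hz, pw_one hA, one_mul, mul_one] at hfix
    have h3 : V * CFC.abs T = T := h.2.2.symm
    rw [h3] at hfix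
    rw [h3]
    exact add_left_cancel hfix
  · refine main_le hA (norm_le_one h) h.1 (E_abs h) (ker_cancel h) h2 h1 ?_
    rw [hfix, ← h.2.2]

lemma commute_pw {A V : H →L[ℂ] H} (hc : A * V = V * A) (p : ℝ) :
    pw A p * V = V * pw A p := by
  have h1 : Commute A V := hc
  exact h1.cfc_real (fun t => t ^ p)

theorem result (lam : ℝ) (h0 : 0 ≤ lam) (h1 : lam ≤ 1) (T V : H →L[ℂ] H) (h : IsPolar T V) :
    meanAluthge lam T V = T ↔ T * (star T * T) = (star T * T) * T := by
  have hA : 0 ≤ CFC.abs T := CFC.abs_nonneg T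
  have hsa : IsSelfAdjoint (CFC.abs T) := hA.isSelfAdjoint
  have hiff : meanAluthge lam T V = T ↔ aluthge T V lam + aluthge T V (1 - lam) = T + T := by
    unfold meanAluthge
    rw [← two_smul ℂ T]
    constructor
    · intro h
      conv_rhs => rw [← h]
      rw [smul_smul]; norm_num
    · intro h
      rw [h, smul_smul]; norm_num
  rw [hiff]
  have hT : T = V * CFC.abs T := h.2.2
  constructor
  · intro hfix
    have hc : CFC.abs T * V = V * CFC.abs T := by
      rcases le_total lam (1 / 2) with h2 | h2
      · exact commute_of_fixed h0 h2 h hfix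
      · have hll : 1 - (1 - lam) = lam := by ring
        refine commute_of_fixed (lam := 1 - lam) (by linarith) (by linarith) h ?_
        rw [hll, add_comm]; exact hfix
    have hc2 : T * CFC.abs T = CFC.abs T * T := by
      calc T * CFC.abs T = V * CFC.abs T * CFC.abs T := by rw [← hT]
        _ = CFC.abs T * V * CFC.abs T := by rw [hc]
        _ = CFC.abs T * (V * CFC.abs T) := by rw [mul_assoc]
        _ = CFC.abs T * T := by rw [← hT]
    rw [← CFC.abs_mul_abs, ← mul_assoc, hc2, mul_assoc, hc2, mul_assoc]
  · intro hq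
    have hq2 : CFC.abs T * T = T * CFC.abs T := by
      have h2 : Commute (star T * T) T := hq.symm
      rw [CFC.abs, CFC.sqrt_eq_cfc]
      exact h2.cfc_nnreal NNReal.sqrt
    have hc : CFC.abs T * V = V * CFC.abs T := by
      rw [← sub_eq_zero]
      have hD : (CFC.abs T * V - V * CFC.abs T) * CFC.abs T = 0 := by
        rw [sub_mul, sub_eq_zero]
        calc CFC.abs T * V * CFC.abs T = CFC.abs T * (V * CFC.abs T) := by rw [mul_assoc]
          _ = CFC.abs T * T := by rw [← hT]
          _ = T * CFC.abs T := hq2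
          _ = V * CFC.abs T * CFC.abs T := by rw [← hT]
      have h3 := congrArg star hD
      rw [star_mul, hsa.star_eq, star_zero] at h3
      have h4 := congrArg star (ker_cancel h _ h3)
      rw [star_mul, star_star, star_zero] at h4
      have hAE : CFC.abs T * (star V * V) = CFC.abs T := by
        have h5 := congrArg star (E_abs h)
        rwa [star_mul, star_mul, star_star, hsa.star_eq] at h5
      have h6 : (CFC.abs T * V - V * CFC.abs T) * (star V * V) =
          CFC.abs T * V - V * CFC.abs T := by
        calc (CFC.abs T * V - V * CFC.abs T) * (star V * V)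
            = CFC.abs T * (V * star V * V) - V * (CFC.abs T * (star V * V)) := by noncomm_ring
          _ = CFC.abs T * V - V * CFC.abs T := by rw [h.1, hAE]
      rw [← h6, ← mul_assoc, h4, zero_mul]
    have hll : 1 - (1 - lam) = lam := by ring
    have hl1 : 0 ≤ 1 - lam := by linarith
    unfold aluthge
    rw [hll, rpow_eq_pw hA, rpow_eq_pw hA, commute_pw hc, commute_pw hc, mul_assoc, mul_assoc,
      pw_add hA h0 hl1, pw_add hA hl1 h0]
    have e1 : lam + (1 - lam) = 1 := by ring
    have e2 : 1 - lam + lam = 1 := by ring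
    rw [e1, e2, pw_one hA, ← hT]

end

end Pool.Agent.V1195.GoodFix.M

namespace Pool.Agent.V1195.GoodFix.A

open Pool.Agent.V1195.MeanAlu

noncomputable section

variable {H : Type*} [NormedAddCommGroup H] [InnerProductSpace ℂ H] [CompleteSpace H]

/-- `T = V |T|` is the canonical polar decomposition: `V` is a partial isometry
(`V V* V = V`), `ker V = ker T` and `T = V |T|`, where `|T| = (T* T)^(1/2)`. -/
def IsPolar (T V : H →L[ℂ] H) : Prop :=
  V * star V * V = V ∧ (∀ x, V x = 0 ↔ T x = 0) ∧ T = V * CFC.abs T

/-- The Aluthge transform `|T|^(1/2) V |T|^(1/2)` (for the polar factor `V` of `T`). -/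
def aluthge (T V : H →L[ℂ] H) : H →L[ℂ] H :=
  CFC.sqrt (CFC.abs T) * V * CFC.sqrt (CFC.abs T)

/-- The mean transform `(S + |S| W) / 2` (for the polar factor `W` of `S`). -/
def meanTransform (S W : H →L[ℂ] H) : H →L[ℂ] H :=
  (1 / 2 : ℂ) • (S + CFC.abs S * W)

lemma ker_cancel {T V : H →L[ℂ] H} (h : IsPolar T V) (Z : H →L[ℂ] H)
    (hZ : CFC.abs T * Z = 0) : V * Z = 0 := by
  ext x
  have h1 : CFC.abs T (Z x) = 0 := by
    have := congrArg (fun S : H →L[ℂ] H => S x) hZ
    simpa using this
  have h2 : T (Z x) = 0 := by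
    rw [h.2.2]; simp [h1]
  simpa using (h.2.1 (Z x)).2 h2

lemma E_abs {T V : H →L[ℂ] H} (h : IsPolar T V) : star V * V * CFC.abs T = CFC.abs T := by
  have hs : IsSelfAdjoint (CFC.abs T) := (CFC.abs_nonneg T).isSelfAdjoint
  have h1 : CFC.abs T * (1 - star V * V) = 0 := by
    ext x
    have hV : V ((1 - star V * V) x) = 0 := by
      have h2 : V * (1 - star V * V) = 0 := by
        rw [mul_sub, mul_one, ← mul_assoc, h.1, sub_self]
      have := congrArg (fun S : H →L[ℂ] H => S x) h2
      simpa using this
    have hT := (h.2.1 _).1 hV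
    set y := (1 - star V * V) x with hy
    have h3 : CFC.abs T (CFC.abs T y) = 0 := by
      have h4 : (CFC.abs T * CFC.abs T) y = 0 := by
        rw [CFC.abs_mul_abs]
        simp [hT]
      simpa using h4
    have h5 : ‖CFC.abs T y‖ ^ 2 = 0 := by
      have h6 : inner ℂ (CFC.abs T y) (CFC.abs T y) = inner ℂ y (CFC.abs T (CFC.abs T y)) := by
        have h7 : star (CFC.abs T) = CFC.abs T := hs.star_eq
        rw [ContinuousLinearMap.star_eq_adjoint] at h7
        conv_lhs => rw [← h7]
        rw [h7, ← ContinuousLinearMap.adjoint_inner_right, h7]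
      have h8 := inner_self_eq_norm_sq_to_K (𝕜 := ℂ) (CFC.abs T y)
      rw [h6, h3, inner_zero_right] at h8
      have h10 : ((‖CFC.abs T y‖ ^ 2 : ℝ) : ℂ) = 0 := by
        rw [h8]; push_cast; rfl
      exact Complex.ofReal_eq_zero.1 h10
    have h9 : CFC.abs T y = 0 := by
      have := pow_eq_zero_iff (two_ne_zero) |>.1 h5
      exact norm_eq_zero.1 this
    simpa [hy] using h9
  have h2 := congrArg star h1
  rw [star_mul, star_sub, star_one, star_mul, star_star, hs.star_eq, star_zero, sub_mul, one_mul,
    sub_eq_zero] at h2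
  exact h2.symm

/-- Kernel inclusion gives `W W'* W' = W` for the corresponding partial isometries. -/
lemma ker_incl {V W : H →L[ℂ] H} (hW : W * star W * W = W)
    (h : ∀ x, W x = 0 → V x = 0) : V * (star W * W) = V := by
  have h1 : V * (1 - star W * W) = 0 := by
    ext x
    have h2 : W ((1 - star W * W) x) = 0 := by
      have h3 : W * (1 - star W * W) = 0 := by
        rw [mul_sub, mul_one, ← mul_assoc, hW, sub_self]
      have := congrArg (fun S : H →L[ℂ] H => S x) h3
      simpa using this
    simpa using h _ h2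
  rw [mul_sub, mul_one, sub_eq_zero] at h1
  exact h1.symm

lemma commute_abs_of_quasinormal {T V : H →L[ℂ] H} (h : IsPolar T V)
    (hq : T * (star T * T) = (star T * T) * T) : CFC.abs T * V = V * CFC.abs T := by
  have hA : 0 ≤ CFC.abs T := CFC.abs_nonneg T
  have hsa : IsSelfAdjoint (CFC.abs T) := hA.isSelfAdjoint
  have hT : T = V * CFC.abs T := h.2.2
  have hq2 : CFC.abs T * T = T * CFC.abs T := by
    have h2 : Commute (star T * T) T := hq.symm
    rw [CFC.abs, CFC.sqrt_eq_cfc]
    exact h2.cfc_nnreal NNReal.sqrt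
  rw [← sub_eq_zero]
  have hD : (CFC.abs T * V - V * CFC.abs T) * CFC.abs T = 0 := by
    rw [sub_mul, sub_eq_zero]
    calc CFC.abs T * V * CFC.abs T = CFC.abs T * (V * CFC.abs T) := by rw [mul_assoc]
      _ = CFC.abs T * T := by rw [← hT]
      _ = T * CFC.abs T := hq2
      _ = V * CFC.abs T * CFC.abs T := by rw [← hT]
  have h3 := congrArg star hD
  rw [star_mul, hsa.star_eq, star_zero] at h3
  have h4 := congrArg star (ker_cancel h _ h3)
  rw [star_mul, star_star, star_zero] at h4
  have hAE : CFC.abs T * (star V * V) = CFC.abs T := by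
    have h5 := congrArg star (E_abs h)
    rwa [star_mul, star_mul, star_star, hsa.star_eq] at h5
  have h6 : (CFC.abs T * V - V * CFC.abs T) * (star V * V) =
      CFC.abs T * V - V * CFC.abs T := by
    calc (CFC.abs T * V - V * CFC.abs T) * (star V * V)
        = CFC.abs T * (V * star V * V) - V * (CFC.abs T * (star V * V)) := by noncomm_ring
      _ = CFC.abs T * V - V * CFC.abs T := by rw [h.1, hAE]
  rw [← h6, ← mul_assoc, h4, zero_mul]

/-- Uniqueness of the polar factor. -/
lemma polar_unique {T V W : H →L[ℂ] H} (hV : IsPolar T V) (hW : IsPolar T W) : V = W := by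
  have hA : 0 ≤ CFC.abs T := CFC.abs_nonneg T
  have hsa : IsSelfAdjoint (CFC.abs T) := hA.isSelfAdjoint
  have h1 : (V - W) * CFC.abs T = 0 := by
    rw [sub_mul, ← hV.2.2, ← hW.2.2, sub_self]
  have h2 := congrArg star h1
  rw [star_mul, hsa.star_eq, star_zero] at h2
  have h3 := congrArg star (ker_cancel hV _ h2)
  rw [star_mul, star_star, star_zero] at h3
  have h4 : (V - W) * (star V * V) = 0 := by rw [← mul_assoc, h3, zero_mul]
  have h5 : V * (star V * V) = V := by rw [← mul_assoc, hV.1]
  have h6 : W * (star V * V) = W :=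
    ker_incl hV.1 (fun x hx => (hW.2.1 x).2 ((hV.2.1 x).1 hx))
  rw [sub_mul, h5, h6, sub_eq_zero] at h4
  exact h4

theorem fixed_commute {T V W : H →L[ℂ] H} (hV : IsPolar T V) (hW : IsPolar (aluthge T V) W)
    (hfix : aluthge T V + CFC.abs (aluthge T V) * W = T + T) :
    V * CFC.abs T = CFC.abs T * V := by
  set P := CFC.abs T with hPdef
  set Z := CFC.sqrt P with hZdef
  set S := aluthge T V with hSdef
  set A := CFC.abs S with hAdef
  have hP0 : 0 ≤ P := CFC.abs_nonneg T
  have hZ0 : 0 ≤ Z := CFC.sqrt_nonneg P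
  have hA0 : 0 ≤ A := CFC.abs_nonneg S
  have hZZ : Z * Z = P := CFC.sqrt_mul_sqrt_self P hP0
  have hS : S = Z * V * Z := rfl
  have hSW : S = W * A := hW.2.2
  have hTV : T = V * P := hV.2.2
  have hsP : star P = P := hP0.isSelfAdjoint.star_eq
  have hsZ : star Z = Z := hZ0.isSelfAdjoint.star_eq
  have hsA : star A = A := hA0.isSelfAdjoint.star_eq
  -- `E Z = Z`
  have hEP : star V * V * P = P := E_abs hV
  have hEZ : star V * V * Z = Z := by
    have h1 : (star V * V * Z - Z) * star (star V * V * Z - Z) = 0 := by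
      rw [star_sub, star_mul, hsZ, star_mul, star_star]
      have hPE : P * (star V * V) = P := by
        have h5 := congrArg star hEP
        rwa [star_mul, star_mul, star_star, hsP] at h5
      calc (star V * V * Z - Z) * (Z * (star V * V) - Z)
          = star V * V * (Z * Z) * (star V * V) - star V * V * (Z * Z)
              - (Z * Z) * (star V * V) + Z * Z := by noncomm_ring
        _ = 0 := by rw [hZZ, hEP, hPE]; abel
    rw [CStarRing.mul_star_self_eq_zero_iff] at h1
    exact sub_eq_zero.1 h1
  -- equality of kernels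
  have hker : ∀ x, V x = 0 ↔ W x = 0 := by
    intro x
    constructor
    · intro hx
      have h1 : T x = 0 := (hV.2.1 x).1 hx
      have hZx : Z x = 0 := by
        have hZE : Z * (star V * V) = Z := by
          have h5 := congrArg star hEZ
          rwa [star_mul, star_mul, star_star, hsZ] at h5
        have : Z x = (Z * (star V * V)) x := by rw [hZE]
        rw [this]
        simp [hx]
      refine (hW.2.1 x).2 ?_
      show S x = 0
      rw [hS]
      simp [hZx]
    · intro hx
      have hSx : S x = 0 := (hW.2.1 x).1 hx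
      have h1 : (T + T) x = 0 := by
        rw [← hfix]
        simp [hSx, hx]
      have h2 : T x = 0 := by
        have h3 : (2 : ℂ) • T x = 0 := by
          rw [two_smul]; simpa using h1
        exact (smul_eq_zero.1 h3).resolve_left two_ne_zero
      exact (hV.2.1 x).2 h2
  have hVW : V * (star W * W) = V := ker_incl hW.1 (fun x hx => (hker x).2 hx)
  have hWV : W * (star V * V) = W := ker_incl hV.1 (fun x hx => (hker x).1 hx)
  have hEE : star W * W = star V * V := by
    have h1 : star V * V * (star W * W) = star V * V := by rw [mul_assoc, hVW]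
    have h2 : star W * W * (star V * V) = star W * W := by rw [mul_assoc, hWV]
    have h3 := congrArg star h1
    rw [star_mul, star_mul, star_mul, star_star, star_star] at h3
    rw [← h2, h3]
  have hEA : star V * V * A = A := by
    rw [← hEE]; exact E_abs hW
  let D : Data (H →L[ℂ] H) :=
    { P := P, Z := Z, A := A, V := V, W := W, E := star V * V
      hZ := hZ0
      hP := hZZ.symm
      hA := hA0
      hVE := rfl
      hWE := hEE
      hV := by rw [← mul_assoc, hV.1]
      hW := hWV
      hEZ := hEZ
      hEA := hEA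
      hS := by rw [← hSW, hS]
      hfix := by rw [← hTV, ← hSW, hfix] }
  refine D.main ?_
  intro X hX
  show star V * V * X = 0
  rw [mul_assoc, ker_cancel hV X hX, mul_zero]

/-- The fixed points of the mean-Aluthge transform are exactly the quasi-normal operators. -/
theorem result (T V W : H →L[ℂ] H) (hV : IsPolar T V) (hW : IsPolar (aluthge T V) W) :
    meanTransform (aluthge T V) W = T ↔ T * (star T * T) = (star T * T) * T := by
  have hA : 0 ≤ CFC.abs T := CFC.abs_nonneg T
  have hTV : T = V * CFC.abs T := hV.2.2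
  have hiff : meanTransform (aluthge T V) W = T ↔
      aluthge T V + CFC.abs (aluthge T V) * W = T + T := by
    unfold meanTransform
    rw [← two_smul ℂ T]
    constructor
    · intro h
      conv_rhs => rw [← h]
      rw [smul_smul]; norm_num
    · intro h
      rw [h, smul_smul]; norm_num
  rw [hiff]
  constructor
  · intro hfix
    have hc := fixed_commute hV hW hfix
    have hc2 : T * CFC.abs T = CFC.abs T * T := by
      calc T * CFC.abs T = V * CFC.abs T * CFC.abs T := by rw [← hTV]
        _ = CFC.abs T * V * CFC.abs T := by rw [hc]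
        _ = CFC.abs T * (V * CFC.abs T) := by rw [mul_assoc]
        _ = CFC.abs T * T := by rw [← hTV]
    rw [← CFC.abs_mul_abs, ← mul_assoc, hc2, mul_assoc, hc2, mul_assoc]
  · intro hq
    have hc : CFC.abs T * V = V * CFC.abs T := commute_abs_of_quasinormal hV hq
    have hc2 : CFC.sqrt (CFC.abs T) * V = V * CFC.sqrt (CFC.abs T) := by
      have h2 : Commute (CFC.abs T) V := hc
      rw [CFC.sqrt_eq_cfc]
      exact h2.cfc_nnreal NNReal.sqrt
    have hST : aluthge T V = T := by
      unfold aluthge
      rw [hc2, mul_assoc, CFC.sqrt_mul_sqrt_self _ hA, ← hTV]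
    rw [hST] at hW ⊢
    have hVW := polar_unique hV hW
    rw [← hVW, hc, ← hTV]

end

end Pool.Agent.V1195.GoodFix.A

namespace Pool.Agent.V1195.LinBij

variable {H : Type*} [NormedAddCommGroup H] [InnerProductSpace ℂ H] [CompleteSpace H]

/-- The fixed points of the mean `lam`-Aluthge transform are the quasi-normal operators. -/
theorem fix_Mlam {lam : ℝ} (h0 : 0 ≤ lam) (h1 : lam ≤ 1) (T : H →L[ℂ] H) :
    Mlam lam T = T ↔ T * (star T * T) = (star T * T) * T :=
  GoodFix.M.result lam h0 h1 T (pol T) (pol_spec T)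

/-- The fixed points of the mean-Aluthge transform are the quasi-normal operators. -/
theorem fix_meanAlu (T : H →L[ℂ] H) :
    meanAlu T = T ↔ T * (star T * T) = (star T * T) * T := by
  have h := GoodFix.A.result T (pol T) (pol (aluH T)) (pol_spec T) (pol_spec (aluH T))
  have h2 : meanAlu T = GoodFix.A.meanTransform (GoodFix.A.aluthge T (pol T)) (pol (aluH T)) := by
    unfold meanAlu meanT GoodFix.A.meanTransform
    rw [← (pol_spec (aluH T)).2.2]
    rfl
  rw [h2]
  exact h

end Pool.Agent.V1195.LinBij
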