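import Mathlib
import Pool.Agent.V1195.LinBijDefs

/-!
# Linear bijections commuting with mean-type Aluthge transforms: first half of the main argument
-/

set_option autoImplicit false
set_option linter.unusedSectionVars false

namespace Pool.Agent.V1195.LinBij

open Asymptotics Filter Topology

lemma ext4 {M : Type*} [AddCommGroup M] [Module ℂ M] (a00 a10 a01 a11 : M)
    (h : ∀ t : ℂ, a00 + t • a10 + (starRingEnd ℂ t) • a01 + (t * starRingEnd ℂ t) • a11 = 0) :
    a01 = 0 ∧ a10 = 0 := by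
  have := ext_coeff a00 a10 a01 a11 0 0 (by
    intro t
    rw [smul_zero, smul_zero, add_zero, add_zero]
    exact h t)
  exact ⟨this.2.1, by simpa using this.2.2⟩

variable {H : Type*} [NormedAddCommGroup H] [InnerProductSpace ℂ H] [CompleteSpace H]

lemma qn_of_normal {N : H →L[ℂ] H} (h : star N * N = N * star N) :
    N * (star N * N) = (star N * N) * N := by
  rw [← mul_assoc, ← h]

lemma normal_add {N : H →L[ℂ] H} (h : star N * N = N * star N) (t : ℂ) :
    star (N + t • 1) * (N + t • 1) = (N + t • 1) * star (N + t • (1 : H →L[ℂ] H)) := by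
  rw [star_add, star_smul, star_one]
  simp only [mul_add, add_mul, smul_mul_assoc, mul_smul_comm, one_mul, mul_one, h, smul_add,
    smul_smul]
  module

/-- `Φ 1` is scalar. -/
lemma map_one_scalar {L : (H →L[ℂ] H) → (H →L[ℂ] H)} (hL : Good L)
    (Φ : (H →L[ℂ] H) →ₗ[ℂ] (H →L[ℂ] H)) (hb : Function.Bijective Φ)
    (hc : ∀ T, Φ (L T) = L (Φ T)) : ∃ c : ℂ, Φ 1 = c • 1 := by
  set B := Φ 1 with hB
  have hqn : ∀ N : H →L[ℂ] H, star N * N = N * star N → ∀ t : ℂ,
      (Φ N + t • B) * (star (Φ N + t • B) * (Φ N + t • B)) =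
        (star (Φ N + t • B) * (Φ N + t • B)) * (Φ N + t • B) := by
    intro N hN t
    have h1 : Φ N + t • B = Φ (N + t • 1) := by rw [map_add, map_smul]
    have h2 : L (N + t • 1) = N + t • 1 := (hL.fix _).2 (qn_of_normal (normal_add hN t))
    rw [h1]
    refine (hL.fix _).1 ?_
    rw [← hc, h2]
  have hcoef : ∀ N : H →L[ℂ] H, star N * N = N * star N →
      B * (star (Φ N) * B) = (star (Φ N) * B) * B := by
    intro N hN
    set M := Φ N with hM
    have := ext_coeff (M * (star M * M) - (star M * M) * M)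
      (M * (star M * B) + B * (star M * M) - (star M * B) * M - (star M * M) * B)
      (M * (star B * M) - (star B * M) * M)
      (M * (star B * B) - (star B * B) * M + B * (star B * M) - (star B * M) * B)
      (B * (star M * B) - (star M * B) * B)
      (B * (star B * B) - (star B * B) * B) (by
        intro t
        have h := sub_eq_zero.2 (hqn N hN t)
        rw [← hM] at h
        rw [← h]
        simp only [star_add, star_smul, RCLike.star_def, mul_add, add_mul, smul_mul_assoc,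
          mul_smul_comm, smul_add, smul_sub, smul_smul, mul_assoc]
        module)
    exact sub_eq_zero.1 this.1
  refine scalar_of_comm' B ?_
  intro W
  obtain ⟨X, hX⟩ := hb.2 (star W)
  obtain ⟨A, C, hA, hC, hXAC, -⟩ := sa_decomp X
  have hW : W = star (Φ A) + (starRingEnd ℂ Complex.I) • star (Φ C) := by
    have : star (Φ X) = W := by rw [hX, star_star]
    rw [← this, hXAC, map_add, map_smul, star_add, star_smul]; rfl
  have h1 := hcoef A (by rw [hA])
  have h2 := hcoef C (by rw [hC])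
  rw [hW, add_mul, smul_mul_assoc, mul_add, mul_smul_comm, h1, h2, add_mul, smul_mul_assoc]

/-- The normalised situation. -/
structure Setup (L : (H →L[ℂ] H) → (H →L[ℂ] H)) (Ψ : (H →L[ℂ] H) →ₗ[ℂ] (H →L[ℂ] H))
    (c a k b1 b2 : ℂ) : Prop where
  blk : ∀ P X : H →L[ℂ] H, star P = P → P * P = P → P * X = X → X * P = X →
    ∀ᶠ e : ℝ in 𝓝[>] (0 : ℝ), L (1 + (e : ℂ) • X) * (1 - P) = 1 - P ∧
      (1 - P) * L (1 + (e : ℂ) • X) = 1 - P
  add : ∀ X N : H →L[ℂ] H, star X = X → X * N = 0 → N * X = 0 →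
    ∀ᶠ e : ℝ in 𝓝[>] (0 : ℝ), L (1 + (e : ℂ) • (X + N)) = L (1 + (e : ℂ) • N) + (e : ℂ) • X
  bij : Function.Bijective Ψ
  one : Ψ 1 = 1
  c0 : c ≠ 0
  a0 : a ≠ 0
  k0 : k ≠ 0
  exp : ∀ (c : ℂ), c ≠ 0 → ∀ Y : H →L[ℂ] H,
    (fun e : ℝ => L (c • (1 + (e : ℂ) • Y)) - c • (1 + (e : ℂ) • Y +
      ((e : ℂ) ^ 2) • (a • cm (star Y) Y) + ((e : ℂ) ^ 3) • c3 k b1 b2 Y))
      =O[𝓝[>] (0 : ℝ)] (fun e => e ^ 4)
  comm : ∀ T, c • Ψ (L T) = L (c • Ψ T)
  nrm : ∀ N : H →L[ℂ] H, star N * N = N * star N → star (Ψ N) * Ψ N = Ψ N * star (Ψ N)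
  dim : ∃ X : H →L[ℂ] H, ∀ s : ℂ, X ≠ s • 1

/-- Reduction to the normalised situation. -/
lemma exists_setup {L : (H →L[ℂ] H) → (H →L[ℂ] H)} (hL : Good L)
    (Φ : (H →L[ℂ] H) →ₗ[ℂ] (H →L[ℂ] H)) (hb : Function.Bijective Φ)
    (hc : ∀ T, Φ (L T) = L (Φ T)) (hdim : ∃ X : H →L[ℂ] H, ∀ s : ℂ, X ≠ s • 1) :
    ∃ (Ψ : (H →L[ℂ] H) →ₗ[ℂ] (H →L[ℂ] H)) (c a k b1 b2 : ℂ), Setup L Ψ c a k b1 b2 ∧
      ∀ T, Φ T = c • Ψ T := by
  obtain ⟨c, hc1⟩ := map_one_scalar hL Φ hb hc
  obtain ⟨a, k, b1, b2, ha, hk, hexp⟩ := hL.exp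
  have hc0 : c ≠ 0 := by
    rintro rfl
    rw [zero_smul, ← map_zero Φ] at hc1
    have h10 := hb.1 hc1
    obtain ⟨X, hX⟩ := hdim
    apply hX 0
    rw [zero_smul, ← mul_one X, h10, mul_zero]
  have hΦ : ∀ T, Φ T = c • (c⁻¹ • Φ) T := by
    intro T
    rw [LinearMap.smul_apply, smul_smul, mul_inv_cancel₀ hc0, one_smul]
  refine ⟨c⁻¹ • Φ, c, a, k, b1, b2, ?_, hΦ⟩
  refine ⟨hL.blk, hL.add, ?_, ?_, hc0, ha, hk, hexp, ?_, ?_, hdim⟩
  · constructor
    · intro X Y h
      apply hb.1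
      rw [hΦ X, hΦ Y, h]
    · intro Y
      obtain ⟨X, hX⟩ := hb.2 (c • Y)
      refine ⟨X, ?_⟩
      rw [LinearMap.smul_apply, hX, smul_smul, inv_mul_cancel₀ hc0, one_smul]
  · rw [LinearMap.smul_apply, hc1, smul_smul, inv_mul_cancel₀ hc0, one_smul]
  · intro T
    rw [← hΦ, ← hΦ, hc]
  · intro N hN
    set M := Φ N with hM
    -- `M` is normal
    have hqn : ∀ s : ℂ, (M + s • 1) * (star (M + s • 1) * (M + s • 1)) =
        (star (M + s • 1) * (M + s • 1)) * (M + s • (1 : H →L[ℂ] H)) := by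
      intro s
      have h1 : M + s • 1 = Φ (N + (s * c⁻¹) • 1) := by
        rw [map_add, map_smul, hc1, smul_smul, mul_assoc, inv_mul_cancel₀ hc0, mul_one]
      have h2 : L (N + (s * c⁻¹) • 1) = N + (s * c⁻¹) • 1 :=
        (hL.fix _).2 (qn_of_normal (normal_add hN _))
      rw [h1]
      refine (hL.fix _).1 ?_
      rw [← hc, h2]
    have h0 := hqn 0
    have h1 := hqn 1
    rw [zero_smul, add_zero] at h0
    rw [one_smul, star_add, star_one] at h1
    have h2 : M * star M - star M * M =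
        ((M + 1) * ((star M + 1) * (M + 1)) - (star M + 1) * (M + 1) * (M + 1)) -
        (M * (star M * M) - star M * M * M) := by noncomm_ring
    rw [h1, h0, sub_self, sub_self, sub_zero] at h2
    rw [LinearMap.smul_apply, star_smul]
    simp only [smul_mul_assoc, mul_smul_comm]
    rw [sub_eq_zero.1 h2, smul_comm]

namespace Setup

variable {L : (H →L[ℂ] H) → (H →L[ℂ] H)} {Ψ : (H →L[ℂ] H) →ₗ[ℂ] (H →L[ℂ] H)}
  {c a k b1 b2 : ℂ}

/-- Commuting with a self-adjoint `P` is preserved in the form `[Ψ D, (Ψ P)*] = 0`. -/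
lemma commA (S : Setup L Ψ c a k b1 b2) {D P : H →L[ℂ] H} (hP : star P = P)
    (h : P * D = D * P) : Ψ D * star (Ψ P) = star (Ψ P) * Ψ D := by
  have hsa : ∀ A : H →L[ℂ] H, star A = A → P * A = A * P →
      Ψ A * star (Ψ P) = star (Ψ P) * Ψ A := by
    intro A hA hPA
    have hn : ∀ t : ℂ, star (A + t • P) * (A + t • P) = (A + t • P) * star (A + t • P) := by
      intro t
      rw [star_add, star_smul, hA, hP]
      simp only [mul_add, add_mul, smul_mul_assoc, mul_smul_comm, hPA, smul_add, smul_smul]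
      module
    set M := Ψ A
    set Q := Ψ P
    have := ext4 (star M * M - M * star M) (star M * Q - Q * star M)
      (star Q * M - M * star Q) (star Q * Q - Q * star Q) (by
        intro t
        have h1 := S.nrm _ (hn t)
        rw [map_add, map_smul] at h1
        have h2 := sub_eq_zero.2 h1
        rw [← h2]
        simp only [star_add, star_smul, RCLike.star_def, mul_add, add_mul, smul_mul_assoc,
          mul_smul_comm, smul_add, smul_sub, smul_smul, mul_assoc]
        module)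
    exact (sub_eq_zero.1 this.1).symm
  obtain ⟨A, C, hA, hC, hXAC, hcm⟩ := sa_decomp D
  obtain ⟨h1, h2⟩ := hcm P hP h
  rw [hXAC, map_add, map_smul, add_mul, mul_add, smul_mul_assoc, mul_smul_comm, hsa A hA h1,
    hsa C hC h2]

/-- `Ψ` is bounded on operators supported in a finite-dimensional subspace. -/
lemma fin_bound (Ψ : (H →L[ℂ] H) →ₗ[ℂ] (H →L[ℂ] H)) (K : Submodule ℂ H)
    [FiniteDimensional ℂ K] : ∃ B : ℝ, 0 ≤ B ∧ ∀ Z : H →L[ℂ] H, K.starProjection * Z = Z →
      Z * K.starProjection = Z → ‖Ψ Z‖ ≤ B * ‖Z‖ := by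
  let S : Submodule ℂ (H →L[ℂ] H) :=
    { carrier := {Z | K.starProjection * Z = Z ∧ Z * K.starProjection = Z}
      zero_mem' := by simp
      add_mem' := by
        intro X Y hX hY
        exact ⟨by rw [mul_add, hX.1, hY.1], by rw [add_mul, hX.2, hY.2]⟩
      smul_mem' := by
        intro t X hX
        exact ⟨by rw [mul_smul_comm, hX.1], by rw [smul_mul_assoc, hX.2]⟩ }
  let φ : S →ₗ[ℂ] (K →ₗ[ℂ] K) :=
    { toFun := fun Z => (K.orthogonalProjectionOnto : H →L[ℂ] K).toLinearMap ∘ₗ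
        (Z : H →L[ℂ] H).toLinearMap ∘ₗ K.subtype
      map_add' := by intro X Y; ext x; simp
      map_smul' := by intro t X; ext x; simp }
  have hinj : Function.Injective φ := by
    rw [injective_iff_map_eq_zero]
    intro Z hZ
    apply Subtype.ext
    have h1 : K.starProjection * (Z : H →L[ℂ] H) * K.starProjection = 0 := by
      ext x
      have h2 := congrArg (fun f : K →ₗ[ℂ] K => ((f (K.orthogonalProjectionOnto x) : K) : H)) hZ
      exact h2
    rw [Z.2.1, Z.2.2] at h1
    exact h1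
  have : FiniteDimensional ℂ S := FiniteDimensional.of_injective φ hinj
  let T : S →L[ℂ] (H →L[ℂ] H) := LinearMap.toContinuousLinearMap (Ψ.domRestrict S)
  refine ⟨‖T‖, ContinuousLinearMap.opNorm_nonneg T, ?_⟩
  intro Z h1 h2
  exact T.le_opNorm ⟨Z, h1, h2⟩

/-- membership in the corner of `K`. -/
lemma corner {K : Submodule ℂ H} [FiniteDimensional ℂ K] {X : H →L[ℂ] H}
    (h1 : ∀ x, X x ∈ K) (h2 : ∀ x, star X x ∈ K) :
    K.starProjection * X = X ∧ X * K.starProjection = X := by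
  have e1 : K.starProjection * X = X := by
    ext x
    exact Submodule.starProjection_eq_self_iff.2 (h1 x)
  have e2 : K.starProjection * star X = star X := by
    ext x
    exact Submodule.starProjection_eq_self_iff.2 (h2 x)
  refine ⟨e1, ?_⟩
  have h3 := congrArg star e2
  rw [star_mul, star_star] at h3
  have h4 : star K.starProjection = K.starProjection := by
    exact (isSelfAdjoint_starProjection K).star_eq
  rwa [h4] at h3

lemma key (S : Setup L Ψ c a k b1 b2) {K : Submodule ℂ H} [FiniteDimensional ℂ K]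
    {X : H →L[ℂ] H} (h1 : ∀ x, X x ∈ K) (h2 : ∀ x, star X x ∈ K) :
    Ψ (cm (star X) X) = cm (star (Ψ X)) (Ψ X) ∧ Ψ (c3 k b1 b2 X) = c3 k b1 b2 (Ψ X) := by
  obtain ⟨hPX, hXP⟩ := corner h1 h2
  obtain ⟨B, hB0, hB⟩ := fin_bound Ψ K
  have hPs : star K.starProjection = K.starProjection := (isSelfAdjoint_starProjection K).star_eq
  have hPP : K.starProjection * K.starProjection = K.starProjection :=
    (Submodule.isIdempotentElem_starProjection K)
  set P := K.starProjection with hPdef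
  set Y := Ψ X with hY
  set q := 1 - P with hq
  have hXq : X * q = 0 := by rw [hq, mul_sub, mul_one, hXP, sub_self]
  have hqX : q * X = 0 := by rw [hq, sub_mul, one_mul, hPX, sub_self]
  have hsq : star q = q := by rw [hq, star_sub, star_one, hPs]
  have hX'q : star X * q = 0 := by
    have := congrArg star hqX
    rwa [star_mul, hsq, star_zero] at this
  have hqX' : q * star X = 0 := by
    have := congrArg star hXq
    rwa [star_mul, hsq, star_zero] at this
  have hr1 := S.exp 1 one_ne_zero X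
  have hr2 := S.exp c S.c0 Y
  set r1 : ℝ → (H →L[ℂ] H) := fun e => L ((1 : ℂ) • (1 + (e : ℂ) • X)) - (1 : ℂ) • (1 + (e : ℂ) • X +
      ((e : ℂ) ^ 2) • (a • cm (star X) X) + ((e : ℂ) ^ 3) • c3 k b1 b2 X) with hr1def
  -- the remainder lies in the corner
  have hcor : ∀ᶠ e : ℝ in 𝓝[>] (0 : ℝ), P * r1 e = r1 e ∧ r1 e * P = r1 e := by
    filter_upwards [S.blk P X hPs hPP hPX hXP] with e he
    have e1 : r1 e * q = 0 := by
      rw [hr1def]
      simp only [one_smul]
      rw [sub_mul, he.1]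
      simp only [add_mul, sub_mul, smul_mul_assoc, c3, cm, mul_assoc, hXq, hX'q, mul_zero,
        smul_zero, sub_zero, add_zero, one_mul]
      rw [sub_self]
    have e2 : q * r1 e = 0 := by
      rw [hr1def]
      simp only [one_smul]
      rw [mul_sub, he.2]
      have f1 : ∀ W, q * (X * W) = 0 := fun W => by rw [← mul_assoc, hqX, zero_mul]
      have f2 : ∀ W, q * (star X * W) = 0 := fun W => by rw [← mul_assoc, hqX', zero_mul]
      simp only [mul_add, mul_sub, sub_mul, mul_smul_comm, c3, cm, mul_assoc, hqX, hqX', f1, f2,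
        smul_zero, sub_zero, add_zero, mul_one]
      rw [sub_self]
    constructor
    · rw [hq, sub_mul, one_mul, sub_eq_zero] at e2; exact e2.symm
    · rw [hq, mul_sub, mul_one, sub_eq_zero] at e1; exact e1.symm
  have hΨr : (fun e => Ψ (r1 e)) =O[𝓝[>] (0 : ℝ)] (fun e => e ^ 4) := by
    refine IsBigO.trans (IsBigO.of_bound B ?_) hr1
    filter_upwards [hcor] with e he
    exact hB _ he.1 he.2
  have hfin : (fun e : ℝ => ((e : ℂ) ^ 2) • (c • (Ψ (a • cm (star X) X) - a • cm (star Y) Y)) +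
      ((e : ℂ) ^ 3) • (c • (Ψ (c3 k b1 b2 X) - c3 k b1 b2 Y))) =O[𝓝[>] (0 : ℝ)] (fun e => e ^ 4) := by
    have h3 := hr2.sub (hΨr.const_smul_left c)
    refine h3.congr_left ?_
    intro e
    have h4 : L (c • (1 + (e : ℂ) • Y)) = c • Ψ (L (1 + (e : ℂ) • X)) := by
      rw [S.comm, map_add, map_smul, S.one]
    rw [h4, hr1def]
    simp only [Pi.smul_apply, one_smul, map_sub, map_add, map_smul, S.one, ← hY]
    module
  obtain ⟨u0, v0⟩ := coeff_zero _ _ hfin
  constructor
  · have h5 := (smul_eq_zero.1 u0).resolve_left S.c0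
    rw [map_smul, ← smul_sub] at h5
    exact sub_eq_zero.1 ((smul_eq_zero.1 h5).resolve_left S.a0)
  · exact sub_eq_zero.1 ((smul_eq_zero.1 v0).resolve_left S.c0)

/-- The Lie identity. -/
lemma lie (S : Setup L Ψ c a k b1 b2) {K : Submodule ℂ H} [FiniteDimensional ℂ K]
    {X W : H →L[ℂ] H} (h1 : ∀ x, X x ∈ K) (h2 : ∀ x, star X x ∈ K)
    (h3 : ∀ x, W x ∈ K) (h4 : ∀ x, star W x ∈ K) :
    Ψ (cm (star X) W) = cm (star (Ψ X)) (Ψ W) := by
  have := ext4 (Ψ (cm (star X) X) - cm (star (Ψ X)) (Ψ X))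
    (Ψ (cm (star X) W) - cm (star (Ψ X)) (Ψ W))
    (Ψ (cm (star W) X) - cm (star (Ψ W)) (Ψ X))
    (Ψ (cm (star W) W) - cm (star (Ψ W)) (Ψ W)) (by
      intro t
      have g1 : ∀ x, (X + t • W) x ∈ K := by
        intro x
        simpa using K.add_mem (h1 x) (K.smul_mem t (h3 x))
      have g2 : ∀ x, star (X + t • W) x ∈ K := by
        intro x
        rw [star_add, star_smul]
        simpa using K.add_mem (h2 x) (K.smul_mem (star t) (h4 x))
      have h5 := sub_eq_zero.2 (S.key g1 g2).1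
      rw [← h5]
      simp only [cm, star_add, star_smul, RCLike.star_def, mul_add, add_mul, smul_mul_assoc,
        mul_smul_comm, smul_add, smul_sub, smul_smul, mul_assoc, map_add, map_sub, map_smul]
      module)
  exact sub_eq_zero.1 this.2

/-- The defect of multiplicativity. -/
def del (Ψ : (H →L[ℂ] H) →ₗ[ℂ] (H →L[ℂ] H)) (X : H →L[ℂ] H) : H →L[ℂ] H :=
  Ψ (X * X) - Ψ X * Ψ X

lemma cubic0 (S : Setup L Ψ c a k b1 b2) {K : Submodule ℂ H} [FiniteDimensional ℂ K]
    {X : H →L[ℂ] H} (h1 : ∀ x, X x ∈ K) (h2 : ∀ x, star X x ∈ K) :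
    del Ψ X * star (Ψ X) = star (Ψ X) * del Ψ X := by
  have hk := (S.key h1 h2)
  have hXX1 : ∀ x, (X * X) x ∈ K := fun x => h1 _
  have hXX2 : ∀ x, star (X * X) x ∈ K := by
    intro x; rw [star_mul]; exact h2 _
  have hC1 : ∀ x, (cm (star X) X) x ∈ K := by
    intro x
    exact K.sub_mem (h2 _) (h1 _)
  have hCs : star (cm (star X) X) = cm (star X) X := by
    rw [cm, star_sub, star_mul, star_mul, star_star]
  have hC2 : ∀ x, star (cm (star X) X) x ∈ K := by
    rw [hCs]; exact hC1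
  have hCYs : star (cm (star (Ψ X)) (Ψ X)) = cm (star (Ψ X)) (Ψ X) := by
    rw [cm, star_sub, star_mul, star_mul, star_star]
  have e1 : Ψ (cm (star X * star X) X) = cm (star (Ψ (X * X))) (Ψ X) := by
    have := S.lie hXX1 hXX2 h1 h2
    rwa [star_mul] at this
  have e2 : Ψ (cm X (cm (star X) X)) = cm (Ψ X) (cm (star (Ψ X)) (Ψ X)) := by
    have h3 := S.lie hC1 hC2 h1 h2
    rw [hCs, hk.1, hCYs] at h3
    have h4 : cm X (cm (star X) X) = - cm (cm (star X) X) X := by
      simp only [cm]; abel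
    rw [h4, map_neg, h3]
    simp only [cm]; abel
  have e3 : Ψ (cm (star X) (cm (star X) X)) = cm (star (Ψ X)) (cm (star (Ψ X)) (Ψ X)) := by
    have h3 := S.lie h1 h2 hC1 hC2
    rwa [hk.1] at h3
  have h5 := hk.2
  rw [c3, c3, map_add, map_add, map_smul, map_smul, map_smul, e1, e2, e3] at h5
  have h6 : k • cm (star (Ψ (X * X))) (Ψ X) = k • cm (star (Ψ X) * star (Ψ X)) (Ψ X) :=
    add_right_cancel (add_right_cancel h5)
  have h7 := smul_right_injective _ S.k0 h6
  have h8 : star (del Ψ X) * Ψ X = Ψ X * star (del Ψ X) := by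
    rw [del, star_sub, star_mul, ← sub_eq_zero]
    have h9 := sub_eq_zero.2 h7
    rw [← h9]
    simp only [cm]
    noncomm_ring
  have h9 := congrArg star h8
  rw [star_mul, star_mul, star_star] at h9
  exact h9.symm

/-- Polarised cubic identity. -/
lemma cubic (S : Setup L Ψ c a k b1 b2) {K : Submodule ℂ H} [FiniteDimensional ℂ K]
    {X W : H →L[ℂ] H} (h1 : ∀ x, X x ∈ K) (h2 : ∀ x, star X x ∈ K)
    (h3 : ∀ x, W x ∈ K) (h4 : ∀ x, star W x ∈ K) :
    del Ψ X * star (Ψ W) = star (Ψ W) * del Ψ X := by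
  set D2 := Ψ (X * W) + Ψ (W * X) - Ψ X * Ψ W - Ψ W * Ψ X with hD2
  have hdel : ∀ t : ℂ, del Ψ (X + t • W) = del Ψ X + t • D2 + (t ^ 2) • del Ψ W := by
    intro t
    simp only [del, hD2, mul_add, add_mul, smul_mul_assoc, mul_smul_comm, smul_add, smul_sub,
      smul_smul, map_add, map_smul]
    module
  have := ext_coeff (del Ψ X * star (Ψ X) - star (Ψ X) * del Ψ X)
    (D2 * star (Ψ X) - star (Ψ X) * D2)
    (del Ψ X * star (Ψ W) - star (Ψ W) * del Ψ X)
    (D2 * star (Ψ W) - star (Ψ W) * D2)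
    (del Ψ W * star (Ψ X) - star (Ψ X) * del Ψ W)
    (del Ψ W * star (Ψ W) - star (Ψ W) * del Ψ W) (by
      intro t
      have g1 : ∀ x, (X + t • W) x ∈ K := by
        intro x
        simpa using K.add_mem (h1 x) (K.smul_mem t (h3 x))
      have g2 : ∀ x, star (X + t • W) x ∈ K := by
        intro x
        rw [star_add, star_smul]
        simpa using K.add_mem (h2 x) (K.smul_mem (star t) (h4 x))
      have h5 := sub_eq_zero.2 (S.cubic0 g1 g2)
      rw [← h5, hdel, map_add, map_smul]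
      simp only [star_add, star_smul, RCLike.star_def, mul_add, add_mul, smul_mul_assoc,
        mul_smul_comm, smul_add, smul_sub, smul_smul]
      module)
  exact sub_eq_zero.1 this.2.1

end Setup

end Pool.Agent.V1195.LinBij
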