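import Mathlib
import Pool.Agent.V1195.LinBijB

/-!
# Linear bijections commuting with mean-type Aluthge transforms: projections and the unitary
-/

set_option autoImplicit false
set_option linter.unusedSectionVars false
set_option linter.unusedSimpArgs false

namespace Pool.Agent.V1195.LinBij

open Asymptotics Filter Topology

variable {H : Type*} [NormedAddCommGroup H] [InnerProductSpace ℂ H] [CompleteSpace H]

/-- `ad_R^3 = (1 - 4 s) ad_R` when `R^2 = R - s`. -/
lemma ad_cube {R : H →L[ℂ] H} {s : ℂ} (hR : R * R = R - s • 1) (W : H →L[ℂ] H) :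
    cm R (cm R (cm R W)) = (1 - 4 * s) • cm R W := by
  have hR3 : R * R * R = (1 - s) • R - s • 1 := by
    rw [hR, sub_mul, hR, smul_mul_assoc, one_mul]; module
  have e : cm R (cm R (cm R W)) = (R * R * R) * W - (R * R) * (W * R) - (R * R) * (W * R) -
      (R * R) * (W * R) + R * W * (R * R) + R * W * (R * R) + R * W * (R * R) -
      W * (R * R * R) := by
    simp only [cm]; noncomm_ring
  rw [e, hR3, hR, cm]
  simp only [sub_mul, mul_sub, smul_mul_assoc, mul_smul_comm, one_mul, mul_one, mul_assoc]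
  module

namespace Setup

variable {L : (H →L[ℂ] H) → (H →L[ℂ] H)} {Ψ : (H →L[ℂ] H) →ₗ[ℂ] (H →L[ℂ] H)}
  {c a k b1 b2 : ℂ}

/-- Images of finite rank projections. -/
lemma projP (S : Setup L Ψ c a k b1 b2) {K : Submodule ℂ H} [FiniteDimensional ℂ K]
    {P : H →L[ℂ] H} (hPs : star P = P) (hPP : P * P = P) (hK : ∀ x, P x ∈ K) :
    star (Ψ P) = Ψ P ∧ Ψ P * Ψ P = Ψ P ∧ ∀ X, Ψ (cm P X) = cm (Ψ P) (Ψ X) := by
  -- decomposition of an arbitrary operator
  have hdec : ∀ X : H →L[ℂ] H, ∃ (K2 : Submodule ℂ H) (_ : FiniteDimensional ℂ K2)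
      (Z D : H →L[ℂ] H), X = Z + D ∧ P * D = D * P ∧ (∀ x, Z x ∈ K2) ∧ (∀ x, star Z x ∈ K2) ∧
      (∀ x, P x ∈ K2) := by
    intro X
    let K2 : Submodule ℂ H := K ⊔ (K.map X.toLinearMap ⊔ K.map (star X).toLinearMap)
    have hP2 : ∀ x, P x ∈ K2 := fun x => (le_sup_left : K ≤ K2) (hK x)
    have hX2 : ∀ x, X (P x) ∈ K2 := fun x =>
      (le_sup_right : _ ≤ K2) ((le_sup_left : _ ≤ K.map X.toLinearMap ⊔ K.map (star X).toLinearMap)
        ⟨P x, hK x, rfl⟩)
    have hX2' : ∀ x, star X (P x) ∈ K2 := fun x =>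
      (le_sup_right : _ ≤ K2) ((le_sup_right : _ ≤ K.map X.toLinearMap ⊔ K.map (star X).toLinearMap)
        ⟨P x, hK x, rfl⟩)
    refine ⟨K2, inferInstance, P * X + X * P - (P * X * P + P * X * P),
      X - (P * X + X * P - (P * X * P + P * X * P)), by abel, ?_, ?_, ?_, hP2⟩
    · have h1 : ∀ A : H →L[ℂ] H, P * (P * A) = P * A := fun A => by rw [← mul_assoc, hPP]
      simp only [mul_sub, sub_mul, mul_add, add_mul, mul_assoc, hPP, h1]
      abel
    · intro x
      exact K2.sub_mem (K2.add_mem (hP2 _) (hX2 _)) (K2.add_mem (hP2 _) (hP2 _))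
    · intro x
      have h1 : star (P * X + X * P - (P * X * P + P * X * P)) =
          star X * P + P * star X - (P * (star X * P) + P * (star X * P)) := by
        simp only [star_sub, star_add, star_mul, hPs]
      rw [h1]
      exact K2.sub_mem (K2.add_mem (hX2' _) (hP2 _)) (K2.add_mem (hP2 _) (hP2 _))
  have hPP' : ∀ x, star P x ∈ K := by rw [hPs]; exact hK
  -- Lie identity
  have hlie : ∀ X, Ψ (cm P X) = cm (star (Ψ P)) (Ψ X) := by
    intro X
    obtain ⟨K2, hK2, Z, D, hX, hPD, hZ1, hZ2, hP2⟩ := hdec X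
    have h1 : cm P X = cm P Z := by
      rw [hX]; simp only [cm, mul_add, add_mul, hPD]; abel
    have h2 := S.lie (X := P) (W := Z) (K := K2) hP2 (by rw [hPs]; exact hP2) hZ1 hZ2
    rw [hPs] at h2
    have h3 := S.commA hPs hPD
    rw [h1, h2, hX, map_add]
    simp only [cm, mul_add, add_mul, h3]; abel
  -- the defect is scalar
  have hdel : ∀ X, del Ψ P * star (Ψ X) = star (Ψ X) * del Ψ P := by
    intro X
    obtain ⟨K2, hK2, Z, D, hX, hPD, hZ1, hZ2, hP2⟩ := hdec X
    have h2 := S.cubic (X := P) (W := Z) (K := K2) hP2 (by rw [hPs]; exact hP2) hZ1 hZ2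
    have h3 := congrArg star (S.commA hPs hPD)
    rw [star_mul, star_mul, star_star] at h3
    have h4 : del Ψ P * star (Ψ D) = star (Ψ D) * del Ψ P := by
      rw [del, hPP, sub_mul, mul_sub, h3]
      congr 1
      rw [mul_assoc, h3, ← mul_assoc, h3, mul_assoc]
    rw [hX, map_add, star_add, mul_add, add_mul, h2, h4]
  obtain ⟨τ, hτ⟩ := scalar_of_comm (del Ψ P) (by
    intro W
    obtain ⟨X, hX⟩ := S.bij.2 (star W)
    have := hdel X
    rwa [hX, star_star] at this)
  -- the square of `R = (Ψ P)*`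
  set R := star (Ψ P) with hR
  have hRR : R * R = R - (star τ) • 1 := by
    have h1 : Ψ P * Ψ P = Ψ P - τ • 1 := by
      rw [← hτ, del, hPP]; abel
    have h2 := congrArg star h1
    rwa [star_mul, star_sub, star_smul, star_one] at h2
  have hcube : ∀ W, (4 * star τ) • cm R W = 0 := by
    intro W
    obtain ⟨X, hX⟩ := S.bij.2 W
    have h1 : cm P (cm P (cm P X)) = cm P X := by
      have := ad_cube (s := 0) (R := P) (by rw [hPP, zero_smul, sub_zero]) X
      rw [this]; simp
    have h2 := ad_cube hRR W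
    have h3 : cm R (cm R (cm R W)) = cm R W := by
      rw [← hX, ← hlie, ← hlie, ← hlie, h1]
    rw [h3] at h2
    have h4 : cm R W = cm R W - (4 * star τ) • cm R W := by
      nth_rewrite 1 [h2]; module
    exact (sub_eq_self.1 h4.symm)
  have hidem : Ψ P * Ψ P = Ψ P := by
    by_cases hτ0 : τ = 0
    · rw [hτ0, zero_smul, del, hPP, sub_eq_zero] at hτ
      exact hτ.symm
    · have h4 : (4 * star τ) ≠ 0 := by
        simpa using hτ0
      obtain ⟨s, hs⟩ := scalar_of_comm R (by
        intro W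
        have h5 := (smul_eq_zero.1 (hcube W)).resolve_left h4
        exact sub_eq_zero.1 h5)
      have h6 : Ψ P = (star s) • 1 := by
        have := congrArg star hs
        rwa [hR, star_star, star_smul, star_one] at this
      have h7 : P = (star s) • 1 := by
        apply S.bij.1
        rw [h6, map_smul, S.one]
      have h8 : Ψ (P * P) = Ψ P * Ψ P := by
        rw [h6]
        nth_rewrite 1 [h7]
        nth_rewrite 1 [h7]
        rw [smul_mul_smul_comm, one_mul, map_smul, S.one]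
      rw [← h8, hPP]
  have hn := S.nrm P (by rw [hPs])
  have hsa := sa_of_normal_idem (Ψ P) hn.symm hidem
  refine ⟨hsa, hidem, ?_⟩
  intro X
  have := hlie X
  rwa [hR, hsa] at this

/-- dimension at least two, as existence of nonzero orthogonal vectors. -/
lemma exists_orth (S : Setup L Ψ c a k b1 b2) (u : H) : ∃ w : H, w ≠ 0 ∧ inner ℂ u w = 0 := by
  by_contra hcon
  push Not at hcon
  obtain ⟨X, hX⟩ := S.dim
  by_cases hu : u = 0
  · apply hX 0
    ext x
    have hx : x = 0 := by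
      by_contra hx
      exact hcon x hx (by rw [hu, inner_zero_left])
    rw [hx]; simp
  · have huu : (inner ℂ u u : ℂ) ≠ 0 := inner_self_ne_zero.2 hu
    have hspan : ∀ x : H, x = ((inner ℂ u u)⁻¹ * inner ℂ u x) • u := by
      intro x
      by_contra hx
      apply hcon (x - ((inner ℂ u u)⁻¹ * inner ℂ u x) • u) (sub_ne_zero.2 hx)
      rw [inner_sub_right, inner_smul_right]
      field_simp
      simp
    apply hX ((inner ℂ u u)⁻¹ * inner ℂ u (X u))
    ext x
    rw [hspan x]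
    simp only [map_smul, smul_apply, one_apply_eq_self]
    nth_rewrite 1 [hspan (X u)]
    rw [smul_comm]

lemma exists_unit (S : Setup L Ψ c a k b1 b2) : ∃ e : H, ‖e‖ = 1 := by
  obtain ⟨w, hw, -⟩ := S.exists_orth (0 : H)
  refine ⟨((‖w‖⁻¹ : ℝ) : ℂ) • w, ?_⟩
  rw [norm_smul, Complex.norm_real, norm_inv, norm_norm, inv_mul_cancel₀ (norm_ne_zero_iff.2 hw)]

lemma inner_unit {e : H} (he : ‖e‖ = 1) : (inner ℂ e e : ℂ) = 1 := by
  rw [inner_self_eq_norm_sq_to_K, he]; simp

lemma ro_mul_ro (x y z w : H) : ro x y * ro z w = inner ℂ y z • ro x w := by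
  rw [mul_ro, ro_apply, ro_smul_left]

lemma ro_unit {e : H} (he : ‖e‖ = 1) : star (ro e e) = ro e e ∧ ro e e * ro e e = ro e e := by
  refine ⟨star_ro e e, ?_⟩
  rw [ro_mul_ro, inner_unit he, one_smul]

lemma ro_mem {x y : H} {K : Submodule ℂ H} (h : x ∈ K) (z : H) : ro x y z ∈ K := by
  rw [ro_apply]; exact K.smul_mem _ h

/-- images of rank one projections -/
lemma Qe (S : Setup L Ψ c a k b1 b2) {e : H} (he : ‖e‖ = 1) :
    star (Ψ (ro e e)) = Ψ (ro e e) ∧ Ψ (ro e e) * Ψ (ro e e) = Ψ (ro e e) ∧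
      ∀ X, Ψ (cm (ro e e) X) = cm (Ψ (ro e e)) (Ψ X) :=
  S.projP (K := ℂ ∙ e) (ro_unit he).1 (ro_unit he).2
    (fun x => ro_mem (Submodule.mem_span_singleton_self e) x)

/-- orthogonality of images -/
lemma Qorth (S : Setup L Ψ c a k b1 b2) {e z : H} (he : ‖e‖ = 1) (hz : ‖z‖ = 1)
    (hez : inner ℂ e z = 0) : Ψ (ro e e) * Ψ (ro z z) = 0 := by
  have hze : inner ℂ z e = 0 := by rw [← inner_conj_symm, hez, map_zero]
  obtain ⟨h1, h2, -⟩ := S.Qe he
  obtain ⟨h3, h4, -⟩ := S.Qe hz
  have hfd : FiniteDimensional ℂ (Submodule.span ℂ {e, z}) :=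
    FiniteDimensional.span_of_finite ℂ (Set.toFinite _)
  have hP := S.projP (K := Submodule.span ℂ {e, z}) (P := ro e e + ro z z)
    (by rw [star_add, star_ro, star_ro]) (by
      rw [add_mul, mul_add, mul_add, (ro_unit he).2, (ro_unit hz).2, ro_mul_ro, ro_mul_ro, hez, hze,
        zero_smul, zero_smul, add_zero, zero_add]) (by
      intro x
      exact Submodule.add_mem _ (ro_mem (Submodule.subset_span (by simp)) x)
        (ro_mem (Submodule.subset_span (by simp)) x))
  have h5 := hP.2.1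
  rw [map_add] at h5
  set Q := Ψ (ro e e)
  set R := Ψ (ro z z)
  have h6 : Q * R + R * Q = 0 := by
    have : (Q + R) * (Q + R) = Q * Q + R * R + (Q * R + R * Q) := by noncomm_ring
    rw [this, h2, h4] at h5
    simpa using h5
  have h7 : Q * R + Q * R * Q = 0 := by
    have := congrArg (fun T => Q * T) h6
    simp only [mul_add, mul_zero] at this
    rwa [← mul_assoc, h2, ← mul_assoc] at this
  have h8 : Q * R * Q = 0 := by
    have := congrArg (fun T => T * Q) h7
    simp only [add_mul, zero_mul] at this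
    rw [mul_assoc (Q * R) Q Q, h2, ← two_smul ℂ] at this
    exact (smul_eq_zero.1 this).resolve_left two_ne_zero
  rwa [h8, add_zero] at h7

/-- Peirce component. -/
lemma peirce {Q M : H →L[ℂ] H} (hQ : Q * Q = Q) (h : cm Q M = -M) : Q * M = 0 ∧ M * Q = M := by
  rw [cm] at h
  have h1 : Q * M - Q * M * Q = - (Q * M) := by
    have := congrArg (fun T => Q * T) h
    simp only [mul_sub, mul_neg] at this
    rwa [← mul_assoc, hQ, ← mul_assoc] at this
  have h2 : Q * M * Q = 0 := by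
    have := congrArg (fun T => T * Q) h
    simp only [sub_mul, neg_mul] at this
    rw [mul_assoc M Q Q, hQ] at this
    have h3 := sub_eq_iff_eq_add.1 this
    rw [neg_add_cancel] at h3
    exact h3
  rw [h2, sub_zero] at h1
  have h3 : Q * M = 0 := by
    have h4 : (2 : ℂ) • (Q * M) = 0 := by
      rw [two_smul]; nth_rewrite 1 [h1]; exact neg_add_cancel _
    exact (smul_eq_zero.1 h4).resolve_left two_ne_zero
  refine ⟨h3, ?_⟩
  rw [h3, zero_sub, neg_inj] at h
  exact h

lemma cm_ro_orth {e z : H} (he : ‖e‖ = 1) (hez : inner ℂ e z = 0) :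
    cm (ro e e) (ro z e) = - ro z e := by
  rw [cm, ro_mul_ro, ro_mul_ro, hez, inner_unit he, zero_smul, one_smul, zero_sub]

lemma Mz (S : Setup L Ψ c a k b1 b2) {e z : H} (he : ‖e‖ = 1) (hez : inner ℂ e z = 0) :
    Ψ (ro e e) * Ψ (ro z e) = 0 ∧ Ψ (ro z e) * Ψ (ro e e) = Ψ (ro z e) := by
  obtain ⟨h1, h2, h3⟩ := S.Qe he
  refine peirce h2 ?_
  rw [← h3, cm_ro_orth he hez, map_neg]

/-- orthogonal decomposition along a unit vector -/
lemma decomp {e : H} (he : ‖e‖ = 1) (x : H) : ∃ z : H, inner ℂ e z = 0 ∧ x = inner ℂ e x • e + z := by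
  refine ⟨x - inner ℂ e x • e, ?_, by abel⟩
  rw [inner_sub_right, inner_smul_right, inner_unit he, mul_one, sub_self]

lemma Mx (S : Setup L Ψ c a k b1 b2) {e : H} (he : ‖e‖ = 1) (x : H) :
    Ψ (ro x e) * Ψ (ro e e) = Ψ (ro x e) := by
  obtain ⟨z, hz, hx⟩ := decomp he x
  rw [hx, ro_add_left, ro_smul_left, map_add, map_smul, add_mul, smul_mul_assoc, (S.Qe he).2.1,
    (S.Mz he hz).2]

lemma exists_norm {v : H} (hv : v ≠ 0) : ∃ (u : H) (r : ℂ), ‖u‖ = 1 ∧ r ≠ 0 ∧ star r = r ∧
    v = r • u := by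
  have hn : (‖v‖ : ℝ) ≠ 0 := norm_ne_zero_iff.2 hv
  refine ⟨((‖v‖⁻¹ : ℝ) : ℂ) • v, ((‖v‖ : ℝ) : ℂ), ?_, ?_, ?_, ?_⟩
  · rw [norm_smul, Complex.norm_real, norm_inv, norm_norm, inv_mul_cancel₀ hn]
  · exact_mod_cast hn
  · simp
  · rw [smul_smul, ← Complex.ofReal_mul, mul_inv_cancel₀ hn, Complex.ofReal_one, one_smul]

lemma ro_vv {u : H} {r : ℂ} (hr : star r = r) : ro (r • u) (r • u) = (r * r) • ro u u := by
  rw [ro_smul_left, ro_smul_right, smul_smul]
  congr 2

/-- compatibility with the adjoint on rank one operators -/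
lemma star_psi (S : Setup L Ψ c a k b1 b2) (x y : H) : star (Ψ (ro x y)) = Ψ (ro y x) := by
  have hv : ∀ v : H, star (Ψ (ro v v)) = Ψ (ro v v) := by
    intro v
    by_cases hv : v = 0
    · rw [hv, ro_zero_left, map_zero, star_zero]
    · obtain ⟨u, r, hu, -, hr, hvr⟩ := exists_norm hv
      rw [hvr, ro_vv hr, map_smul, star_smul, (S.Qe hu).1, star_mul, hr]
  have := ext4 (star (Ψ (ro x x)) - Ψ (ro x x)) (star (Ψ (ro x y)) - Ψ (ro y x))
    (star (Ψ (ro y x)) - Ψ (ro x y)) (star (Ψ (ro y y)) - Ψ (ro y y)) (by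
      intro t
      have h := sub_eq_zero.2 (hv (x + t • y))
      rw [← h]
      simp only [ro_add_left, ro_add_right, ro_smul_left, ro_smul_right, map_add, map_smul,
        star_add, star_smul, RCLike.star_def, smul_add, smul_sub, smul_smul, Complex.conj_conj,
        map_mul]
      module)
  exact sub_eq_zero.1 this.2

/-- multiplicativity of the Lie identity for rank one operators -/
lemma lieF (S : Setup L Ψ c a k b1 b2) (x y : H) (X : H →L[ℂ] H) :
    Ψ (cm (ro x y) X) = cm (Ψ (ro x y)) (Ψ X) := by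
  have hv : ∀ v : H, Ψ (cm (ro v v) X) = cm (Ψ (ro v v)) (Ψ X) := by
    intro v
    by_cases hv : v = 0
    · rw [hv, ro_zero_left, map_zero]; simp [cm]
    · obtain ⟨u, r, hu, -, hr, hvr⟩ := exists_norm hv
      rw [hvr, ro_vv hr, map_smul]
      have h1 := (S.Qe hu).2.2 X
      have h2 : ∀ (s : ℂ) (A B : H →L[ℂ] H), cm (s • A) B = s • cm A B := by
        intro s A B
        simp only [cm, smul_mul_assoc, mul_smul_comm, smul_sub]
      rw [h2, h2, map_smul, h1]
  have := ext4 (Ψ (cm (ro x x) X) - cm (Ψ (ro x x)) (Ψ X))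
    (Ψ (cm (ro y x) X) - cm (Ψ (ro y x)) (Ψ X))
    (Ψ (cm (ro x y) X) - cm (Ψ (ro x y)) (Ψ X))
    (Ψ (cm (ro y y) X) - cm (Ψ (ro y y)) (Ψ X)) (by
      intro t
      have h := sub_eq_zero.2 (hv (x + t • y))
      rw [← h]
      simp only [cm, ro_add_left, ro_add_right, ro_smul_left, ro_smul_right, map_add, map_smul,
        map_sub, add_mul, mul_add, smul_mul_assoc, mul_smul_comm, smul_add, smul_sub, smul_smul]
      module)
  exact sub_eq_zero.1 this.1

/-- `M_z* M_z = ‖z‖² Q_e`. -/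
lemma MM (S : Setup L Ψ c a k b1 b2) {e z : H} (he : ‖e‖ = 1) (hez : inner ℂ e z = 0) :
    Ψ (ro e z) * Ψ (ro z e) = inner ℂ z z • Ψ (ro e e) := by
  obtain ⟨h1, h2, h3⟩ := S.Qe he
  obtain ⟨h4, h5⟩ := S.Mz he hez
  have hze : inner ℂ z e = 0 := by rw [← inner_conj_symm, hez, map_zero]
  have h6 := S.lieF e z (ro z e)
  have h7 : cm (ro e z) (ro z e) = inner ℂ z z • ro e e - ro z z := by
    rw [cm, ro_mul_ro, ro_mul_ro, inner_unit he, one_smul]
  rw [h7, map_sub, map_smul] at h6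
  set Q := Ψ (ro e e)
  have hzz : Ψ (ro z z) * Q = 0 := by
    by_cases hz : z = 0
    · rw [hz, ro_zero_left, map_zero, zero_mul]
    · obtain ⟨u, r, hu, hr0, hr, hvr⟩ := exists_norm hz
      rw [hvr, ro_vv hr, map_smul, smul_mul_assoc]
      have hue : inner ℂ u e = 0 := by
        rw [hvr, inner_smul_left] at hze
        rcases mul_eq_zero.1 hze with h | h
        · exact absurd ((map_eq_zero _).1 h) hr0
        · exact h
      rw [S.Qorth hu he hue, smul_zero]
  have h8 : star (Ψ (ro z e)) = Ψ (ro e z) := S.star_psi z e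
  have h9 : Q * Ψ (ro e z) = Ψ (ro e z) := by
    have := congrArg star h5
    rwa [star_mul, h1, h8] at this
  have h10 := congrArg (fun T => Q * T * Q) h6
  simp only [cm, mul_sub, sub_mul] at h10
  have e1 : Q * (inner ℂ z z • Q) * Q = inner ℂ z z • Q := by
    rw [mul_smul_comm, smul_mul_assoc, h2, h2]
  have e2 : Q * Ψ (ro z z) * Q = 0 := by rw [mul_assoc, hzz, mul_zero]
  have e3 : Q * (Ψ (ro e z) * Ψ (ro z e)) * Q = Ψ (ro e z) * Ψ (ro z e) := by
    rw [← mul_assoc, h9, mul_assoc, h5]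
  have e4 : Q * (Ψ (ro z e) * Ψ (ro e z)) * Q = 0 := by
    rw [← mul_assoc, h4, zero_mul, zero_mul]
  rw [e1, e2, e3, e4, sub_zero, sub_zero] at h10
  exact h10.symm

/-- `star (Ψ (ro x e)) * Ψ (ro x e) = ‖x‖² Q_e` for all `x`. -/
lemma MMx (S : Setup L Ψ c a k b1 b2) {e : H} (he : ‖e‖ = 1) (x : H) :
    Ψ (ro e x) * Ψ (ro x e) = inner ℂ x x • Ψ (ro e e) := by
  obtain ⟨h1, h2, h3⟩ := S.Qe he
  obtain ⟨z, hz, hx⟩ := decomp he x
  obtain ⟨h4, h5⟩ := S.Mz he hz
  have hMM := S.MM he hz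
  have h8 : star (Ψ (ro z e)) = Ψ (ro e z) := S.star_psi z e
  have h6 : Ψ (ro e z) * Ψ (ro e e) = 0 := by
    have := congrArg star h4
    rwa [star_mul, h1, h8, star_zero] at this
  have hze : inner ℂ z e = 0 := by rw [← inner_conj_symm, hz, map_zero]
  set al := inner ℂ e x with hal
  have hin : (inner ℂ x x : ℂ) = starRingEnd ℂ al * al + inner ℂ z z := by
    rw [hx]
    simp only [inner_add_left, inner_add_right, inner_smul_left, inner_smul_right, inner_unit he,
      hz, hze, mul_zero, add_zero, zero_add, mul_one]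
    ring
  rw [hin]
  nth_rewrite 1 [hx]
  nth_rewrite 1 [hx]
  rw [ro_add_left, ro_smul_left, ro_add_right, ro_smul_right, map_add, map_add, map_smul, map_smul]
  simp only [add_mul, mul_add, smul_mul_assoc, mul_smul_comm, h2, h4, h6, hMM, smul_zero, add_zero,
    zero_add, smul_add, smul_smul]
  module

end Setup

end Pool.Agent.V1195.LinBij
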