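import Mathlib
import Pool.Agent.V1195.LinBijC

/-!
# Linear bijections commuting with mean-type Aluthge transforms: end of the proof
-/

set_option autoImplicit false
set_option linter.unusedSectionVars false
set_option linter.unusedSimpArgs false

namespace Pool.Agent.V1195.LinBij

open Asymptotics Filter Topology

variable {H : Type*} [NormedAddCommGroup H] [InnerProductSpace ℂ H] [CompleteSpace H]

/-- The algebra behind the last step. -/
lemma c3_add {k b1 b2 g : ℂ} {X M : H →L[ℂ] H} (hX : star X = X) (h1 : X * M = 0)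
    (h2 : M * X = 0) (hM : M * M = 0) :
    c3 k b1 b2 (X + g • 1 + M) = c3 k b1 b2 M + (k * (2 * star g)) • cm (star M) M := by
  have h3 : star M * X = 0 := by
    have := congrArg star h1
    rwa [star_mul, hX, star_zero] at this
  have h4 : X * star M = 0 := by
    have := congrArg star h2
    rwa [star_mul, hX, star_zero] at this
  have h5 : star M * star M = 0 := by
    have := congrArg star hM
    rwa [star_mul, star_zero] at this
  have hs : star (X + g • 1 + M) = X + star g • 1 + star M := by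
    rw [star_add, star_add, star_smul, star_one, hX]
  have hC : cm (star (X + g • 1 + M)) (X + g • 1 + M) = cm (star M) M := by
    rw [hs, cm, cm]
    simp only [add_mul, mul_add, smul_mul_assoc, mul_smul_comm, one_mul, mul_one, h1, h2, h3, h4,
      smul_add, smul_zero, add_zero, zero_add]
    module
  have hXC : X * cm (star M) M = 0 := by
    rw [cm, mul_sub, ← mul_assoc, ← mul_assoc, h1, h4, zero_mul, zero_mul, sub_zero]
  have hCX : cm (star M) M * X = 0 := by
    rw [cm, sub_mul, mul_assoc, mul_assoc, h2, h3, mul_zero, mul_zero, sub_zero]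
  have e1 : cm (X + g • 1 + M) (cm (star M) M) = cm M (cm (star M) M) := by
    generalize cm (star M) M = C at hXC hCX ⊢
    rw [cm, cm]
    simp only [add_mul, mul_add, smul_mul_assoc, mul_smul_comm, one_mul, mul_one, hXC, hCX,
      zero_add]
    abel
  have e2 : cm (X + star g • 1 + star M) (cm (star M) M) = cm (star M) (cm (star M) M) := by
    generalize cm (star M) M = C at hXC hCX ⊢
    rw [cm, cm]
    simp only [add_mul, mul_add, smul_mul_assoc, mul_smul_comm, one_mul, mul_one, hXC, hCX,
      zero_add]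
    abel
  have e3 : (X + star g • 1 + star M) * (X + star g • 1 + star M) =
      X * X + (2 * star g) • X + (star g * star g) • 1 + (2 * star g) • star M := by
    simp only [add_mul, mul_add, smul_mul_assoc, mul_smul_comm, one_mul, mul_one, h3, h4, h5,
      smul_add, smul_smul, add_zero, zero_add]
    module
  have hXXM : X * X * M = 0 := by rw [mul_assoc, h1, mul_zero]
  have hMXX : M * (X * X) = 0 := by rw [← mul_assoc, h2, zero_mul]
  have e4 : cm ((X + star g • 1 + star M) * (X + star g • 1 + star M)) (X + g • 1 + M) =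
      (2 * star g) • cm (star M) M := by
    rw [e3, cm, cm]
    simp only [add_mul, mul_add, smul_mul_assoc, mul_smul_comm, one_mul, mul_one, h1, h2, h3, h4,
      hXXM, hMXX, smul_add, smul_zero, add_zero, zero_add, smul_sub, smul_smul, mul_assoc]
    module
  have e5 : cm (star M * star M) M = 0 := by rw [h5, cm, zero_mul, mul_zero, sub_zero]
  rw [c3, c3, hC, hs, e4, e1, e2, e5, smul_zero, smul_smul]
  abel

lemma c2_add {g : ℂ} {X M : H →L[ℂ] H} (hX : star X = X) (h1 : X * M = 0)
    (h2 : M * X = 0) : cm (star (X + g • 1 + M)) (X + g • 1 + M) = cm (star M) M := by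
  have h3 : star M * X = 0 := by
    have := congrArg star h1
    rwa [star_mul, hX, star_zero] at this
  have h4 : X * star M = 0 := by
    have := congrArg star h2
    rwa [star_mul, hX, star_zero] at this
  have hs : star (X + g • 1 + M) = X + star g • 1 + star M := by
    rw [star_add, star_add, star_smul, star_one, hX]
  rw [hs, cm, cm]
  simp only [add_mul, mul_add, smul_mul_assoc, mul_smul_comm, one_mul, mul_one, h1, h2, h3, h4,
    smul_add, smul_zero, add_zero, zero_add]
  module

namespace Setup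

variable {L : (H →L[ℂ] H) → (H →L[ℂ] H)} {Ψ : (H →L[ℂ] H) →ₗ[ℂ] (H →L[ℂ] H)}
  {c a k b1 b2 : ℂ}

/-- lifting of rank one operators -/
lemma lift (S : Setup L Ψ c a k b1 b2) {e : H} (he : ‖e‖ = 1) {eta y : H}
    (h0 : Ψ (ro e e) eta = 0) (hy : Ψ (ro e e) y = y) :
    ∃ z : H, inner ℂ e z = 0 ∧ Ψ (ro z e) = ro eta y := by
  obtain ⟨h1, h2, h3⟩ := S.Qe he
  obtain ⟨X, hX⟩ := S.bij.2 (ro eta y)
  have h4 : cm (ro e e) X = - X := by
    apply S.bij.1
    rw [h3, hX, map_neg, hX, cm, mul_ro, h0, ro_zero_left, ro_mul, h1, hy, zero_sub]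
  obtain ⟨h5, h6⟩ := peirce (ro_unit he).2 h4
  rw [mul_ro] at h6
  refine ⟨X e, ?_, ?_⟩
  · rw [← h6, ro_mul_ro] at h5
    have h7 := congrArg (fun T : H →L[ℂ] H => inner ℂ e (T e)) h5
    simp only [smul_apply, ro_apply, inner_unit he, one_smul, inner_smul_right, mul_one,
      zero_apply, inner_zero_right] at h7
    exact h7
  · rw [h6, hX]

/-- there is a unit vector `e` such that the image of `P_e` is a rank one projection -/
lemma exists_rank_one (S : Setup L Ψ c a k b1 b2) : ∃ e y : H, ‖e‖ = 1 ∧ ‖y‖ = 1 ∧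
    Ψ (ro e e) = ro y y := by
  obtain ⟨e, he⟩ := S.exists_unit
  obtain ⟨h1, h2, h3⟩ := S.Qe he
  -- a nonzero vector in the range
  have hQ0 : Ψ (ro e e) ≠ 0 := by
    intro h
    have h4 : ro e e = 0 := S.bij.1 (by rw [h, map_zero])
    have h5 := congrArg (fun T : H →L[ℂ] H => inner ℂ e (T e)) h4
    simp [ro_apply, inner_unit he] at h5
    rw [h5, norm_zero] at he
    exact zero_ne_one he
  have hQ1 : Ψ (ro e e) ≠ 1 := by
    intro h
    have h4 : ro e e = 1 := S.bij.1 (by rw [h, S.one])
    obtain ⟨w, hw, hew⟩ := S.exists_orth e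
    have h5 := congrArg (fun T : H →L[ℂ] H => T w) h4
    simp only [ro_apply, hew, zero_smul, one_apply_eq_self] at h5
    exact hw h5.symm
  obtain ⟨x, hx⟩ : ∃ x, Ψ (ro e e) x ≠ 0 := by
    by_contra hcon
    push Not at hcon
    exact hQ0 (ContinuousLinearMap.ext (by simpa using hcon))
  obtain ⟨x', hx'⟩ : ∃ x', x' - Ψ (ro e e) x' ≠ 0 := by
    by_contra hcon
    push Not at hcon
    exact hQ1 (ContinuousLinearMap.ext (fun x => by
      have := sub_eq_zero.1 (hcon x)
      simpa using this.symm))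
  obtain ⟨y, r, hy, hr0, hr, hyr⟩ := exists_norm hx
  have hQQ : ∀ v, Ψ (ro e e) (Ψ (ro e e) v) = Ψ (ro e e) v := by
    intro v
    have := congrArg (fun T : H →L[ℂ] H => T v) h2
    simpa using this
  have hQy : Ψ (ro e e) y = y := by
    have h4 : r • Ψ (ro e e) y = r • y := by
      rw [← map_smul, ← hyr, hQQ]
    exact smul_right_injective H hr0 h4
  set eta := x' - Ψ (ro e e) x' with heta
  have hQeta : Ψ (ro e e) eta = 0 := by
    rw [heta, map_sub, hQQ, sub_self]
  obtain ⟨z, hz, hKz⟩ := S.lift he hQeta hQy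
  have hMM := S.MM he hz
  have h8 : star (Ψ (ro z e)) = Ψ (ro e z) := S.star_psi z e
  rw [← h8, hKz, star_ro, ro_mul_ro] at hMM
  -- `⟪eta, eta⟫ ro y y = ⟪z, z⟫ Q`
  have h9 := congrArg (fun T : H →L[ℂ] H => inner ℂ y (T y)) hMM
  simp only [smul_apply, ro_apply, inner_unit hy, one_smul, hQy, inner_smul_right, mul_one] at h9
  have heta0 : (inner ℂ eta eta : ℂ) ≠ 0 := inner_self_ne_zero.2 hx'
  refine ⟨e, y, he, hy, ?_⟩
  rw [h9] at hMM
  rw [h9] at heta0
  exact (smul_right_injective _ heta0 hMM).symm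

/-- The main structural statement. -/
lemma exists_unitary (S : Setup L Ψ c a k b1 b2) :
    ∃ (U : H →L[ℂ] H) (g : (H →L[ℂ] H) →ₗ[ℂ] ℂ), star U * U = 1 ∧ U * star U = 1 ∧
      ∀ X, Ψ X = U * X * star U + g X • 1 := by
  obtain ⟨e, y, he, hy, hQ⟩ := S.exists_rank_one
  obtain ⟨h1, h2, h3⟩ := S.Qe he
  let U0 : H →ₗ[ℂ] H :=
    { toFun := fun x => Ψ (ro x e) y
      map_add' := by intro x x'; rw [ro_add_left, map_add]; rfl
      map_smul' := by intro t x; rw [ro_smul_left, map_smul]; rfl }
  have hU0 : ∀ x, U0 x = Ψ (ro x e) y := fun x => rfl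
  have hQy : Ψ (ro e e) y = y := by rw [hQ, ro_apply, inner_unit hy, one_smul]
  have hnorm : ∀ x, ‖U0 x‖ = ‖x‖ := by
    intro x
    have h4 : (inner ℂ (U0 x) (U0 x) : ℂ) = inner ℂ x x := by
      have h5 := S.MMx he x
      rw [← S.star_psi x e] at h5
      have h6 := congrArg (fun T : H →L[ℂ] H => inner ℂ y (T y)) h5
      simp only [smul_apply, hQy, inner_smul_right, inner_unit hy, mul_one,
        mul_apply_eq_comp] at h6
      rw [ContinuousLinearMap.star_eq_adjoint, ContinuousLinearMap.adjoint_inner_right] at h6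
      rw [hU0]; exact h6
    rw [inner_self_eq_norm_sq_to_K, inner_self_eq_norm_sq_to_K] at h4
    have h7 : ‖U0 x‖ ^ 2 = ‖x‖ ^ 2 := by exact_mod_cast h4
    exact (sq_eq_sq₀ (norm_nonneg _) (norm_nonneg _)).1 h7
  let U1 : H →ₗᵢ[ℂ] H := ⟨U0, hnorm⟩
  have hsurj : Function.Surjective U1 := by
    intro h
    have h5 : Ψ (ro e e) (h - inner ℂ y h • y) = 0 := by
      rw [hQ, ro_apply, inner_sub_right, inner_smul_right, inner_unit hy, mul_one, sub_self,
        zero_smul]
    obtain ⟨z, hz, hKz⟩ := S.lift he h5 hQy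
    refine ⟨inner ℂ y h • e + z, ?_⟩
    show U0 _ = _
    rw [map_add, map_smul, hU0, hU0, hQy, hKz, ro_apply, inner_unit hy, one_smul]
    abel
  let U2 : H ≃ₗᵢ[ℂ] H := LinearIsometryEquiv.ofSurjective U1 hsurj
  let U : H →L[ℂ] H := (U2.toContinuousLinearEquiv : H →L[ℂ] H)
  have hU : ∀ x, U x = Ψ (ro x e) y := fun x => rfl
  have hsU : star U = (U2.symm.toContinuousLinearEquiv : H →L[ℂ] H) := by
    rw [ContinuousLinearMap.star_eq_adjoint]
    refine ((ContinuousLinearMap.eq_adjoint_iff _ _).2 ?_).symm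
    intro u v
    show inner ℂ (U2.symm u) v = inner ℂ u (U2 v)
    rw [← U2.inner_map_map, U2.apply_symm_apply]
  have hUU : star U * U = 1 := by
    rw [hsU]; ext x
    exact U2.symm_apply_apply x
  have hUU' : U * star U = 1 := by
    rw [hsU]; ext x
    exact U2.apply_symm_apply x
  let g : (H →L[ℂ] H) →ₗ[ℂ] ℂ :=
    { toFun := fun X => inner ℂ y (Ψ X y) - inner ℂ e (X e)
      map_add' := by
        intro X X'
        rw [map_add]
        simp only [add_apply, inner_add_right]; ring
      map_smul' := by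
        intro t X
        rw [map_smul]
        simp only [smul_apply, inner_smul_right, RingHom.id_apply, smul_eq_mul]; ring }
  have hg : ∀ X, g X = inner ℂ y (Ψ X y) - inner ℂ e (X e) := fun X => rfl
  refine ⟨U, g, hUU, hUU', ?_⟩
  intro X
  -- orthogonal vectors
  have hR0 : ∀ x w : H, inner ℂ e w = 0 → Ψ (ro x w) * Ψ (ro e e) = 0 := by
    intro x w hw
    by_cases hw0 : w = 0
    · rw [hw0, ro_zero_right, map_zero, zero_mul]
    · obtain ⟨u, r, hu, hr0, hr, hwr⟩ := exists_norm hw0
      have hue : inner ℂ u e = 0 := by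
        have hwe : inner ℂ w e = 0 := by rw [← inner_conj_symm, hw, map_zero]
        rw [hwr, inner_smul_left] at hwe
        rcases mul_eq_zero.1 hwe with h | h
        · exact absurd ((map_eq_zero _).1 h) hr0
        · exact h
      rw [hwr, ro_smul_right, map_smul, smul_mul_assoc, ← S.Mx hu x, mul_assoc,
        S.Qorth hu he hue, mul_zero, smul_zero]
  have hmain : Ψ X * U = U * X + g X • U := by
    ext x
    have h4 := S.lieF x e X
    rw [cm, cm, ro_mul, mul_ro, map_sub] at h4
    have h5 := congrArg (fun T : H →L[ℂ] H => T y) h4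
    simp only [sub_apply, mul_apply_eq_comp] at h5
    -- first term
    obtain ⟨w, hw, hwx⟩ := decomp he (star X e)
    have h6 : Ψ (ro x (star X e)) y = inner ℂ e (X e) • U x := by
      have h7 : Ψ (ro x w) y = 0 := by
        have := congrArg (fun T : H →L[ℂ] H => T y) (hR0 x w hw)
        simpa [hQy] using this
      have h8 : starRingEnd ℂ (inner ℂ e (star X e)) = inner ℂ e (X e) := by
        rw [inner_conj_symm, ContinuousLinearMap.star_eq_adjoint,
          ContinuousLinearMap.adjoint_inner_left]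
      rw [hwx, ro_add_right, ro_smul_right, map_add, map_smul, add_apply, smul_apply, h7, add_zero,
        h8, hU]
    -- third term
    have h9 : Ψ (ro x e) (Ψ X y) = inner ℂ y (Ψ X y) • U x := by
      have h10 := congrArg (fun T : H →L[ℂ] H => T (Ψ X y)) (S.Mx he x)
      simp only [mul_apply_eq_comp] at h10
      rw [← h10, hQ, ro_apply, map_smul, hU]
    rw [h6, h9, ← hU, ← hU] at h5
    simp only [mul_apply_eq_comp, add_apply, smul_apply]
    rw [hg, sub_smul]
    have h11 : Ψ X (U x) = inner ℂ y (Ψ X y) • U x - (inner ℂ e (X e) • U x - U (X x)) := by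
      rw [h5]; abel
    rw [h11]; abel
  calc Ψ X = Ψ X * (U * star U) := by rw [hUU', mul_one]
    _ = (Ψ X * U) * star U := by rw [mul_assoc]
    _ = U * X * star U + g X • 1 := by rw [hmain, add_mul, smul_mul_assoc, hUU']

/-- `g` vanishes on rank one operators. -/
lemma g_ro (S : Setup L Ψ c a k b1 b2) {U : H →L[ℂ] H} {g : (H →L[ℂ] H) →ₗ[ℂ] ℂ}
    (hU : star U * U = 1) (hU' : U * star U = 1)
    (hΨ : ∀ X, Ψ X = U * X * star U + g X • 1) (x y : H) : g (ro x y) = 0 := by
  have hunit : ∀ v : H, ‖v‖ = 1 → g (ro v v) = 0 := by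
    intro v hv
    obtain ⟨h1, h2, -⟩ := S.Qe hv
    have h3 : U * ro v v * star U = ro (U v) (U v) := by
      rw [mul_ro, ro_mul, star_star]
    have hin : (inner ℂ (U v) (U v) : ℂ) = 1 := by
      have : (inner ℂ (U v) (U v) : ℂ) = inner ℂ v ((star U * U) v) := by
        rw [mul_apply_eq_comp, ContinuousLinearMap.star_eq_adjoint,
          ContinuousLinearMap.adjoint_inner_right]
      rw [this, hU, one_apply_eq_self, inner_unit hv]
    rw [hΨ, h3] at h2
    set s := g (ro v v) with hs
    obtain ⟨w, hw0, hw⟩ := S.exists_orth (U v)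
    have e1 := congrArg (fun T : H →L[ℂ] H => T w) h2
    have e2 := congrArg (fun T : H →L[ℂ] H => T (U v)) h2
    simp only [mul_apply_eq_comp, add_apply, smul_apply, one_apply_eq_self, ro_apply, hw,
      inner_add_right, inner_smul_right, mul_zero, zero_smul, zero_add, add_zero, hin, mul_one,
      one_smul] at e1 e2
    have hv0 : U v ≠ 0 := by
      intro h
      rw [h, inner_zero_left] at hin
      exact zero_ne_one hin
    have f1 : (s * s - s) • w = 0 := by
      rw [sub_smul, mul_smul, e1, sub_self]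
    have f2 : ((1 + s) * (1 + s) - (1 + s)) • U v = 0 := by
      have : ((1 + s) * (1 + s) - (1 + s)) • U v =
        ((1 + s) • U v + s • (U v + s • U v)) - (U v + s • U v) := by module
      rw [this, sub_eq_zero]
      convert e2 using 2
    have f3 := (smul_eq_zero.1 f1).resolve_right hw0
    have f4 := (smul_eq_zero.1 f2).resolve_right hv0
    have f5 : 2 * s = 0 := by linear_combination f4 - f3
    exact (mul_eq_zero.1 f5).resolve_left two_ne_zero
  have hv : ∀ v : H, g (ro v v) = 0 := by
    intro v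
    by_cases hv0 : v = 0
    · rw [hv0, ro_zero_left, map_zero]
    · obtain ⟨u, r, hu, hr0, hr, hvr⟩ := exists_norm hv0
      rw [hvr, ro_vv hr, map_smul, hunit u hu, smul_zero]
  have := ext4 (g (ro x x)) (g (ro y x)) (g (ro x y)) (g (ro y y)) (by
      intro t
      rw [← hv (x + t • y)]
      simp only [ro_add_left, ro_add_right, ro_smul_left, ro_smul_right, map_add, map_smul,
        smul_add, smul_smul, smul_eq_mul]
      ring)
  exact this.1

/-- `g = 0`. -/
lemma g_zero (S : Setup L Ψ c a k b1 b2) {U : H →L[ℂ] H} {g : (H →L[ℂ] H) →ₗ[ℂ] ℂ}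
    (hU : star U * U = 1) (hU' : U * star U = 1)
    (hΨ : ∀ X, Ψ X = U * X * star U + g X • 1) (X : H →L[ℂ] H) : g X = 0 := by
  have hgro := S.g_ro hU hU' hΨ
  -- enough for self-adjoint operators
  suffices hsa : ∀ X : H →L[ℂ] H, star X = X → g X = 0 by
    obtain ⟨A, C, hA, hC, hXAC, -⟩ := sa_decomp X
    rw [hXAC, map_add, map_smul, hsa A hA, hsa C hC, smul_zero, add_zero]
  intro X hX
  obtain ⟨xi, hxi⟩ := S.exists_unit
  obtain ⟨w, hw0, hw⟩ := S.exists_orth xi
  obtain ⟨eta, r, heta, hr0, hr, hwr⟩ := exists_norm hw0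
  have hxe : inner ℂ xi eta = 0 := by
    rw [hwr, inner_smul_right] at hw
    exact (mul_eq_zero.1 hw).resolve_left hr0
  have hex : inner ℂ eta xi = 0 := by rw [← inner_conj_symm, hxe, map_zero]
  set Pi := ro xi xi + ro eta eta with hPi
  have hPis : star Pi = Pi := by rw [hPi, star_add, star_ro, star_ro]
  have hPixi : Pi xi = xi := by
    rw [hPi, add_apply, ro_apply, ro_apply, inner_unit hxi, hex, one_smul, zero_smul, add_zero]
  have hPieta : Pi eta = eta := by
    rw [hPi, add_apply, ro_apply, ro_apply, inner_unit heta, hxe, one_smul, zero_smul, zero_add]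
  set X' := (1 - Pi) * X * (1 - Pi) with hX'
  have hX's : star X' = X' := by
    rw [hX', star_mul, star_mul, star_sub, star_one, hPis, hX, mul_assoc]
  have hX'xi : X' xi = 0 := by
    rw [hX']; simp only [mul_apply_eq_comp, sub_apply, one_apply_eq_self, hPixi, sub_self, map_zero]
  have hX'eta : X' eta = 0 := by
    rw [hX']; simp only [mul_apply_eq_comp, sub_apply, one_apply_eq_self, hPieta, sub_self, map_zero]
  have hgX : g X = g X' := by
    have h1 : X = X' + (Pi * X + (X * Pi - Pi * (X * Pi))) := by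
      rw [hX']; noncomm_ring
    have h2 : g (Pi * X) = 0 := by
      rw [hPi, add_mul, ro_mul, ro_mul, map_add, hgro, hgro, add_zero]
    have h3 : g (X * Pi) = 0 := by
      rw [hPi, mul_add, mul_ro, mul_ro, map_add, hgro, hgro, add_zero]
    have h4 : g (Pi * (X * Pi)) = 0 := by
      rw [hPi, mul_add X, mul_ro, mul_ro, mul_add, mul_ro, mul_ro, map_add, hgro, hgro, add_zero]
    conv_lhs => rw [h1]
    rw [map_add, map_add, map_sub, h2, h3, h4]; simp
  set N := ro eta xi with hN
  have hX'N : X' * N = 0 := by rw [hN, mul_ro, hX'eta, ro_zero_left]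
  have hNX' : N * X' = 0 := by rw [hN, ro_mul, hX's, hX'xi, ro_zero_right]
  -- the images
  set Y := U * X' * star U with hY
  set M := U * N * star U with hM
  have hgN : g N = 0 := hgro _ _
  have hΨX' : Ψ X' = Y + g X' • 1 := hΨ X'
  have hΨN : Ψ N = M := by rw [hΨ, hgN, zero_smul, add_zero]
  have hYs : star Y = Y := by
    rw [hY, star_mul, star_mul, star_star, hX's]
    exact (mul_assoc U X' (star U)).symm
  have hYM : Y * M = 0 := by
    calc Y * M = U * X' * (star U * U) * N * star U := by rw [hY, hM]; noncomm_ring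
      _ = 0 := by rw [hU, mul_one, mul_assoc U X' N, hX'N, mul_zero, zero_mul]
  have hMY : M * Y = 0 := by
    calc M * Y = U * N * (star U * U) * X' * star U := by rw [hY, hM]; noncomm_ring
      _ = 0 := by rw [hU, mul_one, mul_assoc U N X', hNX', mul_zero, zero_mul]
  have hMM : M * M = 0 := by
    calc M * M = U * N * (star U * U) * N * star U := by rw [hM]; noncomm_ring
      _ = 0 := by
        rw [hU, mul_one, mul_assoc U N N, hN, ro_mul_ro, hxe, zero_smul, mul_zero, zero_mul]
  -- Taylor expansions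
  have hA := S.exp c S.c0 (Y + g X' • 1 + M)
  have hB := S.exp c S.c0 M
  have hadd := S.add X' N hX's hX'N hNX'
  have hfin : (fun e : ℝ => ((e : ℂ) ^ 2) • (0 : H →L[ℂ] H) +
      ((e : ℂ) ^ 3) • (c • (c3 k b1 b2 M - c3 k b1 b2 (Y + g X' • 1 + M)))) =O[𝓝[>] (0 : ℝ)]
        (fun e => e ^ 4) := by
    refine (IsBigO.congr' (hA.sub hB) ?_ (EventuallyEq.refl _ _))
    filter_upwards [hadd] with e he
    have h1 : L (c • (1 + (e : ℂ) • (Y + g X' • 1 + M))) =
        L (c • (1 + (e : ℂ) • M)) + c • ((e : ℂ) • (Y + g X' • 1)) := by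
      have h2 : L (c • Ψ (1 + (e : ℂ) • (X' + N))) = L (c • (1 + (e : ℂ) • (Y + g X' • 1 + M))) := by
        rw [map_add, map_smul, map_add, S.one, hΨX', hΨN]
      have h3 : L (c • Ψ (1 + (e : ℂ) • N)) = L (c • (1 + (e : ℂ) • M)) := by
        rw [map_add, map_smul, S.one, hΨN]
      rw [← h2, ← h3, ← S.comm, ← S.comm, he, map_add, map_smul, hΨX', smul_add]
    rw [h1, c2_add hYs hYM hMY]
    module
  obtain ⟨-, hv⟩ := coeff_zero _ _ hfin
  have hv2 := (smul_eq_zero.1 hv).resolve_left S.c0
  rw [c3_add hYs hYM hMY hMM] at hv2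
  have hv3 : (k * (2 * star (g X'))) • cm (star M) M = 0 := by
    have : c3 k b1 b2 M - (c3 k b1 b2 M + (k * (2 * star (g X'))) • cm (star M) M) =
      - ((k * (2 * star (g X'))) • cm (star M) M) := by abel
    rw [this, neg_eq_zero] at hv2
    exact hv2
  have hMne : cm (star M) M ≠ 0 := by
    have hMr : M = ro (U eta) (U xi) := by
      rw [hM, hN, mul_ro, ro_mul, star_star]
    have hUin : ∀ u v : H, (inner ℂ (U u) (U v) : ℂ) = inner ℂ u v := by
      intro u v
      have : (inner ℂ (U u) (U v) : ℂ) = inner ℂ u ((star U * U) v) := by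
        rw [mul_apply_eq_comp, ContinuousLinearMap.star_eq_adjoint,
          ContinuousLinearMap.adjoint_inner_right]
      rw [this, hU, one_apply_eq_self]
    intro h
    have h5 := congrArg (fun T : H →L[ℂ] H => inner ℂ (U xi) (T (U xi))) h
    rw [hMr, star_ro, cm, ro_mul_ro, ro_mul_ro] at h5
    simp only [sub_apply, smul_apply, ro_apply, hUin, inner_unit hxi, inner_unit heta, hex, hxe,
      one_smul, zero_smul, smul_zero, sub_zero, zero_apply, inner_zero_right] at h5
    exact one_ne_zero h5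
  have h6 := (smul_eq_zero.1 hv3).resolve_right hMne
  have h7 := (mul_eq_zero.1 h6).resolve_left S.k0
  have h8 := (mul_eq_zero.1 h7).resolve_left two_ne_zero
  rw [hgX]
  exact (star_eq_zero).1 h8

end Setup

/-- Main theorem: a linear bijection commuting with a good transform is a multiple of a unitary
conjugation. -/
theorem main {L : (H →L[ℂ] H) → (H →L[ℂ] H)} (hL : Good L)
    (Φ : (H →L[ℂ] H) →ₗ[ℂ] (H →L[ℂ] H)) (hb : Function.Bijective Φ)
    (hc : ∀ T, Φ (L T) = L (Φ T)) :
    ∃ (c : ℂ) (U : H →L[ℂ] H), c ≠ 0 ∧ star U * U = 1 ∧ U * star U = 1 ∧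
      ∀ T, Φ T = c • (U * T * star U) := by
  by_cases hdim : ∃ X : H →L[ℂ] H, ∀ s : ℂ, X ≠ s • 1
  · obtain ⟨Ψ, c, a, k, b1, b2, S, hΦ⟩ := exists_setup hL Φ hb hc hdim
    obtain ⟨U, g, hU, hU', hΨ⟩ := S.exists_unitary
    refine ⟨c, U, S.c0, hU, hU', ?_⟩
    intro T
    rw [hΦ, hΨ, S.g_zero hU hU' hΨ T, zero_smul, add_zero]
  · push Not at hdim
    obtain ⟨c, hc1⟩ := hdim (Φ 1)
    by_cases h10 : (1 : H →L[ℂ] H) = 0
    · refine ⟨1, 1, one_ne_zero, by simp, by simp, ?_⟩
      intro T
      have h : ∀ X : H →L[ℂ] H, X = 0 := fun X => by rw [← mul_one X, h10, mul_zero]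
      rw [h (Φ T)]; exact (h _).symm
    · refine ⟨c, 1, ?_, by simp, by simp, ?_⟩
      · rintro rfl
        rw [zero_smul, ← map_zero Φ] at hc1
        exact h10 (hb.1 hc1)
      · intro T
        obtain ⟨s, hs⟩ := hdim T
        rw [hs, map_smul, hc1]
        simp [smul_smul, mul_comm]

end Pool.Agent.V1195.LinBij
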