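import Mathlib
import Pool.Agent.V1195.L2Tools

set_option autoImplicit false
open Filter Topology MeasureTheory
open scoped InnerProductSpace ENNReal

namespace Pool.Agent.V1195.L2Ops

noncomputable section

variable {α : Type*} [MeasurableSpace α] {μ : Measure α}

/-- Bounded multiplication operators. -/
lemma exists_mul_op (g : α → ℂ) (hg : Measurable g) (C : ℝ) (hC0 : 0 ≤ C)
    (hC : ∀ x, ‖g x‖ ≤ C) :
    ∃ M : Lp ℂ 2 μ →L[ℂ] Lp ℂ 2 μ, ‖M‖ ≤ C ∧ ∀ h, M h =ᵐ[μ] fun x => g x * h x := by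
  have hmem : ∀ h : Lp ℂ 2 μ, MemLp (fun x => g x * h x) 2 μ := by
    intro h
    refine MemLp.of_le_mul (c := C) (Lp.memLp h)
      (hg.aestronglyMeasurable.mul (Lp.aestronglyMeasurable h)) (Eventually.of_forall fun x => ?_)
    rw [norm_mul]
    exact mul_le_mul_of_nonneg_right (hC x) (norm_nonneg _)
  have hbound : ∀ h : Lp ℂ 2 μ, ‖(hmem h).toLp _‖ ≤ C * ‖h‖ := by
    intro h
    refine Lp.norm_le_mul_norm_of_ae_le_mul ?_
    filter_upwards [(hmem h).coeFn_toLp] with x hx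
    rw [hx, norm_mul]
    exact mul_le_mul_of_nonneg_right (hC x) (norm_nonneg _)
  refine ⟨LinearMap.mkContinuous
    { toFun := fun h => (hmem h).toLp _
      map_add' := ?_
      map_smul' := ?_ } C hbound, LinearMap.mkContinuous_norm_le _ hC0 _,
      fun h => (hmem h).coeFn_toLp⟩
  · intro h₁ h₂
    apply Lp.ext
    filter_upwards [(hmem (h₁ + h₂)).coeFn_toLp, (hmem h₁).coeFn_toLp, (hmem h₂).coeFn_toLp,
      Lp.coeFn_add h₁ h₂, Lp.coeFn_add ((hmem h₁).toLp _) ((hmem h₂).toLp _)] with x h1 h2 h3 h4 h5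
    rw [h1, h5, Pi.add_apply, h2, h3, h4, Pi.add_apply]
    ring
  · intro c h
    apply Lp.ext
    filter_upwards [(hmem (c • h)).coeFn_toLp, (hmem h).coeFn_toLp,
      Lp.coeFn_smul c h, Lp.coeFn_smul c ((hmem h).toLp _)] with x h1 h2 h3 h4
    simp only [RingHom.id_apply]
    rw [h1, h4, Pi.smul_apply, h2, h3, Pi.smul_apply]
    simp only [smul_eq_mul]
    ring

/-- Bounded kernels on a finite measure space give bounded operators. -/
lemma exists_kernel_op [IsFiniteMeasure μ] (k : α → α → ℂ)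
    (hk : Measurable (Function.uncurry k)) (C : ℝ) (hC0 : 0 ≤ C) (hC : ∀ x y, ‖k x y‖ ≤ C) :
    ∃ T : Lp ℂ 2 μ →L[ℂ] Lp ℂ 2 μ, ∀ h, T h =ᵐ[μ] fun x => ∫ y, k x y * h y ∂μ := by
  have hkx : ∀ x, MemLp (fun y => (starRingEnd ℂ) (k x y)) 2 μ := by
    intro x
    have hm : Measurable (k x) := hk.comp measurable_prodMk_left
    refine MemLp.of_bound ?_ C (Eventually.of_forall fun y => ?_)
    · exact (Complex.continuous_conj.measurable.comp hm).aestronglyMeasurable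
    · rw [RCLike.norm_conj]; exact hC x y
  have hint : ∀ (h : Lp ℂ 2 μ) x, Integrable (fun y => k x y * h y) μ := by
    intro h x
    have h1 : Integrable (fun y => h y) μ := (Lp.memLp h).integrable (by norm_num)
    have hm : Measurable (k x) := hk.comp measurable_prodMk_left
    exact h1.bdd_mul (c := C) hm.aestronglyMeasurable (Eventually.of_forall fun y => hC x y)
  set D : ℝ := C * (μ.real Set.univ) ^ ((2 : ℝ)⁻¹) with hD
  have hD0 : 0 ≤ D := by positivity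
  have hptw : ∀ (h : Lp ℂ 2 μ) x, ‖∫ y, k x y * h y ∂μ‖ ≤ D * ‖h‖ := by
    intro h x
    have h1 : ∫ y, k x y * h y ∂μ = ⟪(hkx x).toLp _, h⟫_ℂ := by
      rw [L2.inner_def]
      refine integral_congr_ae ?_
      filter_upwards [(hkx x).coeFn_toLp] with y hy
      rw [hy]; simp [mul_comm]
    rw [h1]
    refine (norm_inner_le_norm _ _).trans ?_
    refine mul_le_mul_of_nonneg_right ?_ (norm_nonneg _)
    have h2 := Lp.norm_le_of_ae_bound (p := 2) (μ := μ) (f := (hkx x).toLp _) hC0 (by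
      filter_upwards [(hkx x).coeFn_toLp] with y hy
      rw [hy, RCLike.norm_conj]; exact hC x y)
    refine h2.trans (le_of_eq ?_)
    have e1 : (measureUnivNNReal μ : ℝ) = μ.real Set.univ := rfl
    have e2 : (2 : ℝ≥0∞).toReal = 2 := by norm_num
    rw [e1, e2, hD]
    ring
  have hmeas : ∀ h : Lp ℂ 2 μ, AEStronglyMeasurable (fun x => ∫ y, k x y * h y ∂μ) μ := by
    intro h
    have h1 : AEStronglyMeasurable (fun p : α × α => k p.1 p.2 * h p.2) (μ.prod μ) :=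
      hk.aestronglyMeasurable.mul (Lp.aestronglyMeasurable h).comp_snd
    exact h1.integral_prod_right'
  have hmem : ∀ h : Lp ℂ 2 μ, MemLp (fun x => ∫ y, k x y * h y ∂μ) 2 μ := fun h =>
    MemLp.of_bound (hmeas h) (D * ‖h‖) (Eventually.of_forall fun x => hptw h x)
  refine ⟨LinearMap.mkContinuous
    { toFun := fun h => (hmem h).toLp _
      map_add' := ?_
      map_smul' := ?_ } ((μ.real Set.univ) ^ ((2 : ℝ)⁻¹) * D) ?_,
      fun h => (hmem h).coeFn_toLp⟩
  · intro h₁ h₂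
    apply Lp.ext
    filter_upwards [(hmem (h₁ + h₂)).coeFn_toLp, (hmem h₁).coeFn_toLp, (hmem h₂).coeFn_toLp,
      Lp.coeFn_add ((hmem h₁).toLp _) ((hmem h₂).toLp _)] with x h1 h2 h3 h5
    rw [h1, h5, Pi.add_apply, h2, h3, ← integral_add (hint h₁ x) (hint h₂ x)]
    refine integral_congr_ae ?_
    filter_upwards [Lp.coeFn_add h₁ h₂] with y hy
    rw [hy, Pi.add_apply]; ring
  · intro c h
    apply Lp.ext
    filter_upwards [(hmem (c • h)).coeFn_toLp, (hmem h).coeFn_toLp,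
      Lp.coeFn_smul c ((hmem h).toLp _)] with x h1 h2 h4
    simp only [RingHom.id_apply]
    rw [h1, h4, Pi.smul_apply, h2, smul_eq_mul, ← integral_const_mul]
    refine integral_congr_ae ?_
    filter_upwards [Lp.coeFn_smul c h] with y hy
    rw [hy, Pi.smul_apply, smul_eq_mul]; ring
  · intro h
    change ‖(hmem h).toLp _‖ ≤ _
    have h2 := Lp.norm_le_of_ae_bound (p := 2) (μ := μ) (f := (hmem h).toLp _)
      (C := D * ‖h‖) (by positivity) (by
      filter_upwards [(hmem h).coeFn_toLp] with y hy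
      rw [hy]; exact hptw h y)
    refine h2.trans (le_of_eq ?_)
    have e1 : (measureUnivNNReal μ : ℝ) = μ.real Set.univ := rfl
    have e2 : (2 : ℝ≥0∞).toReal = 2 := by norm_num
    rw [e1, e2]
    ring

/-- If `R (C m) = λ m • S m` for orthonormal families and `F` has rank at most `n` then
`‖R - F‖ ≥ λ n`. -/
lemma rank_lower {H : Type*} [NormedAddCommGroup H] [InnerProductSpace ℂ H]
    (R F : H →L[ℂ] H) (C S : ℕ → H) (hC : Orthonormal ℂ C) (hS : Orthonormal ℂ S)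
    (l : ℕ → ℝ) (hl : Antitone l) (hl0 : ∀ m, 0 ≤ l m) (hR : ∀ m, R (C m) = (l m : ℂ) • S m)
    (n : ℕ) (hF : Module.rank ℂ (LinearMap.range F.toLinearMap) ≤ n) :
    l n ≤ ‖R - F‖ := by
  -- the map from coordinates
  let J : (Fin (n + 1) → ℂ) →ₗ[ℂ] H := Fintype.linearCombination ℂ (fun m : Fin (n + 1) => C m)
  let G : (Fin (n + 1) → ℂ) →ₗ[ℂ] LinearMap.range F.toLinearMap :=
    F.toLinearMap.rangeRestrict.comp J
  have hfd : Module.Finite ℂ (LinearMap.range F.toLinearMap) := by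
    rw [← Module.rank_lt_aleph0_iff]
    exact lt_of_le_of_lt hF (Cardinal.natCast_lt_aleph0)
  have hker : LinearMap.ker G ≠ ⊥ := by
    intro h0
    have h1 : Function.Injective G := LinearMap.ker_eq_bot.1 h0
    have h2 := LinearMap.finrank_le_finrank_of_injective h1
    rw [Module.finrank_fin_fun] at h2
    have h3 : Module.finrank ℂ (LinearMap.range F.toLinearMap) ≤ n := by
      exact Module.finrank_le_of_rank_le hF
    omega
  obtain ⟨x, hx, hx0⟩ := Submodule.exists_mem_ne_zero_of_ne_bot hker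
  have hFJ : F (J x) = 0 := by
    have h1 : G x = 0 := hx
    have h2 := congrArg (fun z : LinearMap.range F.toLinearMap => (z : H)) h1
    exact h2
  have hCn : Orthonormal ℂ (fun m : Fin (n + 1) => C m) :=
    hC.comp _ Fin.val_injective
  have hSn : Orthonormal ℂ (fun m : Fin (n + 1) => S m) :=
    hS.comp _ Fin.val_injective
  have hJ : J x = ∑ m : Fin (n + 1), x m • C m := Fintype.linearCombination_apply _ _ _
  have hnJ : ‖J x‖ ^ 2 = ∑ m, ‖x m‖ ^ 2 := by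
    rw [hJ]
    have h1 := hCn.inner_sum x x Finset.univ
    have h2 := inner_self_eq_norm_sq_to_K (𝕜 := ℂ) (∑ m : Fin (n + 1), x m • C m)
    rw [h1] at h2
    have h3 : ((‖∑ m : Fin (n + 1), x m • C m‖ ^ 2 : ℝ) : ℂ) = ((∑ m, ‖x m‖ ^ 2 : ℝ) : ℂ) := by
      push_cast
      refine Eq.trans ?_ (Eq.trans h2.symm ?_)
      · simp
      · refine Finset.sum_congr rfl fun m _ => ?_
        rw [mul_comm, Complex.mul_conj, Complex.normSq_eq_norm_sq]
        push_cast; rfl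
    exact_mod_cast h3
  have hRJ : R (J x) = ∑ m : Fin (n + 1), (x m * (l m : ℂ)) • S m := by
    rw [hJ, map_sum]
    refine Finset.sum_congr rfl fun m _ => ?_
    rw [map_smul, hR, smul_smul]
  have hnR : ‖R (J x)‖ ^ 2 = ∑ m : Fin (n + 1), (l m) ^ 2 * ‖x m‖ ^ 2 := by
    rw [hRJ]
    have h1 := hSn.inner_sum (fun m : Fin (n + 1) => x m * (l m : ℂ))
      (fun m : Fin (n + 1) => x m * (l m : ℂ)) Finset.univ
    have h2 := inner_self_eq_norm_sq_to_K (𝕜 := ℂ) (∑ m : Fin (n + 1), (x m * (l m : ℂ)) • S m)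
    rw [h1] at h2
    have h3 : ((‖∑ m : Fin (n + 1), (x m * (l m : ℂ)) • S m‖ ^ 2 : ℝ) : ℂ)
        = ((∑ m : Fin (n + 1), (l m) ^ 2 * ‖x m‖ ^ 2 : ℝ) : ℂ) := by
      push_cast
      refine Eq.trans ?_ (Eq.trans h2.symm ?_)
      · simp
      · refine Finset.sum_congr rfl fun m _ => ?_
        rw [mul_comm, Complex.mul_conj, Complex.normSq_eq_norm_sq, norm_mul, Complex.norm_real,
          mul_pow, Real.norm_eq_abs, sq_abs]
        push_cast; ring
    exact_mod_cast h3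
  have hpos : 0 < ‖J x‖ := by
    rw [norm_pos_iff]
    intro h0
    rw [h0, norm_zero] at hnJ
    apply hx0
    funext m
    have h1 : ∑ m, ‖x m‖ ^ 2 = 0 := by rw [← hnJ]; norm_num
    have h2 := (Finset.sum_eq_zero_iff_of_nonneg (fun m _ => by positivity)).1 h1 m
      (Finset.mem_univ m)
    have h3 : ‖x m‖ = 0 := by
      exact pow_eq_zero_iff (two_ne_zero) |>.1 h2
    exact norm_eq_zero.1 h3
  have hle : (l n * ‖J x‖) ^ 2 ≤ ‖R (J x)‖ ^ 2 := by
    rw [mul_pow, hnJ, hnR, Finset.mul_sum]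
    refine Finset.sum_le_sum fun m _ => ?_
    refine mul_le_mul_of_nonneg_right ?_ (by positivity)
    exact pow_le_pow_left₀ (hl0 n) (hl (Nat.lt_succ_iff.1 m.2)) 2
  have hle2 : l n * ‖J x‖ ≤ ‖R (J x)‖ :=
    (pow_le_pow_iff_left₀ (mul_nonneg (hl0 n) hpos.le) (norm_nonneg _) two_ne_zero).1 hle
  have h4 : R (J x) = (R - F) (J x) := by
    rw [sub_apply, hFJ, sub_zero]
  rw [h4] at hle2
  have h5 := hle2.trans ((R - F).le_opNorm (J x))
  exact le_of_mul_le_mul_right h5 hpos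

/-- Trace inequality: the diagonal of a nuclear operator with respect to two orthonormal families
is absolutely summable. -/
lemma nuclear_sum {H : Type*} [NormedAddCommGroup H] [InnerProductSpace ℂ H]
    (R : H →L[ℂ] H) (C S : ℕ → H) (hC : Orthonormal ℂ C) (hS : Orthonormal ℂ S)
    (x y : ℕ → H) (hxy : Summable (fun n => ‖x n‖ * ‖y n‖))
    (hR : ∀ h, HasSum (fun n => ⟪x n, h⟫_ℂ • y n) (R h)) (s : Finset ℕ) :
    ∑ m ∈ s, ‖⟪S m, R (C m)⟫_ℂ‖ ≤ ∑' n, ‖x n‖ * ‖y n‖ := by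
  have h1 : ∀ m, HasSum (fun n => ⟪x n, C m⟫_ℂ * ⟪S m, y n⟫_ℂ) ⟪S m, R (C m)⟫_ℂ := by
    intro m
    have h2 := (hR (C m)).mapL (innerSL ℂ (S m))
    simpa [inner_smul_right] using h2
  have hterm : ∀ n, ∑ m ∈ s, ‖⟪x n, C m⟫_ℂ * ⟪S m, y n⟫_ℂ‖ ≤ ‖x n‖ * ‖y n‖ := by
    intro n
    calc ∑ m ∈ s, ‖⟪x n, C m⟫_ℂ * ⟪S m, y n⟫_ℂ‖
        = ∑ m ∈ s, ‖⟪x n, C m⟫_ℂ‖ * ‖⟪S m, y n⟫_ℂ‖ := by simp_rw [norm_mul]
      _ ≤ Real.sqrt (∑ m ∈ s, ‖⟪x n, C m⟫_ℂ‖ ^ 2) * Real.sqrt (∑ m ∈ s, ‖⟪S m, y n⟫_ℂ‖ ^ 2) :=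
          Real.sum_mul_le_sqrt_mul_sqrt _ _ _
      _ ≤ ‖x n‖ * ‖y n‖ := by
          refine mul_le_mul ?_ ?_ (Real.sqrt_nonneg _) (norm_nonneg _)
          · rw [Real.sqrt_le_left (norm_nonneg _)]
            have := hC.sum_inner_products_le (x := x n) (s := s)
            refine le_trans (le_of_eq ?_) this
            refine Finset.sum_congr rfl fun m _ => ?_
            rw [norm_inner_symm]
          · rw [Real.sqrt_le_left (norm_nonneg _)]
            exact hS.sum_inner_products_le (x := y n) (s := s)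
  have hsn : ∀ m ∈ s, Summable (fun n => ‖⟪x n, C m⟫_ℂ * ⟪S m, y n⟫_ℂ‖) := by
    intro m hm
    refine Summable.of_nonneg_of_le (fun n => norm_nonneg _) (fun n => ?_) hxy
    exact (Finset.single_le_sum (f := fun m => ‖⟪x n, C m⟫_ℂ * ⟪S m, y n⟫_ℂ‖)
      (fun m _ => norm_nonneg _) hm).trans (hterm n)
  calc ∑ m ∈ s, ‖⟪S m, R (C m)⟫_ℂ‖ ≤ ∑ m ∈ s, ∑' n, ‖⟪x n, C m⟫_ℂ * ⟪S m, y n⟫_ℂ‖ := by
        refine Finset.sum_le_sum fun m hm => ?_
        rw [← (h1 m).tsum_eq]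
        exact norm_tsum_le_tsum_norm (hsn m hm)
    _ = ∑' n, ∑ m ∈ s, ‖⟪x n, C m⟫_ℂ * ⟪S m, y n⟫_ℂ‖ := (Summable.tsum_finsetSum hsn).symm
    _ ≤ ∑' n, ‖x n‖ * ‖y n‖ := by
        refine Summable.tsum_le_tsum hterm ?_ hxy
        exact summable_sum hsn

end

end Pool.Agent.V1195.L2Ops
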