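import Mathlib

/-!
Two cascades of sequences attached to `1/(∏ (1 - γ_l t) - ω t^r)` and the fact that they
do not vanish when `ω` is non-real or `ω ≥ 0`.
-/

open scoped BigOperators ComplexConjugate

namespace Pool.Agent.V1195.Casc

section defs
variable {K : Type*} [CommRing K] [Algebra ℝ K]

/-- cascade for the exponent `r = s + 1` -/
def E (γ : ℕ → ℝ) (n s : ℕ) (ω : K) : ℕ → ℕ → K
  | 0, k => if k < s then 0 else 1
  | m + 1, k => if k < s then E γ n s ω m (k + 1) else
      ω * E γ n s ω m 0 + ∑ l ∈ Finset.Ico k (s + n), γ (l - s) • E γ n s ω m l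

/-- cascade for the exponent `r = 0` -/
def F (γ : ℕ → ℝ) (n : ℕ) (ω : K) : ℕ → ℕ → K
  | 0, _ => 1
  | m + 1, k => ω * ∑ l ∈ Finset.range (min k n), γ l • F γ n ω m l +
      ∑ l ∈ Finset.Ico k n, γ l • F γ n ω m l

variable {L : Type*} [CommRing L] [Algebra ℝ L]

theorem map_E (f : K →ₐ[ℝ] L) (γ : ℕ → ℝ) (n s : ℕ) (ω : K) (m k : ℕ) :
    f (E γ n s ω m k) = E γ n s (f ω) m k := by
  induction m generalizing k with
  | zero => simp only [E]; split_ifs <;> simp
  | succ m ih =>
    simp only [E]
    split_ifs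
    · exact ih _
    · rw [map_add, map_mul, map_sum, ih]
      simp only [map_smul, ih]

theorem map_F (f : K →ₐ[ℝ] L) (γ : ℕ → ℝ) (n : ℕ) (ω : K) (m k : ℕ) :
    f (F γ n ω m k) = F γ n (f ω) m k := by
  induction m generalizing k with
  | zero => simp only [F]; simp
  | succ m ih =>
    simp only [F]
    rw [map_add, map_mul, map_sum, map_sum]
    simp only [map_smul, ih]

end defs

/-! ### the cone relation -/

/-- `b` lies in the cone spanned by `a` and `ω a` (closed condition) -/
def Cn (ω a b : ℂ) : Prop := 0 ≤ (b * conj a).im ∧ 0 ≤ (ω * a * conj b).im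

theorem sum_left {S : Finset ℕ} {c : ℕ → ℝ} {e : ℕ → ℂ} {a : ℂ} (hc : ∀ l ∈ S, 0 ≤ c l)
    (h : ∀ l ∈ S, 0 ≤ (e l * a).im) : 0 ≤ ((∑ l ∈ S, c l • e l) * a).im := by
  rw [Finset.sum_mul, Complex.im_sum]
  apply Finset.sum_nonneg
  intro l hl
  rw [smul_mul_assoc, Complex.smul_im]
  exact mul_nonneg (hc l hl) (h l hl)

theorem sum_right {S : Finset ℕ} {c : ℕ → ℝ} {e : ℕ → ℂ} {a : ℂ} (hc : ∀ l ∈ S, 0 ≤ c l)
    (h : ∀ l ∈ S, 0 ≤ (a * conj (e l)).im) : 0 ≤ (a * conj (∑ l ∈ S, c l • e l)).im := by
  rw [map_sum, Finset.mul_sum, Complex.im_sum]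
  apply Finset.sum_nonneg
  intro l hl
  have : a * conj (c l • e l) = c l • (a * conj (e l)) := by
    rw [Complex.real_smul, Complex.real_smul, map_mul, Complex.conj_ofReal]; ring
  rw [this, Complex.smul_im]
  exact mul_nonneg (hc l hl) (h l hl)

theorem im_ww (ω x y : ℂ) : (ω * x * conj (ω * y)).im = Complex.normSq ω * (x * conj y).im := by
  have : ω * x * conj (ω * y) = (Complex.normSq ω : ℂ) * (x * conj y) := by
    rw [map_mul, Complex.normSq_eq_conj_mul_self]; ring
  rw [this, Complex.im_ofReal_mul]

theorem im_self (x : ℂ) : (x * conj x).im = 0 := by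
  rw [Complex.mul_conj]; simp

theorem im_wself (ω x : ℂ) : (ω * x * conj x).im = ω.im * Complex.normSq x := by
  rw [mul_assoc, Complex.mul_conj, mul_comm, Complex.im_ofReal_mul]; ring

theorem inv_E {γ : ℕ → ℝ} {n s : ℕ} {ω : ℂ} (hn : 0 < n) (hγ : ∀ l, l < n → 0 < γ l)
    (hω : 0 < ω.im) (m : ℕ) : ∀ j k, j ≤ k → k < s + n → Cn ω (E γ n s ω m j) (E γ n s ω m k) := by
  induction m with
  | zero =>
    intro j k hjk _
    simp only [E, Cn]
    split_ifs with h1 h2 h2
    · simp
    · omega
    · simp
    · simpa using hω.le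
  | succ m ih =>
    intro j k hjk hk
    have hγ' : ∀ l ∈ Finset.Ico k (s + n), s ≤ k → 0 ≤ γ (l - s) := by
      intro l hl hsk
      rw [Finset.mem_Ico] at hl
      exact (hγ _ (by omega)).le
    have hns : 0 ≤ Complex.normSq ω := Complex.normSq_nonneg ω
    by_cases hks : k < s
    · have hjs : j < s := lt_of_le_of_lt hjk hks
      simp only [E, if_pos hks, if_pos hjs]
      exact ih _ _ (by omega) (by omega)
    · by_cases hjs : j < s
      · simp only [E, if_neg hks, if_pos hjs]
        set e := E γ n s ω m with he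
        have h0 := ih 0 (j + 1) (by omega) (by omega)
        have hU1 : 0 ≤ ((∑ l ∈ Finset.Ico k (s + n), γ (l - s) • e l) * conj (e (j + 1))).im := by
          apply sum_left (fun l hl => hγ' l hl (by omega))
          intro l hl
          rw [Finset.mem_Ico] at hl
          exact (ih (j + 1) l (by omega) (by omega)).1
        have hU2 : 0 ≤ (ω * e (j + 1) * conj (∑ l ∈ Finset.Ico k (s + n), γ (l - s) • e l)).im := by
          apply sum_right (fun l hl => hγ' l hl (by omega))
          intro l hl
          rw [Finset.mem_Ico] at hl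
          exact (ih (j + 1) l (by omega) (by omega)).2
        refine ⟨?_, ?_⟩
        · rw [add_mul, Complex.add_im]
          exact add_nonneg h0.2 hU1
        · rw [map_add, mul_add, Complex.add_im, im_ww]
          exact add_nonneg (mul_nonneg hns h0.1) hU2
      · simp only [E, if_neg hks, if_neg hjs]
        set e := E γ n s ω m with he
        have hsplit : ∑ l ∈ Finset.Ico j (s + n), γ (l - s) • e l =
            ∑ l ∈ Finset.Ico j k, γ (l - s) • e l + ∑ l ∈ Finset.Ico k (s + n), γ (l - s) • e l :=
          (Finset.sum_Ico_consecutive _ hjk hk.le).symm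
        rw [hsplit]
        set D := ∑ l ∈ Finset.Ico j k, γ (l - s) • e l with hD
        set U := ∑ l ∈ Finset.Ico k (s + n), γ (l - s) • e l with hU
        have hγD : ∀ l ∈ Finset.Ico j k, 0 ≤ γ (l - s) := by
          intro l hl
          rw [Finset.mem_Ico] at hl
          exact (hγ _ (by omega)).le
        have hγU : ∀ l ∈ Finset.Ico k (s + n), 0 ≤ γ (l - s) := fun l hl => hγ' l hl (by omega)
        have a1 : 0 ≤ (ω * e 0 * conj D).im := by
          apply sum_right hγD
          intro l hl
          rw [Finset.mem_Ico] at hl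
          exact (ih 0 l (by omega) (by omega)).2
        have a2 : 0 ≤ (D * conj (e 0)).im := by
          apply sum_left hγD
          intro l hl
          rw [Finset.mem_Ico] at hl
          exact (ih 0 l (by omega) (by omega)).1
        have a3 : 0 ≤ (U * conj D).im := by
          apply sum_left hγU
          intro l hl
          apply sum_right hγD
          intro l' hl'
          rw [Finset.mem_Ico] at hl hl'
          exact (ih l' l (by omega) (by omega)).1
        have a4 : 0 ≤ (ω * D * conj U).im := by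
          apply sum_right hγU
          intro l hl
          have : ω * D * conj (e l) = D * (ω * conj (e l)) := by ring
          rw [this]
          apply sum_left hγD
          intro l' hl'
          rw [Finset.mem_Ico] at hl hl'
          have := (ih l' l (by omega) (by omega)).2
          have h2 : E γ n s ω m l' * (ω * conj (e l)) = ω * E γ n s ω m l' * conj (E γ n s ω m l) := by
            rw [he]; ring
          rw [← he] at *
          rw [h2]; exact this
        have b1 := im_self (ω * e 0 + U)
        have b2 := im_wself ω (ω * e 0 + U)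
        have b3 := mul_nonneg hω.le (Complex.normSq_nonneg (ω * e 0 + U))
        have b4 := im_ww ω D (e 0)
        have b5 := mul_nonneg hns a2
        refine ⟨?_, ?_⟩
        · have : (ω * e 0 + U) * conj (ω * e 0 + (D + U)) =
              (ω * e 0 + U) * conj (ω * e 0 + U) + ω * e 0 * conj D + U * conj D := by
            simp only [map_add]; ring
          rw [this, Complex.add_im, Complex.add_im]
          linarith
        · have : ω * (ω * e 0 + (D + U)) * conj (ω * e 0 + U) =
              ω * (ω * e 0 + U) * conj (ω * e 0 + U) + ω * D * conj (ω * e 0) + ω * D * conj U := by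
            simp only [map_add]; ring
          rw [this, Complex.add_im, Complex.add_im]
          linarith

theorem phi_pos {ω a : ℂ} (hω : 0 < ω.im) (ha : a ≠ 0) :
    0 < (a * conj a).im + (ω * a * conj a).im := by
  rw [im_self, im_wself]
  have := Complex.normSq_pos.2 ha
  have := mul_pos hω this
  linarith

theorem E_ne_of_im_pos {γ : ℕ → ℝ} {n s : ℕ} {ω : ℂ} (hn : 0 < n) (hγ : ∀ l, l < n → 0 < γ l)
    (hω : 0 < ω.im) (m : ℕ) : E γ n s ω m s ≠ 0 := by
  induction m with
  | zero => simp [E]
  | succ m ih =>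
    have hinv := inv_E (s := s) hn hγ hω m
    simp only [E, lt_irrefl, if_false]
    set e := E γ n s ω m with he
    intro hzero
    have hsplit : ∑ l ∈ Finset.Ico s (s + n), γ (l - s) • e l =
        γ 0 • e s + ∑ l ∈ Finset.Ico (s + 1) (s + n), γ (l - s) • e l := by
      rw [Finset.sum_eq_sum_Ico_succ_bot (by omega)]
      simp
    by_cases h0 : e 0 = 0
    · rw [h0, mul_zero, zero_add, hsplit] at hzero
      set V := ∑ l ∈ Finset.Ico (s + 1) (s + n), γ (l - s) • e l with hV
      have hγV : ∀ l ∈ Finset.Ico (s + 1) (s + n), 0 ≤ γ (l - s) := by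
        intro l hl
        rw [Finset.mem_Ico] at hl
        exact (hγ _ (by omega)).le
      have a1 : 0 ≤ (V * conj (e s)).im := by
        apply sum_left hγV
        intro l hl
        rw [Finset.mem_Ico] at hl
        exact (hinv s l (by omega) (by omega)).1
      have a2 : 0 ≤ (ω * e s * conj V).im := by
        apply sum_right hγV
        intro l hl
        rw [Finset.mem_Ico] at hl
        exact (hinv s l (by omega) (by omega)).2
      have a3 := phi_pos hω ih
      have a4 := mul_pos (hγ 0 hn) a3
      have c1 : ((γ 0 • e s + V) * conj (e s)).im = 0 := by rw [hzero]; simp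
      have c2 : (ω * e s * conj (γ 0 • e s + V)).im = 0 := by rw [hzero]; simp
      have d1 : (γ 0 • e s + V) * conj (e s) = γ 0 • (e s * conj (e s)) + V * conj (e s) := by
        rw [add_mul, smul_mul_assoc]
      have d2 : ω * e s * conj (γ 0 • e s + V) =
          γ 0 • (ω * e s * conj (e s)) + ω * e s * conj V := by
        rw [map_add, Complex.real_smul, Complex.real_smul, map_mul, Complex.conj_ofReal]; ring
      rw [d1, Complex.add_im, Complex.smul_im] at c1
      rw [d2, Complex.add_im, Complex.smul_im] at c2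
      simp only [smul_eq_mul] at c1 c2
      rw [mul_add] at a4
      linarith
    · set V := ∑ l ∈ Finset.Ico s (s + n), γ (l - s) • e l with hV
      have hγV : ∀ l ∈ Finset.Ico s (s + n), 0 ≤ γ (l - s) := by
        intro l hl
        rw [Finset.mem_Ico] at hl
        exact (hγ _ (by omega)).le
      have a1 : 0 ≤ (V * conj (e 0)).im := by
        apply sum_left hγV
        intro l hl
        rw [Finset.mem_Ico] at hl
        exact (hinv 0 l (by omega) (by omega)).1
      have a2 : 0 ≤ (ω * e 0 * conj V).im := by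
        apply sum_right hγV
        intro l hl
        rw [Finset.mem_Ico] at hl
        exact (hinv 0 l (by omega) (by omega)).2
      have c1 : ((ω * e 0 + V) * conj (e 0)).im = 0 := by rw [hzero]; simp
      have c2 : (ω * e 0 * conj (ω * e 0 + V)).im = 0 := by rw [hzero]; simp
      rw [add_mul, Complex.add_im, im_wself] at c1
      have := Complex.normSq_pos.2 h0
      have := mul_pos hω this
      linarith

theorem inv_F {γ : ℕ → ℝ} {n : ℕ} {ω : ℂ} (hγ : ∀ l, l < n → 0 < γ l)
    (hω : 0 < ω.im) (m : ℕ) : ∀ j k, j ≤ k → k < n → Cn ω (F γ n ω m j) (F γ n ω m k) := by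
  induction m with
  | zero =>
    intro j k hjk _
    simp only [F, Cn]
    simpa using hω.le
  | succ m ih =>
    intro j k hjk hk
    have hns : 0 ≤ Complex.normSq ω := Complex.normSq_nonneg ω
    simp only [F]
    rw [min_eq_left hk.le, min_eq_left (by omega : j ≤ n)]
    set e := F γ n ω m with he
    have hs1 : ∑ l ∈ Finset.Ico j n, γ l • e l =
        ∑ l ∈ Finset.Ico j k, γ l • e l + ∑ l ∈ Finset.Ico k n, γ l • e l :=
      (Finset.sum_Ico_consecutive _ hjk hk.le).symm
    have hs2 : ∑ l ∈ Finset.range k, γ l • e l =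
        ∑ l ∈ Finset.range j, γ l • e l + ∑ l ∈ Finset.Ico j k, γ l • e l :=
      (Finset.sum_range_add_sum_Ico _ hjk).symm
    rw [hs1, hs2]
    set L := ∑ l ∈ Finset.range j, γ l • e l with hL
    set D := ∑ l ∈ Finset.Ico j k, γ l • e l with hD
    set U := ∑ l ∈ Finset.Ico k n, γ l • e l with hU
    have hγL : ∀ l ∈ Finset.range j, 0 ≤ γ l := by
      intro l hl
      rw [Finset.mem_range] at hl
      exact (hγ _ (by omega)).le
    have hγD : ∀ l ∈ Finset.Ico j k, 0 ≤ γ l := by
      intro l hl
      rw [Finset.mem_Ico] at hl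
      exact (hγ _ (by omega)).le
    have hγU : ∀ l ∈ Finset.Ico k n, 0 ≤ γ l := by
      intro l hl
      rw [Finset.mem_Ico] at hl
      exact (hγ _ (by omega)).le
    have key2 : ∀ (A B : Finset ℕ), (∀ l ∈ A, 0 ≤ γ l) → (∀ l ∈ B, 0 ≤ γ l) →
        (∀ l ∈ A, ∀ l' ∈ B, l ≤ l' ∧ l' < n) →
        0 ≤ ((∑ l ∈ B, γ l • e l) * conj (∑ l ∈ A, γ l • e l)).im ∧
        0 ≤ (ω * (∑ l ∈ A, γ l • e l) * conj (∑ l ∈ B, γ l • e l)).im := by
      intro A B hA hB hAB
      constructor
      · apply sum_left hB
        intro l hl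
        apply sum_right hA
        intro l' hl'
        have := hAB l' hl' l hl
        exact (ih l' l this.1 this.2).1
      · apply sum_right hB
        intro l hl
        have : ω * (∑ l ∈ A, γ l • e l) * conj (e l) = (∑ l ∈ A, γ l • e l) * (ω * conj (e l)) := by
          ring
        rw [this]
        apply sum_left hA
        intro l' hl'
        have h1 := hAB l' hl' l hl
        have h2 := (ih l' l h1.1 h1.2).2
        have h3 : e l' * (ω * conj (e l)) = ω * e l' * conj (e l) := by ring
        rw [h3]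
        exact h2
    have hLD := key2 _ _ hγL hγD (by
      intro l hl l' hl'; rw [Finset.mem_range] at hl; rw [Finset.mem_Ico] at hl'; omega)
    have hDU := key2 _ _ hγD hγU (by
      intro l hl l' hl'; rw [Finset.mem_Ico] at hl hl'; omega)
    rw [← hL, ← hD] at hLD
    rw [← hD, ← hU] at hDU
    have b1 := im_self (ω * L + U)
    have b2 := im_wself ω (ω * L + U)
    have b3 := mul_nonneg hω.le (Complex.normSq_nonneg (ω * L + U))
    have b4 := im_ww ω D L
    have b5 := mul_nonneg hns hLD.1
    have b6 := im_wself ω D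
    have b7 := mul_nonneg hω.le (Complex.normSq_nonneg D)
    have b8 := im_ww ω (ω * L + U) D
    have b9 : 0 ≤ ((ω * L + U) * conj D).im := by
      rw [add_mul, Complex.add_im]
      exact add_nonneg hLD.2 hDU.1
    have b10 := mul_nonneg hns b9
    have b11 := im_ww ω D D
    have b12 := im_self D
    refine ⟨?_, ?_⟩
    · have : (ω * (L + D) + U) * conj (ω * L + (D + U)) =
          (ω * L + U) * conj (ω * L + U) + (ω * L + U) * conj D +
          (ω * D * conj (ω * L) + ω * D * conj U) + ω * D * conj D := by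
        simp only [map_add]; ring
      rw [this]
      simp only [Complex.add_im]
      linarith [hDU.2]
    · have : ω * (ω * L + (D + U)) * conj (ω * (L + D) + U) =
          ω * (ω * L + U) * conj (ω * L + U) + ω * (ω * L + U) * conj (ω * D) +
          (ω * D * conj (ω * L) + ω * D * conj U) + ω * D * conj (ω * D) := by
        simp only [map_add, map_mul]; ring
      rw [this]
      simp only [Complex.add_im]
      rw [b12, mul_zero] at b11
      linarith [hDU.2]

theorem F_ne_of_im_pos {γ : ℕ → ℝ} {n : ℕ} {ω : ℂ} (hn : 0 < n) (hγ : ∀ l, l < n → 0 < γ l)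
    (hω : 0 < ω.im) (m : ℕ) : F γ n ω m 0 ≠ 0 := by
  induction m with
  | zero => simp [F]
  | succ m ih =>
    have hinv := inv_F hγ hω m
    simp only [F]
    set e := F γ n ω m with he
    intro hzero
    have hsplit : ∑ l ∈ Finset.Ico 0 n, γ l • e l =
        γ 0 • e 0 + ∑ l ∈ Finset.Ico 1 n, γ l • e l := by
      rw [Finset.sum_eq_sum_Ico_succ_bot hn]
    rw [hsplit] at hzero
    simp only [zero_le, inf_of_le_left, Finset.range_zero, Finset.sum_empty, mul_zero,
      zero_add] at hzero
    set V := ∑ l ∈ Finset.Ico 1 n, γ l • e l with hV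
    have hγV : ∀ l ∈ Finset.Ico 1 n, 0 ≤ γ l := by
      intro l hl
      rw [Finset.mem_Ico] at hl
      exact (hγ _ (by omega)).le
    have a1 : 0 ≤ (V * conj (e 0)).im := by
      apply sum_left hγV
      intro l hl
      rw [Finset.mem_Ico] at hl
      exact (hinv 0 l (by omega) (by omega)).1
    have a2 : 0 ≤ (ω * e 0 * conj V).im := by
      apply sum_right hγV
      intro l hl
      rw [Finset.mem_Ico] at hl
      exact (hinv 0 l (by omega) (by omega)).2
    have a3 := phi_pos hω ih
    have a4 := mul_pos (hγ 0 hn) a3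
    have c1 : ((γ 0 • e 0 + V) * conj (e 0)).im = 0 := by rw [hzero]; simp
    have c2 : (ω * e 0 * conj (γ 0 • e 0 + V)).im = 0 := by rw [hzero]; simp
    have d1 : (γ 0 • e 0 + V) * conj (e 0) = γ 0 • (e 0 * conj (e 0)) + V * conj (e 0) := by
      rw [add_mul, smul_mul_assoc]
    have d2 : ω * e 0 * conj (γ 0 • e 0 + V) =
        γ 0 • (ω * e 0 * conj (e 0)) + ω * e 0 * conj V := by
      rw [map_add, Complex.real_smul, Complex.real_smul, map_mul, Complex.conj_ofReal]; ring
    rw [d1, Complex.add_im, Complex.smul_im] at c1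
    rw [d2, Complex.add_im, Complex.smul_im] at c2
    simp only [smul_eq_mul] at c1 c2
    rw [mul_add] at a4
    linarith

/-! ### non-negative real `ω` -/

theorem E_real {γ : ℕ → ℝ} {n s : ℕ} {x : ℝ} (hn : 0 < n) (hγ : ∀ l, l < n → 0 < γ l)
    (hx : 0 ≤ x) (m : ℕ) : (∀ k, k < s + n → 0 ≤ E γ n s x m k) ∧
      (∀ k, s ≤ k → k < s + n → 0 < E γ n s x m k) := by
  induction m with
  | zero =>
    constructor
    · intro k _
      simp only [E]; split_ifs <;> norm_num
    · intro k hk _
      simp only [E]; rw [if_neg (by omega)]; norm_num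
  | succ m ih =>
    have key : ∀ k, s ≤ k → k < s + n → 0 < E γ n s x (m + 1) k := by
      intro k hk1 hk2
      simp only [E]
      rw [if_neg (by omega), Finset.sum_eq_sum_Ico_succ_bot hk2]
      have h1 : 0 < γ (k - s) • E γ n s x m k := mul_pos (hγ _ (by omega)) (ih.2 k hk1 hk2)
      have h2 : 0 ≤ ∑ l ∈ Finset.Ico (k + 1) (s + n), γ (l - s) • E γ n s x m l := by
        apply Finset.sum_nonneg
        intro l hl
        rw [Finset.mem_Ico] at hl
        exact mul_nonneg (hγ _ (by omega)).le (ih.1 l (by omega))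
      have h3 : 0 ≤ x * E γ n s x m 0 := mul_nonneg hx (ih.1 0 (by omega))
      linarith
    refine ⟨?_, key⟩
    intro k hk
    by_cases hks : k < s
    · simp only [E, if_pos hks]
      exact ih.1 _ (by omega)
    · exact (key k (by omega) hk).le

theorem F_real {γ : ℕ → ℝ} {n : ℕ} {x : ℝ} (hγ : ∀ l, l < n → 0 < γ l)
    (hx : 0 ≤ x) (m : ℕ) : ∀ k, k < n → 0 < F γ n x m k := by
  induction m with
  | zero => intro k _; simp [F]
  | succ m ih =>
    intro k hk
    simp only [F]
    rw [Finset.sum_eq_sum_Ico_succ_bot hk]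
    have h1 : 0 < γ k • F γ n x m k := mul_pos (hγ _ hk) (ih k hk)
    have h2 : 0 ≤ ∑ l ∈ Finset.Ico (k + 1) n, γ l • F γ n x m l := by
      apply Finset.sum_nonneg
      intro l hl
      rw [Finset.mem_Ico] at hl
      exact mul_nonneg (hγ _ (by omega)).le (ih l (by omega)).le
    have h3 : 0 ≤ x * ∑ l ∈ Finset.range (min k n), γ l • F γ n x m l := by
      apply mul_nonneg hx
      apply Finset.sum_nonneg
      intro l hl
      rw [Finset.mem_range] at hl
      exact mul_nonneg (hγ _ (by omega)).le (ih l (by omega)).le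
    linarith

/-! ### non-vanishing -/

theorem E_ne {γ : ℕ → ℝ} {n s : ℕ} {ω : ℂ} (hn : 0 < n) (hγ : ∀ l, l < n → 0 < γ l)
    (hω : ω.im ≠ 0 ∨ 0 ≤ ω.re) (m : ℕ) : E γ n s ω m s ≠ 0 := by
  by_cases him : ω.im = 0
  · have hre : 0 ≤ ω.re := by
      rcases hω with h | h
      · exact absurd him h
      · exact h
    have hω' : ω = ((ω.re : ℝ) : ℂ) := by apply Complex.ext <;> simp [him]
    have h := map_E Complex.ofRealAm γ n s ω.re m s
    have h1 := (E_real (s := s) hn hγ hre m).2 s le_rfl (by omega)
    rw [Complex.ofRealAm_coe] at h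
    rw [hω', ← h]
    exact_mod_cast h1.ne'
  · rcases lt_or_gt_of_ne him with hneg | hpos
    · intro h0
      have h := map_E (Complex.conjAe : ℂ →ₐ[ℝ] ℂ) γ n s ω m s
      rw [h0, map_zero] at h
      have h2 : 0 < ((Complex.conjAe : ℂ →ₐ[ℝ] ℂ) ω).im := by
        simpa using hneg
      exact E_ne_of_im_pos (s := s) hn hγ h2 m h.symm
    · exact E_ne_of_im_pos hn hγ hpos m

theorem F_ne {γ : ℕ → ℝ} {n : ℕ} {ω : ℂ} (hn : 0 < n) (hγ : ∀ l, l < n → 0 < γ l)
    (hω : ω.im ≠ 0 ∨ 0 ≤ ω.re) (m : ℕ) : F γ n ω m 0 ≠ 0 := by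
  by_cases him : ω.im = 0
  · have hre : 0 ≤ ω.re := by
      rcases hω with h | h
      · exact absurd him h
      · exact h
    have hω' : ω = ((ω.re : ℝ) : ℂ) := by apply Complex.ext <;> simp [him]
    have h := map_F Complex.ofRealAm γ n ω.re m 0
    have h1 := (F_real hγ hre m) 0 hn
    rw [Complex.ofRealAm_coe] at h
    rw [hω', ← h]
    exact_mod_cast h1.ne'
  · rcases lt_or_gt_of_ne him with hneg | hpos
    · intro h0
      have h := map_F (Complex.conjAe : ℂ →ₐ[ℝ] ℂ) γ n ω m 0
      rw [h0, map_zero] at h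
      have h2 : 0 < ((Complex.conjAe : ℂ →ₐ[ℝ] ℂ) ω).im := by
        simpa using hneg
      exact F_ne_of_im_pos hn hγ h2 m h.symm
    · exact F_ne_of_im_pos hn hγ hpos m

end Pool.Agent.V1195.Casc
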