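import Mathlib
import Pool.Agent.V1195.Casc

/-! Power series identities for the cascades of `Pool.Agent.V1195.Casc`. -/

open scoped BigOperators
open PowerSeries

namespace Pool.Agent.V1195.Casc

section ps
variable {K : Type*} [CommRing K] [Algebra ℝ K]

theorem E_lt (γ : ℕ → ℝ) (n s : ℕ) (ω : K) (m k : ℕ) (hk : k < s) :
    E γ n s ω (m + 1) k = E γ n s ω m (k + 1) := by
  simp only [E, if_pos hk]

theorem E_zero_lt (γ : ℕ → ℝ) (n s : ℕ) (ω : K) (k : ℕ) (hk : k < s) :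
    E γ n s ω 0 k = 0 := by
  simp only [E, if_pos hk]

theorem E_zero_ge (γ : ℕ → ℝ) (n s : ℕ) (ω : K) (k : ℕ) :
    E γ n s ω 0 (s + k) = 1 := by
  simp only [E, if_neg (not_lt.2 (Nat.le_add_right s k))]

theorem E_step (γ : ℕ → ℝ) (n s : ℕ) (ω : K) (m l : ℕ) (hl : l < n) :
    E γ n s ω (m + 1) (s + l) =
      γ l • E γ n s ω m (s + l) + E γ n s ω (m + 1) (s + (l + 1)) := by
  simp only [E]
  rw [if_neg (not_lt.2 (Nat.le_add_right s l)), if_neg (not_lt.2 (Nat.le_add_right s (l + 1))),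
    Finset.sum_eq_sum_Ico_succ_bot (by omega : s + l < s + n)]
  rw [Nat.add_sub_cancel_left, add_assoc s l 1]
  ring

theorem E_top (γ : ℕ → ℝ) (n s : ℕ) (ω : K) (m : ℕ) :
    E γ n s ω (m + 1) (s + n) = ω * E γ n s ω m 0 := by
  simp only [E]
  rw [if_neg (not_lt.2 (Nat.le_add_right s n))]
  simp

/-- generating series of a column of the cascade -/
def T (γ : ℕ → ℝ) (n s : ℕ) (ω : K) (k : ℕ) : K⟦X⟧ := PowerSeries.mk fun m => E γ n s ω m k

theorem T_step (γ : ℕ → ℝ) (n s : ℕ) (ω : K) (l : ℕ) (hl : l < n) :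
    (1 - C (algebraMap ℝ K (γ l)) * X) * T γ n s ω (s + l) = T γ n s ω (s + (l + 1)) := by
  ext m
  rw [sub_mul, one_mul, mul_assoc, map_sub, coeff_C_mul]
  cases m with
  | zero =>
    simp only [T, coeff_mk, coeff_zero_X_mul, mul_zero, sub_zero]
    rw [E_zero_ge, E_zero_ge]
  | succ m =>
    rw [coeff_succ_X_mul]
    simp only [T, coeff_mk]
    rw [E_step γ n s ω m l hl, Algebra.smul_def]
    ring

theorem T_prod (γ : ℕ → ℝ) (n s : ℕ) (ω : K) (l : ℕ) (hl : l ≤ n) :
    (∏ i ∈ Finset.range l, (1 - C (algebraMap ℝ K (γ i)) * X)) * T γ n s ω s =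
      T γ n s ω (s + l) := by
  induction l with
  | zero => simp
  | succ l ih =>
    rw [Finset.prod_range_succ, mul_comm (∏ i ∈ Finset.range l, _), mul_assoc, ih (by omega),
      T_step γ n s ω l (by omega)]

theorem T_shift (γ : ℕ → ℝ) (n s : ℕ) (ω : K) (i : ℕ) (hi : i ≤ s) :
    T γ n s ω (s - i) = X ^ i * T γ n s ω s := by
  induction i with
  | zero => simp
  | succ i ih =>
    have h1 : T γ n s ω (s - (i + 1)) = X * T γ n s ω (s - i) := by
      ext m
      cases m with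
      | zero =>
        rw [coeff_zero_X_mul]
        simp only [T, coeff_mk]
        exact E_zero_lt γ n s ω _ (by omega)
      | succ m =>
        rw [coeff_succ_X_mul]
        simp only [T, coeff_mk]
        rw [E_lt γ n s ω m _ (by omega)]
        congr 1
        omega
    rw [h1, ih (by omega), pow_succ']
    ring

theorem T_zero (γ : ℕ → ℝ) (n s : ℕ) (ω : K) : T γ n s ω 0 = X ^ s * T γ n s ω s := by
  have := T_shift γ n s ω s le_rfl
  rwa [Nat.sub_self] at this

theorem E_identity (γ : ℕ → ℝ) (n s : ℕ) (ω : K) :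
    ((∏ i ∈ Finset.range n, (1 - C (algebraMap ℝ K (γ i)) * X)) - C ω * X ^ (s + 1)) *
      T γ n s ω s = 1 := by
  have h1 : T γ n s ω (s + n) = 1 + C ω * (X * T γ n s ω 0) := by
    ext m
    rw [map_add, coeff_C_mul]
    cases m with
    | zero =>
      rw [coeff_zero_X_mul]
      simp only [T, coeff_mk]
      rw [E_zero_ge]; simp
    | succ m =>
      rw [coeff_succ_X_mul]
      simp only [T, coeff_mk]
      rw [E_top, coeff_one]; simp
  rw [sub_mul, T_prod γ n s ω n le_rfl, h1, T_zero]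
  ring

end ps

section field
variable {K : Type*} [Field K] [Algebra ℝ K]

theorem F_step (γ : ℕ → ℝ) (n : ℕ) (ω : K) (m l : ℕ) (hl : l < n) :
    F γ n ω (m + 1) (l + 1) = F γ n ω (m + 1) l - (1 - ω) * (γ l • F γ n ω m l) := by
  simp only [F]
  rw [min_eq_left hl.le, min_eq_left (by omega : l + 1 ≤ n), Finset.sum_range_succ,
    Finset.sum_eq_sum_Ico_succ_bot hl]
  ring

theorem F_top (γ : ℕ → ℝ) (n : ℕ) (ω : K) (m : ℕ) :
    F γ n ω (m + 1) n = ω * F γ n ω (m + 1) 0 := by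
  simp only [F]
  simp

/-- scaled generating series -/
noncomputable def S (γ : ℕ → ℝ) (n : ℕ) (ω : K) (k : ℕ) : K⟦X⟧ :=
  PowerSeries.mk fun m => F γ n ω m k * ((1 - ω)⁻¹) ^ (m + 1)

theorem S_step (γ : ℕ → ℝ) (n : ℕ) (ω : K) (hω : 1 - ω ≠ 0) (l : ℕ) (hl : l < n) :
    (1 - C (algebraMap ℝ K (γ l)) * X) * S γ n ω l = S γ n ω (l + 1) := by
  ext m
  rw [sub_mul, one_mul, mul_assoc, map_sub, coeff_C_mul]
  cases m with
  | zero =>
    simp only [S, coeff_mk, coeff_zero_X_mul, mul_zero, sub_zero, F]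
  | succ m =>
    rw [coeff_succ_X_mul]
    simp only [S, coeff_mk]
    rw [F_step γ n ω m l hl, Algebra.smul_def, pow_succ ((1 - ω)⁻¹) (m + 1)]
    have : (1 - ω) * (1 - ω)⁻¹ = 1 := mul_inv_cancel₀ hω
    linear_combination (algebraMap ℝ K (γ l) * F γ n ω m l * (1 - ω)⁻¹ ^ (m + 1)) * this

theorem S_prod (γ : ℕ → ℝ) (n : ℕ) (ω : K) (hω : 1 - ω ≠ 0) (l : ℕ) (hl : l ≤ n) :
    (∏ i ∈ Finset.range l, (1 - C (algebraMap ℝ K (γ i)) * X)) * S γ n ω 0 = S γ n ω l := by
  induction l with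
  | zero => simp
  | succ l ih =>
    rw [Finset.prod_range_succ, mul_comm (∏ i ∈ Finset.range l, _), mul_assoc, ih (by omega),
      S_step γ n ω hω l (by omega)]

theorem F_identity (γ : ℕ → ℝ) (n : ℕ) (ω : K) (hω : 1 - ω ≠ 0) :
    ((∏ i ∈ Finset.range n, (1 - C (algebraMap ℝ K (γ i)) * X)) - C ω * X ^ 0) *
      S γ n ω 0 = 1 := by
  have h1 : S γ n ω n = 1 + C ω * S γ n ω 0 := by
    ext m
    rw [map_add, coeff_C_mul]
    cases m with
    | zero =>
      simp only [S, coeff_mk, F]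
      simp only [zero_add, pow_one, one_mul, coeff_zero_eq_constantCoeff, map_one]
      field_simp
      ring
    | succ m =>
      simp only [S, coeff_mk]
      rw [F_top, coeff_one]; simp [mul_assoc]
  rw [sub_mul, S_prod γ n ω hω n le_rfl, h1]
  ring

end field

end Pool.Agent.V1195.Casc
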