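import Mathlib
import Pool.Agent.TH165.ACC.NFin

/-!
# ACC for minimal log discrepancies of triples `(X ∋ P, B, ∏ I_j ^ c_j)` on toric germs
-/

set_option autoImplicit false
set_option linter.unusedSectionVars false

namespace Pool.Agent.V1195.Acc

open Pool.Agent.H436R3.Fol Pool.Agent.H436R3.KT Pool.Agent.W497.Mld Pool.Agent.TH165.ACC
  MvPolynomial

section defs

variable {K : Type} [Field K] [Algebra ℂ K] {X : AffVar K}

/-- `k` is the order of the ideal `I` along `v`: the least order of a nonzero element of `I` -/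
def IsOrdOf (v : DVal K) (I : Ideal X.R) (k : ℤ) : Prop :=
  IsLeast {t : ℤ | ∃ f : X.R, f ∈ I ∧ (f : K) ≠ 0 ∧ t = v.ord (f : K)} k

/-- `a` is the log discrepancy along `v` of the triple `(X, B, ∏ I_j ^ c_j)` -/
def IsTriDisc {B : EffDiv X} {P : Pt X} (e : LocEq B P) {r : ℕ} (I : Fin r → Ideal X.R)
    (c : Fin r → ℝ) (v : DVal K) (a : ℝ) : Prop :=
  ∃ (t : ℝ) (k : Fin r → ℤ), IsLogDisc e v t ∧ (∀ j, IsOrdOf v (I j) (k j)) ∧
    a = t - ∑ j, c j * (k j : ℝ)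

/-- `m` is the minimal log discrepancy at `P` of the triple `(X, B, ∏ I_j ^ c_j)` -/
def IsTriMld {B : EffDiv X} {P : Pt X} (e : LocEq B P) {r : ℕ} (I : Fin r → Ideal X.R)
    (c : Fin r → ℝ) (m : ℝ) : Prop :=
  IsLeast {a | ∃ v, IsOverGerm P v ∧ IsTriDisc e I c v a} m

end defs

variable {n d : ℕ} {K : Type} [Field K] [Algebra ℂ K]
  [Algebra (MvPolynomial (Fin n) ℂ) K] [IsFractionRing (MvPolynomial (Fin n) ℂ) K]
  [IsScalarTower ℂ (MvPolynomial (Fin n) ℂ) K]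

/-- the minimal log discrepancy of the triple is computed by a monomial valuation -/
def TriComputed {g : ToricGerm n K} {B : EffDiv g.X} (e : LocEq B g.P) {r : ℕ}
    (I : Fin r → Ideal g.X.R) (c : Fin r → ℝ) (m : ℝ) : Prop :=
  ∃ v, IsOverGerm g.P v ∧ IsMonomial n v ∧ IsTriDisc e I c v m

/-- the ideal `I` is generated by monomials -/
def IsMonIdeal (g : ToricGerm n K) (I : Ideal g.X.R) : Prop :=
  I = Ideal.span {f : g.X.R | f ∈ I ∧ ∃ m ∈ Cn g.E, (f : K) = ym K m}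

/-- the exponent vectors of the ideal in the coordinates of a simplicial subcone -/
def SI (g : ToricGerm n K) (a : Fin d → Fin g.N) (I : Ideal g.X.R) : Set (Fin d → ℕ) :=
  {m | ∃ f : g.X.R, f ∈ I ∧ (f : K) ≠ 0 ∧ ∃ (M : Fin n →₀ ℕ) (h : MvPolynomial (Fin n) ℂ),
    (f : K) * ym K (ex M) = jo (Fin n) K h ∧ h.coeff M = g.P f ∧
    (∀ s ∈ h.support, ex s - ex M ∈ Cn g.E) ∧ ∃ s ∈ h.support,
      ∀ i, (m i : ℤ) = pr (ex s - ex M) (g.E (a i))}

theorem h_ne {g : ToricGerm n K} {f : g.X.R} (hf : (f : K) ≠ 0) {M : Fin n →₀ ℕ}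
    {h : MvPolynomial (Fin n) ℂ} (e1 : (f : K) * ym K (ex M) = jo (Fin n) K h) : h ≠ 0 := by
  rintro rfl
  rw [map_zero] at e1
  rcases mul_eq_zero.1 e1 with h1 | h1
  · exact hf h1
  · exact ym_ne _ h1

theorem SI_mem {g : ToricGerm n K} (a : Fin d → Fin g.N) {I : Ideal g.X.R} {f : g.X.R}
    (hfI : f ∈ I) (hf : (f : K) ≠ 0) {M : Fin n →₀ ℕ} {h : MvPolynomial (Fin n) ℂ}
    (e1 : (f : K) * ym K (ex M) = jo (Fin n) K h) (e2 : h.coeff M = g.P f)
    (e3 : ∀ s ∈ h.support, ex s - ex M ∈ Cn g.E) {s : Fin n →₀ ℕ} (hs : s ∈ h.support) :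
    ∃ m ∈ SI g a I, ∀ i, (m i : ℤ) = pr (ex s - ex M) (g.E (a i)) := by
  have h1 : ∀ i, (((pr (ex s - ex M) (g.E (a i))).toNat : ℕ) : ℤ) =
      pr (ex s - ex M) (g.E (a i)) := fun i => Int.toNat_of_nonneg (e3 s hs (a i))
  exact ⟨fun i => (pr (ex s - ex M) (g.E (a i))).toNat, ⟨f, hfI, hf, M, h, e1, e2, e3, s, hs, h1⟩,
    h1⟩

theorem SI_nonempty {g : ToricGerm n K} (a : Fin d → Fin g.N) {I : Ideal g.X.R} (hI : I ≠ ⊥) :
    (SI g a I).Nonempty := by
  obtain ⟨f, hfI, hf⟩ := Submodule.exists_mem_ne_zero_of_ne_bot hI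
  have hf' : (f : K) ≠ 0 := fun h => hf (Subtype.ext h)
  obtain ⟨M, h, e1, e2, e3⟩ := g.rep f
  obtain ⟨s, hs⟩ : h.support.Nonempty := by
    rw [Finset.nonempty_iff_ne_empty, Ne, support_eq_empty]
    exact h_ne hf' e1
  obtain ⟨m, hm, -⟩ := SI_mem a hfI hf' e1 e2 e3 hs
  exact ⟨m, hm⟩

theorem SI_zero {g : ToricGerm n K} {a : Fin d → Fin g.N} {w0 : Fin d → ℝ} {u0 : Fin n → ℤ}
    (h0 : Coord (fun i => g.E (a i)) w0 u0) (hu0 : g.Inter u0) {I : Ideal g.X.R}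
    (hI : ∀ f ∈ I, g.P f = 0) : (0 : Fin d → ℕ) ∉ SI g a I := by
  rintro ⟨f, hfI, hf, M, h, e1, e2, e3, s, hs, hm⟩
  have h1 : ex s - ex M = 0 := by
    by_contra h2
    have h3 := hu0 _ (e3 s hs) h2
    have h4 : (pr (ex s - ex M) u0 : ℝ) = 0 := by
      rw [coord_pr h0]
      refine Finset.sum_eq_zero fun i _ => ?_
      rw [← hm i]
      simp
    have h5 : pr (ex s - ex M) u0 = 0 := by exact_mod_cast h4
    omega
  have h2 : s = M := ex_inj (sub_eq_zero.1 h1)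
  rw [h2, mem_support_iff, e2, hI f hfI] at hs
  exact hs rfl

theorem ord_rep {g : ToricGerm n K} {f : g.X.R} (hf : (f : K) ≠ 0) {M : Fin n →₀ ℕ}
    {h : MvPolynomial (Fin n) ℂ} (e1 : (f : K) * ym K (ex M) = jo (Fin n) K h) (v : DVal K) :
    v.ord (f : K) = v.ord (jo (Fin n) K h) - pr (ex M) (tv v) := by
  rw [← e1, v.map_mul _ _ hf (ym_ne _), ord_ym]
  ring

theorem ordAlong_SI {g : ToricGerm n K} (a : Fin d → Fin g.N) {I : Ideal g.X.R} {v : DVal K}
    (hv : IsMonomial n v) {w : Fin d → ℝ} (hw : ∀ i, 0 ≤ w i)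
    (hc : Coord (fun i => g.E (a i)) w (tv v)) {k : ℤ} (hk : IsOrdOf v I k) :
    ordAlong (SI g a I) w = (k : ℝ) := by
  have key : ∀ (m : Fin d → ℕ) (x : Fin n → ℤ), (∀ i, (m i : ℤ) = pr x (g.E (a i))) →
      ∑ i, (m i : ℝ) * w i = (pr x (tv v) : ℝ) := by
    intro m x hm
    rw [coord_pr hc]
    refine Finset.sum_congr rfl fun i _ => ?_
    have h1 : (m i : ℝ) = (pr x (g.E (a i)) : ℝ) := by
      have := hm i
      exact_mod_cast this
    rw [h1]
    ring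
  obtain ⟨⟨f, hfI, hf, hfk⟩, hle⟩ := hk
  apply le_antisymm
  · obtain ⟨M, h, e1, e2, e3⟩ := g.rep f
    obtain ⟨⟨s, hs, h1⟩, -⟩ := hv h (h_ne hf e1)
    obtain ⟨m, hm, hm'⟩ := SI_mem a hfI hf e1 e2 e3 hs
    have h2 : (k : ℝ) = ∑ i, (m i : ℝ) * w i := by
      rw [key m _ hm', pr_sub, hfk, ord_rep hf e1, h1]
    rw [h2]
    exact csInf_le (bdd hw) ⟨m, hm, rfl⟩
  · have hne : (SI g a I).Nonempty := by
      obtain ⟨M, h, e1, e2, e3⟩ := g.rep f
      obtain ⟨⟨s, hs, h1⟩, -⟩ := hv h (h_ne hf e1)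
      obtain ⟨m, hm, hm'⟩ := SI_mem a hfI hf e1 e2 e3 hs
      exact ⟨m, hm⟩
    apply le_ord hne
    rintro m ⟨f', hfI', hf', M, h, e1, e2, e3, s, hs, hm⟩
    rw [key m _ hm]
    have h1 : k ≤ v.ord (f' : K) := hle ⟨f', hfI', hf', rfl⟩
    have h2 := (hv h (h_ne hf' e1)).2 s hs
    have h3 : k ≤ pr (ex s - ex M) (tv v) := by
      rw [pr_sub]
      rw [ord_rep hf' e1] at h1
      omega
    exact_mod_cast h3

/-- the order of a nonzero ideal along a divisor over the germ exists -/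
theorem exists_ordOf {X : AffVar K} {P : Pt X} {v : DVal K} (hv : IsOverGerm P v)
    {I : Ideal X.R} (hI : I ≠ ⊥) : ∃ k, IsOrdOf v I k := by
  obtain ⟨f, hfI, hf⟩ := Submodule.exists_mem_ne_zero_of_ne_bot hI
  have hf' : (f : K) ≠ 0 := fun h => hf (Subtype.ext h)
  obtain ⟨⟨S, -, hRS, hSv⟩, -⟩ := hv
  obtain ⟨k, hk, hk'⟩ := Int.exists_least_of_bdd
    (P := fun t : ℤ => ∃ f : X.R, f ∈ I ∧ (f : K) ≠ 0 ∧ t = v.ord (f : K))
    ⟨0, by
      rintro z ⟨f, -, hf, rfl⟩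
      exact v.ord_nonneg hf (hSv.1 _ (hRS f.2))⟩ ⟨_, f, hfI, hf', rfl⟩
  exact ⟨k, hk, fun z hz => hk' z hz⟩

theorem IsOrdOf.unique {X : AffVar K} {v : DVal K} {I : Ideal X.R} {k k' : ℤ}
    (h : IsOrdOf v I k) (h' : IsOrdOf v I k') : k = k' := IsLeast.unique h h'

/-- The minimal log discrepancies of the triples are values of the combinatorial ones. -/
theorem tri_mem {g : ToricGerm n K} {B : EffDiv g.X} (e : LocEq B g.P) {Γ : Set ℝ}
    (hB : CoeffIn B Γ) {q : ℕ} {I : Fin q → Ideal g.X.R} {cc : Fin q → ℝ}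
    (hI : ∀ j, I j ≠ ⊥ ∧ (∀ f ∈ I j, g.P f = 0) ∧ cc j ∈ Γ ∧ 0 < cc j) {m : ℝ} (hm0 : 0 ≤ m)
    (hm : IsTriMld e I cc m) (hc : TriComputed e I cc m) : ∃ d ≤ n, ∃ r, m ∈ mldsR d r Γ := by
  obtain ⟨v0, hov0, hv0, t0, k0, hl, hk0, hmt⟩ := hc
  have hint0 := ToricGerm.inter_of_over (n := n) hov0
  obtain ⟨d, a, w0, hw0, hc0, D, hD⟩ := exists_simplex hint0.inCone
  obtain ⟨r, S, c, hS, hkey⟩ := key_formula e hB a
  have hlog : ∀ (v : DVal K) (w : Fin d → ℝ) (k : Fin q → ℤ), IsMonomial n v → (∀ i, 0 ≤ w i) →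
      Coord (fun i => g.E (a i)) w (tv v) → (∀ j, IsOrdOf v (I j) (k j)) →
      logDisc (Fin.append S fun j => SI g a (I j)) (Fin.append c cc) w =
        (-∑ k, e.ρ k * (v.ord (e.g k) : ℝ)) - ∑ j, cc j * (k j : ℝ) := by
    intro v w k hv hw hco hk
    have h1 : ∀ j, cc j * ordAlong (SI g a (I j)) w = cc j * (k j : ℝ) := fun j => by
      rw [ordAlong_SI a hv hw hco (hk j)]
    rw [← hkey v hv w hw hco, logDisc, logDisc, Fin.sum_univ_add]
    simp only [Fin.append_left, Fin.append_right]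
    rw [Finset.sum_congr rfl fun j _ => h1 j]
    ring
  refine ⟨d, hD.le, r + q, GE (fun i => g.E (a i)), Fin.append S fun j => SI g a (I j),
    Fin.append c cc, GE_finite hD, ?_, IsLeast.isGLB ⟨?_, ?_⟩⟩
  · intro j
    refine Fin.addCases (fun j => ?_) (fun j => ?_) j
    · simp only [Fin.append_left]
      exact hS j
    · simp only [Fin.append_right]
      exact ⟨SI_nonempty a (hI j).1, SI_zero hc0 hint0 (hI j).2.1, (hI j).2.2⟩
  · refine ⟨w0, hw0, ⟨w0, _, rfl, hc0⟩, ?_⟩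
    rw [hlog v0 w0 k0 hv0 (fun i => (hw0 i).le) hc0 hk0, hmt, (logDisc_mon hv0).1 hl]
  · rintro _ ⟨w, hw, hwG, rfl⟩
    obtain ⟨u, hu⟩ := coord_of_mem hwG
    have hint := inter_of_coord (g := g) hc0 hint0 hu hw
    obtain ⟨k, u', hk, hu', rfl⟩ := exists_prim (hint.ne_zero (pos_of_mon hv0))
    obtain ⟨v, hv, htv⟩ := exists_mon (K := K) hu'
    have hk' : (0 : ℝ) < k := by exact_mod_cast hk
    have hw' : Coord (fun i => g.E (a i)) ((k : ℝ)⁻¹ • w) (tv v) := by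
      intro j
      have h1 := hu j
      rw [Pi.smul_apply, smul_eq_mul] at h1
      push_cast at h1
      rw [htv]
      simp only [Pi.smul_apply, smul_eq_mul, mul_assoc]
      rw [← Finset.mul_sum, h1]
      field_simp
    have hint' : g.Inter (tv v) :=
      inter_of_coord hc0 hint0 hw' fun i => mul_pos (inv_pos.2 hk') (hw i)
    have hov := ToricGerm.overGerm hv hint'
    choose ko hko using fun j => exists_ordOf hov (hI j).1
    have h3 := hlog v _ ko hv (fun i => (mul_pos (inv_pos.2 hk') (hw i)).le) hw' hko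
    have h4 : m ≤ logDisc (Fin.append S fun j => SI g a (I j)) (Fin.append c cc)
        ((k : ℝ)⁻¹ • w) :=
      hm.2 ⟨v, hov, _, ko, (logDisc_mon hv).2 rfl, hko, h3⟩
    have h5 : logDisc (Fin.append S fun j => SI g a (I j)) (Fin.append c cc) w =
        k * logDisc (Fin.append S fun j => SI g a (I j)) (Fin.append c cc) ((k : ℝ)⁻¹ • w) := by
      rw [← logDisc_smul _ _ hk'.le, smul_smul, mul_inv_cancel₀ hk'.ne', one_smul]
    rw [h5]
    have h6 : (1 : ℝ) ≤ k := by exact_mod_cast hk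
    nlinarith

/-- in a monomial ideal every order is at least the order of a monomial of the ideal -/
theorem mono_le {g : ToricGerm n K} {I : Ideal g.X.R} (hI : IsMonIdeal g I) {v : DVal K}
    (hreg : ∀ f : g.X.R, v.Reg (f : K)) {f : g.X.R} (hf : f ∈ I) (hf0 : (f : K) ≠ 0) :
    ∃ (f' : g.X.R) (m : Fin n → ℤ), f' ∈ I ∧ (f' : K) = ym K m ∧
      pr m (tv v) ≤ v.ord (f : K) := by
  have key : ∀ f ∈ Ideal.span {f : g.X.R | f ∈ I ∧ ∃ m ∈ Cn g.E, (f : K) = ym K m},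
      (f : K) ≠ 0 → ∃ (f' : g.X.R) (m : Fin n → ℤ), f' ∈ I ∧ (f' : K) = ym K m ∧
      pr m (tv v) ≤ v.ord (f : K) := by
    intro f hf
    induction hf using Submodule.span_induction with
    | mem x hx =>
      intro _
      obtain ⟨hxI, m, -, hm⟩ := hx
      exact ⟨x, m, hxI, hm, by rw [hm, ord_ym]⟩
    | zero => intro h; exact absurd rfl h
    | add x y _ _ hx hy =>
      intro h
      have h' : (x : K) + (y : K) ≠ 0 := h
      by_cases hx0 : (x : K) = 0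
      · have hy0 : (y : K) ≠ 0 := by rw [hx0, zero_add] at h'; exact h'
        obtain ⟨f', m, h1, h2, h3⟩ := hy hy0
        refine ⟨f', m, h1, h2, ?_⟩
        change _ ≤ v.ord ((x : K) + (y : K))
        rwa [hx0, zero_add]
      · by_cases hy0 : (y : K) = 0
        · obtain ⟨f', m, h1, h2, h3⟩ := hx hx0
          refine ⟨f', m, h1, h2, ?_⟩
          change _ ≤ v.ord ((x : K) + (y : K))
          rwa [hy0, add_zero]
        · have h4 := v.map_add _ _ hx0 hy0 h'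
          rcases min_le_iff.1 h4 with h5 | h5
          · obtain ⟨f', m, h1, h2, h3⟩ := hx hx0
            exact ⟨f', m, h1, h2, h3.trans h5⟩
          · obtain ⟨f', m, h1, h2, h3⟩ := hy hy0
            exact ⟨f', m, h1, h2, h3.trans h5⟩
    | smul b x _ hx =>
      intro h
      have h' : (b : K) * (x : K) ≠ 0 := h
      have hb0 := left_ne_zero_of_mul h'
      have hx0 := right_ne_zero_of_mul h'
      obtain ⟨f', m, h1, h2, h3⟩ := hx hx0
      refine ⟨f', m, h1, h2, ?_⟩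
      change _ ≤ v.ord ((b : K) * (x : K))
      rw [v.map_mul _ _ hb0 hx0]
      have := v.ord_nonneg hb0 (hreg b)
      omega
  exact key f (by rw [← hI]; exact hf) hf0

end Pool.Agent.V1195.Acc
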