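import Mathlib
import Pool.Agent.V1195.AccTri

/-!
# Triples with a nondegenerate boundary and monomial ideals
-/

set_option autoImplicit false
set_option linter.unusedSectionVars false

namespace Pool.Agent.V1195.Acc

open Pool.Agent.H436R3.Fol Pool.Agent.H436R3.KT Pool.Agent.W497.Mld Pool.Agent.TH165.ACC
  MvPolynomial

variable {n d : ℕ} {K : Type} [Field K] [Algebra ℂ K]
  [Algebra (MvPolynomial (Fin n) ℂ) K] [IsFractionRing (MvPolynomial (Fin n) ℂ) K]
  [IsScalarTower ℂ (MvPolynomial (Fin n) ℂ) K]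

/-- Comparison of a divisor over the germ with the monomial valuation of the same direction. The
proof is the one of `Pool.Agent.TH165.ACC.computed_of_nondeg`. -/
theorem le_of_nondeg {g : ToricGerm n K} {B : EffDiv g.X} {e : LocEq B g.P} {m : ℝ}
    (hB : NondegBoundary g B) {v v' : DVal K} (hov : IsOverGerm g.P v) (hl : IsLogDisc e v m)
    (hv' : IsMonomial n v') (hint' : g.Inter (tv v')) {k : ℤ} (hk : 0 < k)
    (htv' : (tv v : Fin n → ℤ) = k • tv v') :
    (k : ℝ) * (-∑ k, e.ρ k * (v'.ord (e.g k) : ℝ)) ≤ m := by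
  classical
  obtain ⟨N, hN, hmv⟩ := hl
  obtain ⟨hB1, s, q, hq, hcomp⟩ := hB
  set a' : ℝ := -∑ k, e.ρ k * (v'.ord (e.g k) : ℝ) with ha'
  obtain ⟨F, c, hFp, hFd, hc⟩ := fact (n := n) e.ρ e.g e.ne
  let D : MvPolynomial (Fin n) ℂ → ℤ := fun p =>
    v.ord (jo (Fin n) K p) - k * v'.ord (jo (Fin n) K p)
  have hD0 : ∀ p, p ≠ 0 → 0 ≤ D p := fun p hp => by
    have := ord_ge_mon hv' hk htv' hp
    simp only [D]
    omega
  have hDm : ∀ p r, p ≠ 0 → r ≠ 0 → D (p * r) = D p + D r := by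
    intro p r hp hr
    simp only [D]
    rw [map_mul, v.map_mul _ _ (jo_ne hp) (jo_ne hr), v'.map_mul _ _ (jo_ne hp) (jo_ne hr)]
    ring
  have hDp : ∀ S : Finset (MvPolynomial (Fin n) ℂ), (∀ p ∈ S, p ≠ 0) →
      (∏ p ∈ S, p) ≠ 0 ∧ D (∏ p ∈ S, p) = ∑ p ∈ S, D p := by
    intro S
    induction S using Finset.induction_on with
    | empty =>
      intro _
      simp only [Finset.prod_empty, Finset.sum_empty, D, map_one, v.ord_one, v'.ord_one]
      simp
    | insert b S hb ih =>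
      intro hS
      obtain ⟨h2, h3⟩ := ih fun p hp => hS p (Finset.mem_insert_of_mem hp)
      have hb0 := hS b (Finset.mem_insert_self b S)
      rw [Finset.prod_insert hb, Finset.sum_insert hb, hDm _ _ hb0 h2, h3]
      exact ⟨mul_ne_zero hb0 h2, rfl⟩
  let F' : Finset (MvPolynomial (Fin n) ℂ) := F.filter fun p => Thr g p ∧ c p ≠ 0
  have hThr : ∀ p ∈ F, Thr g p → 0 ≤ c p ∧ c p ≤ 1 ∧ (c p ≠ 0 → ∃ j, p ∣ q j) := by
    rintro p hp ⟨hpp, hcv, hon⟩
    obtain ⟨a, ha, h3⟩ := e.eq _ hon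
    have hL := g.local_prime hpp hcv
    have h4 : a = 0 := ha.unique (can_unit g.e g.hT (by rw [← g.hR]; exact hL) hcv)
    have h5 : ∑ r ∈ F, c r * ((valP K p hpp).ord (jo (Fin n) K r) : ℝ) = c p := by
      rw [Finset.sum_eq_single p]
      · rw [valP_self]; push_cast; ring
      · intro r hr hrp
        rw [valP_other hpp (hFp r hr).ne_zero fun h => hrp (hFd p hp r hr h).symm]
        push_cast; ring
      · intro h; exact absurd hp h
    rw [hc, h5, h4, Int.cast_zero, zero_add] at h3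
    rw [← h3]
    refine ⟨mult_nonneg B _, hB1 _, fun h6 => ?_⟩
    obtain ⟨j, hj⟩ := hcomp _ hon hcv h6
    exact ⟨j, (valP_pos_iff hpp (q j)).1 hj⟩
  have h2 : ∑ p ∈ F, c p * (D p : ℝ) ≤ ∑ p ∈ F', (D p : ℝ) := by
    rw [Finset.sum_filter]
    refine Finset.sum_le_sum fun p hp => ?_
    have hDp0 : (0 : ℝ) ≤ D p := by exact_mod_cast hD0 p (hFp p hp).ne_zero
    by_cases h3 : Thr g p
    · obtain ⟨h4, h5, -⟩ := hThr p hp h3
      by_cases h6 : c p = 0
      · rw [h6, zero_mul]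
        split_ifs
        · exact hDp0
        · exact le_rfl
      · rw [if_pos ⟨h3, h6⟩]
        nlinarith
    · have h4 : D p = 0 := by
        have := eq_of_not_thr hov hv' hint'.inCone hk htv' (hFp p hp) h3
        simp only [D]
        omega
      rw [if_neg (fun h => h3 h.1), h4]
      simp
  have h3 : ∑ p ∈ F', D p ≤ ∑ j, D (q j) := by
    calc ∑ p ∈ F', D p ≤ ∑ p ∈ F', ∑ j, (if p ∣ q j then D p else 0) := by
          refine Finset.sum_le_sum fun p hp => ?_
          obtain ⟨hpF, hpT, hpc⟩ := Finset.mem_filter.1 hp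
          obtain ⟨j, hj⟩ := (hThr p hpF hpT).2.2 hpc
          have h4 : (if p ∣ q j then D p else 0) ≤ ∑ j, (if p ∣ q j then D p else 0) :=
            Finset.single_le_sum (f := fun j => if p ∣ q j then D p else 0) (fun i _ => by
              split_ifs
              · exact hD0 p (hFp p hpF).ne_zero
              · exact le_rfl) (Finset.mem_univ j)
          rwa [if_pos hj] at h4
      _ = ∑ j, ∑ p ∈ F', (if p ∣ q j then D p else 0) := Finset.sum_comm
      _ ≤ ∑ j, D (q j) := by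
          refine Finset.sum_le_sum fun j _ => ?_
          rw [← Finset.sum_filter]
          have h5 : ∀ p ∈ F'.filter (fun p => p ∣ q j), Prime p ∧ p ∈ F := fun p hp => by
            have := (Finset.mem_filter.1 (Finset.mem_filter.1 hp).1).1
            exact ⟨hFp p this, this⟩
          obtain ⟨h6, h7⟩ := hDp (F'.filter fun p => p ∣ q j) fun p hp => (h5 p hp).1.ne_zero
          obtain ⟨r, hr⟩ := prod_dvd (F'.filter fun p => p ∣ q j) (q j) (fun p hp => (h5 p hp).1)
            (fun p hp p' hp' => hFd p (h5 p hp).2 p' (h5 p' hp').2)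
            fun p hp => (Finset.mem_filter.1 hp).2
          have hr0 : r ≠ 0 := by
            rintro rfl
            rw [mul_zero] at hr
            exact hq.1 j hr
          have h8 : D (q j) = D (∏ p ∈ F'.filter (fun p => p ∣ q j), p) + D r := by
            rw [← hDm _ _ h6 hr0]
            exact congrArg D hr
          rw [h8, h7]
          have := hD0 r hr0
          linarith
  have h4 : ∑ j, D (q j) ≤ N + 1 := jac_nondeg hq hov hN hv' hk htv'
  have h5 : (k : ℝ) * a' ≤ m := by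
    have h6 : m - (k : ℝ) * a' = 1 + (N : ℝ) - ∑ p ∈ F, c p * (D p : ℝ) := by
      have h7 : ∑ p ∈ F, c p * (D p : ℝ) = ∑ p ∈ F, c p * (v.ord (jo (Fin n) K p) : ℝ) -
          (k : ℝ) * ∑ p ∈ F, c p * (v'.ord (jo (Fin n) K p) : ℝ) := by
        rw [Finset.mul_sum, ← Finset.sum_sub_distrib]
        refine Finset.sum_congr rfl fun p _ => ?_
        simp only [D]
        push_cast
        ring
      rw [h7, ← hc, ← hc, hmv, ha']
      ring
    have h8 : (∑ p ∈ F', (D p : ℝ)) ≤ (N : ℝ) + 1 := by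
      have := h3.trans h4
      exact_mod_cast this
    linarith
  exact h5

/-- the minimal log discrepancy of a triple with a nondegenerate boundary and monomial ideals is
computed by a monomial valuation -/
theorem triComputed_of_nondeg {g : ToricGerm n K} {B : EffDiv g.X} {e : LocEq B g.P} {q : ℕ}
    {I : Fin q → Ideal g.X.R} {cc : Fin q → ℝ}
    (hI : ∀ j, I j ≠ ⊥ ∧ 0 < cc j) {m : ℝ} (hm0 : 0 ≤ m)
    (hm : IsTriMld e I cc m) (hB : NondegBoundary g B) (hmon : ∀ j, IsMonIdeal g (I j)) :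
    TriComputed e I cc m := by
  obtain ⟨⟨v, hov, t, a, hlt, ha, hmt⟩, hleast⟩ := hm
  have hint := ToricGerm.inter_of_over (n := n) hov
  obtain ⟨k, u', hk, hu', htv'⟩ := exists_prim (ne_zero_of_inter hint)
  obtain ⟨v', hv', rfl⟩ := exists_mon (K := K) hu'
  have hint' : g.Inter (tv v') := by
    intro r hr hr0
    have h1 := hint r hr hr0
    rw [htv', pr_smul_right] at h1
    exact (pos_iff_pos_of_mul_pos h1).1 hk
  have hov' := ToricGerm.overGerm hv' hint'
  choose a' ha' using fun j => exists_ordOf hov' (hI j).1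
  have hl' : IsLogDisc e v' (-∑ k, e.ρ k * (v'.ord (e.g k) : ℝ)) := (logDisc_mon hv').2 rfl
  set t' : ℝ := -∑ k, e.ρ k * (v'.ord (e.g k) : ℝ) with ht'
  have htri' : IsTriDisc e I cc v' (t' - ∑ j, cc j * (a' j : ℝ)) := ⟨t', a', hl', ha', rfl⟩
  have h1 : m ≤ t' - ∑ j, cc j * (a' j : ℝ) := hleast ⟨v', hov', htri'⟩
  have h2 : (k : ℝ) * t' ≤ t := le_of_nondeg hB hov hlt hv' hint' hk htv'
  have hreg : ∀ f : g.X.R, v'.Reg (f : K) := by
    obtain ⟨⟨S, -, hRS, hSv⟩, -⟩ := hov'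
    exact fun f => hSv.1 _ (hRS f.2)
  have h3 : ∀ j, a j ≤ k * a' j := by
    intro j
    obtain ⟨⟨f, hfI, hf0, hfa⟩, -⟩ := ha' j
    obtain ⟨f', x, h4, h5, h6⟩ := mono_le (hmon j) hreg hfI hf0
    have h7 : a j ≤ v.ord (f' : K) := (ha j).2 ⟨f', h4, by rw [h5]; exact ym_ne _, rfl⟩
    rw [h5, ord_ym, htv', pr_smul_right] at h7
    rw [hfa]
    exact h7.trans (mul_le_mul_of_nonneg_left h6 hk.le)
  have h4 : ∑ j, cc j * (a j : ℝ) ≤ (k : ℝ) * ∑ j, cc j * (a' j : ℝ) := by
    rw [Finset.mul_sum]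
    refine Finset.sum_le_sum fun j _ => ?_
    have h5 : (a j : ℝ) ≤ (k : ℝ) * (a' j : ℝ) := by exact_mod_cast h3 j
    have h6 := mul_le_mul_of_nonneg_left h5 (hI j).2.le
    linarith
  have h5 : (k : ℝ) * (t' - ∑ j, cc j * (a' j : ℝ)) ≤ m := by
    rw [hmt, mul_sub]
    linarith
  have h6 : (1 : ℝ) ≤ k := by exact_mod_cast hk
  have h7 : t' - ∑ j, cc j * (a' j : ℝ) ≤ m := by nlinarith
  rw [le_antisymm h1 h7]
  exact ⟨v', hov', hv', htri'⟩

/-- **ACC** for the minimal log discrepancies of triples on toric germs -/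
theorem tri_acc {Γ : Set ℝ} (hΓ : Pool.Agent.TH165.ACC.IsDCC Γ) :
    IsACC {m : ℝ | 0 ≤ m ∧ ∃ (g : ToricGerm n K) (B : EffDiv g.X) (e : LocEq B g.P) (q : ℕ)
      (I : Fin q → Ideal g.X.R) (c : Fin q → ℝ), CoeffIn B Γ ∧
      (∀ j, I j ≠ ⊥ ∧ (∀ f ∈ I j, g.P f = 0) ∧ c j ∈ Γ ∧ 0 < c j) ∧ IsTriMld e I c m ∧
      (TriComputed e I c m ∨ (NondegBoundary g B ∧ ∀ j, IsMonIdeal g (I j)))} := by
  intro u hu hmem
  refine acc_union (N := n) (S := fun d => {a | ∃ r, a ∈ mldsR d r Γ}) (fun d _ => acc hΓ) u hu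
    fun k => ?_
  obtain ⟨h0, g, B, e, q, I, c, hB, hI, hm, hc⟩ := hmem k
  refine tri_mem e hB hI h0 hm ?_
  rcases hc with hc | ⟨h1, h2⟩
  · exact hc
  · exact triComputed_of_nondeg (fun j => ⟨(hI j).1, (hI j).2.2.2⟩) h0 hm h1 h2

end Pool.Agent.V1195.Acc
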