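import Mathlib
import Pool.Agent.V1195.L2Tools

/-!
The space of weakly continuous contraction valued paths with the metric of Eisner and Sereny is
complete.
-/

set_option autoImplicit false
open Filter Topology
open scoped InnerProductSpace NNReal

namespace Pool.Agent.V1195.SemiBaire

noncomputable section

variable {H : Type*} [NormedAddCommGroup H] [InnerProductSpace ℂ H]

/-- `sup_{0 ≤ t ≤ n} |⟨(F(t) - G(t)) x, y⟩|` -/
def supDist (F G : ℝ≥0 → (H →L[ℂ] H)) (n : ℕ) (x y : H) : ℝ :=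
  ⨆ t : Set.Icc (0 : ℝ≥0) n, ‖⟪y, (F t - G t) x⟫_ℂ‖

/-- The metric
`d(F,G) = ∑_{n,i,j ≥ 1} 2^{-(i+j+n)} sup_{0 ≤ t ≤ n} |⟨(F(t) - G(t)) x_i, x_j⟩| / (‖x_i‖ ‖x_j‖)`;
the index `p = (n, i, j)` of natural numbers (from zero) stands for `(n+1, i+1, j+1)`. -/
def semiDist (x : ℕ → H) (F G : ℝ≥0 → (H →L[ℂ] H)) : ℝ :=
  ∑' p : ℕ × ℕ × ℕ, (1 / 2 : ℝ) ^ ((p.1 + 1) + (p.2.1 + 1) + (p.2.2 + 1)) *
    (supDist F G (p.1 + 1) (x p.2.1) (x p.2.2) / (‖x p.2.1‖ * ‖x p.2.2‖))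

/-- weakly continuous paths of contractions starting at the identity -/
structure Path (H : Type*) [NormedAddCommGroup H] [InnerProductSpace ℂ H] where
  F : ℝ≥0 → (H →L[ℂ] H)
  zero : F 0 = 1
  norm_le : ∀ t, ‖F t‖ ≤ 1
  cont : ∀ x y, Continuous fun t => ⟪y, F t x⟫_ℂ

lemma diff_le (F G : ℝ≥0 → (H →L[ℂ] H)) (hF : ∀ t, ‖F t‖ ≤ 1) (hG : ∀ t, ‖G t‖ ≤ 1)
    (t : ℝ≥0) (x y : H) : ‖⟪y, (F t - G t) x⟫_ℂ‖ ≤ 2 * (‖x‖ * ‖y‖) := by
  refine (norm_inner_le_norm _ _).trans ?_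
  have h1 : ‖(F t - G t) x‖ ≤ 2 * ‖x‖ := by
    refine ((F t - G t).le_opNorm x).trans ?_
    refine mul_le_mul_of_nonneg_right ?_ (norm_nonneg _)
    exact (norm_sub_le _ _).trans (by linarith [hF t, hG t])
  calc ‖y‖ * ‖(F t - G t) x‖ ≤ ‖y‖ * (2 * ‖x‖) := mul_le_mul_of_nonneg_left h1 (norm_nonneg _)
    _ = _ := by ring

lemma bdd (F G : ℝ≥0 → (H →L[ℂ] H)) (hF : ∀ t, ‖F t‖ ≤ 1) (hG : ∀ t, ‖G t‖ ≤ 1)
    (n : ℕ) (x y : H) :
    BddAbove (Set.range fun t : Set.Icc (0 : ℝ≥0) n => ‖⟪y, (F t - G t) x⟫_ℂ‖) :=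
  ⟨2 * (‖x‖ * ‖y‖), by rintro _ ⟨t, rfl⟩; exact diff_le F G hF hG t x y⟩

instance nonemptyIcc (n : ℕ) : Nonempty (Set.Icc (0 : ℝ≥0) n) := ⟨⟨0, le_rfl, zero_le⟩⟩

lemma supDist_nonneg (F G : ℝ≥0 → (H →L[ℂ] H)) (n : ℕ) (x y : H) : 0 ≤ supDist F G n x y :=
  Real.iSup_nonneg fun _ => norm_nonneg _

lemma supDist_le_iff (F G : ℝ≥0 → (H →L[ℂ] H)) (n : ℕ) (x y : H) (C : ℝ)
    (h : ∀ t : ℝ≥0, t ≤ n → ‖⟪y, (F t - G t) x⟫_ℂ‖ ≤ C) : supDist F G n x y ≤ C :=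
  ciSup_le fun t => h t t.2.2

lemma le_supDist (F G : ℝ≥0 → (H →L[ℂ] H)) (hF : ∀ t, ‖F t‖ ≤ 1) (hG : ∀ t, ‖G t‖ ≤ 1)
    (n : ℕ) (x y : H) (t : ℝ≥0) (ht : t ≤ n) :
    ‖⟪y, (F t - G t) x⟫_ℂ‖ ≤ supDist F G n x y :=
  le_ciSup (bdd F G hF hG n x y) ⟨t, zero_le, ht⟩

lemma supDist_self (F : ℝ≥0 → (H →L[ℂ] H)) (n : ℕ) (x y : H) : supDist F F n x y = 0 := by
  refine le_antisymm (supDist_le_iff F F n x y 0 fun t _ => ?_) (supDist_nonneg _ _ _ _ _)
  simp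

lemma supDist_comm (F G : ℝ≥0 → (H →L[ℂ] H)) (n : ℕ) (x y : H) :
    supDist F G n x y = supDist G F n x y := by
  unfold supDist
  congr 1
  funext t
  have : (F t - G t) x = -((G t - F t) x) := by simp
  rw [this, inner_neg_right, norm_neg]

lemma supDist_triangle (F G K : ℝ≥0 → (H →L[ℂ] H)) (hF : ∀ t, ‖F t‖ ≤ 1) (hG : ∀ t, ‖G t‖ ≤ 1)
    (hK : ∀ t, ‖K t‖ ≤ 1) (n : ℕ) (x y : H) :
    supDist F K n x y ≤ supDist F G n x y + supDist G K n x y := by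
  refine supDist_le_iff _ _ _ _ _ _ fun t ht => ?_
  have h1 : (F t - K t) x = (F t - G t) x + (G t - K t) x := by simp
  rw [h1, inner_add_right]
  exact (norm_add_le _ _).trans (add_le_add (le_supDist F G hF hG n x y t ht)
    (le_supDist G K hG hK n x y t ht))

/-- the weights -/
def wt (p : ℕ × ℕ × ℕ) : ℝ := (1 / 2 : ℝ) ^ ((p.1 + 1) + (p.2.1 + 1) + (p.2.2 + 1))

lemma wt_pos (p : ℕ × ℕ × ℕ) : 0 < wt p := by unfold wt; positivity

lemma summable_wt : Summable wt := by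
  have h1 : Summable (fun n : ℕ => (1 / 2 : ℝ) ^ (n + 1)) :=
    (summable_nat_add_iff 1).2 summable_geometric_two
  have h2 := (h1.mul_of_nonneg h1 (fun n => by positivity) (fun n => by positivity))
  have h3 := (h1.mul_of_nonneg h2 (fun n => by positivity) (fun n => by positivity))
  refine h3.congr (fun p => ?_)
  unfold wt
  rw [← pow_add, ← pow_add]
  congr 1
  ring

/-- the normalised seminorm distances -/
def qq (x : ℕ → H) (p : ℕ × ℕ × ℕ) (F G : ℝ≥0 → (H →L[ℂ] H)) : ℝ :=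
  supDist F G (p.1 + 1) (x p.2.1) (x p.2.2) / (‖x p.2.1‖ * ‖x p.2.2‖)

lemma semiDist_eq (x : ℕ → H) (F G : ℝ≥0 → (H →L[ℂ] H)) :
    semiDist x F G = ∑' p, wt p * qq x p F G := rfl

lemma qq_nonneg (x : ℕ → H) (p : ℕ × ℕ × ℕ) (F G : ℝ≥0 → (H →L[ℂ] H)) : 0 ≤ qq x p F G :=
  div_nonneg (supDist_nonneg _ _ _ _ _) (by positivity)

lemma qq_le_two (x : ℕ → H) (p : ℕ × ℕ × ℕ) (F G : ℝ≥0 → (H →L[ℂ] H)) (hF : ∀ t, ‖F t‖ ≤ 1)
    (hG : ∀ t, ‖G t‖ ≤ 1) : qq x p F G ≤ 2 := by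
  unfold qq
  refine div_le_of_le_mul₀ (by positivity) (by norm_num) ?_
  exact supDist_le_iff _ _ _ _ _ _ fun t _ => diff_le F G hF hG t _ _

lemma summable_term (x : ℕ → H) (F G : ℝ≥0 → (H →L[ℂ] H)) (hF : ∀ t, ‖F t‖ ≤ 1)
    (hG : ∀ t, ‖G t‖ ≤ 1) : Summable (fun p => wt p * qq x p F G) := by
  refine Summable.of_nonneg_of_le (fun p => mul_nonneg (wt_pos p).le (qq_nonneg _ _ _ _))
    (fun p => ?_) (summable_wt.mul_right 2)
  exact mul_le_mul_of_nonneg_left (qq_le_two x p F G hF hG) (wt_pos p).le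

lemma term_le (x : ℕ → H) (F G : ℝ≥0 → (H →L[ℂ] H)) (hF : ∀ t, ‖F t‖ ≤ 1)
    (hG : ∀ t, ‖G t‖ ≤ 1) (p : ℕ × ℕ × ℕ) : wt p * qq x p F G ≤ semiDist x F G := by
  rw [semiDist_eq]
  exact (summable_term x F G hF hG).le_tsum p fun q _ =>
    mul_nonneg (wt_pos q).le (qq_nonneg _ _ _ _)

/-- The pseudometric on paths. -/
@[reducible] def pathPM (x : ℕ → H) : PseudoMetricSpace (Path H) where
  dist F G := semiDist x F.F G.F
  dist_self F := by
    change semiDist x F.F F.F = 0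
    unfold semiDist
    simp [supDist_self]
  dist_comm F G := by
    change semiDist x F.F G.F = semiDist x G.F F.F
    unfold semiDist
    simp_rw [supDist_comm F.F G.F]
  dist_triangle F G K := by
    change semiDist x F.F K.F ≤ semiDist x F.F G.F + semiDist x G.F K.F
    rw [semiDist_eq, semiDist_eq, semiDist_eq,
      ← (summable_term x F.F G.F F.norm_le G.norm_le).tsum_add
        (summable_term x G.F K.F G.norm_le K.norm_le)]
    refine Summable.tsum_le_tsum (fun p => ?_) (summable_term x F.F K.F F.norm_le K.norm_le)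
      ((summable_term x F.F G.F F.norm_le G.norm_le).add
        (summable_term x G.F K.F G.norm_le K.norm_le))
    rw [← mul_add]
    refine mul_le_mul_of_nonneg_left ?_ (wt_pos p).le
    unfold qq
    rw [← add_div]
    exact div_le_div_of_nonneg_right
      (supDist_triangle _ _ _ F.norm_le G.norm_le K.norm_le _ _ _) (by positivity)

lemma supDist_mono (F G : ℝ≥0 → (H →L[ℂ] H)) (hF : ∀ t, ‖F t‖ ≤ 1) (hG : ∀ t, ‖G t‖ ≤ 1)
    {m n : ℕ} (hmn : m ≤ n) (x y : H) : supDist F G m x y ≤ supDist F G n x y :=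
  supDist_le_iff _ _ _ _ _ _ fun t ht => le_supDist F G hF hG n x y t
    (ht.trans (by exact_mod_cast hmn))

/-- Small `semiDist` makes every seminorm distance small, uniformly. -/
lemma control (x : ℕ → H) (hx : DenseRange x) (hx0 : ∀ i, x i ≠ 0) (a b : H) (n : ℕ) (ε : ℝ)
    (hε : 0 < ε) : ∃ η > 0, ∀ F G : ℝ≥0 → (H →L[ℂ] H), (∀ t, ‖F t‖ ≤ 1) → (∀ t, ‖G t‖ ≤ 1) →
      semiDist x F G < η → supDist F G n a b ≤ ε := by
  obtain ⟨i, hi⟩ := hx.exists_dist_lt a (show 0 < min 1 (ε / (8 * (‖b‖ + 1))) by positivity)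
  obtain ⟨j, hj⟩ := hx.exists_dist_lt b (show 0 < ε / (8 * (‖a‖ + 1)) by positivity)
  have hni : 0 < ‖x i‖ := norm_pos_iff.2 (hx0 i)
  have hnj : 0 < ‖x j‖ := norm_pos_iff.2 (hx0 j)
  refine ⟨wt (n, i, j) * (ε / 2 / (‖x i‖ * ‖x j‖)), mul_pos (wt_pos _) (by positivity),
    fun F G hF hG hd => ?_⟩
  have h1 : wt (n, i, j) * qq x (n, i, j) F G < wt (n, i, j) * (ε / 2 / (‖x i‖ * ‖x j‖)) :=
    lt_of_le_of_lt (term_le x F G hF hG _) hd
  have h2 : qq x (n, i, j) F G < ε / 2 / (‖x i‖ * ‖x j‖) := lt_of_mul_lt_mul_left h1 (wt_pos _).le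
  have h3 : supDist F G (n + 1) (x i) (x j) < ε / 2 := by
    have h4 : supDist F G (n + 1) (x i) (x j) / (‖x i‖ * ‖x j‖) < ε / 2 / (‖x i‖ * ‖x j‖) := h2
    exact (div_lt_div_iff_of_pos_right (by positivity)).1 h4
  have h4 : supDist F G n (x i) (x j) < ε / 2 :=
    lt_of_le_of_lt (supDist_mono F G hF hG (Nat.le_succ n) _ _) h3
  refine supDist_le_iff _ _ _ _ _ _ fun t ht => ?_
  have h5 := (le_supDist F G hF hG n (x i) (x j) t ht).trans h4.le
  have h6 : ⟪b, (F t - G t) a⟫_ℂ = ⟪x j, (F t - G t) (x i)⟫_ℂ + ⟪b - x j, (F t - G t) (x i)⟫_ℂ +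
      ⟪b, (F t - G t) (a - x i)⟫_ℂ := by
    rw [map_sub, inner_sub_left, inner_sub_right]; ring
  have h7 := diff_le F G hF hG t (x i) (b - x j)
  have h8 := diff_le F G hF hG t (a - x i) b
  have hi' : ‖a - x i‖ < min 1 (ε / (8 * (‖b‖ + 1))) := by rw [← dist_eq_norm]; exact hi
  have hj' : ‖b - x j‖ < ε / (8 * (‖a‖ + 1)) := by rw [← dist_eq_norm]; exact hj
  have hxi : ‖x i‖ ≤ ‖a‖ + 1 := by
    have : ‖x i‖ ≤ ‖a‖ + ‖a - x i‖ := by
      calc ‖x i‖ = ‖a - (a - x i)‖ := by congr 1; abel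
        _ ≤ _ := norm_sub_le _ _
    linarith [lt_of_lt_of_le hi' (min_le_left _ _)]
  have h9 : 2 * (‖x i‖ * ‖b - x j‖) ≤ ε / 4 := by
    have : ‖x i‖ * ‖b - x j‖ ≤ (‖a‖ + 1) * (ε / (8 * (‖a‖ + 1))) :=
      mul_le_mul hxi hj'.le (norm_nonneg _) (by positivity)
    have h10 : (‖a‖ + 1) * (ε / (8 * (‖a‖ + 1))) = ε / 8 := by
      have : ‖a‖ + 1 ≠ 0 := by positivity
      field_simp
    linarith
  have h11 : 2 * (‖a - x i‖ * ‖b‖) ≤ ε / 4 := by
    have : ‖a - x i‖ * ‖b‖ ≤ (ε / (8 * (‖b‖ + 1))) * (‖b‖ + 1) :=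
      mul_le_mul (hi'.le.trans (min_le_right _ _)) (by linarith) (norm_nonneg _) (by positivity)
    have h12 : (ε / (8 * (‖b‖ + 1))) * (‖b‖ + 1) = ε / 8 := by
      have : ‖b‖ + 1 ≠ 0 := by positivity
      field_simp
    linarith
  rw [h6]
  calc _ ≤ ‖⟪x j, (F t - G t) (x i)⟫_ℂ + ⟪b - x j, (F t - G t) (x i)⟫_ℂ‖ +
        ‖⟪b, (F t - G t) (a - x i)⟫_ℂ‖ := norm_add_le _ _
    _ ≤ ‖⟪x j, (F t - G t) (x i)⟫_ℂ‖ + ‖⟪b - x j, (F t - G t) (x i)⟫_ℂ‖ +
        ‖⟪b, (F t - G t) (a - x i)⟫_ℂ‖ := by gcongr; exact norm_add_le _ _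
    _ ≤ ε := by linarith

/-- Convergence of all the seminorm distances implies convergence of the metric. -/
lemma tendsto_semiDist (x : ℕ → H) (F : ℕ → ℝ≥0 → (H →L[ℂ] H)) (G : ℝ≥0 → (H →L[ℂ] H))
    (hF : ∀ k t, ‖F k t‖ ≤ 1) (hG : ∀ t, ‖G t‖ ≤ 1)
    (h : ∀ a b n, Tendsto (fun k => supDist (F k) G n a b) atTop (𝓝 0)) :
    Tendsto (fun k => semiDist x (F k) G) atTop (𝓝 0) := by
  have h1 : Tendsto (fun k => ∑' p, wt p * qq x p (F k) G) atTop
      (𝓝 (∑' _ : ℕ × ℕ × ℕ, (0 : ℝ))) := by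
    refine tendsto_tsum_of_dominated_convergence (bound := fun p => wt p * 2)
      (summable_wt.mul_right 2) (fun p => ?_) (Eventually.of_forall fun k p => ?_)
    · have h2 := ((h (x p.2.1) (x p.2.2) (p.1 + 1)).div_const (‖x p.2.1‖ * ‖x p.2.2‖)).const_mul
        (wt p)
      rw [zero_div, mul_zero] at h2
      exact h2
    · rw [Real.norm_eq_abs, abs_of_nonneg (mul_nonneg (wt_pos p).le (qq_nonneg _ _ _ _))]
      exact mul_le_mul_of_nonneg_left (qq_le_two x p _ _ (hF k) hG) (wt_pos p).le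
  rw [tsum_zero] at h1
  exact h1

section Complete

variable [CompleteSpace H]

/-- The space of paths is complete. -/
lemma path_complete (x : ℕ → H) (hx : DenseRange x) (hx0 : ∀ i, x i ≠ 0) :
    @CompleteSpace (Path H) (pathPM x).toUniformSpace := by
  letI := pathPM x
  refine Metric.complete_of_cauchySeq_tendsto (fun u hu => ?_)
  rw [Metric.cauchySeq_iff] at hu
  have hc : ∀ a b n, ∀ ε > 0, ∃ K, ∀ k ≥ K, ∀ l ≥ K, supDist (u k).F (u l).F n a b ≤ ε := by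
    intro a b n ε hε
    obtain ⟨η, hη, hη2⟩ := control x hx hx0 a b n ε hε
    obtain ⟨K, hK⟩ := hu η hη
    exact ⟨K, fun k hk l hl => hη2 _ _ (u k).norm_le (u l).norm_le (hK k hk l hl)⟩
  -- pointwise limits
  have hlim : ∀ (t : ℝ≥0) (b a : H), ∃ z : ℂ, Tendsto (fun k => ⟪b, (u k).F t a⟫_ℂ) atTop (𝓝 z) := by
    intro t b a
    refine cauchySeq_tendsto_of_complete ?_
    rw [Metric.cauchySeq_iff]
    intro ε hε
    obtain ⟨n, hn⟩ := exists_nat_ge t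
    obtain ⟨K, hK⟩ := hc a b n (ε / 2) (by positivity)
    refine ⟨K, fun k hk l hl => ?_⟩
    rw [dist_eq_norm]
    have h1 := le_supDist (u k).F (u l).F (u k).norm_le (u l).norm_le n a b t hn
    have h2 : ⟪b, (u k).F t a⟫_ℂ - ⟪b, (u l).F t a⟫_ℂ = ⟪b, ((u k).F t - (u l).F t) a⟫_ℂ := by
      rw [sub_apply, inner_sub_right]
    rw [h2]
    linarith [hK k hk l hl]
  choose L hL using hlim
  have hLle : ∀ t b a, ‖L t b a‖ ≤ ‖b‖ * ‖a‖ := by
    intro t b a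
    refine le_of_tendsto' (hL t b a).norm (fun k => ?_)
    refine (norm_inner_le_norm _ _).trans (mul_le_mul_of_nonneg_left ?_ (norm_nonneg _))
    refine ((u k).F t).le_of_opNorm_le ((u k).norm_le t) a |>.trans (by rw [one_mul])
  let B : ℝ≥0 → (H →L⋆[ℂ] H →L[ℂ] ℂ) := fun t =>
    LinearMap.mkContinuous₂ (LinearMap.mk₂'ₛₗ (starRingEnd ℂ) (RingHom.id ℂ) (fun b a => L t b a)
      (fun b b' a => tendsto_nhds_unique (hL t (b + b') a)
        (((hL t b a).add (hL t b' a)).congr fun k => by rw [inner_add_left]))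
      (fun c b a => tendsto_nhds_unique (hL t (c • b) a)
        (((hL t b a).const_mul ((starRingEnd ℂ) c)).congr fun k => by rw [inner_smul_left]))
      (fun b a a' => tendsto_nhds_unique (hL t b (a + a'))
        (((hL t b a).add (hL t b a')).congr fun k => by rw [map_add, inner_add_right]))
      (fun c b a => tendsto_nhds_unique (hL t b (c • a))
        (((hL t b a).const_mul c).congr fun k => by
          rw [map_smul, inner_smul_right]))) 1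
      (fun b a => by
        change ‖L t b a‖ ≤ 1 * ‖b‖ * ‖a‖
        rw [one_mul]; exact hLle t b a)
  have hB : ∀ t b a, B t b a = L t b a := fun t b a => rfl
  let G : ℝ≥0 → (H →L[ℂ] H) := fun t =>
    ContinuousLinearMap.adjoint (InnerProductSpace.continuousLinearMapOfBilin (B t))
  have hG : ∀ t b a, ⟪b, G t a⟫_ℂ = L t b a := by
    intro t b a
    rw [ContinuousLinearMap.adjoint_inner_right,
      InnerProductSpace.continuousLinearMapOfBilin_apply, hB]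
  have hGn : ∀ t, ‖G t‖ ≤ 1 := by
    intro t
    refine ContinuousLinearMap.opNorm_le_bound _ zero_le_one (fun a => ?_)
    rw [one_mul]
    have h1 := hLle t (G t a) a
    rw [← hG, inner_self_eq_norm_sq_to_K] at h1
    have h2 : ‖G t a‖ * ‖G t a‖ ≤ ‖G t a‖ * ‖a‖ := by
      refine le_trans (le_of_eq ?_) h1
      simp [sq]
    by_cases h0 : ‖G t a‖ = 0
    · rw [h0]; exact norm_nonneg _
    · exact le_of_mul_le_mul_left h2 (lt_of_le_of_ne (norm_nonneg _) (Ne.symm h0))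
  -- uniform closeness
  have hclose : ∀ a b n, ∀ ε > 0, ∃ K, ∀ k ≥ K, supDist (u k).F G n a b ≤ ε := by
    intro a b n ε hε
    obtain ⟨K, hK⟩ := hc a b n ε hε
    refine ⟨K, fun k hk => supDist_le_iff _ _ _ _ _ _ fun t ht => ?_⟩
    have h1 : Tendsto (fun l => ‖⟪b, ((u k).F t - (u l).F t) a⟫_ℂ‖) atTop
        (𝓝 ‖⟪b, ((u k).F t - G t) a⟫_ℂ‖) := by
      refine Tendsto.norm ?_
      have h2 := (hL t b a).const_sub (⟪b, (u k).F t a⟫_ℂ)
      rw [← hG] at h2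
      simp_rw [sub_apply, inner_sub_right]
      exact h2
    refine le_of_tendsto h1 (eventually_atTop.2 ⟨K, fun l hl => ?_⟩)
    exact (le_supDist _ _ (u k).norm_le (u l).norm_le n a b t ht).trans (hK k hk l hl)
  let g : Path H :=
    { F := G
      norm_le := hGn
      zero := by
        ext a
        refine ext_inner_left ℂ (fun b => ?_)
        rw [hG]
        refine tendsto_nhds_unique (hL 0 b a) ?_
        refine tendsto_const_nhds.congr fun k => ?_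
        rw [(u k).zero]
      cont := by
        intro a b
        rw [continuous_iff_continuousAt]
        intro t₀
        rw [ContinuousAt, Metric.tendsto_nhds]
        intro ε hε
        obtain ⟨n, hn⟩ := exists_nat_gt t₀
        obtain ⟨K, hK⟩ := hclose a b n (ε / 4) (by positivity)
        have hK' := hK K le_rfl
        have h1 := ((u K).cont a b).continuousAt (x := t₀)
        rw [ContinuousAt, Metric.tendsto_nhds] at h1
        filter_upwards [h1 (ε / 4) (by positivity), gt_mem_nhds hn] with t ht ht'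
        have h2 := (le_supDist _ _ (u K).norm_le hGn n a b t ht'.le).trans hK'
        have h3 := (le_supDist _ _ (u K).norm_le hGn n a b t₀ hn.le).trans hK'
        rw [dist_eq_norm] at ht ⊢
        rw [sub_apply, inner_sub_right] at h2 h3
        have h4 : ⟪b, G t a⟫_ℂ - ⟪b, G t₀ a⟫_ℂ =
            -(⟪b, (u K).F t a⟫_ℂ - ⟪b, G t a⟫_ℂ) + (⟪b, (u K).F t a⟫_ℂ - ⟪b, (u K).F t₀ a⟫_ℂ) +
              (⟪b, (u K).F t₀ a⟫_ℂ - ⟪b, G t₀ a⟫_ℂ) := by ring
        rw [h4]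
        calc _ ≤ ‖-(⟪b, (u K).F t a⟫_ℂ - ⟪b, G t a⟫_ℂ) +
              (⟪b, (u K).F t a⟫_ℂ - ⟪b, (u K).F t₀ a⟫_ℂ)‖ +
              ‖⟪b, (u K).F t₀ a⟫_ℂ - ⟪b, G t₀ a⟫_ℂ‖ := norm_add_le _ _
          _ ≤ ‖-(⟪b, (u K).F t a⟫_ℂ - ⟪b, G t a⟫_ℂ)‖ +
              ‖⟪b, (u K).F t a⟫_ℂ - ⟪b, (u K).F t₀ a⟫_ℂ‖ +
              ‖⟪b, (u K).F t₀ a⟫_ℂ - ⟪b, G t₀ a⟫_ℂ‖ := by gcongr; exact norm_add_le _ _
          _ < ε := by rw [norm_neg]; linarith }
  refine ⟨g, ?_⟩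
  rw [tendsto_iff_dist_tendsto_zero]
  refine tendsto_semiDist x (fun k => (u k).F) G (fun k => (u k).norm_le) hGn (fun a b n => ?_)
  rw [Metric.tendsto_atTop]
  intro ε hε
  obtain ⟨K, hK⟩ := hclose a b n (ε / 2) (by positivity)
  refine ⟨K, fun k hk => ?_⟩
  rw [Real.dist_eq, sub_zero, abs_of_nonneg (supDist_nonneg _ _ _ _ _)]
  linarith [hK k hk]

end Complete

end

end Pool.Agent.V1195.SemiBaire
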