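import Mathlib
import Pool.Agent.V1195.AccNd
import Pool.Agent.TH165.LSC.Nu
import Pool.Agent.TH165.LSC.P3

/-!
# Lower semicontinuity of minimal log discrepancies along the toric strata, for triples
-/

set_option autoImplicit false
set_option linter.unusedSectionVars false

namespace Pool.Agent.V1195.Lsc

open Pool.Agent.H436R3.Fol Pool.Agent.H436R3.KT Pool.Agent.W497.Mld Pool.Agent.TH165.ACC
  Pool.Agent.TH165.LSC Pool.Agent.V1195.Acc MvPolynomial

variable {n d : ℕ} {K : Type} [Field K] [Algebra ℂ K]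
  [Algebra (MvPolynomial (Fin n) ℂ) K] [IsFractionRing (MvPolynomial (Fin n) ℂ) K]
  [IsScalarTower ℂ (MvPolynomial (Fin n) ℂ) K]

/-- the set of the functions on `X` which vanish along the centre of `v` is the ideal `J` -/
def IsCentre {X : AffVar K} (v : DVal K) (J : Ideal X.R) : Prop := ∀ f : X.R, f ∈ J ↔ v.Pos (f : K)

/-- The log discrepancy is subadditive along rays: adding the rays `E i`, `i ∈ I`, to the direction
`k • tv v'` of a monomial valuation changes the log discrepancy by at most the number of rays. -/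
theorem lin_le {g : ToricGerm n K} {B : EffDiv g.X} (e : LocEq B g.P) {v' v'' : DVal K}
    (hv' : IsMonomial n v') (hv'' : IsMonomial n v'') {k k'' : ℤ} (hk : 0 ≤ k) (hk'' : 0 ≤ k'')
    (hin : g.InCone (k • tv v')) (I : Finset (Fin g.N))
    (h : k'' • (tv v'' : Fin n → ℤ) = k • tv v' + ∑ i ∈ I, g.E i) :
    (k'' : ℝ) * (-∑ j, e.ρ j * (v''.ord (e.g j) : ℝ)) ≤
      (k : ℝ) * (-∑ j, e.ρ j * (v'.ord (e.g j) : ℝ)) + I.card := by
  classical
  choose vE hvE htE using fun i => exists_mon (K := K) (g.prim i)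
  obtain ⟨F, c, hFp, hFd, hc⟩ := fact (n := n) e.ρ e.g e.ne
  have h1 : ∀ i, -∑ p ∈ F, c p * ((vE i).ord (jo (Fin n) K p) : ℝ) ≤ 1 := by
    intro i
    obtain ⟨b, hb, h2⟩ := e.eq (vE i) (ToricGerm.onAt_E (hvE i) (htE i))
    have h3 : b = -1 := hb.unique (can_mon g.e g.hT (hvE i))
    rw [← hc, ← h2, h3]
    have := mult_nonneg B (vE i)
    push_cast
    linarith
  have h2 : ∀ p ∈ F, Thr g p → 0 ≤ c p := by
    rintro p hp ⟨hpp, hcv, hon⟩
    obtain ⟨b, hb, h3⟩ := e.eq _ hon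
    have hL := g.local_prime hpp hcv
    have h4 : b = 0 := hb.unique (can_unit g.e g.hT (by rw [← g.hR]; exact hL) hcv)
    have h5 : ∑ q ∈ F, c q * ((valP K p hpp).ord (jo (Fin n) K q) : ℝ) = c p := by
      rw [Finset.sum_eq_single p]
      · rw [valP_self]; push_cast; ring
      · intro q hq hqp
        rw [valP_other hpp (hFp q hq).ne_zero fun h => hqp (hFd p hp q hq h).symm]
        push_cast; ring
      · intro h; exact absurd hp h
    rw [hc, h5, h4, Int.cast_zero, zero_add] at h3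
    rw [← h3]
    exact mult_nonneg B _
  have h3 : ∀ p ∈ F, c p * ((k : ℝ) * (v'.ord (jo (Fin n) K p) : ℝ) +
      ∑ i ∈ I, ((vE i).ord (jo (Fin n) K p) : ℝ)) ≤
      c p * ((k'' : ℝ) * (v''.ord (jo (Fin n) K p) : ℝ)) := by
    intro p hp
    have hp0 := (hFp p hp).ne_zero
    have e1 : nu (k • (tv v' : Fin n → ℤ)) p = k * v'.ord (jo (Fin n) K p) :=
      nu_mon hv' hk rfl hp0
    have e2 : nu (k'' • (tv v'' : Fin n → ℤ)) p = k'' * v''.ord (jo (Fin n) K p) :=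
      nu_mon hv'' hk'' rfl hp0
    have e3 : ∀ i, nu (g.E i) p = (vE i).ord (jo (Fin n) K p) := by
      intro i
      rw [nu_mon (hvE i) zero_le_one (by rw [one_smul, htE]) hp0, one_mul]
    have e4 : ((nu (k • (tv v' : Fin n → ℤ)) p + ∑ i ∈ I, nu (g.E i) p : ℤ) : ℝ) =
        (k : ℝ) * (v'.ord (jo (Fin n) K p) : ℝ) +
          ∑ i ∈ I, ((vE i).ord (jo (Fin n) K p) : ℝ) := by
      rw [e1]
      push_cast
      congr 1
      exact Finset.sum_congr rfl fun i _ => by rw [e3]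
    have e5 : ((nu (k'' • (tv v'' : Fin n → ℤ)) p : ℤ) : ℝ) =
        (k'' : ℝ) * (v''.ord (jo (Fin n) K p) : ℝ) := by
      rw [e2]; push_cast; rfl
    rw [← e4, ← e5, h]
    by_cases h4 : Thr g p
    · refine mul_le_mul_of_nonneg_left ?_ (h2 p hp h4)
      exact_mod_cast nu_super _ I g.E hp0
    · rw [(not_thr (hFp p hp) h4).2 _ I hin]
  have h4 := Finset.sum_le_sum h3
  have h5 : ∑ p ∈ F, c p * ((k : ℝ) * (v'.ord (jo (Fin n) K p) : ℝ) +
      ∑ i ∈ I, ((vE i).ord (jo (Fin n) K p) : ℝ)) =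
      (k : ℝ) * ∑ p ∈ F, c p * (v'.ord (jo (Fin n) K p) : ℝ) +
        ∑ i ∈ I, ∑ p ∈ F, c p * ((vE i).ord (jo (Fin n) K p) : ℝ) := by
    rw [Finset.mul_sum, Finset.sum_comm, ← Finset.sum_add_distrib]
    refine Finset.sum_congr rfl fun p _ => ?_
    rw [mul_add, Finset.mul_sum]
    ring
  have h6 : ∑ p ∈ F, c p * ((k'' : ℝ) * (v''.ord (jo (Fin n) K p) : ℝ)) =
      (k'' : ℝ) * ∑ p ∈ F, c p * (v''.ord (jo (Fin n) K p) : ℝ) := by
    rw [Finset.mul_sum]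
    exact Finset.sum_congr rfl fun p _ => by ring
  have h7 : -∑ i ∈ I, ∑ p ∈ F, c p * ((vE i).ord (jo (Fin n) K p) : ℝ) ≤ I.card := by
    rw [← Finset.sum_neg_distrib]
    calc ∑ i ∈ I, -∑ p ∈ F, c p * ((vE i).ord (jo (Fin n) K p) : ℝ) ≤ ∑ _i ∈ I, (1 : ℝ) :=
          Finset.sum_le_sum fun i _ => h1 i
      _ = I.card := by simp
  rw [h5, h6] at h4
  rw [hc, hc]
  linarith

/-- the order of an ideal increases when rays are added -/
theorem ideal_le {g : ToricGerm n K} {J : Ideal g.X.R} {v' v'' : DVal K}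
    (hv' : IsMonomial n v') (hv'' : IsMonomial n v'') {k k'' : ℤ} (hk : 0 ≤ k) (hk'' : 0 ≤ k'')
    (I : Finset (Fin g.N)) (h : k'' • (tv v'' : Fin n → ℤ) = k • tv v' + ∑ i ∈ I, g.E i)
    {a a'' : ℤ} (ha : IsOrdOf v' J a) (ha'' : IsOrdOf v'' J a'') : k * a ≤ k'' * a'' := by
  obtain ⟨⟨f, hfJ, hf, rfl⟩, -⟩ := ha''
  have h1 : a ≤ v'.ord (f : K) := ha.2 ⟨f, hfJ, hf, rfl⟩
  refine (mul_le_mul_of_nonneg_left h1 hk).trans ?_
  obtain ⟨M, q, e1, e2, e3⟩ := g.rep f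
  obtain ⟨⟨s, hs, h2⟩, -⟩ := hv'' q (h_ne hf e1)
  have h3 := (hv' q (h_ne hf e1)).2 s hs
  rw [ord_rep hf e1, ord_rep hf e1, h2]
  have h4 : k'' * (pr (ex s) (tv v'') - pr (ex M) (tv v'')) =
      k * (pr (ex s) (tv v') - pr (ex M) (tv v')) + ∑ i ∈ I, pr (ex s - ex M) (g.E i) := by
    rw [← pr_sub, ← pr_sub, ← pr_smul_right, ← pr_smul_right, h, pr_add_right, pr_sum_right]
  rw [h4]
  have h5 : 0 ≤ ∑ i ∈ I, pr (ex s - ex M) (g.E i) := Finset.sum_nonneg fun i _ => e3 s hs i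
  have h6 : k * (v'.ord (jo (Fin n) K q) - pr (ex M) (tv v')) ≤
      k * (pr (ex s) (tv v') - pr (ex M) (tv v')) :=
    mul_le_mul_of_nonneg_left (by linarith) hk
  linarith

/-- The inequality for the direction of a monomial valuation. -/
theorem key_le {g : ToricGerm n K} {B : EffDiv g.X} {e : LocEq B g.P} {q : ℕ}
    {I : Fin q → Ideal g.X.R} {cc : Fin q → ℝ} (hI : ∀ j, I j ≠ ⊥ ∧ 0 ≤ cc j) {m : ℝ}
    (hm0 : 0 ≤ m) (hm : IsTriMld e I cc m) (hn : 0 < n) {v' : DVal K} (hv' : IsMonomial n v')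
    {k : ℤ} (hk : 0 ≤ k) (hin : g.InCone (k • tv v')) {a' : ℝ} (ha' : IsTriDisc e I cc v' a')
    (S : Finset (Fin g.N))
    (hS : ∀ x ∈ Cn g.E, x ≠ 0 → pr x (k • tv v') = 0 → ∃ i ∈ S, 0 < pr x (g.E i)) :
    m ≤ (k : ℝ) * a' + S.card := by
  have hint : g.Inter (k • tv v' + ∑ i ∈ S, g.E i) := by
    intro x hx hx0
    rw [pr_add_right, pr_sum_right]
    have h1 : 0 ≤ pr x (k • tv v') := hin x hx
    have h2 : 0 ≤ ∑ i ∈ S, pr x (g.E i) := Finset.sum_nonneg fun i _ => hx i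
    rcases h1.lt_or_eq with h3 | h3
    · omega
    · obtain ⟨i, hi, h4⟩ := hS x hx hx0 h3.symm
      have h5 : 0 < ∑ i ∈ S, pr x (g.E i) := Finset.sum_pos' (fun i _ => hx i) ⟨i, hi, h4⟩
      omega
  obtain ⟨k'', u'', hk'', hu'', htv''⟩ := exists_prim (hint.ne_zero hn)
  obtain ⟨v'', hv'', rfl⟩ := exists_mon (K := K) hu''
  have hint'' : g.Inter (tv v'') := by
    intro r hr hr0
    have h1 := hint r hr hr0
    rw [htv'', pr_smul_right] at h1
    exact (pos_iff_pos_of_mul_pos h1).1 hk''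
  have hov'' := ToricGerm.overGerm hv'' hint''
  obtain ⟨t, o, hlt, ho, rfl⟩ := ha'
  choose o'' ho'' using fun j => exists_ordOf hov'' (hI j).1
  have h1 := lin_le e hv' hv'' hk hk''.le hin S htv''.symm
  have h2 : ∀ j, k * o j ≤ k'' * o'' j := fun j =>
    ideal_le hv' hv'' hk hk''.le S htv''.symm (ho j) (ho'' j)
  have h3 : m ≤ (-∑ j, e.ρ j * (v''.ord (e.g j) : ℝ)) - ∑ j, cc j * (o'' j : ℝ) :=
    hm.2 ⟨v'', hov'', _, o'', (logDisc_mon hv'').2 rfl, ho'', rfl⟩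
  have h4 : (k : ℝ) * ∑ j, cc j * (o j : ℝ) ≤ (k'' : ℝ) * ∑ j, cc j * (o'' j : ℝ) := by
    rw [Finset.mul_sum, Finset.mul_sum]
    refine Finset.sum_le_sum fun j _ => ?_
    have h5 : (k : ℝ) * (o j : ℝ) ≤ (k'' : ℝ) * (o'' j : ℝ) := by exact_mod_cast h2 j
    have h6 := mul_le_mul_of_nonneg_left h5 (hI j).2
    linarith
  rw [(logDisc_mon hv').1 hlt]
  have h5 : (1 : ℝ) ≤ k'' := by exact_mod_cast hk''
  have h6 : m ≤ (k'' : ℝ) * ((-∑ j, e.ρ j * (v''.ord (e.g j) : ℝ)) -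
      ∑ j, cc j * (o'' j : ℝ)) := by nlinarith
  rw [mul_sub] at h6
  rw [mul_sub]
  linarith

end Pool.Agent.V1195.Lsc
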