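import Mathlib

/-!
# Generically smooth relations between the coordinates of an affine variety
-/

set_option autoImplicit false

namespace Pool.Agent.V1195.Lsc

open MvPolynomial

variable {c : ℕ}

theorem pderiv_comm' (i j : Fin c) (F : MvPolynomial (Fin c) ℂ) :
    pderiv i (pderiv j F) = pderiv j (pderiv i F) := by
  classical
  ext s
  rw [coeff_pderiv, coeff_pderiv, coeff_pderiv, coeff_pderiv, add_right_comm]
  by_cases hij : i = j
  · subst hij; rfl
  · simp only [Finsupp.add_apply, Finsupp.single_eq_of_ne hij,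
      Finsupp.single_eq_of_ne (Ne.symm hij)]
    ring_nf

theorem coeff_eq_zero_of_pderiv {j : Fin c} {F : MvPolynomial (Fin c) ℂ} (h : pderiv j F = 0)
    {s : Fin c →₀ ℕ} (hs : s j ≠ 0) : F.coeff s = 0 := by
  classical
  have h1 : s - Finsupp.single j 1 + Finsupp.single j 1 = s := by
    ext i
    by_cases hi : i = j
    · subst hi
      simp only [Finsupp.add_apply, Finsupp.tsub_apply, Finsupp.single_eq_same]
      omega
    · simp [Ne.symm hi]
  have h2 := congrArg (coeff (s - Finsupp.single j 1)) h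
  rw [coeff_pderiv, h1, coeff_zero] at h2
  rcases mul_eq_zero.1 h2 with h3 | h3
  · exact h3
  · exfalso
    have h4 : ((((s - Finsupp.single j 1 : Fin c →₀ ℕ) j + 1 : ℕ)) : ℂ) = 0 := by
      push_cast
      exact h3
    exact absurd (Nat.cast_eq_zero.1 h4) (Nat.succ_ne_zero _)

theorem notMem_vars_of_pderiv {j : Fin c} {F : MvPolynomial (Fin c) ℂ} (h : pderiv j F = 0) :
    j ∉ F.vars := by
  intro hj
  obtain ⟨s, hs, hsj⟩ := (mem_vars_iff_mem_support j).1 hj
  exact (mem_support_iff.1 hs) (coeff_eq_zero_of_pderiv h (Finsupp.mem_support_iff.1 hsj))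

theorem totalDegree_pderiv_lt {j : Fin c} {F : MvPolynomial (Fin c) ℂ} (h : pderiv j F ≠ 0) :
    (pderiv j F).totalDegree < F.totalDegree := by
  classical
  have key : ∀ s ∈ (pderiv j F).support, (s.sum fun _ e => e) + 1 ≤ F.totalDegree := by
    intro s hs
    rw [mem_support_iff, coeff_pderiv] at hs
    have h1 : s + Finsupp.single j 1 ∈ F.support := by
      rw [mem_support_iff]
      exact left_ne_zero_of_mul hs
    have h2 := le_totalDegree h1
    rwa [Finsupp.sum_add_index' (fun _ => rfl) (fun _ _ _ => rfl),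
      Finsupp.sum_single_index rfl] at h2
  obtain ⟨s, hs⟩ : (pderiv j F).support.Nonempty := by
    rwa [Finset.nonempty_iff_ne_empty, Ne, support_eq_empty]
  have h0 : 0 < F.totalDegree := by
    have := key s hs
    omega
  rw [totalDegree]
  exact (Finset.sup_lt_iff h0).2 fun s hs => by
    have := key s hs
    omega

/-- There are at most `trdeg` coordinates such that every other coordinate `b` satisfies an equation
over them with a derivative in the direction `b` which does not vanish identically. -/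
theorem exists_rel {κ : Type} [CommRing κ] [IsDomain κ] [Algebra ℂ κ] (y : Fin c → κ) {z : ℕ}
    (hz : Algebra.trdeg ℂ κ = z) :
    ∃ T : Finset (Fin c), T.card ≤ z ∧ ∀ b ∉ T, ∃ F : MvPolynomial (Fin c) ℂ, aeval y F = 0 ∧
      aeval y (pderiv b F) ≠ 0 ∧ ∀ j, j ∉ T → j ≠ b → pderiv j F = 0 := by
  classical
  let P : Finset (Fin c) → Prop := fun T => AlgebraicIndependent ℂ fun i : T => y i
  have h0 : P ∅ := algebraicIndependent_empty_type
  obtain ⟨T, hT, hmax⟩ := Finset.exists_max_image (Finset.univ.filter P) Finset.card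
    ⟨∅, Finset.mem_filter.2 ⟨Finset.mem_univ _, h0⟩⟩
  have hPT : P T := (Finset.mem_filter.1 hT).2
  refine ⟨T, ?_, fun b hb => ?_⟩
  · have h1 := AlgebraicIndependent.lift_cardinalMk_le_trdeg hPT
    rw [hz] at h1
    simpa using h1
  have hnP : ¬ P (insert b T) := by
    intro h1
    have h2 := hmax _ (Finset.mem_filter.2 ⟨Finset.mem_univ _, h1⟩)
    rw [Finset.card_insert_of_notMem hb] at h2
    omega
  let Q : MvPolynomial (Fin c) ℂ → Prop := fun F => F ≠ 0 ∧ aeval y F = 0 ∧
    ∀ j, j ∉ T → j ≠ b → pderiv j F = 0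
  obtain ⟨F1, hF1⟩ : ∃ F, Q F := by
    have h1 : ¬ ∀ p : MvPolynomial (insert b T : Finset (Fin c)) ℂ,
        aeval (fun i : (insert b T : Finset (Fin c)) => y i) p = 0 → p = 0 := fun h2 =>
      hnP (algebraicIndependent_iff.2 h2)
    push Not at h1
    obtain ⟨p, hp, hp0⟩ := h1
    refine ⟨rename Subtype.val p, ?_, ?_, ?_⟩
    · intro h2
      exact hp0 (rename_injective _ Subtype.val_injective (by rw [h2, map_zero]))
    · rw [aeval_rename]
      exact hp
    · intro j hj hjb
      apply pderiv_eq_zero_of_notMem_vars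
      intro h2
      obtain ⟨i, -, hi⟩ := Finset.mem_image.1 (vars_rename _ p h2)
      rcases Finset.mem_insert.1 i.2 with h3 | h3
      · exact hjb (by rw [← hi, h3])
      · exact hj (by rw [← hi]; exact h3)
  obtain ⟨F, hF, hmin⟩ : ∃ F, Q F ∧ ∀ F', Q F' → F.totalDegree ≤ F'.totalDegree := by
    have h1 : ∃ d, ∃ F, Q F ∧ F.totalDegree = d := ⟨_, F1, hF1, rfl⟩
    obtain ⟨F, hF, hd⟩ := Nat.find_spec h1
    exact ⟨F, hF, fun F' hF' => by rw [hd]; exact Nat.find_min' h1 ⟨F', hF', rfl⟩⟩
  refine ⟨F, hF.2.1, ?_, hF.2.2⟩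
  intro h1
  have h2 : pderiv b F = 0 := by
    by_contra h3
    have h4 := hmin (pderiv b F) ⟨h3, h1, fun j hj hjb => by
      rw [pderiv_comm', hF.2.2 j hj hjb, map_zero]⟩
    have h5 := totalDegree_pderiv_lt h3
    omega
  have h3 : (F.vars : Set (Fin c)) ⊆ Set.range (Subtype.val : T → Fin c) := by
    intro j hj
    rw [Subtype.range_coe]
    by_contra h4
    by_cases h5 : j = b
    · subst h5
      exact notMem_vars_of_pderiv h2 hj
    · exact notMem_vars_of_pderiv (hF.2.2 j h4 h5) hj
  obtain ⟨p, hp⟩ := exists_rename_eq_of_vars_subset_range F (Subtype.val : T → Fin c)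
    Subtype.val_injective h3
  have h4 : aeval (fun i : T => y i) p = 0 := by
    have h5 := hF.2.1
    rw [← hp, aeval_rename] at h5
    exact h5
  have h5 := algebraicIndependent_iff.1 hPT p h4
  rw [h5, map_zero] at hp
  exact hF.1 hp.symm

end Pool.Agent.V1195.Lsc
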