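import Mathlib
import Pool.Agent.V1195.AccTri

/-!
# The dimension of the centre of a monomial valuation
-/

set_option autoImplicit false
set_option linter.unusedSectionVars false

namespace Pool.Agent.V1195.Lsc

open Pool.Agent.H436R3.Fol Pool.Agent.H436R3.KT Pool.Agent.W497.Mld Pool.Agent.TH165.ACC
  Pool.Agent.V1195.Acc MvPolynomial

variable {n d : ℕ} {K : Type} [Field K] [Algebra ℂ K]
  [Algebra (MvPolynomial (Fin n) ℂ) K] [IsFractionRing (MvPolynomial (Fin n) ℂ) K]
  [IsScalarTower ℂ (MvPolynomial (Fin n) ℂ) K]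

theorem ym_nsmul (k : ℕ) (x : Fin n → ℤ) : ym K ((k : ℤ) • x) = ym K x ^ k := by
  induction k with
  | zero => rw [Nat.cast_zero, zero_smul, ym_zero, pow_zero]
  | succ k ih => rw [Nat.cast_succ, add_smul, one_smul, ym_add, ih, pow_succ]

theorem ym_sum {ι : Type*} (s : Finset ι) (x : ι → Fin n → ℤ) :
    ym K (∑ i ∈ s, x i) = ∏ i ∈ s, ym K (x i) := by
  classical
  induction s using Finset.induction_on with
  | empty => rw [Finset.sum_empty, ym_zero, Finset.prod_empty]
  | insert b s hb ih => rw [Finset.sum_insert hb, ym_add, ih, Finset.prod_insert hb]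

/-- a polynomial in independent Laurent monomials, as a Laurent polynomial -/
theorem aeval_ym {c : ℕ} {m : Fin c → Fin n → ℤ} (hm : LinearIndependent ℤ m)
    {p : MvPolynomial (Fin c) ℂ} (hp0 : p ≠ 0) :
    ∃ (M : Fin n →₀ ℕ) (h : MvPolynomial (Fin n) ℂ), h ≠ 0 ∧
      jo (Fin n) K h = aeval (fun i => ym K (m i)) p * ym K (ex M) ∧
      ∀ t ∈ h.support, ∃ α : Fin c →₀ ℕ, ex t = (∑ i, (α i : ℤ) • m i) + ex M := by
  classical
  let E : (Fin c →₀ ℕ) → Fin n → ℤ := fun α => ∑ i, (α i : ℤ) • m i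
  have hE : ∀ α, ym K (E α) = ∏ i, ym K (m i) ^ α i := by
    intro α
    rw [ym_sum]
    exact Finset.prod_congr rfl fun i _ => ym_nsmul _ _
  let M : Fin n →₀ ℕ := Finsupp.equivFunOnFinite.symm fun k =>
    ∑ α ∈ p.support, (E α k).natAbs
  let s : (Fin c →₀ ℕ) → (Fin n →₀ ℕ) := fun α =>
    Finsupp.equivFunOnFinite.symm fun k => (E α k + ex M k).toNat
  have hs : ∀ α ∈ p.support, ex (s α) = E α + ex M := by
    intro α hα
    funext k
    have h2 : (E α k).natAbs ≤ ∑ α ∈ p.support, (E α k).natAbs :=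
      Finset.single_le_sum (f := fun α => (E α k).natAbs) (fun _ _ => Nat.zero_le _) hα
    have h3 : ex M k = ((∑ α ∈ p.support, (E α k).natAbs : ℕ) : ℤ) := rfl
    have h4 : ex (s α) k = (((E α k + ex M k).toNat : ℕ) : ℤ) := rfl
    rw [h4, Pi.add_apply, Int.toNat_of_nonneg]
    rw [h3]
    omega
  have hinj : ∀ α ∈ p.support, ∀ β ∈ p.support, s α = s β → α = β := by
    intro α hα β hβ h2
    have h3 : E α = E β := by
      have h4 := hs α hα
      rw [h2, hs β hβ] at h4
      exact (add_right_cancel h4).symm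
    have h4 : ∑ i, ((α i : ℤ) - (β i : ℤ)) • m i = 0 := by
      simp only [sub_smul, Finset.sum_sub_distrib]
      exact sub_eq_zero.2 h3
    ext i
    have h5 := Fintype.linearIndependent_iff.1 hm _ h4 i
    omega
  refine ⟨M, ∑ α ∈ p.support, monomial (s α) (p.coeff α), ?_, ?_, ?_⟩
  · obtain ⟨α, hα⟩ : p.support.Nonempty := by
      rwa [Finset.nonempty_iff_ne_empty, Ne, support_eq_empty]
    intro h2
    have h3 : (∑ α ∈ p.support, monomial (s α) (p.coeff α)).coeff (s α) = p.coeff α := by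
      rw [coeff_sum, Finset.sum_eq_single α]
      · rw [coeff_monomial, if_pos rfl]
      · intro β hβ hne
        rw [coeff_monomial, if_neg fun h4 => hne (hinj β hβ α hα h4)]
      · intro h4; exact absurd hα h4
    rw [h2, coeff_zero] at h3
    exact (mem_support_iff.1 hα) h3.symm
  · have h2 : aeval (fun i => ym K (m i)) p =
        ∑ α ∈ p.support, algebraMap ℂ K (p.coeff α) * ym K (E α) := by
      rw [aeval_def, eval₂_eq']
      exact Finset.sum_congr rfl fun α _ => by rw [hE]
    rw [h2, map_sum, Finset.sum_mul]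
    refine Finset.sum_congr rfl fun α hα => ?_
    rw [jo_monomial, hs α hα, ym_add, mul_assoc]
  · intro t ht
    have h3 := support_sum (s := p.support) (f := fun α => monomial (s α) (p.coeff α)) ht
    rw [Finset.mem_biUnion] at h3
    obtain ⟨α, hα, h4⟩ := h3
    have h5 : t = s α := by simpa using support_monomial_subset h4
    exact ⟨α, by rw [h5]; exact hs α hα⟩

theorem aeval_ym_ne {c : ℕ} {m : Fin c → Fin n → ℤ} (hm : LinearIndependent ℤ m)
    {p : MvPolynomial (Fin c) ℂ} (hp0 : p ≠ 0) : aeval (fun i => ym K (m i)) p ≠ 0 := by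
  obtain ⟨M, h, hh, hjo, -⟩ := aeval_ym (K := K) hm hp0
  intro h3
  rw [h3, zero_mul] at hjo
  exact jo_ne hh hjo

theorem pr_comb {c : ℕ} (m : Fin c → Fin n → ℤ) (u : Fin n → ℤ) (h : ∀ i, pr (m i) u = 0)
    (α : Fin c → ℤ) : pr (∑ i, α i • m i) u = 0 := by
  classical
  have h2 : ∀ s : Finset (Fin c), pr (∑ i ∈ s, α i • m i) u = 0 := by
    intro s
    induction s using Finset.induction_on with
    | empty => simp [pr_zero]
    | insert b s hb ih => rw [Finset.sum_insert hb, pr_add, ih, pr_smul, h, mul_zero, add_zero]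
  exact h2 _

/-- independent monomials of order zero are algebraically independent modulo the centre -/
theorem indep_mod {g : ToricGerm n K} {v : DVal K} (hv : IsMonomial n v) {c : ℕ}
    {m : Fin c → Fin n → ℤ} (hm : LinearIndependent ℤ m)
    (hmC : ∀ i, m i ∈ Cn g.E ∧ pr (m i) (tv v) = 0) (J : Ideal g.X.R)
    (hJ : ∀ f ∈ J, v.Pos (f : K)) : (c : Cardinal) ≤ Algebra.trdeg ℂ (g.X.R ⧸ J) := by
  classical
  have hy : ∀ i, ym K (m i) ∈ g.X.R := fun i => by rw [g.hR]; exact ym_mem_LA (hmC i).1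
  let y : Fin c → g.X.R := fun i => ⟨ym K (m i), hy i⟩
  have hind : AlgebraicIndependent ℂ fun i => Ideal.Quotient.mkₐ ℂ J (y i) := by
    rw [algebraicIndependent_iff]
    intro p hp
    by_contra hp0
    have h1 : aeval y p ∈ J := by
      rw [← Ideal.Quotient.eq_zero_iff_mem, ← Ideal.Quotient.mkₐ_eq_mk ℂ, ← hp]
      rw [← AlgHom.comp_apply, comp_aeval]
    have hpos := hJ _ h1
    have hval : ((aeval y p : g.X.R) : K) = aeval (fun i => ym K (m i)) p := by
      have : ((aeval y p : g.X.R) : K) = g.X.R.val (aeval y p) := rfl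
      rw [this, ← AlgHom.comp_apply, comp_aeval]
      rfl
    rw [hval] at hpos
    have hne := aeval_ym_ne (K := K) hm hp0
    obtain ⟨M, h, hh, hjo, hsup⟩ := aeval_ym (K := K) hm hp0
    obtain ⟨⟨t, ht, h2⟩, -⟩ := hv h hh
    obtain ⟨α, hα⟩ := hsup t ht
    rw [hα, pr_add, pr_comb m _ (fun i => (hmC i).2), zero_add, hjo,
      v.map_mul _ _ hne (ym_ne _), ord_ym] at h2
    rcases hpos with h3 | h3
    · exact hne h3
    · omega
  have h1 := hind.lift_cardinalMk_le_trdeg
  simpa using h1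

end Pool.Agent.V1195.Lsc
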