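import Mathlib
import Pool.Agent.V1195.Lsc
import Pool.Agent.V1195.LscDim
import Pool.Agent.V1195.LscAlg

/-!
# The canonical order and the dimension of the centre
-/

set_option autoImplicit false
set_option linter.unusedSectionVars false

namespace Pool.Agent.V1195.Lsc

open Pool.Agent.H436R3.Fol Pool.Agent.H436R3.KT Pool.Agent.W497.Mld Pool.Agent.TH165.ACC
  Pool.Agent.TH165.LSC Pool.Agent.V1195.Acc MvPolynomial

/-- linearly independent rows have a nonzero maximal minor -/
theorem exists_minorQ {n : ℕ} {J : Type} [Fintype J] [DecidableEq J] (A : Matrix J (Fin n) ℚ)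
    (h : LinearIndependent ℚ A.row) :
    ∃ σ : J → Fin n, Function.Injective σ ∧ (Matrix.of fun a b => A b (σ a)).det ≠ 0 := by
  obtain ⟨κ, a, ha, hspan, hind⟩ := exists_linearIndependent' ℚ A.col
  have h1 : Submodule.span ℚ (Set.range A.col) = ⊤ := by
    apply Submodule.eq_top_of_finrank_eq
    rw [← Matrix.rank_eq_finrank_span_cols, h.rank_matrix, Module.finrank_fintype_fun_eq_card]
  have hfin : Finite κ := Finite.of_injective a ha
  have := Fintype.ofFinite κ
  let b : Module.Basis κ ℚ (J → ℚ) := Module.Basis.mk hind (by rw [hspan, h1])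
  have hcard : Fintype.card κ = Fintype.card J := by
    rw [← Module.finrank_eq_card_basis b, Module.finrank_fintype_fun_eq_card]
  let e : J ≃ κ := (Fintype.equivOfCardEq hcard).symm
  refine ⟨fun j => a (e j), ha.comp e.injective, ?_⟩
  have h2 : LinearIndependent ℚ fun j : J => A.col (a (e j)) := hind.comp e e.injective
  have h3 : LinearIndependent ℚ (Matrix.of fun (i j : J) => A j (a (e i))).row := h2
  rw [Matrix.linearIndependent_rows_iff_isUnit, Matrix.isUnit_iff_isUnit_det] at h3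
  exact h3.ne_zero

theorem exists_minorZ {n c : ℕ} {m : Fin c → Fin n → ℤ} (hm : LinearIndependent ℤ m) :
    ∃ σ : Fin c → Fin n, Function.Injective σ ∧ (Matrix.of fun a b => m b (σ a)).det ≠ 0 := by
  let L : (Fin n → ℤ) →ₗ[ℤ] (Fin n → ℚ) := (Algebra.linearMap ℤ ℚ).compLeft (Fin n)
  have hL : Function.Injective L := by
    intro x y hxy
    funext i
    have h1 := congrFun hxy i
    exact Int.cast_injective (α := ℚ) h1
  have h1 : LinearIndependent ℤ (L ∘ m) := hm.map' L (LinearMap.ker_eq_bot.2 hL)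
  have h2 : LinearIndependent ℚ (L ∘ m) := (LinearIndependent.iff_fractionRing ℤ ℚ).1 h1
  obtain ⟨σ, hσ, hdet⟩ := exists_minorQ (Matrix.of fun b l => ((m b l : ℤ) : ℚ)) h2
  refine ⟨σ, hσ, fun h => hdet ?_⟩
  have h3 : (Matrix.of fun a b => (Matrix.of fun b l => ((m b l : ℤ) : ℚ)) b (σ a)) =
      (Int.castRingHom ℚ).mapMatrix (Matrix.of fun a b => m b (σ a)) := rfl
  rw [h3, ← RingHom.map_det, h, map_zero]

variable {n d : ℕ} {K : Type} [Field K] [Algebra ℂ K]
  [Algebra (MvPolynomial (Fin n) ℂ) K] [IsFractionRing (MvPolynomial (Fin n) ℂ) K]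
  [IsScalarTower ℂ (MvPolynomial (Fin n) ℂ) K]

theorem isPrime_centre {X : AffVar K} {v : DVal K} {J : Ideal X.R} (hJ : IsCentre v J) : J.IsPrime := by
  constructor
  · intro h
    have h1 := (hJ 1).1 (by rw [h]; trivial)
    rcases h1 with h1 | h1
    · exact one_ne_zero (α := K) h1
    · have h2 : v.ord (((1 : X.R) : K)) = 0 := v.ord_one
      omega
  · intro a b hab
    rw [hJ, hJ]
    have h1 : v.Pos ((a : K) * (b : K)) := (hJ (a * b)).1 hab
    by_cases ha : (a : K) = 0
    · exact Or.inl (Or.inl ha)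
    · by_cases hb : (b : K) = 0
      · exact Or.inr (Or.inl hb)
      · rcases h1 with h1 | h1
        · exact absurd h1 (mul_ne_zero ha hb)
        · rw [v.map_mul _ _ ha hb] at h1
          by_contra h2
          push Not at h2
          have h3 : ¬ 0 < v.ord (a : K) := fun h => h2.1 (Or.inr h)
          have h4 : ¬ 0 < v.ord (b : K) := fun h => h2.2 (Or.inr h)
          omega

/-- the canonical order of a divisor over the germ is at least the codimension of its centre in the
stratum minus one -/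
theorem jac_centre {g : ToricGerm n K} {v : DVal K} (hov : OverAt g.P v) {N : ℤ}
    (hN : IsCanOrd g.X.T v N) {c : ℕ} {m : Fin c → Fin n → ℤ} (hm : LinearIndependent ℤ m)
    (hmC : ∀ i, m i ∈ Cn g.E ∧ pr (m i) (tv v) = 0) {J : Ideal g.X.R} (hJ : IsCentre v J) {z : ℕ}
    (hz : Algebra.trdeg ℂ (g.X.R ⧸ J) = z) : (c : ℤ) ≤ N + 1 + z := by
  classical
  have hreg : ∀ f : g.X.R, v.Reg (f : K) := by
    obtain ⟨⟨S, -, hRS, hSv⟩, -⟩ := hov
    exact fun f => hSv.1 _ (hRS f.2)
  have hprime := isPrime_centre hJ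
  have hy : ∀ i, ym K (m i) ∈ g.X.R := fun i => by rw [g.hR]; exact ym_mem_LA (hmC i).1
  let y : Fin c → g.X.R := fun i => ⟨ym K (m i), hy i⟩
  let A : MvPolynomial (Fin c) ℂ →ₐ[ℂ] K := aeval fun i => ym K (m i)
  have hval : ∀ p : MvPolynomial (Fin c) ℂ, ((aeval y p : g.X.R) : K) = A p := by
    intro p
    have : ((aeval y p : g.X.R) : K) = g.X.R.val (aeval y p) := rfl
    rw [this, ← AlgHom.comp_apply, comp_aeval]
    rfl
  have hbar : ∀ p : MvPolynomial (Fin c) ℂ, aeval (fun i => Ideal.Quotient.mkₐ ℂ J (y i)) p =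
      Ideal.Quotient.mk J (aeval y p) := by
    intro p
    rw [← Ideal.Quotient.mkₐ_eq_mk ℂ, ← AlgHom.comp_apply, comp_aeval]
  obtain ⟨T, hT, hF⟩ := exists_rel (fun i => Ideal.Quotient.mkₐ ℂ J (y i)) hz
  choose! F hF1 hF2 hF3 using hF
  have hfpos : ∀ b ∉ T, 1 ≤ v.ord (A (F b)) ∧ A (F b) ≠ 0 := by
    intro b hb
    have h1 := hF1 b hb
    rw [hbar, Ideal.Quotient.eq_zero_iff_mem, hJ, hval] at h1
    have h2 : F b ≠ 0 := by
      intro h
      have := hF2 b hb
      rw [h, map_zero, map_zero] at this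
      exact this rfl
    have h3 : A (F b) ≠ 0 := aeval_ym_ne (K := K) hm h2
    rcases h1 with h1 | h1
    · exact absurd h1 h3
    · exact ⟨h1, h3⟩
  have hyord : ∀ i, v.ord (ym K (m i)) = 0 := fun i => by rw [ord_ym, (hmC i).2]
  have hdiag : ∀ b ∉ T, A (pderiv b (F b)) ≠ 0 ∧ v.ord (A (pderiv b (F b))) = 0 := by
    intro b hb
    have h1 := hF2 b hb
    rw [hbar, Ne, Ideal.Quotient.eq_zero_iff_mem, hJ, hval] at h1
    have h2 : v.Reg (A (pderiv b (F b))) := by rw [← hval]; exact hreg _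
    have h3 : A (pderiv b (F b)) ≠ 0 := fun h => h1 (Or.inl h)
    refine ⟨h3, ?_⟩
    have h4 := v.ord_nonneg h3 h2
    by_contra h5
    exact h1 (Or.inr (by omega))
  obtain ⟨σ, hσ, hdetZ⟩ := exists_minorZ hm
  let G : Matrix (Fin c) (Fin c) K := Matrix.of fun b j =>
    if b ∈ T then (if j = b then ym K (m b) else 0) else ym K (m j) * A (pderiv j (F b))
  let hb' : Fin c → K := fun b => if b ∈ T then ym K (m b) else A (F b)
  have hder : ∀ (l : Fin n) (b : Fin c), tor K l (hb' b) = ∑ j, (m j l : K) * G b j := by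
    intro l b
    by_cases hbT : b ∈ T
    · simp only [hb', G, Matrix.of_apply, if_pos hbT]
      rw [tor_ym, Finset.sum_eq_single b]
      · rw [if_pos rfl]
      · intro j _ hj
        rw [if_neg hj, mul_zero]
      · intro h; exact absurd (Finset.mem_univ _) h
    · simp only [hb', G, Matrix.of_apply, if_neg hbT]
      rw [der_aeval_sum]
      refine Finset.sum_congr rfl fun j _ => ?_
      rw [tor_ym]
      ring
  have hGdet : G.det = (∏ b : {b // b ∉ T}, (ym K (m b.1) * A (pderiv b.1 (F b.1)))) *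
      ∏ b : {b // ¬ b ∉ T}, ym K (m b.1) := by
    rw [Matrix.twoBlockTriangular_det G (fun b => b ∉ T)]
    · congr 1
      · rw [← Matrix.det_diagonal]
        congr 1
        ext a b
        rw [Matrix.diagonal_apply]
        change G a.1 b.1 = _
        simp only [G, Matrix.of_apply, if_neg a.2]
        by_cases hab : a = b
        · subst hab; rw [if_pos rfl]
        · rw [if_neg hab, hF3 a.1 a.2 b.1 b.2 (fun h => hab (Subtype.ext h.symm)), map_zero,
            mul_zero]
      · rw [← Matrix.det_diagonal]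
        congr 1
        ext a b
        rw [Matrix.diagonal_apply]
        change G a.1 b.1 = _
        have ha : a.1 ∈ T := not_not.1 a.2
        simp only [G, Matrix.of_apply, if_pos ha]
        by_cases hab : a = b
        · subst hab; rw [if_pos rfl, if_pos rfl]
        · rw [if_neg hab, if_neg (fun h => hab (Subtype.ext h.symm))]
    · intro i hi j hj
      have hi' : i ∈ T := not_not.1 hi
      simp only [G, Matrix.of_apply, if_pos hi']
      rw [if_neg]
      rintro rfl
      exact hj hi'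
  have hGne : G.det ≠ 0 := by
    rw [hGdet]
    exact mul_ne_zero (Finset.prod_ne_zero_iff.2 fun b _ => mul_ne_zero (ym_ne _)
      (hdiag b.1 b.2).1) (Finset.prod_ne_zero_iff.2 fun b _ => ym_ne _)
  have hGord : v.ord G.det = 0 := by
    rw [hGdet, v.map_mul _ _ (Finset.prod_ne_zero_iff.2 fun b _ => mul_ne_zero (ym_ne _)
      (hdiag b.1 b.2).1) (Finset.prod_ne_zero_iff.2 fun b _ => ym_ne _),
      v.ord_prod _ _ (fun b _ => mul_ne_zero (ym_ne _) (hdiag b.1 b.2).1),
      v.ord_prod _ _ (fun b _ => ym_ne _)]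
    rw [Finset.sum_eq_zero, Finset.sum_eq_zero, add_zero]
    · intro b _; exact hyord _
    · intro b _
      rw [v.map_mul _ _ (ym_ne _) (hdiag b.1 b.2).1, hyord, (hdiag b.1 b.2).2, add_zero]
  let Mσ : Matrix (Fin c) (Fin c) ℤ := Matrix.of fun a b => m b (σ a)
  have hMσ : (Mσ.map fun x : ℤ => (x : K)).det = ((Mσ.det : ℤ) : K) := by
    have := (Int.castRingHom K).map_det Mσ
    exact this.symm
  have hcst : ((Mσ.det : ℤ) : K) = algebraMap ℂ K ((Mσ.det : ℤ) : ℂ) := by
    rw [map_intCast]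
  have hMc : ((Mσ.det : ℤ) : ℂ) ≠ 0 := by exact_mod_cast hdetZ
  have hM0 : ((Mσ.det : ℤ) : K) ≠ 0 := by
    rw [hcst]
    exact (map_ne_zero _).2 hMc
  have hMord : v.ord ((Mσ.det : ℤ) : K) = 0 := by rw [hcst]; exact v.const _ hMc
  let Cc : Type := ↑((Set.range σ)ᶜ)
  let ε : Fin c ⊕ Cc ≃ Fin n :=
    (Equiv.sumCongr (Equiv.ofInjective σ hσ) (Equiv.refl _)).trans
      (Equiv.Set.sumCompl (Set.range σ))
  let h : Fin c ⊕ Cc → K := Sum.elim hb' fun i => cv K i.1
  have hb'ne : ∀ b, hb' b ≠ 0 := by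
    intro b
    by_cases hbT : b ∈ T
    · simp only [hb', if_pos hbT]; exact ym_ne _
    · simp only [hb', if_neg hbT]; exact (hfpos b hbT).2
  have hh : ∀ x, h x ≠ 0 := by
    rintro (x | x)
    · exact hb'ne x
    · exact cv_ne _
  let A1 : Matrix (Fin c) (Fin c) K := Matrix.of fun a b => tor K (σ a) (hb' b)
  let C1 : Matrix Cc (Fin c) K := Matrix.of fun a b => tor K a.1 (hb' b)
  have hA1 : A1 = (Mσ.map fun x : ℤ => (x : K)) * G.transpose := by
    ext a b
    rw [Matrix.mul_apply]
    change tor K (σ a) (hb' b) = _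
    rw [hder]
    rfl
  have hblock : (Matrix.of fun x y => tor K (ε x) (h y)) =
      Matrix.fromBlocks A1 0 C1 (Matrix.diagonal fun i : Cc => cv K i.1) := by
    ext x y
    rcases x with x | x <;> rcases y with y | y
    · rfl
    · change tor K (σ x) (cv K y.1) = 0
      rw [tor_cv, if_neg]
      intro h2
      exact y.2 ⟨x, h2⟩
    · rfl
    · change tor K x.1 (cv K y.1) = Matrix.diagonal (fun i : Cc => cv K i.1) x y
      rw [tor_cv, Matrix.diagonal_apply]
      by_cases h2 : x = y
      · subst h2; simp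
      · rw [if_neg (fun h3 => h2 (Subtype.ext h3)), if_neg h2]
  have hA1det : A1.det = ((Mσ.det : ℤ) : K) * G.det := by
    rw [hA1, Matrix.det_mul, Matrix.det_transpose, hMσ]
  have hA1ne : A1.det ≠ 0 := by rw [hA1det]; exact mul_ne_zero hM0 hGne
  have hA1ord : v.ord A1.det = 0 := by
    rw [hA1det, v.map_mul _ _ hM0 hGne, hMord, hGord, add_zero]
  have hcv : (∏ i : Cc, cv K i.1) ≠ 0 := Finset.prod_ne_zero_iff.2 fun b _ => cv_ne _
  have hdetall : (Matrix.of fun x y => tor K (ε x) (h y)).det = A1.det * ∏ i : Cc, cv K i.1 := by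
    rw [hblock, Matrix.det_fromBlocks_zero₁₂, Matrix.det_diagonal]
  have key := can_ge v hN (g.e.trans ε.symm) (fun x => tor K (ε x))
    (fun i => by rw [g.hT]; simp) h hh
    (by rw [hdetall]; exact mul_ne_zero hA1ne hcv)
  rw [hdetall, v.map_mul _ _ hA1ne hcv, hA1ord, v.ord_prod _ _ fun i _ => cv_ne _,
    Fintype.sum_sum_type] at key
  have h10 : (∑ x : Fin c, v.ord (h (Sum.inl x))) = ∑ x : Fin c, v.ord (hb' x) := rfl
  have h11 : (∑ x : Cc, v.ord (h (Sum.inr x))) = ∑ x : Cc, v.ord (cv K x.1) := rfl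
  rw [h10, h11] at key
  have h12 : (c : ℤ) - T.card ≤ ∑ x : Fin c, v.ord (hb' x) := by
    calc (c : ℤ) - T.card = ∑ x : Fin c, (if x ∈ T then (0 : ℤ) else 1) := by
          have h13 : ∑ x : Fin c, (if x ∈ T then (0 : ℤ) else 1) =
              ∑ x : Fin c, (1 - if x ∈ T then (1 : ℤ) else 0) :=
            Finset.sum_congr rfl fun x _ => by split_ifs <;> simp
          rw [h13, Finset.sum_sub_distrib, Finset.sum_ite_mem]
          simp
      _ ≤ _ := Finset.sum_le_sum fun x _ => by
          by_cases hx : x ∈ T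
          · simp only [hb', if_pos hx, hyord]; exact le_rfl
          · simp only [hb', if_neg hx]; exact (hfpos x hx).1
  have h13 : (T.card : ℤ) ≤ z := by exact_mod_cast hT
  linarith

end Pool.Agent.V1195.Lsc
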