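import Mathlib
import Pool.Agent.V1195.LscJac

/-!
# Nondegenerate boundaries and divisors with larger centres
-/

set_option autoImplicit false
set_option linter.unusedSectionVars false

namespace Pool.Agent.V1195.Lsc

open Pool.Agent.H436R3.Fol Pool.Agent.H436R3.KT Pool.Agent.W497.Mld Pool.Agent.TH165.ACC
  Pool.Agent.TH165.LSC Pool.Agent.V1195.Acc MvPolynomial

variable {n d : ℕ} {K : Type} [Field K] [Algebra ℂ K]
  [Algebra (MvPolynomial (Fin n) ℂ) K] [IsFractionRing (MvPolynomial (Fin n) ℂ) K]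
  [IsScalarTower ℂ (MvPolynomial (Fin n) ℂ) K]

/-- The system of polynomials `p` is nondegenerate: for all nonzero weights `u` in the (closed)
cone, at every point `ξ` of the torus the logarithmic gradients of those initial forms which vanish
at `ξ` are linearly independent. -/
def IsNondegAll (g : ToricGerm n K) {s : ℕ} (p : Fin s → MvPolynomial (Fin n) ℂ) : Prop :=
  (∀ j, p j ≠ 0) ∧ ∀ u, g.InCone u → u ≠ 0 → ∀ ξ : Fin n → ℂ, (∀ i, ξ i ≠ 0) →
    LinearIndependent ℂ fun (j : {j // eval ξ (lead u (p j)) = 0}) (i : Fin n) =>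
      ξ i * eval ξ (pderiv i (lead u (p j.1)))

/-- The boundary `B` is nondegenerate near `P`: its coefficients are at most `1`, and its components
through `P` which meet the torus are components of the zero divisors of the members of a
nondegenerate system of polynomials. -/
def NondegAll (g : ToricGerm n K) (B : EffDiv g.X) : Prop :=
  (∀ v, B.mult v ≤ 1) ∧ ∃ (s : ℕ) (p : Fin s → MvPolynomial (Fin n) ℂ), IsNondegAll g p ∧
    ∀ v, OnAt g.P v → (∀ i : Fin n, v.ord (cv K i) = 0) → B.mult v ≠ 0 →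
      ∃ j, v.Pos (jo (Fin n) K (p j))

/-- The Jacobian inequality for nondegenerate systems. The proof is the one of
`Pool.Agent.TH165.ACC.jac_nondeg`. -/
theorem jac_nondeg_all {g : ToricGerm n K} {s : ℕ} {p : Fin s → MvPolynomial (Fin n) ℂ}
    (hp : IsNondegAll g p) {v v' : DVal K} (hin : g.InCone (tv v))
    (hne : (tv v : Fin n → ℤ) ≠ 0) {N : ℤ}
    (hN : IsCanOrd g.X.T v N) (hv' : IsMonomial n v') {k : ℤ} (hk : 0 < k)
    (htv : (tv v : Fin n → ℤ) = k • tv v') :
    ∑ j, (v.ord (jo (Fin n) K (p j)) - k * v'.ord (jo (Fin n) K (p j))) ≤ N + 1 := by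
  classical
  set u : Fin n → ℤ := tv v with hu
  set m : Fin s → ℤ := fun j => k * v'.ord (jo (Fin n) K (p j)) with hm
  have hmin : ∀ j, (∃ t ∈ (p j).support, m j = pr (ex t) u) ∧
      ∀ t ∈ (p j).support, m j ≤ pr (ex t) u := by
    intro j
    obtain ⟨⟨t, ht, h1⟩, h2⟩ := hv' (p j) (hp.1 j)
    refine ⟨⟨t, ht, ?_⟩, fun t ht => ?_⟩
    · rw [htv, pr_smul_right, ← h1]
    · rw [htv, pr_smul_right]
      exact mul_le_mul_of_nonneg_left (h2 t ht) hk.le
  obtain ⟨π, hπ, h1⟩ := v.surj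
  have hge : ∀ j, m j ≤ v.ord (jo (Fin n) K (p j)) := by
    intro j
    have h2 := (reg_mul_zpow hπ h1 (hmin j).2).1
    have h3 := v.ord_nonneg (mul_ne_zero (jo_ne (hp.1 j)) (zpow_ne_zero _ hπ)) h2
    rw [v.map_mul _ _ (jo_ne (hp.1 j)) (zpow_ne_zero _ hπ), v.ord_zpow hπ, h1] at h3
    omega
  let J : Type := {j : Fin s // m j ≠ v.ord (jo (Fin n) K (p j))}
  let 𝔭 : Ideal (MvPolynomial (Fin n) ℂ) := (mvI v).comap (Phi hπ h1)
  have hlead : ∀ j, lead u (p j) = part u (m j) (p j) := fun j => lead_eq (hmin j).1 (hmin j).2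
  have hJ : ∀ j : J, lead u (p j.1) ∈ 𝔭 := by
    intro j
    rw [hlead]
    change v.Pos _
    obtain ⟨h2, h3⟩ := reg_mul_zpow hπ h1 (hmin j.1).2
    have h4 : v.Pos (jo (Fin n) K (p j.1) * π ^ (-m j.1)) := by
      right
      rw [v.map_mul _ _ (jo_ne (hp.1 j)) (zpow_ne_zero _ hπ), v.ord_zpow hπ, h1]
      have h5 := hge j.1
      have h6 := j.2
      omega
    have h5 : (Phi hπ h1 (part u (m j.1) (p j.1)) : K) = jo (Fin n) K (p j.1) * π ^ (-m j.1) +
        (-1) * (jo (Fin n) K (p j.1) * π ^ (-m j.1) -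
          (Phi hπ h1 (part u (m j.1) (p j.1)) : K)) := by ring
    rw [h5]
    refine v.pos_add h4 (v.pos_mul_left ?_ h3)
    exact v.reg_neg v.reg_one
  have h𝔭 : 𝔭.IsPrime := Ideal.IsPrime.comap _
  have hX : ∀ i, (X i : MvPolynomial (Fin n) ℂ) ∉ 𝔭 := by
    intro i hi
    have h2 : (Phi hπ h1 (X i) : K) = cv K i * π ^ (-v.ord (cv K i)) := by
      rw [Phi, coe_eval₂Hom, eval₂_X]
    have h3 : v.Pos (cv K i * π ^ (-v.ord (cv K i))) := by
      rw [← h2]
      exact hi
    rcases h3 with h3 | h3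
    · exact mul_ne_zero (cv_ne i) (zpow_ne_zero _ hπ) h3
    · rw [v.map_mul _ _ (cv_ne i) (zpow_ne_zero _ hπ), v.ord_zpow hπ, h1] at h3
      omega
  obtain ⟨ξ, hξ𝔭, hξ⟩ : ∃ ξ ∈ zeroLocus ℂ 𝔭, ∀ i, ξ i ≠ 0 := by
    by_contra h2
    push Not at h2
    have h3 : (∏ i, (X i : MvPolynomial (Fin n) ℂ)) ∈ vanishingIdeal ℂ (zeroLocus ℂ 𝔭) := by
      rw [mem_vanishingIdeal_iff]
      intro ξ hξ
      obtain ⟨i, hi⟩ := h2 ξ hξ
      rw [map_prod]
      exact Finset.prod_eq_zero (Finset.mem_univ i) (by rw [aeval_X, hi])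
    rw [vanishingIdeal_zeroLocus_eq_radical, h𝔭.radical, h𝔭.prod_mem_iff] at h3
    obtain ⟨i, -, hi⟩ := h3
    exact hX i hi
  have hev : ∀ q ∈ 𝔭, eval ξ q = 0 := by
    intro q hq
    have := mem_zeroLocus_iff.1 hξ𝔭 q hq
    rwa [← coe_aeval_eq_eval] 
  have hli := (hp.2 u hin hne ξ hξ).comp
    (fun j : J => (⟨j.1, hev _ (hJ j)⟩ : {j // eval ξ (lead u (p j)) = 0}))
    (fun a b hab => Subtype.ext (congrArg (fun x => x.1) hab))
  obtain ⟨σ, hσ, hdet⟩ := exists_minor (Matrix.of fun (j : J) (i : Fin n) =>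
    ξ i * eval ξ (pderiv i (lead u (p j.1)))) hli
  let Mp : Matrix J J (MvPolynomial (Fin n) ℂ) :=
    Matrix.of fun a b => X (σ a) * pderiv (σ a) (lead u (p b.1))
  have hMp : Mp.det ∉ 𝔭 := by
    intro h2
    apply hdet
    rw [← hev _ h2, RingHom.map_det]
    congr 1
    ext a b
    simp [Mp]
  let AO : Matrix J J v.O := Matrix.of fun a b =>
    ⟨tor K (σ a) (jo (Fin n) K (p b.1)) * π ^ (-m b.1), by
      rw [tor_jo]
      exact (reg_mul_zpow hπ h1 fun t ht => (hmin b.1).2 t (support_euler _ _ ht)).1⟩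
  have hAO : AO.det ∉ mvI v := by
    intro h2
    apply hMp
    have h3 : (Ideal.Quotient.mk (mvI v)).mapMatrix AO =
        (Ideal.Quotient.mk (mvI v)).mapMatrix ((Phi hπ h1).mapMatrix Mp) := by
      ext a b
      rw [RingHom.mapMatrix_apply, RingHom.mapMatrix_apply, RingHom.mapMatrix_apply,
        Matrix.map_apply, Matrix.map_apply, Matrix.map_apply, Ideal.Quotient.eq, mem_mvI]
      have h4 := (reg_mul_zpow hπ h1
        fun t ht => (hmin b.1).2 t (support_euler (σ a) _ ht)).2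
      rw [← hu, ← euler_part, ← hlead, ← tor_jo] at h4
      exact h4
    have h4 : Ideal.Quotient.mk (mvI v) AO.det = Ideal.Quotient.mk (mvI v) (Phi hπ h1 Mp.det) := by
      rw [RingHom.map_det, h3, RingHom.map_det, RingHom.map_det]
    rw [Ideal.Quotient.eq_zero_iff_mem.2 h2] at h4
    change Phi hπ h1 Mp.det ∈ mvI v
    exact Ideal.Quotient.eq_zero_iff_mem.1 h4.symm
  obtain ⟨hd0, hd⟩ := ord_eq_zero_of_notMem hAO
  have hdK : (AO.det : K) = (Matrix.of fun a b : J =>
      tor K (σ a) (jo (Fin n) K (p b.1)) * π ^ (-m b.1)).det := by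
    have := v.O.subtype.map_det AO
    change (AO.det : K) = _ at this
    rw [this]
    rfl
  rw [hdK] at hd0 hd
  let Cc : Type := ↑((Set.range σ)ᶜ)
  let ε : J ⊕ Cc ≃ Fin n :=
    (Equiv.sumCongr (Equiv.ofInjective σ hσ) (Equiv.refl _)).trans
      (Equiv.Set.sumCompl (Set.range σ))
  have hε1 : ∀ a : J, ε (Sum.inl a) = σ a := fun a => rfl
  have hε2 : ∀ i : Cc, ε (Sum.inr i) = i.1 := fun i => rfl
  let h : J ⊕ Cc → K := Sum.elim (fun j => jo (Fin n) K (p j.1)) fun i => cv K i.1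
  have hh : ∀ x, h x ≠ 0 := by
    rintro (x | x)
    · exact jo_ne (hp.1 _)
    · exact cv_ne _
  let A1 : Matrix J J K := Matrix.of fun a b => tor K (σ a) (jo (Fin n) K (p b.1))
  let C1 : Matrix Cc J K := Matrix.of fun a b => tor K a.1 (jo (Fin n) K (p b.1))
  have hblock : (Matrix.of fun x y => tor K (ε x) (h y)) =
      Matrix.fromBlocks A1 0 C1 (Matrix.diagonal fun i : Cc => cv K i.1) := by
    ext x y
    rcases x with x | x <;> rcases y with y | y
    · rfl
    · change tor K (σ x) (cv K y.1) = 0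
      rw [tor_cv, if_neg]
      intro h2
      exact y.2 ⟨x, h2⟩
    · rfl
    · change tor K x.1 (cv K y.1) = Matrix.diagonal (fun i : Cc => cv K i.1) x y
      rw [tor_cv, Matrix.diagonal_apply]
      by_cases h2 : x = y
      · subst h2; simp
      · rw [if_neg (fun h3 => h2 (Subtype.ext h3)), if_neg h2]
  have hA1 : A1.det = (∏ b : J, π ^ m b.1) * (Matrix.of fun a b : J =>
      tor K (σ a) (jo (Fin n) K (p b.1)) * π ^ (-m b.1)).det := by
    rw [← Matrix.det_mul_row]
    congr 1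
    ext a b
    simp only [Matrix.of_apply, A1]
    rw [mul_comm, mul_assoc, ← zpow_add₀ hπ, neg_add_cancel, zpow_zero, mul_one]
  have hpi : (∏ b : J, π ^ m b.1) ≠ 0 := Finset.prod_ne_zero_iff.2 fun b _ => zpow_ne_zero _ hπ
  have hcv : (∏ i : Cc, cv K i.1) ≠ 0 := Finset.prod_ne_zero_iff.2 fun b _ => cv_ne _
  have hA1ne : A1.det ≠ 0 := by rw [hA1]; exact mul_ne_zero hpi hd0
  have hA1ord : v.ord A1.det = ∑ b : J, m b.1 := by
    rw [hA1, v.map_mul _ _ hpi hd0, hd, add_zero, v.ord_prod _ _ fun b _ => zpow_ne_zero _ hπ]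
    exact Finset.sum_congr rfl fun b _ => by rw [v.ord_zpow hπ, h1, mul_one]
  have hdetall : (Matrix.of fun x y => tor K (ε x) (h y)).det = A1.det * ∏ i : Cc, cv K i.1 := by
    rw [hblock, Matrix.det_fromBlocks_zero₁₂, Matrix.det_diagonal]
  have key := can_ge v hN (g.e.trans ε.symm) (fun x => tor K (ε x))
    (fun i => by rw [g.hT]; simp) h hh
    (by rw [hdetall]; exact mul_ne_zero hA1ne hcv)
  rw [hdetall, v.map_mul _ _ hA1ne hcv, hA1ord, v.ord_prod _ _ fun i _ => cv_ne _,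
    Fintype.sum_sum_type] at key
  have h9 : ∑ j, (v.ord (jo (Fin n) K (p j)) - m j) =
      ∑ j : J, (v.ord (jo (Fin n) K (p j.1)) - m j.1) := by
    refine Eq.trans (b := ∑ j ∈ Finset.univ.filter
      (fun j => m j ≠ v.ord (jo (Fin n) K (p j))), (v.ord (jo (Fin n) K (p j)) - m j)) ?_ ?_
    · symm
      refine Finset.sum_filter_of_ne fun j _ h3 h4 => h3 ?_
      rw [h4, sub_self]
    · exact Finset.sum_subtype _ (by simp) _
  rw [h9, Finset.sum_sub_distrib]
  have h10 : (∑ x : J, v.ord (h (Sum.inl x))) = ∑ x : J, v.ord (jo (Fin n) K (p x.1)) := rfl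
  have h11 : (∑ x : Cc, v.ord (h (Sum.inr x))) = ∑ x : Cc, v.ord (cv K x.1) := rfl
  rw [h10, h11] at key
  linarith

/-- Comparison of a divisor over `X` with the monomial valuation of the same direction. The
proof is the one of `Pool.Agent.TH165.ACC.computed_of_nondeg`. -/
theorem le_of_nondeg_all {g : ToricGerm n K} {B : EffDiv g.X} {e : LocEq B g.P} {m : ℝ}
    (hB : NondegAll g B) {v v' : DVal K} (hov : OverAt g.P v)
    (hne : (tv v : Fin n → ℤ) ≠ 0) (hl : IsLogDisc e v m)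
    (hv' : IsMonomial n v') {k : ℤ} (hk : 0 < k)
    (htv' : (tv v : Fin n → ℤ) = k • tv v') :
    (k : ℝ) * (-∑ k, e.ρ k * (v'.ord (e.g k) : ℝ)) ≤ m := by
  classical
  obtain ⟨N, hN, hmv⟩ := hl
  obtain ⟨hB1, s, q, hq, hcomp⟩ := hB
  set a' : ℝ := -∑ k, e.ρ k * (v'.ord (e.g k) : ℝ) with ha'
  obtain ⟨F, c, hFp, hFd, hc⟩ := fact (n := n) e.ρ e.g e.ne
  let D : MvPolynomial (Fin n) ℂ → ℤ := fun p =>
    v.ord (jo (Fin n) K p) - k * v'.ord (jo (Fin n) K p)
  have hD0 : ∀ p, p ≠ 0 → 0 ≤ D p := fun p hp => by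
    have := ord_ge_mon hv' hk htv' hp
    simp only [D]
    omega
  have hDm : ∀ p r, p ≠ 0 → r ≠ 0 → D (p * r) = D p + D r := by
    intro p r hp hr
    simp only [D]
    rw [map_mul, v.map_mul _ _ (jo_ne hp) (jo_ne hr), v'.map_mul _ _ (jo_ne hp) (jo_ne hr)]
    ring
  have hDp : ∀ S : Finset (MvPolynomial (Fin n) ℂ), (∀ p ∈ S, p ≠ 0) →
      (∏ p ∈ S, p) ≠ 0 ∧ D (∏ p ∈ S, p) = ∑ p ∈ S, D p := by
    intro S
    induction S using Finset.induction_on with
    | empty =>
      intro _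
      simp only [Finset.prod_empty, Finset.sum_empty, D, map_one, v.ord_one, v'.ord_one]
      simp
    | insert b S hb ih =>
      intro hS
      obtain ⟨h2, h3⟩ := ih fun p hp => hS p (Finset.mem_insert_of_mem hp)
      have hb0 := hS b (Finset.mem_insert_self b S)
      rw [Finset.prod_insert hb, Finset.sum_insert hb, hDm _ _ hb0 h2, h3]
      exact ⟨mul_ne_zero hb0 h2, rfl⟩
  let F' : Finset (MvPolynomial (Fin n) ℂ) := F.filter fun p => Thr g p ∧ c p ≠ 0
  have hThr : ∀ p ∈ F, Thr g p → 0 ≤ c p ∧ c p ≤ 1 ∧ (c p ≠ 0 → ∃ j, p ∣ q j) := by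
    rintro p hp ⟨hpp, hcv, hon⟩
    obtain ⟨a, ha, h3⟩ := e.eq _ hon
    have hL := g.local_prime hpp hcv
    have h4 : a = 0 := ha.unique (can_unit g.e g.hT (by rw [← g.hR]; exact hL) hcv)
    have h5 : ∑ r ∈ F, c r * ((valP K p hpp).ord (jo (Fin n) K r) : ℝ) = c p := by
      rw [Finset.sum_eq_single p]
      · rw [valP_self]; push_cast; ring
      · intro r hr hrp
        rw [valP_other hpp (hFp r hr).ne_zero fun h => hrp (hFd p hp r hr h).symm]
        push_cast; ring
      · intro h; exact absurd hp h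
    rw [hc, h5, h4, Int.cast_zero, zero_add] at h3
    rw [← h3]
    refine ⟨mult_nonneg B _, hB1 _, fun h6 => ?_⟩
    obtain ⟨j, hj⟩ := hcomp _ hon hcv h6
    exact ⟨j, (valP_pos_iff hpp (q j)).1 hj⟩
  have h2 : ∑ p ∈ F, c p * (D p : ℝ) ≤ ∑ p ∈ F', (D p : ℝ) := by
    rw [Finset.sum_filter]
    refine Finset.sum_le_sum fun p hp => ?_
    have hDp0 : (0 : ℝ) ≤ D p := by exact_mod_cast hD0 p (hFp p hp).ne_zero
    by_cases h3 : Thr g p
    · obtain ⟨h4, h5, -⟩ := hThr p hp h3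
      by_cases h6 : c p = 0
      · rw [h6, zero_mul]
        split_ifs
        · exact hDp0
        · exact le_rfl
      · rw [if_pos ⟨h3, h6⟩]
        nlinarith
    · have h4 : D p = 0 := by
        have h5 := (not_thr (hFp p hp) h3).1 v hov
        have h6 := nu_mon hv' hk.le htv' (hFp p hp).ne_zero
        simp only [D]
        omega
      rw [if_neg (fun h => h3 h.1), h4]
      simp
  have h3 : ∑ p ∈ F', D p ≤ ∑ j, D (q j) := by
    calc ∑ p ∈ F', D p ≤ ∑ p ∈ F', ∑ j, (if p ∣ q j then D p else 0) := by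
          refine Finset.sum_le_sum fun p hp => ?_
          obtain ⟨hpF, hpT, hpc⟩ := Finset.mem_filter.1 hp
          obtain ⟨j, hj⟩ := (hThr p hpF hpT).2.2 hpc
          have h4 : (if p ∣ q j then D p else 0) ≤ ∑ j, (if p ∣ q j then D p else 0) :=
            Finset.single_le_sum (f := fun j => if p ∣ q j then D p else 0) (fun i _ => by
              split_ifs
              · exact hD0 p (hFp p hpF).ne_zero
              · exact le_rfl) (Finset.mem_univ j)
          rwa [if_pos hj] at h4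
      _ = ∑ j, ∑ p ∈ F', (if p ∣ q j then D p else 0) := Finset.sum_comm
      _ ≤ ∑ j, D (q j) := by
          refine Finset.sum_le_sum fun j _ => ?_
          rw [← Finset.sum_filter]
          have h5 : ∀ p ∈ F'.filter (fun p => p ∣ q j), Prime p ∧ p ∈ F := fun p hp => by
            have := (Finset.mem_filter.1 (Finset.mem_filter.1 hp).1).1
            exact ⟨hFp p this, this⟩
          obtain ⟨h6, h7⟩ := hDp (F'.filter fun p => p ∣ q j) fun p hp => (h5 p hp).1.ne_zero
          obtain ⟨r, hr⟩ := prod_dvd (F'.filter fun p => p ∣ q j) (q j) (fun p hp => (h5 p hp).1)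
            (fun p hp p' hp' => hFd p (h5 p hp).2 p' (h5 p' hp').2)
            fun p hp => (Finset.mem_filter.1 hp).2
          have hr0 : r ≠ 0 := by
            rintro rfl
            rw [mul_zero] at hr
            exact hq.1 j hr
          have h8 : D (q j) = D (∏ p ∈ F'.filter (fun p => p ∣ q j), p) + D r := by
            rw [← hDm _ _ h6 hr0]
            exact congrArg D hr
          rw [h8, h7]
          have := hD0 r hr0
          linarith
  have h4 : ∑ j, D (q j) ≤ N + 1 := jac_nondeg_all hq (inCone_over hov) hne hN hv' hk htv'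
  have h5 : (k : ℝ) * a' ≤ m := by
    have h6 : m - (k : ℝ) * a' = 1 + (N : ℝ) - ∑ p ∈ F, c p * (D p : ℝ) := by
      have h7 : ∑ p ∈ F, c p * (D p : ℝ) = ∑ p ∈ F, c p * (v.ord (jo (Fin n) K p) : ℝ) -
          (k : ℝ) * ∑ p ∈ F, c p * (v'.ord (jo (Fin n) K p) : ℝ) := by
        rw [Finset.mul_sum, ← Finset.sum_sub_distrib]
        refine Finset.sum_congr rfl fun p _ => ?_
        simp only [D]
        push_cast
        ring
      rw [h7, ← hc, ← hc, hmv, ha']
      ring
    have h8 : (∑ p ∈ F', (D p : ℝ)) ≤ (N : ℝ) + 1 := by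
      have := h3.trans h4
      exact_mod_cast this
    linarith
  exact h5

end Pool.Agent.V1195.Lsc
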