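import Mathlib
import Pool.Agent.V1195.LscNd

/-!
# Lower semicontinuity of minimal log discrepancies at the fixed point of a toric germ
-/

set_option autoImplicit false
set_option linter.unusedSectionVars false

namespace Pool.Agent.V1195.Lsc

open Pool.Agent.H436R3.Fol Pool.Agent.H436R3.KT Pool.Agent.W497.Mld Pool.Agent.TH165.ACC
  Pool.Agent.TH165.LSC Pool.Agent.V1195.Acc MvPolynomial

variable {n d : ℕ} {K : Type} [Field K] [Algebra ℂ K]
  [Algebra (MvPolynomial (Fin n) ℂ) K] [IsFractionRing (MvPolynomial (Fin n) ℂ) K]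
  [IsScalarTower ℂ (MvPolynomial (Fin n) ℂ) K]

theorem exists_ordOf' {X : AffVar K} {v : DVal K} (hreg : ∀ f : X.R, v.Reg (f : K))
    {I : Ideal X.R} (hI : I ≠ ⊥) : ∃ k, IsOrdOf v I k := by
  obtain ⟨f, hfI, hf⟩ := Submodule.exists_mem_ne_zero_of_ne_bot hI
  have hf' : (f : K) ≠ 0 := fun h => hf (Subtype.ext h)
  obtain ⟨k, hk, hk'⟩ := Int.exists_least_of_bdd
    (P := fun t : ℤ => ∃ f : X.R, f ∈ I ∧ (f : K) ≠ 0 ∧ t = v.ord (f : K))
    ⟨0, by
      rintro z ⟨f, -, hf, rfl⟩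
      exact v.ord_nonneg hf (hreg f)⟩ ⟨_, f, hfI, hf', rfl⟩
  exact ⟨k, hk, fun z hz => hk' z hz⟩

theorem reg_of_overAt {X : AffVar K} {P : Pt X} {v : DVal K} (hov : OverAt P v) :
    ∀ f : X.R, v.Reg (f : K) := by
  obtain ⟨⟨S, -, hRS, hSv⟩, -⟩ := hov
  exact fun f => hSv.1 _ (hRS f.2)

theorem reg_of_inCone {g : ToricGerm n K} {v : DVal K} (h : g.InCone (tv v)) :
    ∀ f : g.X.R, v.Reg (f : K) := by
  intro f
  exact reg_LA (C := Cn g.E) (fun m hm => h m hm) (by rw [← g.hR]; exact f.2)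

/-- a direction of a monomial valuation for every vector of the cone -/
theorem exists_dir (g : ToricGerm n K) (hn : 0 < n) {u : Fin n → ℤ} (hu : g.InCone u) :
    ∃ (v' : DVal K) (k : ℤ), IsMonomial n v' ∧ g.InCone (tv v') ∧ 0 ≤ k ∧ u = k • tv v' := by
  by_cases h0 : u = 0
  · obtain ⟨i0⟩ : Nonempty (Fin g.N) := by
      by_contra h1
      have h2 : ∀ i : Fin g.N, False := fun i => h1 ⟨i⟩
      have h3 := g.full (Pi.single ⟨0, hn⟩ 1) fun j => (h2 j).elim
      have h4 := congrFun h3 ⟨0, hn⟩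
      simp at h4
    obtain ⟨v', hv', ht⟩ := exists_mon (K := K) (g.prim i0)
    exact ⟨v', 0, hv', by rw [ht]; exact ToricGerm.inCone_E i0, le_rfl, by rw [zero_smul, h0]⟩
  · obtain ⟨k, u', hk, hu', h1⟩ := exists_prim h0
    obtain ⟨v', hv', rfl⟩ := exists_mon (K := K) hu'
    refine ⟨v', k, hv', fun m hm => ?_, hk.le, h1⟩
    have h2 := hu m hm
    rw [h1, pr_smul_right] at h2
    exact nonneg_of_mul_nonneg_right h2 hk

/-- the order of a monomial ideal depends on the direction only -/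
theorem mon_ord_le {g : ToricGerm n K} {I : Ideal g.X.R} (hI : IsMonIdeal g I) {v v' : DVal K}
    (hin : g.InCone (tv v')) {k : ℤ} (hk : 0 ≤ k) (htv : (tv v : Fin n → ℤ) = k • tv v') {a a' : ℤ}
    (ha : IsOrdOf v I a) (ha' : IsOrdOf v' I a') : a ≤ k * a' := by
  obtain ⟨⟨f, hfI, hf0, hfa⟩, -⟩ := ha'
  obtain ⟨f', x, h4, h5, h6⟩ := mono_le hI (reg_of_inCone hin) hfI hf0
  have h7 : a ≤ v.ord (f' : K) := ha.2 ⟨f', h4, by rw [h5]; exact ym_ne _, rfl⟩
  rw [h5, ord_ym, htv, pr_smul_right] at h7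
  rw [hfa]
  exact h7.trans (mul_le_mul_of_nonneg_left h6 hk)

/-- the order of a component of the boundary which does not contain the centre -/
theorem ord_eq_nu {g : ToricGerm n K} {v : DVal K} (hov : OverAt g.P v)
    {p : MvPolynomial (Fin n) ℂ} (hp : Prime p)
    (h0 : ∀ i : Fin n, (valP K p hp).ord (cv K i) = 0)
    (h : ∃ f : g.X.R, (valP K p hp).Pos (f : K) ∧ ¬ v.Pos (f : K)) :
    v.ord (jo (Fin n) K p) = nu (tv v) p := by
  obtain ⟨f, hf, hnf⟩ := h
  obtain ⟨M, q, e1, e2, e3⟩ := g.rep f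
  have hf0 : (f : K) ≠ 0 := fun h3 => hnf (Or.inl h3)
  have hq : q ≠ 0 := h_ne hf0 e1
  have hpq : p ∣ q := by
    by_contra h3
    have h4 := valP_other (K := K) hp hq h3
    have h7 : (tv (valP K p hp) : Fin n → ℤ) = 0 := funext h0
    rw [← e1, (valP K p hp).map_mul _ _ hf0 (ym_ne _), ord_ym, h7, pr] at h4
    simp only [Pi.zero_apply, mul_zero, Finset.sum_const_zero, add_zero] at h4
    rcases hf with hf | hf
    · exact hf0 hf
    · omega
  obtain ⟨q', rfl⟩ := hpq
  have hq' : q' ≠ 0 := right_ne_zero_of_mul hq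
  have hford : v.ord (f : K) = 0 := by
    have h5 := v.ord_nonneg hf0 (reg_of_overAt hov f)
    by_contra h7
    exact hnf (Or.inr (by omega))
  have h1 : v.ord (jo (Fin n) K (p * q')) = pr (ex M) (tv v) := by
    rw [← e1, v.map_mul _ _ hf0 (ym_ne _), hford, zero_add, ord_ym]
  have h2 : pr (ex M) (tv v) ≤ nu (tv v) (p * q') := by
    obtain ⟨s, hs, h3⟩ := nu_mem (tv v) hq
    rw [h3]
    have h4 := inCone_over hov _ (e3 s hs)
    rw [pr_sub] at h4
    omega
  rw [nu_mul _ hp.ne_zero hq', ← h1, map_mul,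
    v.map_mul _ _ (jo_ne hp.ne_zero) (jo_ne hq')] at h2
  have h3 := nu_le_ord v hp.ne_zero
  have h4 := nu_le_ord v hq'
  omega

/-- if the centre of `v` is not contained in a non-toric component of the boundary, the local
equation has the same order as along the monomial valuation of the same direction -/
theorem eq_ord {g : ToricGerm n K} {B : EffDiv g.X} (e : LocEq B g.P) {v v' : DVal K}
    (hov : OverAt g.P v) (hv' : IsMonomial n v') {k : ℤ} (hk : 0 ≤ k)
    (htv : (tv v : Fin n → ℤ) = k • tv v')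
    (hB : ∀ w, OnAt g.P w → (∀ i : Fin n, w.ord (cv K i) = 0) → B.mult w ≠ 0 →
      ∃ f : g.X.R, w.Pos (f : K) ∧ ¬ v.Pos (f : K)) :
    ∑ j, e.ρ j * (v.ord (e.g j) : ℝ) = (k : ℝ) * ∑ j, e.ρ j * (v'.ord (e.g j) : ℝ) := by
  classical
  obtain ⟨F, c, hFp, hFd, hc⟩ := fact (n := n) e.ρ e.g e.ne
  rw [hc, hc, Finset.mul_sum]
  refine Finset.sum_congr rfl fun p hp => ?_
  have hp0 := (hFp p hp).ne_zero
  have h1 : nu (tv v) p = k * v'.ord (jo (Fin n) K p) := nu_mon hv' hk htv hp0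
  by_cases h2 : Thr g p
  · obtain ⟨hpp, hcv, hon⟩ := h2
    obtain ⟨b, hb, h3⟩ := e.eq _ hon
    have hL := g.local_prime hpp hcv
    have h4 : b = 0 := hb.unique (can_unit g.e g.hT (by rw [← g.hR]; exact hL) hcv)
    have h5 : ∑ q ∈ F, c q * ((valP K p hpp).ord (jo (Fin n) K q) : ℝ) = c p := by
      rw [Finset.sum_eq_single p]
      · rw [valP_self]; push_cast; ring
      · intro q hq hqp
        rw [valP_other hpp (hFp q hq).ne_zero fun h => hqp (hFd p hp q hq h).symm]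
        push_cast; ring
      · intro h; exact absurd hp h
    rw [hc, h5, h4, Int.cast_zero, zero_add] at h3
    by_cases h6 : c p = 0
    · rw [h6]; ring
    · have h7 := ord_eq_nu hov hpp hcv (hB _ hon hcv (by rw [h3]; exact h6))
      rw [h7, h1]
      push_cast
      ring
  · rw [(not_thr (hFp p hp) h2).1 v hov, h1]
    push_cast
    ring

/-- **Lower semicontinuity at `P`.** -/
theorem lsc {g : ToricGerm n K} {B : EffDiv g.X} {e : LocEq B g.P} {q : ℕ}
    {I : Fin q → Ideal g.X.R} {cc : Fin q → ℝ} (hI : ∀ j, I j ≠ ⊥ ∧ 0 ≤ cc j) {m : ℝ}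
    (hm0 : 0 ≤ m) (hm : IsTriMld e I cc m) {v : DVal K} (hov : OverAt g.P v) {a : ℝ}
    (ha : IsTriDisc e I cc v a) {J : Ideal g.X.R} (hJ : IsCentre v J) {z : ℕ}
    (hz : Algebra.trdeg ℂ (g.X.R ⧸ J) = z)
    (hcase : IsMonomial n v ∨
      ((∀ j, IsMonIdeal g (I j)) ∧ ∀ w, OnAt g.P w → (∀ i : Fin n, w.ord (cv K i) = 0) →
        B.mult w ≠ 0 → ∃ f : g.X.R, w.Pos (f : K) ∧ f ∉ J) ∨
      ((∀ j, IsMonIdeal g (I j)) ∧ IsMonIdeal g J ∧ NondegAll g B)) :
    m ≤ a + z := by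
  have hn : 0 < n := by
    obtain ⟨⟨v0, hov0, -⟩, -⟩ := hm
    by_contra h
    have h1 : IsEmpty (Fin n) := ⟨fun i => by have := i.2; omega⟩
    apply ne_zero_of_inter (ToricGerm.inter_of_over (n := n) hov0)
    exact Subsingleton.elim _ _
  have hin := inCone_over hov
  obtain ⟨c, x, S, hx, hxC, -, hS, hcard, -⟩ := exists_rays g hin
  have hcard' : (S.card : ℝ) ≤ c := by exact_mod_cast hcard
  rcases hcase with hv | ⟨hmon, hB⟩ | ⟨hmon, hJm, hB⟩
  · have h1 := jac_centre hov (can_mon g.e g.hT hv) hx hxC hJ hz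
    have h2 : m ≤ ((1 : ℤ) : ℝ) * a + S.card :=
      key_le hI hm0 hm hn hv zero_le_one (by rw [one_smul]; exact hin) ha S
        (by rw [one_smul]; exact hS)
    have h3 : (c : ℝ) ≤ z := by
      have : (c : ℤ) ≤ z := by linarith
      exact_mod_cast this
    push_cast at h2
    linarith
  · obtain ⟨v', k, hv', hin', hk, htv⟩ := exists_dir g hn hin
    obtain ⟨t, o, ⟨N, hN, ht⟩, ho, rfl⟩ := ha
    choose o' ho' using fun j => exists_ordOf' (reg_of_inCone hin') (hI j).1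
    have h1 := jac_centre hov hN hx hxC hJ hz
    have h2 : m ≤ (k : ℝ) * ((-∑ j, e.ρ j * (v'.ord (e.g j) : ℝ)) -
        ∑ j, cc j * (o' j : ℝ)) + S.card :=
      key_le hI hm0 hm hn hv' hk (by rw [← htv]; exact hin)
        ⟨_, o', (logDisc_mon hv').2 rfl, ho', rfl⟩ S (by rw [← htv]; exact hS)
    have h3 := eq_ord e hov hv' hk htv fun w hw hcv hmu => by
      obtain ⟨f, hf, hfJ⟩ := hB w hw hcv hmu
      exact ⟨f, hf, fun h => hfJ ((hJ f).2 h)⟩
    have h4 : ∑ j, cc j * (o j : ℝ) ≤ (k : ℝ) * ∑ j, cc j * (o' j : ℝ) := by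
      rw [Finset.mul_sum]
      refine Finset.sum_le_sum fun j _ => ?_
      have h5 : (o j : ℝ) ≤ (k : ℝ) * (o' j : ℝ) := by
        exact_mod_cast mon_ord_le (hmon j) hin' hk htv (ho j) (ho' j)
      have h6 := mul_le_mul_of_nonneg_left h5 (hI j).2
      linarith
    have h5 : (c : ℝ) ≤ N + 1 + z := by exact_mod_cast h1
    rw [ht, h3]
    rw [mul_sub, mul_neg] at h2
    linarith
  · have hprime := isPrime_centre hJ
    have hreg := reg_of_overAt hov
    have hJne : J ≠ ⊥ := by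
      obtain ⟨f, hf0, hf1⟩ := v.surj
      obtain ⟨s, t, hs, ht, ht0, hst⟩ := g.X.frac f
      have hs0 : s ≠ 0 := by rw [← hst]; exact mul_ne_zero hf0 ht0
      have h1 : v.ord s = 1 + v.ord t := by rw [← hst, v.map_mul _ _ hf0 ht0, hf1]
      have h2 := v.ord_nonneg ht0 (hreg ⟨t, ht⟩)
      intro h
      have h3 : (⟨s, hs⟩ : g.X.R) ∈ J := (hJ _).2 (Or.inr (by change 0 < v.ord s; omega))
      rw [h, Submodule.mem_bot] at h3
      exact hs0 (congrArg Subtype.val h3)
    have hmonpos : ∀ f : g.X.R, f ∈ J → ∀ y ∈ Cn g.E, (f : K) = ym K y → 0 < pr y (tv v) := by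
      intro f hf y _ hfy
      rcases (hJ f).1 hf with h1 | h1
      · rw [hfy] at h1
        exact absurd h1 (ym_ne _)
      · rwa [hfy, ord_ym] at h1
    have hu0 : (tv v : Fin n → ℤ) ≠ 0 := by
      intro h0
      apply hJne
      rw [hJm, Ideal.span_eq_bot]
      rintro f ⟨hf, y, hy, hfy⟩
      have := hmonpos f hf y hy hfy
      rw [h0, pr] at this
      simp at this
    obtain ⟨k, u', hk, hu', htv⟩ := exists_prim hu0
    obtain ⟨v', hv', rfl⟩ := exists_mon (K := K) hu'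
    have hin' : g.InCone (tv v') := by
      intro y hy
      have h1 := hin y hy
      rw [htv, pr_smul_right] at h1
      exact nonneg_of_mul_nonneg_right h1 hk
    obtain ⟨t, o, hlt, ho, rfl⟩ := ha
    choose o' ho' using fun j => exists_ordOf' (reg_of_inCone hin') (hI j).1
    have h2 : m ≤ (k : ℝ) * ((-∑ j, e.ρ j * (v'.ord (e.g j) : ℝ)) -
        ∑ j, cc j * (o' j : ℝ)) + S.card :=
      key_le hI hm0 hm hn hv' hk.le (by rw [← htv]; exact hin)
        ⟨_, o', (logDisc_mon hv').2 rfl, ho', rfl⟩ S (by rw [← htv]; exact hS)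
    have h3 := le_of_nondeg_all hB hov hu0 hlt hv' hk htv
    have h4 : ∑ j, cc j * (o j : ℝ) ≤ (k : ℝ) * ∑ j, cc j * (o' j : ℝ) := by
      rw [Finset.mul_sum]
      refine Finset.sum_le_sum fun j _ => ?_
      have h5 : (o j : ℝ) ≤ (k : ℝ) * (o' j : ℝ) := by
        exact_mod_cast mon_ord_le (hmon j) hin' hk.le htv (ho j) (ho' j)
      have h6 := mul_le_mul_of_nonneg_left h5 (hI j).2
      linarith
    have hJ' : ∀ f ∈ J, v'.Pos (f : K) := by
      intro f hf
      rw [hJm] at hf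
      induction hf using Submodule.span_induction with
      | mem f hf =>
        obtain ⟨hfJ, y, hy, hfy⟩ := hf
        right
        have h5 := hmonpos f hfJ y hy hfy
        rw [htv, pr_smul_right] at h5
        rw [hfy, ord_ym]
        exact (pos_iff_pos_of_mul_pos h5).1 hk
      | zero => exact Or.inl rfl
      | add f f' _ _ h5 h6 => exact v'.pos_add h5 h6
      | smul b f _ h5 => exact v'.pos_mul_left (reg_of_inCone hin' b) h5
    have hxC' : ∀ i, x i ∈ Cn g.E ∧ pr (x i) (tv v') = 0 := by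
      intro i
      refine ⟨(hxC i).1, ?_⟩
      have h5 := (hxC i).2
      rw [htv, pr_smul_right] at h5
      exact (mul_eq_zero.1 h5).resolve_left hk.ne'
    have h5 := indep_mod hv' hx hxC' J hJ'
    rw [hz] at h5
    have h6 : (c : ℝ) ≤ z := by
      have : c ≤ z := by exact_mod_cast h5
      exact_mod_cast this
    rw [mul_sub] at h2
    linarith

end Pool.Agent.V1195.Lsc
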