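import Mathlib
import Pool.Agent.V1195.L2Tools

/-!
A function orthogonal to all characters of a real variable has vanishing integrals over all
preimages; bounded pointwise convergence gives convergence in L².
-/

set_option autoImplicit false
open Filter Topology MeasureTheory
open scoped InnerProductSpace ENNReal

namespace Pool.Agent.V1195.CharTools

noncomputable section

variable {α : Type*} [MeasurableSpace α] {μ : Measure α}

/-- real version -/
lemma setIntegral_zero_real (u : α → ℝ) (hu : Measurable u) (h : α → ℝ) (hh : Integrable h μ)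
    (hm : Measurable h)
    (H : ∀ ξ : ℝ, ∫ t, Complex.exp (ξ * u t * Complex.I) * (h t : ℂ) ∂μ = 0)
    (A : Set ℝ) (hA : MeasurableSet A) : ∫ t in u ⁻¹' A, h t ∂μ = 0 := by
  -- positive and negative parts as densities
  let p : α → ℝ≥0∞ := fun t => ENNReal.ofReal (h t)
  let q : α → ℝ≥0∞ := fun t => ENNReal.ofReal (-h t)
  have hpm : Measurable p := hm.ennreal_ofReal
  have hqm : Measurable q := hm.neg.ennreal_ofReal
  have hpfin : ∫⁻ t, p t ∂μ ≠ ∞ := by
    have := hh.lintegral_lt_top
    exact this.ne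
  have hqfin : ∫⁻ t, q t ∂μ ≠ ∞ := by
    have := hh.neg.lintegral_lt_top
    exact this.ne
  have hpf : IsFiniteMeasure (μ.withDensity p) := isFiniteMeasure_withDensity hpfin
  have hqf : IsFiniteMeasure (μ.withDensity q) := isFiniteMeasure_withDensity hqfin
  have hintp : ∀ F : α → ℂ, ∫ t, F t ∂(μ.withDensity p) = ∫ t, ((max (h t) 0 : ℝ) : ℂ) * F t ∂μ := by
    intro F
    rw [integral_withDensity_eq_integral_toReal_smul hpm (Eventually.of_forall fun t => ENNReal.ofReal_lt_top)]
    refine integral_congr_ae (Eventually.of_forall fun t => ?_)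
    change (p t).toReal • F t = _
    rw [ENNReal.toReal_ofReal', Complex.real_smul]
  have hintq : ∀ F : α → ℂ, ∫ t, F t ∂(μ.withDensity q) = ∫ t, ((max (-h t) 0 : ℝ) : ℂ) * F t ∂μ := by
    intro F
    rw [integral_withDensity_eq_integral_toReal_smul hqm (Eventually.of_forall fun t => ENNReal.ofReal_lt_top)]
    refine integral_congr_ae (Eventually.of_forall fun t => ?_)
    change (q t).toReal • F t = _
    rw [ENNReal.toReal_ofReal', Complex.real_smul]
  have hip : Integrable (fun t => max (h t) 0) μ := hh.pos_part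
  have hiq : Integrable (fun t => max (-h t) 0) μ := hh.neg_part
  have hmE : ∀ ξ : ℝ, AEStronglyMeasurable (fun t => Complex.exp (ξ * u t * Complex.I)) μ := by
    intro ξ
    have : Measurable (fun t => Complex.exp (ξ * u t * Complex.I)) := by fun_prop
    exact this.aestronglyMeasurable
  have hnE : ∀ ξ : ℝ, ∀ t, ‖Complex.exp (ξ * u t * Complex.I)‖ ≤ 1 := by
    intro ξ t
    rw [← Complex.ofReal_mul, Complex.norm_exp_ofReal_mul_I]
  have heq : (μ.withDensity p).map u = (μ.withDensity q).map u := by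
    have : IsFiniteMeasure ((μ.withDensity p).map u) := Measure.isFiniteMeasure_map _ _
    have : IsFiniteMeasure ((μ.withDensity q).map u) := Measure.isFiniteMeasure_map _ _
    refine Measure.ext_of_charFun ?_
    funext ξ
    rw [charFun_apply_real, charFun_apply_real, integral_map hu.aemeasurable (by fun_prop),
      integral_map hu.aemeasurable (by fun_prop), hintp, hintq, ← sub_eq_zero,
      ← integral_sub]
    · rw [← H ξ]
      refine integral_congr_ae (Eventually.of_forall fun t => ?_)
      change ((max (h t) 0 : ℝ) : ℂ) * Complex.exp (ξ * u t * Complex.I) -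
        ((max (-h t) 0 : ℝ) : ℂ) * Complex.exp (ξ * u t * Complex.I)
        = Complex.exp (ξ * u t * Complex.I) * (h t : ℂ)
      rw [← sub_mul, mul_comm]
      congr 1
      rw [← Complex.ofReal_sub]
      congr 1
      rcases le_total 0 (h t) with h0 | h0
      · rw [max_eq_left h0, max_eq_right (by linarith)]; ring
      · rw [max_eq_right h0, max_eq_left (by linarith)]; ring
    · exact hip.ofReal.mul_bdd (c := 1) (hmE ξ) (Eventually.of_forall (hnE ξ))
    · exact hiq.ofReal.mul_bdd (c := 1) (hmE ξ) (Eventually.of_forall (hnE ξ))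
  have hA2 : (μ.withDensity p) (u ⁻¹' A) = (μ.withDensity q) (u ⁻¹' A) := by
    rw [← Measure.map_apply hu hA, ← Measure.map_apply hu hA, heq]
  rw [withDensity_apply _ (hu hA), withDensity_apply _ (hu hA)] at hA2
  rw [integral_eq_lintegral_pos_part_sub_lintegral_neg_part hh.integrableOn]
  rw [hA2, sub_self]

/-- complex version -/
lemma setIntegral_zero (u : α → ℝ) (hu : Measurable u) (h : α → ℂ) (hh : Integrable h μ)
    (H : ∀ ξ : ℝ, ∫ t, Complex.exp (ξ * u t * Complex.I) * h t ∂μ = 0)
    (A : Set ℝ) (hA : MeasurableSet A) : ∫ t in u ⁻¹' A, h t ∂μ = 0 := by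
  -- reduce to a measurable representative
  wlog hm : Measurable h generalizing h
  · obtain ⟨g, hg, hgh⟩ := hh.aemeasurable
    have h1 := this g (hh.congr hgh) (fun ξ => by
      rw [← H ξ]
      refine integral_congr_ae ?_
      filter_upwards [hgh] with t ht
      rw [ht]) hg
    rw [← h1]
    refine integral_congr_ae (ae_restrict_of_ae hgh)
  have hmE : ∀ ξ : ℝ, AEStronglyMeasurable (fun t => Complex.exp (ξ * u t * Complex.I)) μ := by
    intro ξ
    have : Measurable (fun t => Complex.exp (ξ * u t * Complex.I)) := by fun_prop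
    exact this.aestronglyMeasurable
  have hnE : ∀ ξ : ℝ, ∀ t, ‖Complex.exp (ξ * u t * Complex.I)‖ ≤ 1 := by
    intro ξ t
    rw [← Complex.ofReal_mul, Complex.norm_exp_ofReal_mul_I]
  have hconj : ∀ ξ : ℝ, ∫ t, Complex.exp (ξ * u t * Complex.I) * (starRingEnd ℂ) (h t) ∂μ = 0 := by
    intro ξ
    have h1 := congrArg (starRingEnd ℂ) (H (-ξ))
    rw [← integral_conj, map_zero] at h1
    rw [← h1]
    refine integral_congr_ae (Eventually.of_forall fun t => ?_)
    change _ = (starRingEnd ℂ) (Complex.exp (((-ξ : ℝ) : ℂ) * u t * Complex.I) * h t)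
    rw [map_mul, ← Complex.exp_conj]
    congr 2
    simp
  have hcint : Integrable (fun t => (starRingEnd ℂ) (h t)) μ := by
    have := hh.norm
    refine this.mono' (Complex.continuous_conj.measurable.comp hm).aestronglyMeasurable
      (Eventually.of_forall fun t => ?_)
    rw [RCLike.norm_conj]
  have i1 : ∀ ξ : ℝ, Integrable (fun t => Complex.exp (ξ * u t * Complex.I) * h t) μ := fun ξ =>
    hh.bdd_mul (c := 1) (hmE ξ) (Eventually.of_forall (hnE ξ))
  have i2 : ∀ ξ : ℝ, Integrable (fun t => Complex.exp (ξ * u t * Complex.I) *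
      (starRingEnd ℂ) (h t)) μ := fun ξ =>
    hcint.bdd_mul (c := 1) (hmE ξ) (Eventually.of_forall (hnE ξ))
  have hre : ∫ t in u ⁻¹' A, (h t).re ∂μ = 0 := by
    refine setIntegral_zero_real u hu (fun t => (h t).re) hh.re
      (Complex.measurable_re.comp hm) (fun ξ => ?_) A hA
    have h2 : ∀ t, Complex.exp (ξ * u t * Complex.I) * ((h t).re : ℂ) =
        (2 : ℂ)⁻¹ * (Complex.exp (ξ * u t * Complex.I) * h t +
          Complex.exp (ξ * u t * Complex.I) * (starRingEnd ℂ) (h t)) := by
      intro t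
      rw [← mul_add, Complex.add_conj]
      push_cast; ring
    simp_rw [h2]
    rw [integral_const_mul, integral_add (i1 ξ) (i2 ξ), H ξ, hconj ξ]
    simp
  have him : ∫ t in u ⁻¹' A, (h t).im ∂μ = 0 := by
    refine setIntegral_zero_real u hu (fun t => (h t).im) hh.im
      (Complex.measurable_im.comp hm) (fun ξ => ?_) A hA
    have h2 : ∀ t, Complex.exp (ξ * u t * Complex.I) * ((h t).im : ℂ) =
        (2 * Complex.I)⁻¹ * (Complex.exp (ξ * u t * Complex.I) * h t -
          Complex.exp (ξ * u t * Complex.I) * (starRingEnd ℂ) (h t)) := by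
      intro t
      rw [← mul_sub, Complex.sub_conj]
      have : (2 * Complex.I : ℂ) ≠ 0 := by simp
      field_simp
      push_cast; ring
    simp_rw [h2]
    rw [integral_const_mul, integral_sub (i1 ξ) (i2 ξ), H ξ, hconj ξ]
    simp
  have h3 := integral_re_add_im (𝕜 := ℂ) (f := h) (μ := μ.restrict (u ⁻¹' A)) hh.integrableOn
  rw [← h3]
  simp only [RCLike.re_to_complex, RCLike.im_to_complex]
  rw [hre, him]; simp

/-- bounded pointwise convergence implies convergence in L² on a finite measure space -/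
lemma tendsto_Lp_bdd [IsFiniteMeasure μ] (f : ℕ → Lp ℂ 2 μ) (g : Lp ℂ 2 μ) (B : ℝ) (hB0 : 0 ≤ B)
    (hB : ∀ k, ∀ᵐ x ∂μ, ‖f k x‖ ≤ B) (hg : ∀ᵐ x ∂μ, ‖g x‖ ≤ B)
    (h : ∀ᵐ x ∂μ, Tendsto (fun k => f k x) atTop (𝓝 (g x))) : Tendsto f atTop (𝓝 g) := by
  rw [tendsto_iff_norm_sub_tendsto_zero]
  have h1 : Tendsto (fun k => ∫⁻ x, ‖f k x - g x‖ₑ ^ 2 ∂μ) atTop (𝓝 (∫⁻ x, 0 ∂μ)) := by
    refine tendsto_lintegral_of_dominated_convergence' (fun _ => (ENNReal.ofReal (2 * B)) ^ 2)
      (fun k => ?_) (fun k => ?_) ?_ ?_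
    · exact (((Lp.aestronglyMeasurable (f k)).sub (Lp.aestronglyMeasurable g)).enorm).pow_const 2
    · filter_upwards [hB k, hg] with x hx hx'
      refine pow_le_pow_left' ?_ 2
      rw [← ofReal_norm]
      refine ENNReal.ofReal_le_ofReal ?_
      exact (norm_sub_le _ _).trans (by linarith)
    · rw [lintegral_const]
      exact ENNReal.mul_ne_top (ENNReal.pow_ne_top ENNReal.ofReal_ne_top) (measure_ne_top _ _)
    · filter_upwards [h] with x hx
      have h2 : Tendsto (fun k => ‖f k x - g x‖ₑ) atTop (𝓝 0) := by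
        have h3 : Tendsto (fun k => f k x - g x) atTop (𝓝 0) := by
          rw [← sub_self (g x)]; exact hx.sub_const _
        have h4 := h3.enorm
        rwa [enorm_zero] at h4
      have h5 : Tendsto (fun k => ‖f k x - g x‖ₑ ^ 2) atTop (𝓝 (0 ^ 2)) :=
        ((ENNReal.continuous_pow 2).tendsto 0).comp h2
      rw [zero_pow two_ne_zero] at h5
      exact h5
  rw [lintegral_zero] at h1
  have h2 : ∀ k, ‖f k - g‖ₑ ^ 2 = ∫⁻ x, ‖f k x - g x‖ₑ ^ 2 ∂μ := by
    intro k
    rw [Pool.Agent.V1195.L2Tools.enorm_sq_Lp]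
    refine lintegral_congr_ae ?_
    filter_upwards [Lp.coeFn_sub (f k) g] with x hx
    rw [hx, Pi.sub_apply]
  simp_rw [← h2] at h1
  have h3 : Tendsto (fun k => ‖f k - g‖ ^ 2) atTop (𝓝 0) := by
    have h4 := (ENNReal.tendsto_toReal ENNReal.zero_ne_top).comp h1
    refine h4.congr (fun k => ?_)
    simp [Function.comp]
  have h4 := (Real.continuous_sqrt.tendsto 0).comp h3
  rw [Real.sqrt_zero] at h4
  refine h4.congr (fun k => ?_)
  simp [Function.comp, Real.sqrt_sq]

end

end Pool.Agent.V1195.CharTools
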