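import Mathlib

/-!
A diagonal semigroup on the space of continuous functions on the plane vanishing at infinity.
-/

set_option autoImplicit false
open Filter Topology MeasureTheory

namespace Pool.Agent.V1195.C0Semi

noncomputable section

abbrev X : Type := ZeroAtInftyContinuousMap (ℝ × ℝ) ℂ

/-- The symbol of the generator. -/
def sym (w : ℝ × ℝ) : ℂ := -((Real.exp (-|w.1|) : ℝ) : ℂ) + (w.2 : ℂ) * Complex.I

lemma continuous_sym : Continuous sym := by
  unfold sym; fun_prop

lemma sym_re (w : ℝ × ℝ) : (sym w).re = -Real.exp (-|w.1|) := by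
  simp only [sym, Complex.add_re, Complex.neg_re, Complex.ofReal_re, Complex.mul_re,
    Complex.I_re, Complex.ofReal_im, Complex.I_im]
  ring

/-- the multiplier at time `t` -/
def mul (t : ℝ) (w : ℝ × ℝ) : ℂ := Complex.exp (((max t 0 : ℝ) : ℂ) * sym w)

lemma continuous_mul (t : ℝ) : Continuous (mul t) := by
  unfold mul
  have := continuous_sym
  fun_prop

lemma continuous_mul' : Continuous (fun p : ℝ × (ℝ × ℝ) => mul p.1 p.2) := by
  unfold mul
  have := continuous_sym
  fun_prop

lemma norm_mul (t : ℝ) (w : ℝ × ℝ) :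
    ‖mul t w‖ = Real.exp (-(max t 0) * Real.exp (-|w.1|)) := by
  rw [mul, Complex.norm_exp]
  congr 1
  rw [Complex.re_ofReal_mul, sym_re]
  ring

lemma norm_mul_le (t : ℝ) (w : ℝ × ℝ) : ‖mul t w‖ ≤ 1 := by
  rw [norm_mul]
  apply Real.exp_le_one_iff.2
  have h1 : 0 ≤ max t 0 := le_max_right _ _
  have h2 := Real.exp_pos (-|w.1|)
  nlinarith

lemma norm_le_iff {f : X} {C : ℝ} (hC : 0 ≤ C) : ‖f‖ ≤ C ↔ ∀ w, ‖f w‖ ≤ C := by
  rw [← ZeroAtInftyContinuousMap.norm_toBCF_eq_norm, BoundedContinuousFunction.norm_le hC]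
  rfl

lemma apply_le (f : X) (w : ℝ × ℝ) : ‖f w‖ ≤ ‖f‖ :=
  (norm_le_iff (norm_nonneg f)).1 le_rfl w

/-- multiplication applied to an element -/
def mulFun (t : ℝ) (f : X) : X where
  toFun w := mul t w * f w
  continuous_toFun := (continuous_mul t).mul f.continuous_toFun
  zero_at_infty' := by
    have h := f.zero_at_infty'
    rw [tendsto_zero_iff_norm_tendsto_zero] at h ⊢
    refine squeeze_zero (fun w => norm_nonneg _) (fun w => ?_) h
    rw [_root_.norm_mul]
    exact mul_le_of_le_one_left (norm_nonneg _) (norm_mul_le t w)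

lemma mulFun_apply (t : ℝ) (f : X) (w : ℝ × ℝ) : mulFun t f w = mul t w * f w := rfl

/-- The semigroup. -/
def T (t : ℝ) : X →L[ℂ] X :=
  LinearMap.mkContinuous
    { toFun := mulFun t
      map_add' := by
        intro f g
        ext w
        simp only [mulFun_apply, ZeroAtInftyContinuousMap.add_apply]
        ring
      map_smul' := by
        intro c f
        ext w
        simp only [mulFun_apply, ZeroAtInftyContinuousMap.smul_apply, smul_eq_mul,
          RingHom.id_apply]
        ring } 1 (by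
      intro f
      rw [one_mul]
      rw [norm_le_iff (norm_nonneg f)]
      intro w
      change ‖mul t w * f w‖ ≤ ‖f‖
      rw [_root_.norm_mul]
      calc ‖mul t w‖ * ‖f w‖ ≤ 1 * ‖f w‖ :=
            mul_le_mul_of_nonneg_right (norm_mul_le t w) (norm_nonneg _)
        _ = ‖f w‖ := one_mul _
        _ ≤ ‖f‖ := apply_le f w)

lemma T_apply (t : ℝ) (f : X) (w : ℝ × ℝ) : T t f w = mul t w * f w := rfl

lemma norm_T_le (t : ℝ) : ‖T t‖ ≤ 1 := LinearMap.mkContinuous_norm_le _ zero_le_one _

lemma T_zero : T 0 = 1 := by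
  ext f w
  rw [T_apply]
  simp [mul]

lemma T_add (s t : ℝ) (hs : 0 ≤ s) (ht : 0 ≤ t) : T (s + t) = T s * T t := by
  ext f w
  rw [mul_apply_eq_comp, T_apply, T_apply, T_apply, ← mul_assoc]
  congr 1
  rw [mul, mul, mul, ← Complex.exp_add, max_eq_left hs, max_eq_left ht,
    max_eq_left (add_nonneg hs ht)]
  congr 1
  push_cast
  ring

/-- outside a compact set an element is small -/
lemma small_outside (f : X) {ε : ℝ} (hε : 0 < ε) :
    ∃ K : Set (ℝ × ℝ), IsCompact K ∧ ∀ w, w ∉ K → ‖f w‖ < ε := by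
  have h := f.zero_at_infty'
  have h2 : ∀ᶠ w in cocompact (ℝ × ℝ), ‖f w‖ < ε := by
    have := (tendsto_zero_iff_norm_tendsto_zero.1 h).eventually (gt_mem_nhds hε)
    exact this
  rw [Filter.eventually_iff, Filter.mem_cocompact] at h2
  obtain ⟨K, hK, hK2⟩ := h2
  exact ⟨K, hK, fun w hw => hK2 hw⟩

lemma continuous_T (f : X) : Continuous (fun t : ℝ => T t f) := by
  rw [continuous_iff_continuousAt]
  intro t₀
  rw [ContinuousAt, tendsto_iff_norm_sub_tendsto_zero, Metric.tendsto_nhds_nhds]
  intro ε hε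
  obtain ⟨K, hK, hK2⟩ := small_outside f (show 0 < ε / 4 by positivity)
  -- uniform continuity on a compact box
  have hcomp : IsCompact (Set.Icc (t₀ - 1) (t₀ + 1) ×ˢ K) := isCompact_Icc.prod hK
  have hunif := hcomp.uniformContinuousOn_of_continuous
    (f := fun p : ℝ × (ℝ × ℝ) => mul p.1 p.2) continuous_mul'.continuousOn
  rw [Metric.uniformContinuousOn_iff] at hunif
  obtain ⟨δ, hδ, hδ2⟩ := hunif (ε / (4 * (‖f‖ + 1))) (by positivity)
  refine ⟨min δ 1, lt_min hδ one_pos, fun t ht => ?_⟩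
  rw [dist_zero_right, norm_norm]
  have hle : ‖T t f - T t₀ f‖ ≤ ε / 2 := by
    rw [norm_le_iff (by positivity)]
    intro w
    rw [ZeroAtInftyContinuousMap.sub_apply, T_apply, T_apply, ← sub_mul, _root_.norm_mul]
    by_cases hw : w ∈ K
    · have h1 : dist (mul t w) (mul t₀ w) < ε / (4 * (‖f‖ + 1)) := by
        have ht' : |t - t₀| < 1 := lt_of_lt_of_le (by simpa [Real.dist_eq] using ht) (min_le_right _ _)
        have ht'' := abs_lt.1 ht'
        refine hδ2 (t, w) ⟨⟨by linarith, by linarith⟩, hw⟩ (t₀, w)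
          ⟨⟨by linarith, by linarith⟩, hw⟩ ?_
        rw [Prod.dist_eq, dist_self]
        exact max_lt (lt_of_lt_of_le ht (min_le_left _ _)) hδ
      rw [dist_eq_norm] at h1
      calc ‖mul t w - mul t₀ w‖ * ‖f w‖ ≤ ε / (4 * (‖f‖ + 1)) * (‖f‖ + 1) :=
            mul_le_mul h1.le ((apply_le f w).trans (by linarith)) (norm_nonneg _) (by positivity)
        _ = ε / 4 := by
            have : ‖f‖ + 1 ≠ 0 := by positivity
            field_simp
        _ ≤ ε / 2 := by linarith
    · have h1 : ‖mul t w - mul t₀ w‖ ≤ 2 :=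
        (norm_sub_le _ _).trans (by linarith [norm_mul_le t w, norm_mul_le t₀ w])
      calc ‖mul t w - mul t₀ w‖ * ‖f w‖ ≤ 2 * (ε / 4) :=
            mul_le_mul h1 (hK2 w hw).le (norm_nonneg _) (by norm_num)
        _ = ε / 2 := by ring
  linarith

lemma tendsto_T (f : X) : Tendsto (fun t : ℝ => T t f) atTop (𝓝 0) := by
  rw [tendsto_zero_iff_norm_tendsto_zero, Metric.tendsto_atTop]
  intro ε hε
  obtain ⟨K, hK, hK2⟩ := small_outside f (show 0 < ε / 2 by positivity)
  -- on K the first coordinate is bounded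
  obtain ⟨R, hR⟩ := hK.isBounded.subset_closedBall (0 : ℝ × ℝ)
  have hδ : ∀ w ∈ K, Real.exp (-R) ≤ Real.exp (-|w.1|) := by
    intro w hw
    have := hR hw
    rw [mem_closedBall_zero_iff, Prod.norm_def] at this
    apply Real.exp_le_exp.2
    have h2 := (le_max_left _ _).trans this
    rw [Real.norm_eq_abs] at h2
    linarith
  have hlim : Tendsto (fun t : ℝ => Real.exp (-t * Real.exp (-R)) * ‖f‖) atTop (𝓝 (0 * ‖f‖)) := by
    refine Tendsto.mul_const _ ?_
    refine Real.tendsto_exp_atBot.comp ?_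
    have : Tendsto (fun t : ℝ => t * Real.exp (-R)) atTop atTop :=
      tendsto_id.atTop_mul_const (Real.exp_pos _)
    have h2 := tendsto_neg_atTop_atBot.comp this
    refine h2.congr (fun t => ?_)
    simp only [Function.comp]
    ring
  rw [zero_mul] at hlim
  obtain ⟨N, hN⟩ := (Metric.tendsto_atTop.1 hlim) (ε / 2) (by positivity)
  refine ⟨max N 0, fun t ht => ?_⟩
  have ht0 : 0 ≤ t := (le_max_right _ _).trans ht
  rw [dist_zero_right, norm_norm]
  have hle : ‖T t f‖ ≤ ε / 2 := by
    rw [norm_le_iff (by positivity)]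
    intro w
    rw [T_apply, _root_.norm_mul]
    by_cases hw : w ∈ K
    · have h1 := hN t ((le_max_left _ _).trans ht)
      rw [dist_zero_right, Real.norm_eq_abs, abs_of_nonneg (by positivity)] at h1
      refine le_trans ?_ h1.le
      refine mul_le_mul ?_ (apply_le f w) (norm_nonneg _) (Real.exp_pos _).le
      rw [norm_mul, max_eq_left ht0]
      apply Real.exp_le_exp.2
      have := hδ w hw
      nlinarith
    · calc ‖mul t w‖ * ‖f w‖ ≤ 1 * (ε / 2) :=
            mul_le_mul (norm_mul_le t w) (hK2 w hw).le (norm_nonneg _) (by norm_num)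
        _ = ε / 2 := one_mul _
  linarith

/-- evaluation as a continuous linear functional -/
def ev (w : ℝ × ℝ) : X →L[ℂ] ℂ :=
  LinearMap.mkContinuous
    { toFun := fun f => f w
      map_add' := fun f g => rfl
      map_smul' := fun c f => rfl } 1 (by
      intro f
      rw [one_mul]
      exact apply_le f w)

lemma ev_apply (w : ℝ × ℝ) (f : X) : ev w f = f w := rfl

/-- The integrand of the Laplace transform. -/
def integrand (a s : ℝ) (f : X) (t : ℝ) : X :=
  Complex.exp (-(((a : ℂ) + (s : ℂ) * Complex.I) * (t : ℂ))) • T t f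

lemma norm_expo (a s t : ℝ) :
    ‖Complex.exp (-(((a : ℂ) + (s : ℂ) * Complex.I) * (t : ℂ)))‖ = Real.exp (-(a * t)) := by
  rw [Complex.norm_exp]
  congr 1
  simp

lemma integrable_integrand (a s : ℝ) (ha : 0 < a) (f : X) :
    IntegrableOn (integrand a s f) (Set.Ioi (0 : ℝ)) := by
  have hc : Continuous (integrand a s f) := by
    unfold integrand
    have := continuous_T f
    fun_prop
  have h1 : IntegrableOn (fun t : ℝ => Real.exp (-a * t) * ‖f‖) (Set.Ioi (0 : ℝ)) :=
    (integrableOn_exp_mul_Ioi (show -a < 0 by linarith) 0).mul_const _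
  refine Integrable.mono' h1 hc.aestronglyMeasurable (ae_of_all _ (fun t => ?_))
  rw [integrand, norm_smul, norm_expo, neg_mul]
  refine mul_le_mul_of_nonneg_left ?_ (Real.exp_pos _).le
  calc ‖T t f‖ ≤ ‖T t‖ * ‖f‖ := (T t).le_opNorm f
    _ ≤ 1 * ‖f‖ := mul_le_mul_of_nonneg_right (norm_T_le t) (norm_nonneg _)
    _ = ‖f‖ := one_mul _

/-- The value of the resolvent at the point `(p, s)`. -/
lemma integral_eval (a s p : ℝ) (ha : 0 < a) (f : X) :
    (∫ t in Set.Ioi (0 : ℝ), integrand a s f t) (p, s)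
      = f (p, s) / ((a + Real.exp (-|p|) : ℝ) : ℂ) := by
  rw [← ev_apply, ← ContinuousLinearMap.integral_comp_comm _ (integrable_integrand a s ha f)]
  have h1 : ∀ t ∈ Set.Ioi (0 : ℝ), ev (p, s) (integrand a s f t)
      = Complex.exp (-((a + Real.exp (-|p|) : ℝ) : ℂ) * t) * f (p, s) := by
    intro t ht
    rw [ev_apply, integrand, ZeroAtInftyContinuousMap.smul_apply, T_apply, smul_eq_mul, ← mul_assoc]
    congr 1
    rw [mul, ← Complex.exp_add, max_eq_left (le_of_lt ht), sym]
    congr 1
    push_cast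
    ring
  rw [setIntegral_congr_fun measurableSet_Ioi h1, integral_mul_const]
  have hpos : 0 < a + Real.exp (-|p|) := by positivity
  have h2 := integral_exp_mul_complex_Ioi (a := -((a + Real.exp (-|p|) : ℝ) : ℂ))
    (by rw [Complex.neg_re, Complex.ofReal_re]; linarith) 0
  rw [h2]
  simp only [Complex.ofReal_zero, mul_zero, Complex.exp_zero]
  have hne : ((a + Real.exp (-|p|) : ℝ) : ℂ) ≠ 0 := by
    exact_mod_cast hpos.ne'
  field_simp

end

end Pool.Agent.V1195.C0Semi
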