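import Mathlib

/-!
Cyclic operators: no ball of cyclic operators on an infinite dimensional Hilbert space.
-/

set_option autoImplicit false
open Filter Topology
open scoped InnerProductSpace
set_option linter.unusedSectionVars false

namespace Pool.Agent.V1195.Cyc

noncomputable section

/-- An operator on a nontrivial Banach space cannot satisfy a lower bound for all its
translates uniformly. -/
lemma no_uniform_lower {Y : Type*} [NormedAddCommGroup Y] [NormedSpace ℂ Y] [CompleteSpace Y]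
    [Nontrivial Y] (M : Y →L[ℂ] Y) (c : ℝ) (hc : 0 < c)
    (h : ∀ (μ : ℂ) (y : Y), c * ‖y‖ ≤ ‖M y - μ • y‖) : False := by
  have hclosed : IsClosed (resolventSet ℂ M) := by
    rw [isClosed_iff_clusterPt]
    intro μ hμ
    rw [← mem_closure_iff_clusterPt, Metric.mem_closure_iff] at hμ
    obtain ⟨ν, hν, hd⟩ := hμ c hc
    rw [spectrum.mem_resolventSet_iff] at hν ⊢
    obtain ⟨u, hu⟩ := hν
    have hinv : ‖((u⁻¹ : (Y →L[ℂ] Y)ˣ) : Y →L[ℂ] Y)‖ ≤ c⁻¹ := by
      refine ContinuousLinearMap.opNorm_le_bound _ (inv_nonneg.2 hc.le) (fun y => ?_)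
      have h1 := h ν (((u⁻¹ : (Y →L[ℂ] Y)ˣ) : Y →L[ℂ] Y) y)
      have h2 : M (((u⁻¹ : (Y →L[ℂ] Y)ˣ) : Y →L[ℂ] Y) y) -
          ν • (((u⁻¹ : (Y →L[ℂ] Y)ˣ) : Y →L[ℂ] Y) y) = -y := by
        have h3 : (u : Y →L[ℂ] Y) (((u⁻¹ : (Y →L[ℂ] Y)ˣ) : Y →L[ℂ] Y) y) = y := by
          have h4 := u.mul_inv
          have h5 := congrArg (fun F : Y →L[ℂ] Y => F y) h4
          exact h5
        rw [hu] at h3
        have h6 : (algebraMap ℂ (Y →L[ℂ] Y) ν - M) (((u⁻¹ : (Y →L[ℂ] Y)ˣ) : Y →L[ℂ] Y) y)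
          = ν • (((u⁻¹ : (Y →L[ℂ] Y)ˣ) : Y →L[ℂ] Y) y) -
            M (((u⁻¹ : (Y →L[ℂ] Y)ˣ) : Y →L[ℂ] Y) y) := rfl
        rw [h6] at h3
        rw [← neg_sub, h3]
      rw [h2, norm_neg] at h1
      rw [inv_mul_eq_div, le_div_iff₀ hc]
      linarith
    have hne : (0 : ℝ) < ‖((u⁻¹ : (Y →L[ℂ] Y)ˣ) : Y →L[ℂ] Y)‖ := by
      rw [norm_pos_iff]
      exact Units.ne_zero _
    refine ⟨Units.ofNearby u (algebraMap ℂ (Y →L[ℂ] Y) μ - M) ?_, rfl⟩
    have h7 : algebraMap ℂ (Y →L[ℂ] Y) μ - M - (u : Y →L[ℂ] Y) =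
        algebraMap ℂ (Y →L[ℂ] Y) (μ - ν) := by
      rw [hu, map_sub]; abel
    rw [h7, norm_algebraMap, norm_one, mul_one]
    calc ‖μ - ν‖ = dist μ ν := (dist_eq_norm _ _).symm
      _ < c := hd
      _ ≤ _ := by
        rw [le_inv_comm₀ hc hne]
        exact hinv
  have hopen : IsOpen (resolventSet ℂ M) := spectrum.isOpen_resolventSet M
  have hnon : (resolventSet ℂ M).Nonempty := by
    by_contra hcon
    rw [Set.not_nonempty_iff_eq_empty] at hcon
    have hsp : spectrum ℂ M = Set.univ := by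
      rw [spectrum, hcon, Set.compl_empty]
    have h8 := spectrum.isCompact (𝕜 := ℂ) M
    rw [hsp] at h8
    exact noncompact_univ ℂ h8
  have huniv : resolventSet ℂ M = Set.univ := IsClopen.eq_univ ⟨hclosed, hopen⟩ hnon
  have h9 := spectrum.nonempty M
  rw [spectrum, huniv, Set.compl_univ] at h9
  exact Set.not_nonempty_empty h9

variable {H : Type*} [NormedAddCommGroup H] [InnerProductSpace ℂ H] [CompleteSpace H]

/-- A left inverse on the orthogonal complement of a vector. -/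
lemma exists_left_inverse (D : H →L[ℂ] H) (e : H) (c : ℝ) (hc : 0 < c)
    (h : ∀ x : H, ⟪e, x⟫_ℂ = 0 → c * ‖x‖ ≤ ‖D x‖) :
    ∃ L : H →L[ℂ] H, ‖L‖ ≤ c⁻¹ ∧ ∀ x : H, ⟪e, x⟫_ℂ = 0 → L (D x) = x := by
  let V : Submodule ℂ H := (ℂ ∙ e)ᗮ
  have hV : ∀ x : H, x ∈ V ↔ ⟪e, x⟫_ℂ = 0 := fun x => Submodule.mem_orthogonal_singleton_iff_inner_right
  have hVc : IsClosed (V : Set H) := Submodule.isClosed_orthogonal _
  have : CompleteSpace V := hVc.completeSpace_coe
  let D' : V →L[ℂ] H := D.comp V.subtypeL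
  have hD' : ∀ x : V, c * ‖x‖ ≤ ‖D' x‖ := fun x => h x ((hV x).1 x.2)
  have hanti : AntilipschitzWith (Real.toNNReal c⁻¹) D' := by
    refine AddMonoidHomClass.antilipschitz_of_bound D' (fun x => ?_)
    rw [Real.coe_toNNReal _ (inv_nonneg.2 hc.le), inv_mul_eq_div, le_div_iff₀ hc]
    linarith [hD' x]
  have hclosed : IsClosed (LinearMap.range D'.toLinearMap : Set H) := by
    have h0 := hanti.isClosed_range D'.uniformContinuous
    have h00 : (LinearMap.range D'.toLinearMap : Set H) = Set.range D' := by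
      ext y; simp
    rw [h00]
    exact h0
  let R : Submodule ℂ H := LinearMap.range D'.toLinearMap
  have : CompleteSpace R := hclosed.completeSpace_coe
  have hinj : Function.Injective D'.toLinearMap := hanti.injective
  let E := LinearEquiv.ofInjective D'.toLinearMap hinj
  let F : R →L[ℂ] V := LinearMap.mkContinuous E.symm.toLinearMap c⁻¹ (by
    intro y
    obtain ⟨x, rfl⟩ := E.surjective y
    have h1 : E.symm.toLinearMap (E x) = x := E.symm_apply_apply x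
    rw [h1]
    have h2 : ‖E x‖ = ‖D' x‖ := rfl
    rw [h2, inv_mul_eq_div, le_div_iff₀ hc]
    linarith [hD' x])
  have hF : ‖F‖ ≤ c⁻¹ := LinearMap.mkContinuous_norm_le _ (inv_nonneg.2 hc.le) _
  refine ⟨V.subtypeL.comp (F.comp R.orthogonalProjectionOnto), ?_, ?_⟩
  · refine ContinuousLinearMap.opNorm_le_bound _ (inv_nonneg.2 hc.le) (fun y => ?_)
    change ‖F (R.orthogonalProjectionOnto y)‖ ≤ _
    calc ‖F (R.orthogonalProjectionOnto y)‖ ≤ ‖F‖ * ‖R.orthogonalProjectionOnto y‖ := F.le_opNorm _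
      _ ≤ c⁻¹ * ‖y‖ := by
        refine mul_le_mul hF ?_ (norm_nonneg _) (inv_nonneg.2 hc.le)
        exact Submodule.norm_orthogonalProjectionOnto_apply_le R y
  · intro x hx
    have h1 : R.orthogonalProjectionOnto (D x) = E ⟨x, (hV x).2 hx⟩ := by
      have h3 : D x = ((E ⟨x, (hV x).2 hx⟩ : R) : H) := rfl
      rw [h3]
      exact Submodule.orthogonalProjectionOnto_mem_subspace_eq_self _
    change ((F (R.orthogonalProjectionOnto (D x)) : V) : H) = x
    rw [h1]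
    change ((E.symm (E ⟨x, (hV x).2 hx⟩) : V) : H) = x
    rw [E.symm_apply_apply]

/-- Rank one plus compact: the defect of the left inverse is compact. -/
lemma defect_compact (D L : H →L[ℂ] H) (e : H) (he : ‖e‖ = 1)
    (hL : ∀ x : H, ⟪e, x⟫_ℂ = 0 → L (D x) = x) :
    IsCompactOperator (fun x : H => x - L (D x)) := by
  have h1 : (fun x : H => x - L (D x)) =
      (ContinuousLinearMap.toSpanSingleton ℂ (e - L (D e))) ∘ (innerSL ℂ e : H →L[ℂ] ℂ) := by
    funext x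
    have h2 : ⟪e, x - ⟪e, x⟫_ℂ • e⟫_ℂ = 0 := by
      rw [inner_sub_right, inner_smul_right, inner_self_eq_norm_sq_to_K, he]
      simp
    have h3 := hL _ h2
    rw [map_sub, map_smul, map_sub, map_smul] at h3
    simp only [Function.comp, innerSL_apply_apply, ContinuousLinearMap.toSpanSingleton_apply,
      smul_sub]
    have h4 : L (D x) - ⟪e, x⟫_ℂ • L (D e) = x - ⟪e, x⟫_ℂ • e := h3
    have h5 : L (D x) = x - ⟪e, x⟫_ℂ • e + ⟪e, x⟫_ℂ • L (D e) := by rw [← h4]; abel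
    rw [h5]; abel
  rw [h1]
  exact (isCompactOperator_of_locallyCompactSpace_dom (innerSL ℂ e : H →L[ℂ] ℂ)).clm_comp _

variable (H) in
/-- The compact operators. -/
abbrev KK : Submodule ℂ (H →L[ℂ] H) := compactOperator (RingHom.id ℂ) H H

instance isClosed_KK : IsClosed (KK H : Set (H →L[ℂ] H)) :=
  isClosed_setOfPred_isCompactOperator

lemma mem_KK (T : H →L[ℂ] H) : T ∈ KK H ↔ IsCompactOperator T := Iff.rfl

variable (H) in
abbrev QQ := (H →L[ℂ] H) ⧸ (KK H)

/-- Left multiplication on the quotient. -/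
def LM (S : H →L[ℂ] H) : QQ H →L[ℂ] QQ H :=
  (KK H).liftQL ((KK H).mkQL.comp (ContinuousLinearMap.compL ℂ H H H S)) (by
    intro T hT
    change (KK H).mkQL (S.comp T) = 0
    rw [Submodule.mkQL_apply, Submodule.mkQ_apply, Submodule.Quotient.mk_eq_zero]
    exact IsCompactOperator.clm_comp (hT : IsCompactOperator T) S)

lemma LM_mk (S T : H →L[ℂ] H) :
    LM S (Submodule.Quotient.mk T : QQ H) = Submodule.Quotient.mk (S.comp T) := rfl

/-- The lower bound in the quotient. -/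
lemma lower_quot (S : H →L[ℂ] H) (μ : ℂ) (e : H) (he : ‖e‖ = 1) (c : ℝ) (hc : 0 < c)
    (h : ∀ x : H, ⟪e, x⟫_ℂ = 0 → c * ‖x‖ ≤ ‖S x - μ • x‖) (y : QQ H) :
    c * ‖y‖ ≤ ‖LM S y - μ • y‖ := by
  obtain ⟨X, rfl⟩ := Submodule.Quotient.mk_surjective _ y
  let D : H →L[ℂ] H := S - μ • ContinuousLinearMap.id ℂ H
  obtain ⟨L, hL, hL2⟩ := exists_left_inverse D e c hc h
  have hdef := defect_compact D L e he hL2
  have h1 : LM S (Submodule.Quotient.mk X : QQ H) - μ • (Submodule.Quotient.mk X : QQ H)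
      = Submodule.Quotient.mk (D.comp X) := by
    rw [LM_mk, ← Submodule.Quotient.mk_smul, ← Submodule.Quotient.mk_sub]
    congr 1
  rw [h1]
  refine le_of_forall_pos_le_add (fun ε hε => ?_)
  obtain ⟨m, hm, hm2⟩ := Submodule.Quotient.norm_mk_lt
    (Submodule.Quotient.mk (D.comp X) : QQ H) hε
  have h2 : (Submodule.Quotient.mk X : QQ H) = Submodule.Quotient.mk (L.comp m) := by
    rw [Submodule.Quotient.eq, mem_KK]
    have h3 : (D.comp X - m) ∈ KK H := by
      rw [← Submodule.Quotient.eq]; exact hm.symm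
    have h4 : IsCompactOperator (L.comp (D.comp X - m)) := IsCompactOperator.clm_comp
      ((mem_KK _).1 h3) L
    have h5 : IsCompactOperator ((fun x : H => x - L (D x)) ∘ X) := hdef.comp_clm X
    have h6 := h4.add h5
    have h8 : ((X - L.comp m : H →L[ℂ] H) : H → H) =
        (L.comp (D.comp X - m) : H →L[ℂ] H) + ((fun x : H => x - L (D x)) ∘ X) := by
      funext x
      simp
    rw [h8]
    exact h6
  have h7 : ‖(Submodule.Quotient.mk X : QQ H)‖ ≤ c⁻¹ * ‖m‖ := by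
    rw [h2]
    refine (Submodule.Quotient.norm_mk_le _ _).trans ?_
    refine (ContinuousLinearMap.opNorm_comp_le L m).trans ?_
    exact mul_le_mul_of_nonneg_right hL (norm_nonneg _)
  calc c * ‖(Submodule.Quotient.mk X : QQ H)‖ ≤ c * (c⁻¹ * ‖m‖) :=
        mul_le_mul_of_nonneg_left h7 hc.le
    _ = ‖m‖ := by rw [← mul_assoc, mul_inv_cancel₀ hc.ne', one_mul]
    _ ≤ _ := hm2.le

/-- Two approximate eigenvectors give a non cyclic operator nearby. -/
lemma perturb (A : H →L[ℂ] H) (ε : ℝ) (hε : 0 < ε)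
    (hA : ∀ B : H →L[ℂ] H, ‖B - A‖ < ε → ∃ f : H,
      (Submodule.span ℂ (Set.range fun n : ℕ => (B ^ n) f)).topologicalClosure = ⊤)
    (μ : ℂ) (e x : H) (he : ‖e‖ = 1) (hx : ‖x‖ = 1) (hex : ⟪e, x⟫_ℂ = 0)
    (h1 : ‖A.adjoint e - μ • e‖ < ε / 3) (h2 : ‖A.adjoint x - μ • x‖ < ε / 3) : False := by
  set u := A.adjoint e - μ • e with hu
  set v := A.adjoint x - μ • x with hv
  let G : H →L[ℂ] H := (innerSL ℂ e).smulRight u + (innerSL ℂ x).smulRight v
  have hGap : ∀ y, G y = ⟪e, y⟫_ℂ • u + ⟪x, y⟫_ℂ • v := fun y => rfl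
  have hG : ‖G‖ ≤ ‖u‖ + ‖v‖ := by
    refine ContinuousLinearMap.opNorm_le_bound _ (by positivity) (fun y => ?_)
    rw [hGap]
    calc ‖⟪e, y⟫_ℂ • u + ⟪x, y⟫_ℂ • v‖ ≤ ‖⟪e, y⟫_ℂ • u‖ + ‖⟪x, y⟫_ℂ • v‖ := norm_add_le _ _
      _ = ‖⟪e, y⟫_ℂ‖ * ‖u‖ + ‖⟪x, y⟫_ℂ‖ * ‖v‖ := by rw [norm_smul, norm_smul]
      _ ≤ (‖e‖ * ‖y‖) * ‖u‖ + (‖x‖ * ‖y‖) * ‖v‖ := by
        gcongr
        · exact norm_inner_le_norm _ _
        · exact norm_inner_le_norm _ _
      _ = _ := by rw [he, hx]; ring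
  let B : H →L[ℂ] H := A - G.adjoint
  have hB : ‖B - A‖ < ε := by
    have : B - A = -G.adjoint := by simp [B]
    rw [this, norm_neg]
    have h3 : ‖G.adjoint‖ = ‖G‖ := LinearIsometryEquiv.norm_map _ _
    rw [h3]
    linarith
  have hBadj : ∀ y, B.adjoint y = A.adjoint y - G y := by
    intro y
    simp [B]
  have hee : ⟪e, e⟫_ℂ = 1 := by rw [inner_self_eq_norm_sq_to_K, he]; simp
  have hxx : ⟪x, x⟫_ℂ = 1 := by rw [inner_self_eq_norm_sq_to_K, hx]; simp
  have hxe : ⟪x, e⟫_ℂ = 0 := by rw [← inner_conj_symm, hex]; simp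
  have hBe : B.adjoint e = μ • e := by
    rw [hBadj, hGap, hee, hxe, hu]; simp
  have hBx : B.adjoint x = μ • x := by
    rw [hBadj, hGap, hex, hxx, hv]; simp
  obtain ⟨f, hf⟩ := hA B hB
  -- a nonzero eigenvector orthogonal to f
  have hg : ∃ g : H, g ≠ 0 ∧ B.adjoint g = μ • g ∧ ⟪f, g⟫_ℂ = 0 := by
    by_cases hfe : ⟪f, e⟫_ℂ = 0
    · refine ⟨e, ?_, hBe, hfe⟩
      intro h0; rw [h0, norm_zero] at he; exact one_ne_zero he.symm
    · refine ⟨⟪f, x⟫_ℂ • e - ⟪f, e⟫_ℂ • x, ?_, ?_, ?_⟩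
      · intro h0
        have h4 := congrArg (fun z => ⟪x, z⟫_ℂ) h0
        simp only [inner_sub_right, inner_smul_right, hxe, hxx, inner_zero_right] at h4
        apply hfe
        linear_combination -h4
      · rw [map_sub, map_smul, map_smul, hBe, hBx, smul_sub, smul_comm μ, smul_comm μ]
      · rw [inner_sub_right, inner_smul_right, inner_smul_right]; ring
  obtain ⟨g, hg0, hgB, hfg⟩ := hg
  have hpow : ∀ n : ℕ, ⟪(B ^ n) f, g⟫_ℂ = μ ^ n * ⟪f, g⟫_ℂ := by
    intro n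
    induction n with
    | zero => simp
    | succ n ih =>
      have h5 : (B ^ (n + 1)) f = B ((B ^ n) f) := by
        rw [pow_succ']; rfl
      rw [h5, ← ContinuousLinearMap.adjoint_inner_right, hgB, inner_smul_right, ih]
      ring
  have horth : g ∈ (Submodule.span ℂ (Set.range fun n : ℕ => (B ^ n) f))ᗮ := by
    rw [Submodule.mem_orthogonal]
    intro w hw
    induction hw using Submodule.span_induction with
    | mem w hw =>
      obtain ⟨n, rfl⟩ := hw
      change ⟪(B ^ n) f, g⟫_ℂ = 0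
      rw [hpow, hfg, mul_zero]
    | zero => simp
    | add a b _ _ ha hb => rw [inner_add_left, ha, hb, add_zero]
    | smul c a _ ha => rw [inner_smul_left, ha, mul_zero]
  rw [← Submodule.orthogonal_closure, hf, Submodule.top_orthogonal_eq_bot] at horth
  exact hg0 ((Submodule.mem_bot ℂ).1 horth)

/-- No ball of cyclic operators. -/
theorem main (hH : ¬ FiniteDimensional ℂ H) (A : H →L[ℂ] H) (ε : ℝ) (hε : 0 < ε)
    (hA : ∀ B : H →L[ℂ] H, ‖B - A‖ < ε → ∃ f : H,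
      (Submodule.span ℂ (Set.range fun n : ℕ => (B ^ n) f)).topologicalClosure = ⊤) : False := by
  have hnt : Nontrivial H := by
    by_contra hcon
    rw [not_nontrivial_iff_subsingleton] at hcon
    exact hH inferInstance
  have hQ : Nontrivial (QQ H) := by
    refine ⟨Submodule.Quotient.mk (ContinuousLinearMap.id ℂ H), 0, fun h0 => hH ?_⟩
    rw [Submodule.Quotient.mk_eq_zero, mem_KK] at h0
    exact FiniteDimensional.of_isCompactOperator_id (𝕜 := ℂ) h0
  refine no_uniform_lower (LM A.adjoint : QQ H →L[ℂ] QQ H) (ε / 3) (by positivity) (fun μ y => ?_)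
  -- choose the exceptional vector
  have hex : ∃ e : H, ‖e‖ = 1 ∧ ∀ x : H, ⟪e, x⟫_ℂ = 0 → ε / 3 * ‖x‖ ≤ ‖A.adjoint x - μ • x‖ := by
    by_cases hall : ∀ x : H, ε / 3 * ‖x‖ ≤ ‖A.adjoint x - μ • x‖
    · obtain ⟨e, he⟩ := exists_norm_eq H (zero_le_one (α := ℝ))
      exact ⟨e, he, fun x _ => hall x⟩
    · push Not at hall
      obtain ⟨x₀, hx₀⟩ := hall
      have hx₀n : x₀ ≠ 0 := by
        rintro rfl
        simp at hx₀
      have hpos : 0 < ‖x₀‖ := norm_pos_iff.2 hx₀n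
      have hnorm : ∀ z : H, z ≠ 0 → ‖A.adjoint z - μ • z‖ < ε / 3 * ‖z‖ →
          ‖A.adjoint (((‖z‖ : ℂ)⁻¹) • z) - μ • (((‖z‖ : ℂ)⁻¹) • z)‖ < ε / 3 := by
        intro z hz hlt
        have hzp : 0 < ‖z‖ := norm_pos_iff.2 hz
        rw [map_smul, smul_comm μ, ← smul_sub, norm_smul, norm_inv, Complex.norm_real, norm_norm,
          inv_mul_eq_div, div_lt_iff₀ hzp]
        exact hlt
      have hunit : ∀ z : H, z ≠ 0 → ‖((‖z‖ : ℂ)⁻¹) • z‖ = 1 := by
        intro z hz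
        rw [norm_smul, norm_inv, Complex.norm_real, norm_norm]
        exact inv_mul_cancel₀ (norm_ne_zero_iff.2 hz)
      refine ⟨((‖x₀‖ : ℂ)⁻¹) • x₀, hunit x₀ hx₀n, fun x hx => ?_⟩
      by_contra hcon
      push Not at hcon
      have hxn : x ≠ 0 := by
        rintro rfl
        simp at hcon
      refine perturb A ε hε hA μ _ _ (hunit x₀ hx₀n) (hunit x hxn) ?_
        (hnorm x₀ hx₀n hx₀) (hnorm x hxn hcon)
      rw [inner_smul_right, hx, mul_zero]
  obtain ⟨e, he, he2⟩ := hex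
  exact lower_quot A.adjoint μ e he (ε / 3) (by positivity) he2 y

open TopologicalSpace in
theorem sep : SeparableSpace (lp (fun _ : ℕ => ℂ) 2) := by
  rw [← isSeparable_univ_iff]
  have h1 : IsSeparable ((Submodule.span ℂ (Set.range fun n : ℕ =>
      (lp.single 2 n (1 : ℂ) : lp (fun _ : ℕ => ℂ) 2)) :
      Submodule ℂ (lp (fun _ : ℕ => ℂ) 2)) : Set (lp (fun _ : ℕ => ℂ) 2)) :=
    (Set.countable_range _).isSeparable.span
  refine h1.closure.mono ?_
  intro f _
  have h2 := lp.hasSum_single (E := fun _ : ℕ => ℂ) (p := 2) (by norm_num) f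
  refine mem_closure_of_tendsto h2.tendsto_sum_nat (Eventually.of_forall fun n => ?_)
  refine Submodule.sum_mem _ (fun i _ => ?_)
  have h3 : (lp.single 2 i (f i) : lp (fun _ : ℕ => ℂ) 2) =
      (f i) • (lp.single 2 i (1 : ℂ) : lp (fun _ : ℕ => ℂ) 2) := by
    rw [← lp.single_smul]
    simp
  rw [h3]
  exact Submodule.smul_mem _ _ (Submodule.subset_span ⟨i, rfl⟩)

theorem not_fd : ¬ FiniteDimensional ℂ (lp (fun _ : ℕ => ℂ) 2) := by
  intro h
  let b : HilbertBasis ℕ ℂ (lp (fun _ : ℕ => ℂ) 2) := ⟨LinearIsometryEquiv.refl ℂ _⟩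
  have h1 := b.orthonormal.linearIndependent.finite
  exact not_finite ℕ

end

end Pool.Agent.V1195.Cyc
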