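import Mathlib

/-!
Real-number core of the disproof of `A_G ≤ 2` (MP_7880bd_lc).
-/

namespace Pool.Agent.V1195.GP

/-- core inequality, nonnegative `R` -/
theorem core_nonneg (τ α U V R : ℝ) (hτ : 2 ≤ τ) (hα : 0 ≤ α) (hle : τ * α ≤ τ + α)
    (hR : 0 ≤ R) (h1 : τ - 2 + R < U) (h3 : V < α - R)
    (h5 : (τ + α) * (τ - 1) - 2 * τ < (τ - 1) * (U + V))
    (hN : α * U ^ 2 + τ * V ^ 2 = (τ + α - 4) * (α * τ + R ^ 2)) : False := by
  have hU0 : 0 ≤ τ - 2 + R := by linarith
  have hk : 0 < τ - 1 := by linarith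
  have hU2 : (τ - 2 + R) ^ 2 < U ^ 2 := by nlinarith
  have hαk : α * (τ - 1) ≤ τ := by nlinarith
  rcases le_or_gt α R with hc | hc
  · -- case 1
    have hV2 : (α - R) ^ 2 < V ^ 2 := by nlinarith
    have e1 : α * (τ - 2 + R) ^ 2 ≤ α * U ^ 2 := mul_le_mul_of_nonneg_left hU2.le hα
    have e2 : τ * (α - R) ^ 2 < τ * V ^ 2 := mul_lt_mul_of_pos_left hV2 (by linarith)
    have e3 : α * (τ - 2 + R) ^ 2 + τ * (α - R) ^ 2
        = (τ + α - 4) * (α * τ + R ^ 2) + 4 * (R * (R - α) + α) := by ring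
    have e4 : 0 ≤ R * (R - α) := mul_nonneg hR (by linarith)
    linarith
  · have hα0 : 0 < α := lt_of_le_of_lt hR hc
    rcases le_or_gt (α * (τ - 1) - 2) (R * (τ - 1)) with hd | hd
    · -- case 2
      have e1 : α * (τ - 2 + R) ^ 2 < α * U ^ 2 := mul_lt_mul_of_pos_left hU2 hα0
      have e2 : 0 ≤ τ * V ^ 2 := by positivity
      have key : 0 ≤ α * (4 - α * τ) + 2 * α * (τ - 2) * R + (4 - τ) * R ^ 2 := by
        rcases le_or_gt (α * τ) 4 with h4 | h4
        · rcases le_or_gt τ 4 with ht | ht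
          · have a1 : 0 ≤ α * (4 - α * τ) := mul_nonneg hα (by linarith)
            have a2 : 0 ≤ 2 * α * (τ - 2) * R := by
              have : 0 ≤ α * (τ - 2) := mul_nonneg hα (by linarith)
              nlinarith
            have a3 : 0 ≤ (4 - τ) * R ^ 2 := mul_nonneg (by linarith) (sq_nonneg R)
            linarith
          · have a1 : 0 ≤ α * (4 - α * τ) := mul_nonneg hα (by linarith)
            have a2 : 0 ≤ R * ((τ - 4) * (α - R)) :=
              mul_nonneg hR (mul_nonneg (by linarith) (by linarith))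
            have a3 : 0 ≤ R * (α * τ) := by positivity
            nlinarith
        · -- α τ > 4
          have hy0 : 0 ≤ (τ - 1) * (α - R) := mul_nonneg hk.le (by linarith)
          have hy2 : (τ - 1) * (α - R) ≤ 2 := by linarith
          set y := (τ - 1) * (α - R) with hy
          have hph : (τ - 1) ^ 2 *
              (α * (4 - α * τ) + 2 * α * (τ - 2) * R + (4 - τ) * R ^ 2)
              = 4 * α * (τ - 1) ^ 2 - 4 * (α * (τ - 1)) * y + (4 - τ) * y ^ 2 := by
            rw [hy]; ring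
          have hph2 : 0 ≤ α * (τ - 1) * (τ - 3) + 4 - τ := by
            rcases le_or_gt τ 3 with h | h
            · nlinarith [mul_nonneg (show (0:ℝ) ≤ τ - α * (τ - 1) by linarith)
                (show (0:ℝ) ≤ 3 - τ by linarith), sq_nonneg (τ - 2)]
            · have b1 : 4 / τ < α := by
                rw [div_lt_iff₀ (by linarith)]; linarith
              have b2 : 4 / τ * ((τ - 1) * (τ - 3)) ≤ α * ((τ - 1) * (τ - 3)) :=
                mul_le_mul_of_nonneg_right b1.le (mul_nonneg hk.le (by linarith))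
              have b3 : τ - 4 ≤ 4 / τ * ((τ - 1) * (τ - 3)) := by
                rw [div_mul_eq_mul_div, le_div_iff₀ (by linarith)]
                nlinarith [sq_nonneg (τ - 2)]
              nlinarith
          have hφ : 0 ≤ 4 * α * (τ - 1) ^ 2 - 4 * (α * (τ - 1)) * y + (4 - τ) * y ^ 2 := by
            rcases le_or_gt τ 4 with ht | ht
            · have c1 : 4 - τ ≤ α * (τ - 1) := by
                have b1 : 4 / τ < α := by
                  rw [div_lt_iff₀ (by linarith)]; linarith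
                have b2 : 4 / τ * (τ - 1) ≤ α * (τ - 1) :=
                  mul_le_mul_of_nonneg_right b1.le hk.le
                have b3 : 4 - τ ≤ 4 / τ * (τ - 1) := by
                  rw [div_mul_eq_mul_div, le_div_iff₀ (by linarith)]
                  nlinarith
                linarith
              have c2 : 0 ≤ (2 - y) * (4 * (α * (τ - 1)) - (4 - τ) * (y + 2)) := by
                apply mul_nonneg (by linarith)
                nlinarith [mul_nonneg (show (0:ℝ) ≤ 4 - τ by linarith)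
                  (show (0:ℝ) ≤ 2 - y by linarith)]
              nlinarith
            · have c1 : 0 ≤ (τ - 4) * (y * (2 - y)) :=
                mul_nonneg (by linarith) (mul_nonneg hy0 (by linarith))
              have c2 : 0 ≤ (4 * α * (τ - 1) ^ 2) * (2 - y) :=
                mul_nonneg (by positivity) (by linarith)
              have c3 : 0 ≤ (α * (τ - 1) * (τ - 3) + 4 - τ) * y := mul_nonneg hph2 hy0
              nlinarith
          have hsq : 0 < (τ - 1) ^ 2 := by positivity
          by_contra hcon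
          push Not at hcon
          nlinarith [mul_neg_of_pos_of_neg hsq hcon]
      have e3 : α * (τ - 2 + R) ^ 2 = (τ + α - 4) * (α * τ + R ^ 2)
          + (α * (4 - α * τ) + 2 * α * (τ - 2) * R + (4 - τ) * R ^ 2) := by ring
      linarith
    · -- case 3
      obtain ⟨δ, hδ⟩ : ∃ δ : ℝ, δ = 2 / (τ - 1) := ⟨_, rfl⟩
      have hδ1 : δ * (τ - 1) = 2 := by rw [hδ]; field_simp
      have hδ0 : 0 < δ := by rw [hδ]; positivity
      have hV0 : 0 < α - R - δ := by
        have : 0 < (τ - 1) * (α - R - δ) := by nlinarith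
        exact (pos_iff_pos_of_mul_pos this).mp hk
      have hb : 0 < U + V - (τ - 2 + R) - (α - R - δ) := by
        have : 0 < (τ - 1) * (U + V - (τ - 2 + R) - (α - R - δ)) := by nlinarith
        exact (pos_iff_pos_of_mul_pos this).mp hk
      have ha : 0 < U - (τ - 2 + R) := by linarith
      have hτδ : 2 * α ≤ τ * δ := by
        have : α * ((τ - 1) * δ) ≤ τ * δ := by nlinarith
        nlinarith
      have hg : 0 ≤ α * (τ - 2 + R) - τ * (α - R - δ) := by nlinarith [mul_nonneg hα hR]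
      obtain ⟨a, haa⟩ : ∃ a : ℝ, a = U - (τ - 2 + R) := ⟨_, rfl⟩
      obtain ⟨b, hbb⟩ : ∃ b : ℝ, b = U + V - (τ - 2 + R) - (α - R - δ) := ⟨_, rfl⟩
      have hUe : U = τ - 2 + R + a := by rw [haa]; ring
      have hVe : V = α - R - δ - a + b := by rw [haa, hbb]; ring
      rw [← haa] at ha
      rw [← hbb] at hb
      have q0 : 0 ≤ 4 * α - 2 * τ * α * δ + τ * δ ^ 2 := by
        have : (τ - 1) ^ 2 * (4 * α - 2 * τ * α * δ + τ * δ ^ 2)
            = 4 * (τ - α * (τ - 1)) := by
          have : (τ - 1) ^ 2 * (4 * α - 2 * τ * α * δ + τ * δ ^ 2)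
            = 4 * α * (τ - 1) ^ 2 - 2 * τ * α * (δ * (τ - 1)) * (τ - 1)
              + τ * (δ * (τ - 1)) ^ 2 := by ring
          rw [this, hδ1]; ring
        have h2 : 0 ≤ (τ - 1) ^ 2 * (4 * α - 2 * τ * α * δ + τ * δ ^ 2) := by
          rw [this]; linarith
        exact nonneg_of_mul_nonneg_right h2 (by positivity)
      have m1 : 0 ≤ a * (α * (τ - 2 + R) - τ * (α - R - δ)) := mul_nonneg ha.le hg
      have m2 : 0 < τ * (α - R - δ) * b := by positivity
      have m3 : 0 ≤ (2 * τ * δ - 4 * α) * R := mul_nonneg (by linarith) hR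
      have m4 : 0 ≤ α * a ^ 2 := by positivity
      have m5 : 0 ≤ τ * (b - a) ^ 2 := by positivity
      have m6 : 0 ≤ 4 * R ^ 2 := by positivity
      have id : α * U ^ 2 + τ * V ^ 2 = (τ + α - 4) * (α * τ + R ^ 2)
          + (4 * α - 2 * τ * α * δ + τ * δ ^ 2) + (2 * τ * δ - 4 * α) * R + 4 * R ^ 2
          + 2 * (a * (α * (τ - 2 + R) - τ * (α - R - δ)))
          + 2 * (τ * (α - R - δ) * b) + α * a ^ 2 + τ * (b - a) ^ 2 := by
        rw [hUe, hVe]; ring
      linarith

theorem core (τ α U V R : ℝ) (hτ : 2 ≤ τ) (hα : 0 ≤ α) (hle : τ * α ≤ τ + α)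
    (h1 : τ - 2 + R < U) (h2 : τ - 2 - R < U) (h3 : V < α - R) (h4 : V < α + R)
    (h5 : (τ + α) * (τ - 1) - 2 * τ < (τ - 1) * (U + V))
    (hN : α * U ^ 2 + τ * V ^ 2 = (τ + α - 4) * (α * τ + R ^ 2)) : False := by
  rcases le_total 0 R with h | h
  · exact core_nonneg τ α U V R hτ hα hle h h1 h3 h5 hN
  · exact core_nonneg τ α U V (-R) hτ hα hle (by linarith) (by linarith) (by linarith) h5
      (by rw [hN]; ring)

/-- homogeneous version -/
theorem core_hom (d e τ α U V R : ℝ) (hd : 0 < d) (he : 0 < e) (hτ : 2 * d ≤ τ) (hα : 0 ≤ α)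
    (hle : τ * α ≤ d * (τ + α))
    (h1 : 0 < U - (τ - 2 * d) * e - R) (h2 : 0 < U - (τ - 2 * d) * e + R)
    (h3 : 0 < α * e - R - V) (h4 : 0 < α * e + R - V)
    (h5 : 0 < (τ - d) * (U + V) - ((τ + α) * (τ - d) - 2 * τ * d) * e)
    (hN : α * U ^ 2 + τ * V ^ 2 = (τ + α - 4 * d) * (α * τ * e ^ 2 + R ^ 2)) : False := by
  have hd' : d ≠ 0 := hd.ne'
  have he' : e ≠ 0 := he.ne'
  refine core (τ / d) (α / d) (U / (d * e)) (V / (d * e)) (R / (d * e)) ?_ ?_ ?_ ?_ ?_ ?_ ?_ ?_ ?_
  · rw [le_div_iff₀ hd]; linarith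
  · positivity
  · have : τ / d * (α / d) = (τ * α) / (d * d) := by field_simp
    rw [this, div_le_iff₀ (by positivity)]
    have : (τ / d + α / d) * (d * d) = d * (τ + α) := by field_simp
    rw [this]; exact hle
  · have : τ / d - 2 + R / (d * e) = ((τ - 2 * d) * e + R) / (d * e) := by field_simp
    rw [this]
    exact div_lt_div_of_pos_right (by linarith) (by positivity)
  · have : τ / d - 2 - R / (d * e) = ((τ - 2 * d) * e - R) / (d * e) := by field_simp
    rw [this]
    exact div_lt_div_of_pos_right (by linarith) (by positivity)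
  · have : α / d - R / (d * e) = (α * e - R) / (d * e) := by field_simp
    rw [this]
    exact div_lt_div_of_pos_right (by linarith) (by positivity)
  · have : α / d + R / (d * e) = (α * e + R) / (d * e) := by field_simp
    rw [this]
    exact div_lt_div_of_pos_right (by linarith) (by positivity)
  · have e1 : (τ / d + α / d) * (τ / d - 1) - 2 * (τ / d)
        = (((τ + α) * (τ - d) - 2 * τ * d) * e) / (d * d * e) := by field_simp
    have e2 : (τ / d - 1) * (U / (d * e) + V / (d * e)) = ((τ - d) * (U + V)) / (d * d * e) := by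
      field_simp
    rw [e1, e2]
    exact div_lt_div_of_pos_right (by linarith) (by positivity)
  · have e1 : α / d * (U / (d * e)) ^ 2 + τ / d * (V / (d * e)) ^ 2
        = (α * U ^ 2 + τ * V ^ 2) / (d ^ 3 * e ^ 2) := by field_simp
    have e2 : (τ / d + α / d - 4) * (α / d * (τ / d) + (R / (d * e)) ^ 2)
        = ((τ + α - 4 * d) * (α * τ * e ^ 2 + R ^ 2)) / (d ^ 3 * e ^ 2) := by field_simp
    rw [e1, e2, hN]

/-- null relation for a rank-one functional and two traceless anticommuting matrices -/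
theorem null_rel (p0 p1 q0 q1 w1 w2 w3 e1 e2 e3 : ℝ)
    (h : 2 * w1 * e1 + w2 * e3 + w3 * e2 = 0) :
    -(w1 ^ 2 + w2 * w3) * (e1 ^ 2 + e2 * e3) * (p0 * q0 + p1 * q1) ^ 2
    + (e1 ^ 2 + e2 * e3) * (p0 * (w1 * q0 + w2 * q1) + p1 * (w3 * q0 - w1 * q1)) ^ 2
    + (w1 ^ 2 + w2 * w3) * (p0 * (e1 * q0 + e2 * q1) + p1 * (e3 * q0 - e1 * q1)) ^ 2
    - (p0 * ((e1 * w1 + e2 * w3) * q0 + (e1 * w2 - e2 * w1) * q1)
      + p1 * ((e3 * w1 - e1 * w3) * q0 + (e3 * w2 + e1 * w1) * q1)) ^ 2 = 0 := by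
  linear_combination (-(p0 ^ 2 * e2 - 2 * p0 * p1 * e1 - p1 ^ 2 * e3)
    * (q0 ^ 2 * w3 - 2 * q0 * q1 * w1 - q1 ^ 2 * w2)) * h

end Pool.Agent.V1195.GP
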