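import Pool.Agent.V1195.GPWord

/-!
No rank-one functional exposes `XXXYXXY` when `X, Y` are real 2×2 matrices with the same trace
and the same determinant.
-/

open Matrix

namespace Pool.Agent.V1195.GP

theorem lin3 {c1 c2 c3 D1 D2 D3 : ℝ} (h1 : 0 ≤ c1) (h2 : 0 ≤ c2) (h3 : 0 < c3)
    (d1 : 0 < D1) (d2 : 0 < D2) (d3 : 0 < D3) (e : c1 * D1 + c2 * D2 + c3 * D3 = 0) : False := by
  have a1 := mul_nonneg h1 d1.le
  have a2 := mul_nonneg h2 d2.le
  have a3 := mul_pos h3 d3
  linarith

theorem fn_conj (X M : M2) (p q : Fin 2 → ℝ) :
    fn (p ᵥ* X) (X *ᵥ q) M = fn p q (X * M * X) := by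
  simp only [fn]
  rw [← mulVec_mulVec, ← mulVec_mulVec, dotProduct_mulVec p X]

theorem no_exposed (A : Bool → M2) (htr : (A false).trace = (A true).trace)
    (hdet : (A false).det = (A true).det) (p q : Fin 2 → ℝ) :
    ¬ Exposed A p q [false, false, false, true, false, false, true] := by
  intro h
  obtain ⟨t, ht⟩ : ∃ t, t = (A false).trace := ⟨_, rfl⟩
  obtain ⟨d, hd⟩ : ∃ d, d = (A false).det := ⟨_, rfl⟩
  obtain ⟨s, hs⟩ : ∃ s, s = (A false * A true).trace := ⟨_, rfl⟩
  have hX : A false * A false = t • A false - d • (1 : M2) := by
    rw [ht, hd]; exact ch _
  have hY : A true * A true = t • A true - d • (1 : M2) := by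
    rw [ht, hd, htr, hdet]; exact ch _
  have hYX : A true * A false = -(A false * A true) + t • A false + t • A true
      + (s - t ^ 2) • (1 : M2) := by
    rw [ch2 (A false) (A true), ← htr, ← ht, ← hs, sq]
  have H : ∀ (p q : Fin 2 → ℝ) (w : List Bool), fn p q (ev A w)
      = val t s d (fn p q 1) (fn p q (A false)) (fn p q (A true))
        (fn p q (A false * A true)) w := fn_ev A t s d hX hY hYX
  rcases lt_trichotomy d 0 with hd0 | hd0 | hd0
  · -- d < 0 : the factor XXYXX
    have hE := Exposed.factor (u := [false]) (y := [false, false, true, false, false])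
      (v := [true]) h
    have h1 := hE [false, false, false, false, true] rfl (by decide)
    have h2 := hE [false, false, false, true, false] rfl (by decide)
    have h3 := hE [true, false, false, false, false] rfl (by decide)
    rw [H, H] at h1 h2 h3
    have k0 : 0 < t ^ 2 - d := by nlinarith [sq_nonneg t]
    have k1 : 0 ≤ -d * (t ^ 2 - d) := mul_nonneg (by linarith) k0.le
    have k2 : 0 ≤ t ^ 2 * (t ^ 2 - 2 * d) := mul_nonneg (sq_nonneg t) (by linarith)
    have k3 : 0 < d * d := mul_pos_of_neg_of_neg hd0 hd0
    refine lin3 k1 k2 k3 (sub_pos.2 h1) (sub_pos.2 h2) (sub_pos.2 h3) ?_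
    simp only [val, cf]
    ring
  · -- d = 0 : the factor XXY
    have hE := Exposed.factor (u := [false]) (y := [false, false, true])
      (v := [false, false, true]) h
    have h1 := hE [false, true, true] rfl (by decide)
    rw [H, H] at h1
    simp only [val, cf, hd0] at h1
    ring_nf at h1
    exact lt_irrefl _ h1
  · rcases le_or_gt (2 * d) s with hsd | hsd
    · -- s ≥ 2 d : the factor YXXY
      have hE := Exposed.factor (u := [false, false, false]) (y := [true, false, false, true])
        (v := []) h
      have h1 := hE [true, false, true, false] rfl (by decide)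
      have h2 := hE [true, true, false, true] rfl (by decide)
      have h3 := hE [false, true, false, true] rfl (by decide)
      rw [H, H] at h1 h2 h3
      have k1 : 0 ≤ d * d := by positivity
      have k2 : 0 ≤ s * (s - 2 * d) := mul_nonneg (by linarith) (by linarith)
      have k3 : 0 < d * (s - d) := mul_pos hd0 (by linarith)
      refine lin3 k1 k2 k3 (sub_pos.2 h1) (sub_pos.2 h2) (sub_pos.2 h3) ?_
      simp only [val, cf]
      ring
    · have hα : 0 < 2 * d - s := by linarith
      by_cases hlin : d ≤ 2 * d - s ∧ d * d ≤ (2 * d - s - d) * (t ^ 2 - d)
      · -- the factor XXXYX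
        have hE := Exposed.factor (u := []) (y := [false, false, false, true, false])
          (v := [false, true]) h
        have h1 := hE [false, false, true, false, false] rfl (by decide)
        have h2 := hE [false, false, true, true, true] rfl (by decide)
        have h3 := hE [true, false, true, true, false] rfl (by decide)
        rw [H, H] at h1 h2 h3
        have k1 : 0 ≤ (2 * d - s - d) * (t ^ 2 - d) - d * d := by linarith [hlin.2]
        have k2 : 0 ≤ d * (2 * d - s - d) := mul_nonneg hd0.le (by linarith [hlin.1])
        have k3 : 0 < d * d := by positivity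
        refine lin3 k1 k2 k3 (sub_pos.2 h1) (sub_pos.2 h2) (sub_pos.2 h3) ?_
        simp only [val, cf]
        ring
      · -- quadratic cases
        have hle : t ^ 2 * (2 * d - s) ≤ d * (t ^ 2 + (2 * d - s)) := by
          by_contra hcon
          push Not at hcon
          apply hlin
          have h0 : d * d < (2 * d - s - d) * (t ^ 2 - d) := by nlinarith
          refine ⟨?_, h0.le⟩
          by_contra hc
          push Not at hc
          nlinarith [mul_nonneg (show (0:ℝ) ≤ d - (2 * d - s) by linarith) (sq_nonneg t),
            mul_pos hd0 hα]
        rcases le_or_gt (2 * d) (t ^ 2) with hτ | hτ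
        · -- the factor XYX
          have hE := Exposed.factor (u := [false, false]) (y := [false, true, false])
            (v := [false, true]) h
          generalize p ᵥ* ev A [false, false] = p' at hE
          generalize ev A [false, true] *ᵥ q = q' at hE
          have hN := null_fn (A false) (A true) htr hdet (p' ᵥ* A false) (A false *ᵥ q')
          rw [← ht, ← hd, ← hs, fn_conj, fn_conj, fn_conj, fn_conj] at hN
          rw [show A false * 1 * A false = ev A [false, false] by simp [ev],
            show A false * A false * A false = ev A [false, false, false] by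
              simp [ev, mul_assoc],
            show A false * A true * A false = ev A [false, true, false] by
              simp [ev, mul_assoc],
            show A false * (A false * A true) * A false = ev A [false, false, true, false] by
              simp [ev, mul_assoc], H, H, H, H] at hN
          have d1 := hE [false, false, false] rfl (by decide)
          have d2 := hE [false, false, true] rfl (by decide)
          have d3 := hE [false, true, true] rfl (by decide)
          have d4 := hE [true, false, false] rfl (by decide)
          have d5 := hE [true, true, false] rfl (by decide)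
          have d6 := hE [true, true, true] rfl (by decide)
          rw [H, H] at d1 d2 d3 d4 d5 d6
          generalize fn p' q' 1 = F0 at *
          generalize fn p' q' (A false) = F1 at *
          generalize fn p' q' (A true) = F2 at *
          generalize fn p' q' (A false * A true) = F3 at *
          obtain ⟨g0, hg0⟩ : ∃ g, g = val t s d F0 F1 F2 F3 [false, false] := ⟨_, rfl⟩
          obtain ⟨gX, hgX⟩ : ∃ g, g = val t s d F0 F1 F2 F3 [false, false, false] := ⟨_, rfl⟩
          obtain ⟨gY, hgY⟩ : ∃ g, g = val t s d F0 F1 F2 F3 [false, true, false] := ⟨_, rfl⟩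
          obtain ⟨gZ, hgZ⟩ : ∃ g, g = val t s d F0 F1 F2 F3 [false, false, true, false] :=
            ⟨_, rfl⟩
          rw [← hg0, ← hgX, ← hgY, ← hgZ] at hN
          refine core_hom d (gY - gX) (t ^ 2) (2 * d - s)
            ((t ^ 2 - s - 2 * d) * t * (-g0))
            ((t ^ 2 - s - 2 * d) * (gX + gY - t * g0))
            (t * (2 * gZ - t * gX - t * gY - (s - t ^ 2) * g0))
            hd0 (by rw [hgX, hgY]; linarith) hτ hα.le hle ?_ ?_ ?_ ?_ ?_ ?_
          · have := mul_pos (show 0 < 2 * d by linarith) (sub_pos.2 d3)
            refine lt_of_lt_of_eq this ?_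
            rw [hg0, hgX, hgY, hgZ]; simp only [val, cf]; ring
          · have := mul_pos (show 0 < 2 * d by linarith) (sub_pos.2 d5)
            refine lt_of_lt_of_eq this ?_
            rw [hg0, hgX, hgY, hgZ]; simp only [val, cf]; ring
          · have := mul_pos (show 0 < 2 * d by linarith) (sub_pos.2 d2)
            refine lt_of_lt_of_eq this ?_
            rw [hg0, hgX, hgY, hgZ]; simp only [val, cf]; ring
          · have := mul_pos (show 0 < 2 * d by linarith) (sub_pos.2 d4)
            refine lt_of_lt_of_eq this ?_
            rw [hg0, hgX, hgY, hgZ]; simp only [val, cf]; ring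
          · have := mul_pos (show 0 < 2 * d * d by positivity) (sub_pos.2 d6)
            refine lt_of_lt_of_eq this ?_
            rw [hg0, hgX, hgY]; simp only [val, cf]; ring
          · linear_combination ((t ^ 2 - s - 2 * d) * t ^ 2) * hN
        · -- the factor XXX
          have hE := Exposed.factor (u := []) (y := [false, false, false])
            (v := [true, false, false, true]) h
          generalize p ᵥ* ev A [] = p' at hE
          generalize ev A [true, false, false, true] *ᵥ q = q' at hE
          have hN := null_fn (A false) (A true) htr hdet (p' ᵥ* A false) (A false *ᵥ q')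
          rw [← ht, ← hd, ← hs, fn_conj, fn_conj, fn_conj, fn_conj] at hN
          rw [show A false * 1 * A false = ev A [false, false] by simp [ev],
            show A false * A false * A false = ev A [false, false, false] by
              simp [ev, mul_assoc],
            show A false * A true * A false = ev A [false, true, false] by
              simp [ev, mul_assoc],
            show A false * (A false * A true) * A false = ev A [false, false, true, false] by
              simp [ev, mul_assoc], H, H, H, H] at hN
          have d1 := hE [false, true, false] rfl (by decide)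
          have d2 := hE [false, false, true] rfl (by decide)
          have d3 := hE [true, false, false] rfl (by decide)
          have d4 := hE [false, true, true] rfl (by decide)
          have d5 := hE [true, true, false] rfl (by decide)
          have d6 := hE [true, false, true] rfl (by decide)
          rw [H, H] at d1 d2 d3 d4 d5 d6
          generalize fn p' q' 1 = F0 at *
          generalize fn p' q' (A false) = F1 at *
          generalize fn p' q' (A true) = F2 at *
          generalize fn p' q' (A false * A true) = F3 at *
          obtain ⟨g0, hg0⟩ : ∃ g, g = val t s d F0 F1 F2 F3 [false, false] := ⟨_, rfl⟩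
          obtain ⟨gX, hgX⟩ : ∃ g, g = val t s d F0 F1 F2 F3 [false, false, false] := ⟨_, rfl⟩
          obtain ⟨gY, hgY⟩ : ∃ g, g = val t s d F0 F1 F2 F3 [false, true, false] := ⟨_, rfl⟩
          obtain ⟨gZ, hgZ⟩ : ∃ g, g = val t s d F0 F1 F2 F3 [false, false, true, false] :=
            ⟨_, rfl⟩
          rw [← hg0, ← hgX, ← hgY, ← hgZ] at hN
          have he : 0 < gX - gY := by rw [hgX, hgY]; linarith
          have hγ : 0 < t ^ 2 - s - 2 * d := by
            by_contra hc
            push Not at hc
            have a1 : (2 * d - s) * (t ^ 2 - s - 2 * d) * g0 ^ 2 ≤ 0 :=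
              mul_nonpos_of_nonpos_of_nonneg
                (mul_nonpos_of_nonneg_of_nonpos hα.le hc) (sq_nonneg _)
            have a2 : (t ^ 2 - s - 2 * d) * (gX + gY - t * g0) ^ 2 ≤ 0 :=
              mul_nonpos_of_nonpos_of_nonneg hc (sq_nonneg _)
            have a3 : 0 < (2 * d - s) * (gX - gY) ^ 2 := by positivity
            have a4 := sq_nonneg (2 * gZ - t * gX - t * gY - (s - t ^ 2) * g0)
            linarith
          refine core_hom d (gX - gY) (2 * d - s) (t ^ 2)
            (-((t ^ 2 - s - 2 * d) * (gX + gY - t * g0)))
            ((t ^ 2 - s - 2 * d) * t * g0)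
            (t * (2 * gZ - t * gX - t * gY - (s - t ^ 2) * g0))
            hd0 he (by linarith) (sq_nonneg t) (by linarith) ?_ ?_ ?_ ?_ ?_ ?_
          · have := mul_pos (show 0 < 2 * d by linarith) (sub_pos.2 d2)
            refine lt_of_lt_of_eq this ?_
            rw [hg0, hgX, hgY, hgZ]; simp only [val, cf]; ring
          · have := mul_pos (show 0 < 2 * d by linarith) (sub_pos.2 d3)
            refine lt_of_lt_of_eq this ?_
            rw [hg0, hgX, hgY, hgZ]; simp only [val, cf]; ring
          · have := mul_pos (show 0 < 2 * d by linarith) (sub_pos.2 d4)
            refine lt_of_lt_of_eq this ?_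
            rw [hg0, hgX, hgY, hgZ]; simp only [val, cf]; ring
          · have := mul_pos (show 0 < 2 * d by linarith) (sub_pos.2 d5)
            refine lt_of_lt_of_eq this ?_
            rw [hg0, hgX, hgY, hgZ]; simp only [val, cf]; ring
          · have := mul_pos (show 0 < 2 * d * d by positivity) (sub_pos.2 d6)
            refine lt_of_lt_of_eq this ?_
            rw [hg0, hgX, hgY]; simp only [val, cf]; ring
          · linear_combination ((t ^ 2 - s - 2 * d) * t ^ 2) * hN

/-- the 14-letter word `01010110010110` -/
def x0 : List Bool :=
  [false, true, false, true, false, true, true, false, false, true, false, true, true, false]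

theorem x0_eq : x0 = blk [false, false, false, true, false, false, true] := rfl

/-- no pair of real 2×2 matrices exposes a word containing `x0` -/
theorem not_exposed_x0 (P : Bool → M2) (p q : Fin 2 → ℝ) (u v : List Bool) :
    ¬ Exposed P p q (u ++ x0 ++ v) := by
  intro h
  have h1 := Exposed.factor h
  rw [x0_eq] at h1
  have h2 := Exposed.blk h1
  refine no_exposed _ ?_ ?_ _ _ h2
  · simpa using Matrix.trace_mul_comm _ _
  · simp [Matrix.det_mul, mul_comm]

end Pool.Agent.V1195.GP
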