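import Pool.Agent.V1195.GPCore

/-!
Words in two 2×2 matrices of equal trace and determinant: no rank-one functional exposes
the word `XXXYXXY`.  (`false` is `X`, `true` is `Y`.)
-/

open Matrix

namespace Pool.Agent.V1195.GP

abbrev M2 := Matrix (Fin 2) (Fin 2) ℝ

/-- product of the matrices along a word -/
def ev (A : Bool → M2) (w : List Bool) : M2 := (w.map A).prod

/-- the rank-one functional `M ↦ p M q` -/
def fn (p q : Fin 2 → ℝ) (M : M2) : ℝ := p ⬝ᵥ (M *ᵥ q)

/-- `y` is the unique maximiser of `w ↦ p A_w q` among words of its length -/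
def Exposed (A : Bool → M2) (p q : Fin 2 → ℝ) (y : List Bool) : Prop :=
  ∀ z : List Bool, z.length = y.length → z ≠ y → fn p q (ev A z) < fn p q (ev A y)

theorem ev_append (A : Bool → M2) (u v : List Bool) : ev A (u ++ v) = ev A u * ev A v := by
  simp [ev]

theorem Exposed.factor {A : Bool → M2} {p q : Fin 2 → ℝ} {u y v : List Bool}
    (h : Exposed A p q (u ++ y ++ v)) : Exposed A (p ᵥ* ev A u) (ev A v *ᵥ q) y := by
  intro z hl hne
  have h1 := h (u ++ z ++ v) (by simp [hl]) (by simpa using hne)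
  have key : ∀ w : List Bool, fn p q (ev A (u ++ w ++ v))
      = fn (p ᵥ* ev A u) (ev A v *ᵥ q) (ev A w) := by
    intro w
    simp only [fn, ev_append]
    rw [← mulVec_mulVec, ← mulVec_mulVec, dotProduct_mulVec]
  rwa [key, key] at h1

/-- block map `0 ↦ 01`, `1 ↦ 10` -/
def blk : List Bool → List Bool
  | [] => []
  | b :: w => b :: (!b) :: blk w

theorem blk_length (w : List Bool) : (blk w).length = 2 * w.length := by
  induction w with
  | nil => rfl
  | cons b w ih => simp [blk, ih]; ring

theorem blk_inj : ∀ {w w' : List Bool}, blk w = blk w' → w = w'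
  | [], [], _ => rfl
  | [], _ :: _, h => by simp [blk] at h
  | _ :: _, [], h => by simp [blk] at h
  | b :: w, b' :: w', h => by
    simp only [blk, List.cons.injEq] at h
    rw [h.1, blk_inj h.2.2]

theorem ev_blk (P : Bool → M2) (w : List Bool) :
    ev P (blk w) = ev (fun b => P b * P (!b)) w := by
  induction w with
  | nil => rfl
  | cons b w ih =>
    simp only [ev, blk, List.map_cons, List.prod_cons] at ih ⊢
    rw [ih, ← mul_assoc]

theorem Exposed.blk {P : Bool → M2} {p q : Fin 2 → ℝ} {y : List Bool}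
    (h : Exposed P p q (blk y)) : Exposed (fun b => P b * P (!b)) p q y := by
  intro z hl hne
  have h1 := h (GP.blk z) (by rw [blk_length, blk_length, hl]) (fun h' => hne (blk_inj h'))
  rwa [ev_blk, ev_blk] at h1

/-- coefficients of a word in the basis `1, X, Y, XY` -/
def cf (t s d : ℝ) : List Bool → ℝ × ℝ × ℝ × ℝ
  | [] => (1, 0, 0, 0)
  | false :: w => (-d * (cf t s d w).2.1, (cf t s d w).1 + t * (cf t s d w).2.1,
      -d * (cf t s d w).2.2.2, (cf t s d w).2.2.1 + t * (cf t s d w).2.2.2)
  | true :: w => ((cf t s d w).2.1 * (s - t ^ 2) - d * (cf t s d w).2.2.1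
        - t * d * (cf t s d w).2.2.2,
      t * (cf t s d w).2.1 + d * (cf t s d w).2.2.2,
      (cf t s d w).1 + t * (cf t s d w).2.1 + t * (cf t s d w).2.2.1 + s * (cf t s d w).2.2.2,
      -(cf t s d w).2.1)

theorem ev_eq (A : Bool → M2) (t s d : ℝ)
    (hX : A false * A false = t • A false - d • (1 : M2))
    (hY : A true * A true = t • A true - d • (1 : M2))
    (hYX : A true * A false = -(A false * A true) + t • A false + t • A true
      + (s - t ^ 2) • (1 : M2)) (w : List Bool) :
    ev A w = (cf t s d w).1 • (1 : M2) + (cf t s d w).2.1 • A false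
      + (cf t s d w).2.2.1 • A true + (cf t s d w).2.2.2 • (A false * A true) := by
  induction w with
  | nil => simp [ev, cf]
  | cons b w ih =>
    have hc : ev A (b :: w) = A b * ev A w := by simp [ev]
    rw [hc, ih]
    cases b with
    | false =>
      have hXY : A false * (A false * A true) = t • (A false * A true) - d • A true := by
        rw [← mul_assoc, hX, sub_mul, smul_mul_assoc, smul_mul_assoc, one_mul]
      simp only [cf, mul_add, mul_smul_comm, mul_one, hX, hXY]
      module
    | true =>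
      have hYXY : A true * (A false * A true)
          = d • A false + s • A true - (t * d) • (1 : M2) := by
        rw [← mul_assoc, hYX]
        simp only [add_mul, neg_mul, smul_mul_assoc, one_mul, mul_assoc, hY, mul_sub,
          mul_smul_comm, mul_one]
        module
      simp only [cf, mul_add, mul_smul_comm, mul_one, hY, hYX, hYXY]
      module

theorem ch (X : M2) : X * X = X.trace • X - X.det • (1 : M2) := by
  ext i j
  fin_cases i <;> fin_cases j <;>
    simp [Matrix.mul_apply, Fin.sum_univ_two, Matrix.trace_fin_two, Matrix.det_fin_two] <;> ring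

theorem ch2 (X Y : M2) : Y * X = -(X * Y) + Y.trace • X + X.trace • Y
    + ((X * Y).trace - X.trace * Y.trace) • (1 : M2) := by
  ext i j
  fin_cases i <;> fin_cases j <;>
    simp [Matrix.mul_apply, Fin.sum_univ_two, Matrix.trace_fin_two] <;> ring

/-- value of a word in terms of the four basic values -/
def val (t s d F0 F1 F2 F3 : ℝ) (w : List Bool) : ℝ :=
  (cf t s d w).1 * F0 + (cf t s d w).2.1 * F1 + (cf t s d w).2.2.1 * F2
    + (cf t s d w).2.2.2 * F3

theorem fn_ev (A : Bool → M2) (t s d : ℝ)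
    (hX : A false * A false = t • A false - d • (1 : M2))
    (hY : A true * A true = t • A true - d • (1 : M2))
    (hYX : A true * A false = -(A false * A true) + t • A false + t • A true
      + (s - t ^ 2) • (1 : M2)) (p q : Fin 2 → ℝ) (w : List Bool) :
    fn p q (ev A w) = val t s d (fn p q 1) (fn p q (A false)) (fn p q (A true))
      (fn p q (A false * A true)) w := by
  rw [ev_eq A t s d hX hY hYX w]
  simp only [fn, val, add_mulVec, smul_mulVec, dotProduct_add, dotProduct_smul, smul_eq_mul]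

theorem null_rel' (p0 p1 q0 q1 w1 w2 w3 e1 e2 e3 α γ F0 FW FE FEW : ℝ)
    (h : 2 * w1 * e1 + w2 * e3 + w3 * e2 = 0)
    (hα : w1 ^ 2 + w2 * w3 = -α) (hγ : e1 ^ 2 + e2 * e3 = γ)
    (h0 : F0 = p0 * q0 + p1 * q1)
    (hW : FW = p0 * (w1 * q0 + w2 * q1) + p1 * (w3 * q0 - w1 * q1))
    (hE : FE = p0 * (e1 * q0 + e2 * q1) + p1 * (e3 * q0 - e1 * q1))
    (hEW : FEW = p0 * ((e1 * w1 + e2 * w3) * q0 + (e1 * w2 - e2 * w1) * q1)
      + p1 * ((e3 * w1 - e1 * w3) * q0 + (e3 * w2 + e1 * w1) * q1)) :
    α * γ * F0 ^ 2 + γ * FW ^ 2 = α * FE ^ 2 + FEW ^ 2 := by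
  have := null_rel p0 p1 q0 q1 w1 w2 w3 e1 e2 e3 h
  rw [← h0, ← hW, ← hE, ← hEW, hα, hγ] at this
  linarith

/-- the null relation for a rank-one functional and two matrices of equal trace and
determinant -/
theorem null_fn (X Y : M2) (htr : X.trace = Y.trace) (hdet : X.det = Y.det)
    (p q : Fin 2 → ℝ) :
    (2 * X.det - (X * Y).trace) * (X.trace ^ 2 - (X * Y).trace - 2 * X.det) * fn p q 1 ^ 2
      + (X.trace ^ 2 - (X * Y).trace - 2 * X.det)
        * (fn p q X + fn p q Y - X.trace * fn p q 1) ^ 2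
    = (2 * X.det - (X * Y).trace) * (fn p q X - fn p q Y) ^ 2
      + (2 * fn p q (X * Y) - X.trace * fn p q X - X.trace * fn p q Y
          - ((X * Y).trace - X.trace ^ 2) * fn p q 1) ^ 2 := by
  have e1 : fn p q 1 = p 0 * q 0 + p 1 * q 1 := by
    simp [fn, dotProduct, Fin.sum_univ_two]
  have e2 : ∀ M : M2, fn p q M = p 0 * (M 0 0 * q 0 + M 0 1 * q 1)
      + p 1 * (M 1 0 * q 0 + M 1 1 * q 1) := by
    intro M
    simp [fn, dotProduct, mulVec, Fin.sum_univ_two]
  rw [e1, e2 X, e2 Y, e2 (X * Y)]
  simp only [Matrix.trace_fin_two, Matrix.det_fin_two, Matrix.mul_apply, Fin.sum_univ_two]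
    at htr hdet ⊢
  generalize X 0 0 = x0 at *
  generalize X 0 1 = x1 at *
  generalize X 1 0 = x2 at *
  generalize X 1 1 = x3 at *
  generalize Y 0 0 = y0 at *
  generalize Y 0 1 = y1 at *
  generalize Y 1 0 = y2 at *
  generalize Y 1 1 = y3 at *
  obtain rfl : y3 = x0 + x3 - y0 := by linarith
  refine null_rel' (p 0) (p 1) (q 0) (q 1) (x0 + y0 - (x0 + x3)) (x1 + y1) (x2 + y2)
    (x0 - y0) (x1 - y1) (x2 - y2) _ _ _ _ _ _ ?_ ?_ ?_ ?_ ?_ ?_ ?_
  · linear_combination (-2) * hdet
  · linear_combination hdet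
  · linear_combination hdet
  · ring
  · ring
  · ring
  · linear_combination (p 0 * q 0 + p 1 * q 1) * hdet

end Pool.Agent.V1195.GP
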