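import Pool.Agent.V1195.GWReal

open MeasureTheory Filter Topology Set
open scoped ENNReal

namespace Pool.Agent.V1195.GW

/-! ### measurability -/

theorem measurable_sum_range {X : Type*} [MeasurableSpace X] {h : ℕ → X → ℝ≥0∞}
    (hh : ∀ i, Measurable (h i)) {N : X → ℕ} (hN : Measurable N) :
    Measurable (fun x => ∑ i ∈ Finset.range (N x), h i x) := by
  have h1 : Measurable (fun p : ℕ × X => ∑ i ∈ Finset.range p.1, h i p.2) :=
    measurable_from_prod_countable_right (fun k => by
      show Measurable (fun y : X => ∑ i ∈ Finset.range k, h i y)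
      exact Finset.measurable_sum _ (fun i _ => hh i))
  exact h1.comp (hN.prodMk measurable_id)

theorem measurable_gamma (γ : ℕ → ℕ → ℝ) (u v : List ℕ) :
    Measurable (fun κ : List ℕ → ℕ => γ (κ u) (κ v)) := by
  have h1 : Measurable (fun p : ℕ × ℕ => γ p.1 p.2) := measurable_of_countable _
  have h2 : Measurable (fun κ : List ℕ → ℕ => (κ u, κ v)) :=
    (measurable_pi_apply u).prodMk (measurable_pi_apply v)
  exact h1.comp h2

theorem measurable_condN (γ : ℕ → ℕ → ℝ) (n : ℕ) (u : List ℕ) :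
    Measurable (fun κ : List ℕ → ℕ => condN γ κ n u) := by
  induction n generalizing u with
  | zero => simp only [condN]; exact measurable_const
  | succ n ih =>
    simp only [condN]
    exact measurable_sum_range (fun i => (((measurable_gamma γ u (i :: u)).ennreal_ofReal.inv).add
      (ih (i :: u)).inv).inv) (measurable_pi_apply u)

theorem measurable_condInf (γ : ℕ → ℕ → ℝ) (u : List ℕ) :
    Measurable (fun κ : List ℕ → ℕ => condInf γ κ u) :=
  Measurable.iInf (fun n => measurable_condN γ n u)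

theorem measurable_branch (γ : ℕ → ℕ → ℝ) (u : List ℕ) (i : ℕ) :
    Measurable (fun κ : List ℕ → ℕ => branch γ κ u i) :=
  (((measurable_gamma γ u (i :: u)).ennreal_ofReal.inv).add (measurable_condInf γ (i :: u)).inv).inv

theorem measurable_condRoot (γ : ℕ → ℕ → ℝ) :
    Measurable (fun κ : List ℕ → ℕ => condRoot γ κ) :=
  measurable_sum_range (fun i => measurable_branch γ [] i)
    ((measurable_pi_apply []).add_const 1)

/-- `𝒞(T_i^*) / 𝒞(T)` -/
noncomputable def fr (γ : ℕ → ℕ → ℝ) (i : ℕ) (κ : List ℕ → ℕ) : ℝ :=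
  (branch γ κ [] i / condRoot γ κ).toReal

theorem measurable_fr (γ : ℕ → ℕ → ℝ) (i : ℕ) : Measurable (fr γ i) :=
  ((measurable_branch γ [] i).div (measurable_condRoot γ)).ennreal_toReal

theorem fr_zero (γ : ℕ → ℕ → ℝ) (κ : List ℕ → ℕ) : fr γ 0 κ = frac γ κ := rfl

/-! ### the probability space -/

noncomputable def coin : PMF Bool := PMF.uniformOfFintype Bool

noncomputable def P : Measure (List ℕ → Bool) :=
  Measure.infinitePi (fun _ : List ℕ => coin.toMeasure)

instance : IsProbabilityMeasure P := by unfold P; infer_instance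

def idx (b : Bool) : ℕ := if b then 3 else 2

def kap (ω : List ℕ → Bool) (u : List ℕ) : ℕ := idx (ω u)

theorem kap_mem (ω : List ℕ → Bool) (u : List ℕ) : kap ω u = 2 ∨ kap ω u = 3 := by
  unfold kap idx
  cases ω u <;> simp

theorem measurable_kap : Measurable kap := by
  rw [measurable_pi_iff]
  intro u
  exact (measurable_of_countable idx).comp (measurable_pi_apply u)

theorem coin_map_not : coin.toMeasure.map (fun b => !b) = coin.toMeasure := by
  rw [PMF.toMeasure_map coin (f := fun b => !b) (measurable_of_countable _)]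
  congr 1
  unfold coin
  ext b
  rw [PMF.map_apply, tsum_fintype, Fintype.sum_bool]
  cases b <;> simp

open Classical in
/-- flip the bits in `s` -/
noncomputable def flipS (s : Set (List ℕ)) (ω : List ℕ → Bool) : List ℕ → Bool :=
  fun u => (if u ∈ s then (fun b : Bool => !b) else id) (ω u)

theorem mp_flip (s : Set (List ℕ)) : MeasurePreserving (flipS s) P P := by
  classical
  have hf : ∀ u : List ℕ, Measurable (if u ∈ s then (fun b : Bool => !b) else id) :=
    fun u => measurable_of_countable _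
  refine ⟨measurable_pi_iff.2 (fun u => (hf u).comp (measurable_pi_apply u)), ?_⟩
  have h := Measure.infinitePi_map_pi (μ := fun _ : List ℕ => coin.toMeasure)
    (f := fun u : List ℕ => if u ∈ s then (fun b : Bool => !b) else id) hf
  unfold P
  refine h.trans ?_
  congr 1
  ext1 u
  by_cases hu : u ∈ s
  · simp only [hu, if_true]
    exact coin_map_not
  · simp only [hu, if_false]
    exact Measure.map_id

theorem mp_comp {σ : List ℕ → List ℕ} (hσ : Function.Injective σ) :
    MeasurePreserving (fun (ω : List ℕ → Bool) u => ω (σ u)) P P := by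
  refine ⟨measurable_pi_iff.2 (fun u => measurable_pi_apply _), ?_⟩
  exact Measure.map_infinitePi_infinitePi_of_inj
    (P := fun _ : List ℕ => coin.toMeasure) hσ

theorem integral_mp {T : (List ℕ → Bool) → List ℕ → Bool} (hT : MeasurePreserving T P P)
    {h : (List ℕ → Bool) → ℝ} (hh : Measurable h) : ∫ ω, h (T ω) ∂P = ∫ ω, h ω ∂P := by
  have := integral_map (μ := P) hT.measurable.aemeasurable (f := h) hh.aestronglyMeasurable
  rw [hT.map_eq] at this
  exact this.symm

theorem integrable_of_bdd {h : (List ℕ → Bool) → ℝ} (hh : Measurable h) {C : ℝ}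
    (hC : ∀ ω, |h ω| ≤ C) : Integrable h P :=
  Integrable.of_bound hh.aestronglyMeasurable C (Eventually.of_forall hC)

/-! ### the exchange of the two ends of the edge from the root to its child `[0]` -/

def swp : List ℕ → List ℕ
  | [] => [0]
  | [0] => []
  | [j + 1] => [j, 0]
  | [j, 0] => [j + 1]
  | i :: u => i :: swp u

theorem swp_cons (i : ℕ) (u : List ℕ) (h1 : u ≠ []) (h2 : u ≠ [0]) : swp (i :: u) = i :: swp u := by
  match u, h1, h2 with
  | [j + 1], _, _ => simp [swp]
  | a :: b :: c, _, _ => simp [swp]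

theorem swp_ne (u : List ℕ) (h1 : u ≠ []) (h2 : u ≠ [0]) : swp u ≠ [] ∧ swp u ≠ [0] := by
  match u, h1, h2 with
  | [j + 1], _, _ => simp [swp]
  | [j, 0], _, _ => simp [swp]
  | [i, j + 1], _, _ => simp [swp]
  | i :: j :: k :: l, _, _ =>
    rw [swp_cons i (j :: k :: l) (by simp) (by simp)]
    obtain ⟨h3, h4⟩ := swp_ne (j :: k :: l) (by simp) (by simp)
    refine ⟨by simp, ?_⟩
    intro h
    rw [List.cons.injEq] at h
    exact h3 h.2

theorem swp_swp (u : List ℕ) : swp (swp u) = u := by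
  induction u with
  | nil => rfl
  | cons i u ih =>
    by_cases h1 : u = []
    · subst h1
      cases i <;> simp [swp]
    · by_cases h2 : u = [0]
      · subst h2; simp [swp]
      · rw [swp_cons i u h1 h2]
        obtain ⟨h3, h4⟩ := swp_ne u h1 h2
        rw [swp_cons i _ h3 h4, ih]

theorem swp_inj : Function.Injective swp := Function.LeftInverse.injective swp_swp

/-- words other than the root and `[0]` -/
def AA : Set (List ℕ) := {u | u ≠ [] ∧ u ≠ [0]}

theorem AA_cons (u : List ℕ) (hu : u ∈ AA) (i : ℕ) : i :: u ∈ AA := by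
  refine ⟨by simp, ?_⟩
  intro h
  rw [List.cons.injEq] at h
  exact hu.1 h.2

theorem a_swp (ω : List ℕ → Bool) (u : List ℕ) (hu : u ∈ AA) :
    a (kap (fun v => ω (swp v))) u = a (kap ω) (swp u) := by
  unfold a z
  rw [condInf_equiv one (kap ω) (kap (fun v => ω (swp v))) swp AA AA_cons
    (fun v hv i => swp_cons i v hv.1 hv.2) (fun v _ => rfl) u hu]

theorem a_flip (ω : List ℕ → Bool) (u : List ℕ) (hu : u ∈ AA) :
    a (kap (flipS {[], [0]} ω)) u = a (kap ω) u := by
  unfold a z
  rw [condInf_equiv one (kap ω) (kap (flipS {[], [0]} ω)) id AA AA_cons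
    (fun v _ i => rfl) (fun v hv => ?_) u hu]
  · rfl
  · unfold kap flipS
    have : v ∉ ({[], [0]} : Set (List ℕ)) := by
      intro h
      rcases h with h | h
      · exact hv.1 h
      · exact hv.2 h
    simp [this]

/-! ### the four quantities -/

noncomputable def qx (ω : List ℕ → Bool) : ℝ := a (kap ω) [0, 0] + a (kap ω) [1, 0]
noncomputable def qy (ω : List ℕ → Bool) : ℝ := a (kap ω) [1] + a (kap ω) [2]
noncomputable def qp (ω : List ℕ → Bool) : ℝ := a (kap ω) [2, 0]
noncomputable def qq (ω : List ℕ → Bool) : ℝ := a (kap ω) [3]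

noncomputable def F0 (ω : List ℕ → Bool) : ℝ := frac one (kap ω)

theorem F0_ff (ω : List ℕ → Bool) (h1 : ω [] = false) (h2 : ω [0] = false) :
    F0 ω = f (qx ω) (qy ω) := by
  have k1 : kap ω [] = 2 := by unfold kap idx; simp [h1]
  have k2 : kap ω [0] = 2 := by unfold kap idx; simp [h2]
  have hz : z (kap ω) [0] = qx ω := by
    rw [z_eq (kap ω) (kap_mem ω), k2, Finset.sum_range_succ, Finset.sum_range_one]; rfl
  unfold F0
  rw [frac_one (kap ω) (kap_mem ω), k1, Finset.sum_range_succ, Finset.sum_range_succ,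
    Finset.sum_range_one, add_assoc]
  have ha : a (kap ω) [0] = qx ω / (1 + qx ω) := by rw [← hz]; rfl
  rw [ha]
  rfl

theorem F0_tt (ω : List ℕ → Bool) (h1 : ω [] = true) (h2 : ω [0] = true) :
    F0 ω = f (qx ω + qp ω) (qy ω + qq ω) := by
  have k1 : kap ω [] = 3 := by unfold kap idx; simp [h1]
  have k2 : kap ω [0] = 3 := by unfold kap idx; simp [h2]
  have hz : z (kap ω) [0] = qx ω + qp ω := by
    rw [z_eq (kap ω) (kap_mem ω), k2, Finset.sum_range_succ, Finset.sum_range_succ,
      Finset.sum_range_one]; rfl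
  unfold F0
  rw [frac_one (kap ω) (kap_mem ω), k1, Finset.sum_range_succ, Finset.sum_range_succ,
    Finset.sum_range_succ, Finset.sum_range_one]
  have ha : a (kap ω) [0] = (qx ω + qp ω) / (1 + (qx ω + qp ω)) := by rw [← hz]; rfl
  rw [ha]
  unfold f qy qq
  congr 1
  ring

/-- `X = 1_{κ(o)=3} + 1_{κ(w_0)=3} - 1` -/
def X (ω : List ℕ → Bool) : ℝ := (if ω [] then 1 else 0) + (if ω [0] then 1 else 0) - 1

theorem measurable_X : Measurable X := by
  have h : ∀ u : List ℕ, Measurable (fun ω : List ℕ → Bool => (if ω u then (1 : ℝ) else 0)) :=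
    fun u => (measurable_of_countable (fun b : Bool => (if b then (1 : ℝ) else 0))).comp
      (measurable_pi_apply u)
  exact ((h []).add (h [0])).sub_const 1

theorem X_flip (ω : List ℕ → Bool) : X (flipS {[], [0]} ω) = - X ω := by
  unfold X flipS
  cases h1 : ω [] <;> cases h2 : ω [0] <;> simp [*]

theorem X_swp (ω : List ℕ → Bool) : X (fun u => ω (swp u)) = X ω := by
  unfold X
  show (if ω [0] then (1 : ℝ) else 0) + (if ω [] then 1 else 0) - 1 = _
  ring

theorem abs_X_le (ω : List ℕ → Bool) : |X ω| ≤ 1 := by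
  unfold X
  cases ω [] <;> cases ω [0] <;> simp

theorem X_sq (ω : List ℕ → Bool) : (X ω) ^ 2 + (X (flipS {[]} ω)) ^ 2 = 1 := by
  unfold X flipS
  cases h1 : ω [] <;> cases h2 : ω [0] <;> simp [*]

theorem integral_X : ∫ ω, X ω ∂P = 0 := by
  have h := integral_mp (mp_flip {[], [0]}) measurable_X
  simp only [X_flip] at h
  rw [integral_neg] at h
  linarith

theorem integral_X_sq : ∫ ω, (X ω) ^ 2 ∂P = 1 / 2 := by
  have h := integral_mp (mp_flip {[]}) (measurable_X.pow_const 2)
  have hi : Integrable (fun ω => (X ω) ^ 2) P := integrable_of_bdd (measurable_X.pow_const 2)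
    (C := 1) (fun ω => by rw [abs_pow]; exact pow_le_one₀ (abs_nonneg _) (abs_X_le ω))
  have hi2 : Integrable (fun ω => (X (flipS {[]} ω)) ^ 2) P :=
    integrable_of_bdd ((measurable_X.comp (mp_flip {[]}).measurable).pow_const 2)
    (C := 1) (fun ω => by rw [abs_pow]; exact pow_le_one₀ (abs_nonneg _) (abs_X_le _))
  have h2 : ∫ ω, ((X ω) ^ 2 + (X (flipS {[]} ω)) ^ 2) ∂P = 1 := by
    simp only [X_sq]; simp
  rw [integral_add hi hi2, h] at h2
  linarith

theorem measurable_F0 : Measurable F0 :=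
  ((measurable_branch one [] 0).div (measurable_condRoot one)).ennreal_toReal.comp measurable_kap

theorem F0_mem (ω : List ℕ → Bool) : 0 ≤ F0 ω ∧ F0 ω ≤ 1 := by
  have h : gam 0 = one := by
    funext k m; unfold gam one; ring
  have := frac_mem (kap ω) (kap_mem ω) 0 le_rfl 0 (by omega)
  rw [h] at this
  exact this

noncomputable def H (ω : List ℕ → Bool) : ℝ := X ω * (F0 ω - F0 (flipS {[], [0]} ω))

theorem measurable_H : Measurable H :=
  measurable_X.mul (measurable_F0.sub (measurable_F0.comp (mp_flip _).measurable))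

theorem abs_H_le (ω : List ℕ → Bool) : |H ω| ≤ 1 := by
  unfold H
  rw [abs_mul]
  have h1 := abs_X_le ω
  have h2 := F0_mem ω
  have h3 := F0_mem (flipS {[], [0]} ω)
  have h4 : |F0 ω - F0 (flipS {[], [0]} ω)| ≤ 1 := by rw [abs_le]; constructor <;> linarith
  calc |X ω| * |F0 ω - F0 (flipS {[], [0]} ω)| ≤ 1 * 1 :=
        mul_le_mul h1 h4 (abs_nonneg _) zero_le_one
    _ = 1 := one_mul 1

theorem qx_bounds (ω : List ℕ → Bool) : 1 ≤ qx ω ∧ qx ω ≤ 3 / 2 := by
  have h1 := a_bounds (kap ω) (kap_mem ω) [0, 0]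
  have h2 := a_bounds (kap ω) (kap_mem ω) [1, 0]
  unfold qx
  constructor <;> linarith [h1.1, h1.2, h2.1, h2.2]

theorem qy_bounds (ω : List ℕ → Bool) : 1 ≤ qy ω ∧ qy ω ≤ 3 / 2 := by
  have h1 := a_bounds (kap ω) (kap_mem ω) [1]
  have h2 := a_bounds (kap ω) (kap_mem ω) [2]
  unfold qy
  constructor <;> linarith [h1.1, h1.2, h2.1, h2.2]

theorem q_flip (ω : List ℕ → Bool) : qx (flipS {[], [0]} ω) = qx ω ∧ qy (flipS {[], [0]} ω) = qy ω
    ∧ qp (flipS {[], [0]} ω) = qp ω ∧ qq (flipS {[], [0]} ω) = qq ω := by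
  unfold qx qy qp qq
  rw [a_flip ω [0, 0] (by simp [AA]), a_flip ω [1, 0] (by simp [AA]), a_flip ω [1] (by simp [AA]),
    a_flip ω [2] (by simp [AA]), a_flip ω [2, 0] (by simp [AA]), a_flip ω [3] (by simp [AA])]
  exact ⟨rfl, rfl, rfl, rfl⟩

theorem q_swp (ω : List ℕ → Bool) : qx (fun u => ω (swp u)) = qy ω ∧ qy (fun u => ω (swp u)) = qx ω
    ∧ qp (fun u => ω (swp u)) = qq ω ∧ qq (fun u => ω (swp u)) = qp ω := by
  unfold qx qy qp qq
  rw [a_swp ω [0, 0] (by simp [AA]), a_swp ω [1, 0] (by simp [AA]), a_swp ω [1] (by simp [AA]),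
    a_swp ω [2] (by simp [AA]), a_swp ω [2, 0] (by simp [AA]), a_swp ω [3] (by simp [AA])]
  exact ⟨rfl, rfl, rfl, rfl⟩

theorem flip_false (ω : List ℕ → Bool) : (flipS {[], [0]} ω) [] = !(ω []) ∧
    (flipS {[], [0]} ω) [0] = !(ω [0]) := by
  unfold flipS
  simp

theorem H_ff (ω : List ℕ → Bool) (h1 : ω [] = false) (h2 : ω [0] = false) :
    H ω = f (qx ω + qp ω) (qy ω + qq ω) - f (qx ω) (qy ω) := by
  obtain ⟨f1, f2⟩ := flip_false ω
  obtain ⟨e1, e2, e3, e4⟩ := q_flip ω
  unfold H
  rw [F0_ff ω h1 h2, F0_tt (flipS {[], [0]} ω) (by rw [f1, h1]; rfl) (by rw [f2, h2]; rfl),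
    e1, e2, e3, e4]
  unfold X
  rw [h1, h2]
  simp

theorem H_tt (ω : List ℕ → Bool) (h1 : ω [] = true) (h2 : ω [0] = true) :
    H ω = f (qx ω + qp ω) (qy ω + qq ω) - f (qx ω) (qy ω) := by
  obtain ⟨f1, f2⟩ := flip_false ω
  obtain ⟨e1, e2, e3, e4⟩ := q_flip ω
  unfold H
  rw [F0_tt ω h1 h2, F0_ff (flipS {[], [0]} ω) (by rw [f1, h1]; rfl) (by rw [f2, h2]; rfl),
    e1, e2]
  unfold X
  rw [h1, h2]
  norm_num

theorem H_add (ω : List ℕ → Bool) : H ω + H (fun u => ω (swp u)) ≤ -(1 / 24) * (X ω) ^ 2 := by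
  obtain ⟨s1, s2, s3, s4⟩ := q_swp ω
  obtain ⟨x1, x2⟩ := qx_bounds ω
  obtain ⟨y1, y2⟩ := qy_bounds ω
  have p1 := a_bounds (kap ω) (kap_mem ω) [2, 0]
  have p2 := a_bounds (kap ω) (kap_mem ω) [3]
  have hp : 1 / 2 ≤ qp ω := p1.1
  have hq : 1 / 2 ≤ qq ω := p2.1
  have key : (f (qx ω + qp ω) (qy ω + qq ω) - f (qx ω) (qy ω))
      + (f (qy ω + qq ω) (qx ω + qp ω) - f (qy ω) (qx ω)) ≤ -(1 / 24) := by
    have e1 := f_add_f (qx ω + qp ω) (qy ω + qq ω) (by linarith) (by linarith)
    have e2 := f_add_f (qx ω) (qy ω) (by linarith) (by linarith)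
    have e3 := g_diff (qx ω) (qy ω) (qp ω) (qq ω) x1 x2 y1 y2 hp hq
    linarith
  rcases Bool.eq_false_or_eq_true (ω []) with h1 | h1 <;>
    rcases Bool.eq_false_or_eq_true (ω [0]) with h2 | h2
  · rw [H_tt ω h1 h2, H_tt (fun u => ω (swp u)) h2 h1, s1, s2, s3, s4]
    have : X ω = 1 := by unfold X; rw [h1, h2]; norm_num
    rw [this]
    linarith
  · have h3 : X ω = 0 := by unfold X; rw [h1, h2]; norm_num
    unfold H
    rw [X_swp, h3]
    simp
  · have h3 : X ω = 0 := by unfold X; rw [h1, h2]; norm_num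
    unfold H
    rw [X_swp, h3]
    simp
  · rw [H_ff ω h1 h2, H_ff (fun u => ω (swp u)) h2 h1, s1, s2, s3, s4]
    have : X ω = -1 := by unfold X; rw [h1, h2]; norm_num
    rw [this]
    linarith

theorem integral_H : ∫ ω, H ω ∂P ≤ -(1 / 96) := by
  have h := integral_mp (mp_comp swp_inj) measurable_H
  have hi : Integrable H P := integrable_of_bdd measurable_H abs_H_le
  have hi2 : Integrable (fun ω : List ℕ → Bool => H (fun u => ω (swp u))) P :=
    integrable_of_bdd (measurable_H.comp (mp_comp swp_inj).measurable) (fun ω => abs_H_le _)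
  have hX2 : Integrable (fun ω => -(1 / 24) * (X ω) ^ 2) P :=
    (integrable_of_bdd (measurable_X.pow_const 2)
    (C := 1) (fun ω => by
      rw [abs_pow]; exact pow_le_one₀ (abs_nonneg _) (abs_X_le ω))).const_mul _
  have h2 : ∫ ω, (H ω + H (fun u => ω (swp u))) ∂P ≤ ∫ ω, -(1 / 24) * (X ω) ^ 2 ∂P :=
    integral_mono (hi.add hi2) hX2 H_add
  rw [integral_add hi hi2, h, integral_const_mul, integral_X_sq] at h2
  linarith

theorem integral_XF0 : ∫ ω, X ω * F0 ω ∂P ≤ -(1 / 192) := by
  have hm : Measurable (fun ω => X ω * F0 ω) := measurable_X.mul measurable_F0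
  have hb : ∀ ω, |X ω * F0 ω| ≤ 1 := by
    intro ω
    rw [abs_mul]
    have h1 := abs_X_le ω
    have h2 := F0_mem ω
    have h4 : |F0 ω| ≤ 1 := by rw [abs_le]; constructor <;> linarith
    calc |X ω| * |F0 ω| ≤ 1 * 1 := mul_le_mul h1 h4 (abs_nonneg _) zero_le_one
      _ = 1 := one_mul 1
  have h := integral_mp (mp_flip {[], [0]}) hm
  have hi : Integrable (fun ω => X ω * F0 ω) P := integrable_of_bdd hm hb
  have hi2 : Integrable (fun ω => X (flipS {[], [0]} ω) * F0 (flipS {[], [0]} ω)) P :=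
    integrable_of_bdd (hm.comp (mp_flip {[], [0]}).measurable) (fun ω => hb _)
  have e : (fun ω => H ω) = fun ω => (X ω * F0 ω
      + X (flipS {[], [0]} ω) * F0 (flipS {[], [0]} ω)) := by
    funext ω
    unfold H
    rw [X_flip]
    ring
  have h2 := integral_H
  rw [e, integral_add hi hi2, h] at h2
  linarith

end Pool.Agent.V1195.GW
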