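import Pool.Agent.V1195.GWTree

open MeasureTheory Filter Topology Set
open scoped ENNReal

namespace Pool.Agent.V1195.GW

/-! ### deterministic real estimates -/

/-- `f x y = (x/(1+x)) / (x/(1+x) + y)` -/
noncomputable def f (x y : ℝ) : ℝ := (x / (1 + x)) / (x / (1 + x) + y)

noncomputable def g (x y : ℝ) : ℝ := 1 / (1 / x + 1 / y + 1)

theorem f_add_f (x y : ℝ) (hx : 0 < x) (hy : 0 < y) : f x y + f y x = 1 - g x y := by
  unfold f g
  field_simp
  ring

theorem g_diff (x y p q : ℝ) (hx : 1 ≤ x) (hx' : x ≤ 3 / 2) (hy : 1 ≤ y) (hy' : y ≤ 3 / 2)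
    (hp : 1 / 2 ≤ p) (hq : 1 / 2 ≤ q) : g x y + 1 / 24 ≤ g (x + p) (y + q) := by
  have key : ∀ x p : ℝ, 1 ≤ x → x ≤ 3 / 2 → 1 / 2 ≤ p → 1 / (x + p) + 1 / 6 ≤ 1 / x := by
    intro x p h1 h2 h3
    have hx0 : 0 < x := by linarith
    have h4 : 1 / (x + p) ≤ 1 / (x + 1 / 2) :=
      one_div_le_one_div_of_le (by linarith) (by linarith)
    have h5 : 1 / (x + 1 / 2) + 1 / 6 ≤ 1 / x := by
      rw [← sub_nonneg]
      have : 1 / x - (1 / (x + 1 / 2) + 1 / 6) = (3 - x * (x + 1 / 2)) / (6 * x * (x + 1 / 2)) := by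
        field_simp
        ring
      rw [this]
      apply div_nonneg
      · nlinarith
      · positivity
    linarith
  have k1 := key x p hx hx' hp
  have k2 := key y q hy hy' hq
  have px : 0 < 1 / (x + p) := by positivity
  have py : 0 < 1 / (y + q) := by positivity
  have qx : 1 / x ≤ 1 := by rw [div_le_one (by linarith)]; exact hx
  have qy : 1 / y ≤ 1 := by rw [div_le_one (by linarith)]; exact hy
  unfold g
  set S := 1 / x + 1 / y + 1 with hS
  set S' := 1 / (x + p) + 1 / (y + q) + 1 with hS'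
  have hSS : S' + 1 / 3 ≤ S := by rw [hS, hS']; linarith
  have hS3 : S ≤ 3 := by rw [hS]; linarith
  have hS'0 : 1 < S' := by rw [hS']; linarith
  have h6 : 1 / (S - 1 / 3) ≤ 1 / S' := one_div_le_one_div_of_le (by linarith) (by linarith)
  have h7 : 1 / S + 1 / 24 ≤ 1 / (S - 1 / 3) := by
    obtain ⟨t, ht⟩ : ∃ t, t = S - 1 / 3 := ⟨_, rfl⟩
    have hS0 : S = t + 1 / 3 := by linarith
    have ht0 : 0 < t := by linarith
    have ht1 : t ≤ 8 / 3 := by linarith
    rw [← ht, hS0, ← sub_nonneg]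
    have : 1 / t - (1 / (t + 1 / 3) + 1 / 24) = (8 - t * (t + 1 / 3)) / (24 * t * (t + 1 / 3)) := by
      field_simp
      ring
    rw [this]
    apply div_nonneg
    · nlinarith
    · positivity
  linarith

/-- constant conductances 1 -/
def one : ℕ → ℕ → ℝ := fun _ _ => 1

section bounds

variable (κ : List ℕ → ℕ) (hκ : ∀ u, κ u = 2 ∨ κ u = 3)

include hκ

theorem one_le_condN (n : ℕ) (u : List ℕ) : 1 ≤ condN one κ n u := by
  induction n generalizing u with
  | zero => simp [condN]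
  | succ n ih =>
    rw [condN]
    have h1 : ∀ i, (2 : ℝ≥0∞)⁻¹ ≤ ((ENNReal.ofReal (one (κ u) (κ (i :: u))))⁻¹
        + (condN one κ n (i :: u))⁻¹)⁻¹ := by
      intro i
      apply ENNReal.inv_le_inv.2
      have e1 : (ENNReal.ofReal (one (κ u) (κ (i :: u))))⁻¹ = 1 := by simp [one]
      have e2 : (condN one κ n (i :: u))⁻¹ ≤ 1 := by
        have := ENNReal.inv_le_inv.2 (ih (i :: u))
        simpa using this
      rw [e1, ← one_add_one_eq_two]
      gcongr
    calc (1 : ℝ≥0∞) = 2 * (2 : ℝ≥0∞)⁻¹ := by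
          rw [ENNReal.mul_inv_cancel (by norm_num) (by norm_num)]
      _ ≤ (κ u : ℝ≥0∞) * (2 : ℝ≥0∞)⁻¹ := by
          gcongr
          rcases hκ u with h | h <;> rw [h] <;> norm_num
      _ = ∑ i ∈ Finset.range (κ u), (2 : ℝ≥0∞)⁻¹ := by simp
      _ ≤ _ := Finset.sum_le_sum (fun i _ => h1 i)

theorem one_le_condInf (u : List ℕ) : 1 ≤ condInf one κ u :=
  le_iInf (fun n => one_le_condN κ hκ n u)

theorem condInf_le_three (u : List ℕ) : condInf one κ u ≤ 3 := by
  refine (iInf_le _ 1).trans ?_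
  rw [condN]
  have h1 : ∀ i, ((ENNReal.ofReal (one (κ u) (κ (i :: u))))⁻¹
        + (condN one κ 0 (i :: u))⁻¹)⁻¹ = 1 := by
    intro i
    simp [one, condN]
  rw [Finset.sum_congr rfl (fun i _ => h1 i)]
  rcases hκ u with h | h <;> rw [h] <;> norm_num

/-- the real number `𝒞(T_u)` -/
noncomputable def z (κ : List ℕ → ℕ) (u : List ℕ) : ℝ := (condInf one κ u).toReal

/-- the real conductance of the branch ending in `u` -/
noncomputable def a (κ : List ℕ → ℕ) (u : List ℕ) : ℝ := z κ u / (1 + z κ u)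

theorem z_bounds (u : List ℕ) : 1 ≤ z κ u ∧ z κ u ≤ 3 := by
  have h1 := one_le_condInf κ hκ u
  have h2 := condInf_le_three κ hκ u
  have hne : condInf one κ u ≠ ⊤ := ne_top_of_le_ne_top (by norm_num) h2
  constructor
  · have := (ENNReal.toReal_le_toReal (by norm_num) hne).2 h1
    simpa [z] using this
  · have := (ENNReal.toReal_le_toReal hne (by norm_num)).2 h2
    simpa [z] using this

theorem a_bounds (u : List ℕ) : 1 / 2 ≤ a κ u ∧ a κ u ≤ 3 / 4 := by
  obtain ⟨h1, h2⟩ := z_bounds κ hκ u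
  unfold a
  constructor
  · rw [le_div_iff₀ (by linarith)]; linarith
  · rw [div_le_iff₀ (by linarith)]; linarith

theorem branch_one (u : List ℕ) (i : ℕ) :
    branch one κ u i = ENNReal.ofReal (a κ (i :: u)) := by
  have h2 := condInf_le_three κ hκ (i :: u)
  have hne : condInf one κ (i :: u) ≠ ⊤ := ne_top_of_le_ne_top (by norm_num) h2
  obtain ⟨h3, h4⟩ := z_bounds κ hκ (i :: u)
  have hz : condInf one κ (i :: u) = ENNReal.ofReal (z κ (i :: u)) :=
    (ENNReal.ofReal_toReal hne).symm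
  have hz0 : 0 < z κ (i :: u) := by linarith
  unfold branch a
  rw [hz]
  simp only [one, ENNReal.ofReal_one, inv_one]
  rw [← ENNReal.ofReal_one, ← ENNReal.ofReal_inv_of_pos hz0,
    ← ENNReal.ofReal_add zero_le_one (inv_nonneg.2 hz0.le),
    ← ENNReal.ofReal_inv_of_pos (by positivity)]
  congr 1
  field_simp
  ring

theorem z_eq (u : List ℕ) : z κ u = ∑ i ∈ Finset.range (κ u), a κ (i :: u) := by
  unfold z
  rw [condInf_eq, Finset.sum_congr rfl (fun i _ => branch_one κ hκ u i),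
    ← ENNReal.ofReal_sum_of_nonneg (fun i _ => by linarith [(a_bounds κ hκ (i :: u)).1]),
    ENNReal.toReal_ofReal (Finset.sum_nonneg (fun i _ => by linarith [(a_bounds κ hκ (i :: u)).1]))]

theorem condRoot_one : condRoot one κ
    = ENNReal.ofReal (∑ i ∈ Finset.range (κ [] + 1), a κ [i]) := by
  unfold condRoot
  rw [Finset.sum_congr rfl (fun i _ => branch_one κ hκ [] i),
    ← ENNReal.ofReal_sum_of_nonneg (fun i _ => by linarith [(a_bounds κ hκ [i]).1])]

theorem frac_one : frac one κ = a κ [0] / ∑ i ∈ Finset.range (κ [] + 1), a κ [i] := by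
  unfold frac
  rw [condRoot_one κ hκ, branch_one κ hκ]
  have h0 := (a_bounds κ hκ [0]).1
  have hs : 0 < ∑ i ∈ Finset.range (κ [] + 1), a κ [i] :=
    Finset.sum_pos (fun i _ => by linarith [(a_bounds κ hκ [i]).1]) ⟨0, by simp⟩
  rw [← ENNReal.ofReal_div_of_pos hs, ENNReal.toReal_ofReal (by positivity)]

end bounds

/-- the conductances `1 + ε (k + m - 4)` -/
noncomputable def gam (ε : ℝ) : ℕ → ℕ → ℝ := fun k m => 1 + ε * ((k : ℝ) + m - 4)

section compare

variable (κ : List ℕ → ℕ) (hκ : ∀ u, κ u = 2 ∨ κ u = 3) (ε : ℝ) (hε : 0 ≤ ε)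

include hκ hε

theorem gam_lower (u : List ℕ) (i : ℕ) :
    one (κ u) (κ (i :: u)) ≤ gam ε (κ u) (κ (i :: u)) := by
  unfold one gam
  have h1 : (2 : ℝ) ≤ κ u := by rcases hκ u with h | h <;> rw [h] <;> norm_num
  have h2 : (2 : ℝ) ≤ κ (i :: u) := by rcases hκ (i :: u) with h | h <;> rw [h] <;> norm_num
  nlinarith

theorem gam_upper (u : List ℕ) (i : ℕ) :
    gam ε (κ u) (κ (i :: u)) ≤ (1 + 2 * ε) * one (κ u) (κ (i :: u)) := by
  unfold one gam
  have h1 : (κ u : ℝ) ≤ 3 := by rcases hκ u with h | h <;> rw [h] <;> norm_num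
  have h2 : (κ (i :: u) : ℝ) ≤ 3 := by rcases hκ (i :: u) with h | h <;> rw [h] <;> norm_num
  nlinarith

theorem branch_lower (u : List ℕ) (i : ℕ) : branch one κ u i ≤ branch (gam ε) κ u i :=
  branch_mono κ (gam_lower κ hκ ε hε) u i

theorem branch_upper (u : List ℕ) (i : ℕ) :
    branch (gam ε) κ u i ≤ ENNReal.ofReal (1 + 2 * ε) * branch one κ u i := by
  rw [← branch_scale κ (by positivity : 0 < 1 + 2 * ε)]
  exact branch_mono κ (gam_upper κ hκ ε hε) u i

theorem branch_gam_ne_top (u : List ℕ) (i : ℕ) : branch (gam ε) κ u i ≠ ⊤ := by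
  refine ne_top_of_le_ne_top ?_ (branch_upper κ hκ ε hε u i)
  rw [branch_one κ hκ]
  exact ENNReal.mul_ne_top ENNReal.ofReal_ne_top ENNReal.ofReal_ne_top

theorem condRoot_gam_ne_top : condRoot (gam ε) κ ≠ ⊤ := by
  unfold condRoot
  exact ENNReal.sum_ne_top.2 (fun i _ => branch_gam_ne_top κ hκ ε hε [] i)

theorem frac_gam_bounds (j : ℕ) :
    (branch (gam ε) κ [] j / condRoot (gam ε) κ).toReal
      ≤ (1 + 2 * ε) * (branch one κ [] j / condRoot one κ).toReal ∧
    (branch one κ [] j / condRoot one κ).toReal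
      ≤ (1 + 2 * ε) * (branch (gam ε) κ [] j / condRoot (gam ε) κ).toReal := by
  have hp : 0 < 1 + 2 * ε := by positivity
  -- real versions
  set A := (branch one κ [] j).toReal with hA
  set B := (branch (gam ε) κ [] j).toReal with hB
  set C := (condRoot one κ).toReal with hC
  set D := (condRoot (gam ε) κ).toReal with hD
  have t1 : branch one κ [] j ≠ ⊤ := by rw [branch_one κ hκ]; exact ENNReal.ofReal_ne_top
  have t2 := branch_gam_ne_top κ hκ ε hε [] j
  have t3 : condRoot one κ ≠ ⊤ := by rw [condRoot_one κ hκ]; exact ENNReal.ofReal_ne_top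
  have t4 := condRoot_gam_ne_top κ hκ ε hε
  have h1 : A ≤ B := (ENNReal.toReal_le_toReal t1 t2).2 (branch_lower κ hκ ε hε [] j)
  have h2 : B ≤ (1 + 2 * ε) * A := by
    have := (ENNReal.toReal_le_toReal t2 (ENNReal.mul_ne_top ENNReal.ofReal_ne_top t1)).2
      (branch_upper κ hκ ε hε [] j)
    rwa [ENNReal.toReal_mul, ENNReal.toReal_ofReal hp.le] at this
  have h3 : C ≤ D := by
    refine (ENNReal.toReal_le_toReal t3 t4).2 ?_
    unfold condRoot
    exact Finset.sum_le_sum (fun i _ => branch_lower κ hκ ε hε [] i)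
  have h4 : D ≤ (1 + 2 * ε) * C := by
    have h5 : condRoot (gam ε) κ ≤ ENNReal.ofReal (1 + 2 * ε) * condRoot one κ := by
      unfold condRoot
      rw [Finset.mul_sum]
      exact Finset.sum_le_sum (fun i _ => branch_upper κ hκ ε hε [] i)
    have := (ENNReal.toReal_le_toReal t4 (ENNReal.mul_ne_top ENNReal.ofReal_ne_top t3)).2 h5
    rwa [ENNReal.toReal_mul, ENNReal.toReal_ofReal hp.le] at this
  have hC0 : 0 < C := by
    rw [hC, condRoot_one κ hκ, ENNReal.toReal_ofReal]
    · exact Finset.sum_pos (fun i _ => by linarith [(a_bounds κ hκ [i]).1]) ⟨0, by simp⟩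
    · exact Finset.sum_nonneg (fun i _ => by linarith [(a_bounds κ hκ [i]).1])
  have hD0 : 0 < D := lt_of_lt_of_le hC0 h3
  have hA0 : 0 ≤ A := ENNReal.toReal_nonneg
  rw [ENNReal.toReal_div, ENNReal.toReal_div, ← hA, ← hB, ← hC, ← hD]
  constructor
  · rw [div_le_iff₀ hD0]
    calc B ≤ (1 + 2 * ε) * A := h2
      _ = (1 + 2 * ε) * (A / C) * C := by field_simp
      _ ≤ (1 + 2 * ε) * (A / C) * D := by gcongr
  · rw [div_le_iff₀ hC0]
    calc A ≤ B := h1
      _ = B / D * D := by field_simp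
      _ ≤ B / D * ((1 + 2 * ε) * C) := by gcongr
      _ = (1 + 2 * ε) * (B / D) * C := by ring

theorem frac_sum : ∑ i ∈ Finset.range (κ [] + 1),
    (branch (gam ε) κ [] i / condRoot (gam ε) κ).toReal = 1 := by
  have t4 := condRoot_gam_ne_top κ hκ ε hε
  have hC0 : condRoot (gam ε) κ ≠ 0 := by
    have h3 : condRoot one κ ≤ condRoot (gam ε) κ := by
      unfold condRoot
      exact Finset.sum_le_sum (fun i _ => branch_lower κ hκ ε hε [] i)
    intro h
    rw [h, condRoot_one κ hκ] at h3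
    have h5 : ∑ i ∈ Finset.range (κ [] + 1), a κ [i] ≤ 0 := by simpa using h3
    have h6 : 0 < ∑ i ∈ Finset.range (κ [] + 1), a κ [i] :=
      Finset.sum_pos (fun i _ => by linarith [(a_bounds κ hκ [i]).1]) ⟨0, by simp⟩
    linarith
  rw [← ENNReal.toReal_sum (fun i _ => ENNReal.div_ne_top (branch_gam_ne_top κ hκ ε hε [] i) hC0)]
  have e : ∑ i ∈ Finset.range (κ [] + 1), branch (gam ε) κ [] i / condRoot (gam ε) κ
      = condRoot (gam ε) κ / condRoot (gam ε) κ := by
    simp only [div_eq_mul_inv]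
    rw [← Finset.sum_mul]
    rfl
  rw [e, ENNReal.div_self hC0 t4, ENNReal.toReal_one]

theorem frac_mem (j : ℕ) (hj : j < κ [] + 1) :
    0 ≤ (branch (gam ε) κ [] j / condRoot (gam ε) κ).toReal ∧
    (branch (gam ε) κ [] j / condRoot (gam ε) κ).toReal ≤ 1 := by
  refine ⟨ENNReal.toReal_nonneg, ?_⟩
  rw [← frac_sum κ hκ ε hε]
  exact Finset.single_le_sum (f := fun i => (branch (gam ε) κ [] i / condRoot (gam ε) κ).toReal)
    (fun i _ => ENNReal.toReal_nonneg) (Finset.mem_range.2 hj)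

theorem frac_close : |frac (gam ε) κ - frac one κ| ≤ 2 * ε := by
  obtain ⟨h1, h2⟩ := frac_gam_bounds κ hκ ε hε 0
  obtain ⟨h3, h4⟩ := frac_mem κ hκ ε hε 0 (by omega)
  have h5 : frac one κ ≤ 1 := by
    rw [frac_one κ hκ, div_le_one]
    · exact Finset.single_le_sum (f := fun i => a κ [i])
        (fun i _ => by linarith [(a_bounds κ hκ [i]).1]) (by simp)
    · exact Finset.sum_pos (fun i _ => by linarith [(a_bounds κ hκ [i]).1]) ⟨0, by simp⟩
  have h6 : frac (gam ε) κ = (branch (gam ε) κ [] 0 / condRoot (gam ε) κ).toReal := rfl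
  have h7 : frac one κ = (branch one κ [] 0 / condRoot one κ).toReal := rfl
  rw [← h6] at h1 h2 h3 h4
  rw [← h7] at h1 h2
  rw [abs_le]
  constructor <;> nlinarith

end compare

end Pool.Agent.V1195.GW
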