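import Mathlib

open MeasureTheory Filter Topology Set
open scoped ENNReal

namespace Pool.Agent.V1195.GW

/-- Vertices are finite words of natural numbers, the root is `[]` and `i :: u` is the child
number `i` of `u`.  A configuration `κ` gives the index (number of children, one less at the root
of the augmented tree) of every vertex, and the edge between `u` and its child `i :: u` has
conductance `γ (κ u) (κ (i :: u))`.  `condN γ κ n u` is the effective conductance between `u` and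
the `n`-th generation of its descendants, computed by the series and parallel laws. -/
noncomputable def condN (γ : ℕ → ℕ → ℝ) (κ : List ℕ → ℕ) : ℕ → List ℕ → ℝ≥0∞
  | 0, _ => ⊤
  | n + 1, u => ∑ i ∈ Finset.range (κ u),
      ((ENNReal.ofReal (γ (κ u) (κ (i :: u))))⁻¹ + (condN γ κ n (i :: u))⁻¹)⁻¹

/-- Effective conductance from `u` to infinity in the tree of descendants of `u`. -/
noncomputable def condInf (γ : ℕ → ℕ → ℝ) (κ : List ℕ → ℕ) (u : List ℕ) : ℝ≥0∞ :=
  ⨅ n, condN γ κ n u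

/-- Effective conductance from `u` to infinity through its child `i :: u`: the edge from `u` to
`i :: u` in series with the tree of descendants of `i :: u`. -/
noncomputable def branch (γ : ℕ → ℕ → ℝ) (κ : List ℕ → ℕ) (u : List ℕ) (i : ℕ) : ℝ≥0∞ :=
  ((ENNReal.ofReal (γ (κ u) (κ (i :: u))))⁻¹ + (condInf γ κ (i :: u))⁻¹)⁻¹

/-- Effective conductance from the root to infinity in the augmented tree, whose root has
`κ [] + 1` children. -/
noncomputable def condRoot (γ : ℕ → ℕ → ℝ) (κ : List ℕ → ℕ) : ℝ≥0∞ :=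
  ∑ i ∈ Finset.range (κ [] + 1), branch γ κ [] i

/-- `𝒞(T_0^*) / 𝒞(T)` -/
noncomputable def frac (γ : ℕ → ℕ → ℝ) (κ : List ℕ → ℕ) : ℝ :=
  (branch γ κ [] 0 / condRoot γ κ).toReal

/-- the conductance `ξ_0` of the edge from the root to its child `[0]` -/
def xi0 (γ : ℕ → ℕ → ℝ) (κ : List ℕ → ℕ) : ℝ := γ (κ []) (κ [0])

/-! ### general facts -/

theorem condN_antitone (γ : ℕ → ℕ → ℝ) (κ : List ℕ → ℕ) (u : List ℕ) :
    Antitone (fun n => condN γ κ n u) := by
  have h : ∀ n, ∀ u, condN γ κ (n + 1) u ≤ condN γ κ n u := by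
    intro n
    induction n with
    | zero => intro u; simp [condN]
    | succ n ih =>
      intro u
      rw [condN, condN.eq_def γ κ (n + 1) u]
      refine Finset.sum_le_sum (fun i _ => ?_)
      gcongr
      exact ih _
  exact antitone_nat_of_succ_le (fun n => h n u)

theorem tendsto_condN (γ : ℕ → ℕ → ℝ) (κ : List ℕ → ℕ) (u : List ℕ) :
    Tendsto (fun n => condN γ κ n u) atTop (𝓝 (condInf γ κ u)) :=
  tendsto_atTop_iInf (condN_antitone γ κ u)

theorem condInf_eq (γ : ℕ → ℕ → ℝ) (κ : List ℕ → ℕ) (u : List ℕ) :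
    condInf γ κ u = ∑ i ∈ Finset.range (κ u), branch γ κ u i := by
  have h1 : Tendsto (fun n => condN γ κ (n + 1) u) atTop (𝓝 (condInf γ κ u)) :=
    (tendsto_add_atTop_iff_nat 1).2 (tendsto_condN γ κ u)
  refine tendsto_nhds_unique h1 ?_
  have h2 : (fun n => condN γ κ (n + 1) u) = fun n => ∑ i ∈ Finset.range (κ u),
      ((ENNReal.ofReal (γ (κ u) (κ (i :: u))))⁻¹ + (condN γ κ n (i :: u))⁻¹)⁻¹ := by
    ext n; rw [condN]
  rw [h2]
  refine tendsto_finsetSum _ (fun i _ => ?_)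
  unfold branch
  refine (tendsto_inv_iff).2 ?_
  refine Tendsto.const_add _ ?_
  exact (tendsto_inv_iff).2 (tendsto_condN γ κ _)

/-- monotonicity and scaling -/
theorem condN_mono {γ γ' : ℕ → ℕ → ℝ} (κ : List ℕ → ℕ)
    (h : ∀ u i, γ (κ u) (κ (i :: u)) ≤ γ' (κ u) (κ (i :: u))) (n : ℕ) (u : List ℕ) :
    condN γ κ n u ≤ condN γ' κ n u := by
  induction n generalizing u with
  | zero => simp [condN]
  | succ n ih =>
    rw [condN, condN]
    refine Finset.sum_le_sum (fun i _ => ?_)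
    gcongr
    · exact h u i
    · exact ih _

theorem condN_scale {γ : ℕ → ℕ → ℝ} (κ : List ℕ → ℕ) {a : ℝ} (ha : 0 < a) (n : ℕ) (u : List ℕ) :
    condN (fun k m => a * γ k m) κ n u = ENNReal.ofReal a * condN γ κ n u := by
  have ha0 : ENNReal.ofReal a ≠ 0 := by simpa using ha
  have ha1 : ENNReal.ofReal a ≠ ⊤ := ENNReal.ofReal_ne_top
  induction n generalizing u with
  | zero => simp [condN, ENNReal.mul_top ha0]
  | succ n ih =>
    rw [condN, condN, Finset.mul_sum]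
    refine Finset.sum_congr rfl (fun i _ => ?_)
    rw [ih, ENNReal.ofReal_mul ha.le, ENNReal.mul_inv (Or.inl ha0) (Or.inl ha1),
      ENNReal.mul_inv (Or.inl ha0) (Or.inl ha1), ← mul_add,
      ENNReal.mul_inv (Or.inl (ENNReal.inv_ne_zero.2 ha1)) (Or.inl (ENNReal.inv_ne_top.2 ha0)),
      inv_inv]

theorem condInf_mono {γ γ' : ℕ → ℕ → ℝ} (κ : List ℕ → ℕ)
    (h : ∀ u i, γ (κ u) (κ (i :: u)) ≤ γ' (κ u) (κ (i :: u))) (u : List ℕ) :
    condInf γ κ u ≤ condInf γ' κ u :=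
  iInf_mono (fun n => condN_mono κ h n u)

theorem condInf_scale {γ : ℕ → ℕ → ℝ} (κ : List ℕ → ℕ) {a : ℝ} (ha : 0 < a) (u : List ℕ) :
    condInf (fun k m => a * γ k m) κ u = ENNReal.ofReal a * condInf γ κ u := by
  unfold condInf
  have ha0 : ENNReal.ofReal a ≠ 0 := by simpa using ha
  have ha1 : ENNReal.ofReal a ≠ ⊤ := ENNReal.ofReal_ne_top
  rw [ENNReal.mul_iInf_of_ne ha0 ha1]
  exact iInf_congr (fun n => condN_scale κ ha n u)

theorem branch_mono {γ γ' : ℕ → ℕ → ℝ} (κ : List ℕ → ℕ)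
    (h : ∀ u i, γ (κ u) (κ (i :: u)) ≤ γ' (κ u) (κ (i :: u))) (u : List ℕ) (i : ℕ) :
    branch γ κ u i ≤ branch γ' κ u i := by
  unfold branch
  gcongr
  · exact h u i
  · exact condInf_mono κ h _

theorem branch_scale {γ : ℕ → ℕ → ℝ} (κ : List ℕ → ℕ) {a : ℝ} (ha : 0 < a) (u : List ℕ) (i : ℕ) :
    branch (fun k m => a * γ k m) κ u i = ENNReal.ofReal a * branch γ κ u i := by
  have ha0 : ENNReal.ofReal a ≠ 0 := by simpa using ha
  have ha1 : ENNReal.ofReal a ≠ ⊤ := ENNReal.ofReal_ne_top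
  unfold branch
  rw [condInf_scale κ ha, ENNReal.ofReal_mul ha.le, ENNReal.mul_inv (Or.inl ha0) (Or.inl ha1),
      ENNReal.mul_inv (Or.inl ha0) (Or.inl ha1), ← mul_add,
      ENNReal.mul_inv (Or.inl (ENNReal.inv_ne_zero.2 ha1)) (Or.inl (ENNReal.inv_ne_top.2 ha0)),
      inv_inv]

/-- equivariance -/
theorem condN_equiv (γ : ℕ → ℕ → ℝ) (κ κ' : List ℕ → ℕ) (σ : List ℕ → List ℕ) (A : Set (List ℕ))
    (hA : ∀ u ∈ A, ∀ i, i :: u ∈ A) (hσ : ∀ u ∈ A, ∀ i, σ (i :: u) = i :: σ u)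
    (hκ : ∀ u ∈ A, κ' u = κ (σ u)) (n : ℕ) : ∀ u ∈ A, condN γ κ' n u = condN γ κ n (σ u) := by
  induction n with
  | zero => intro u _; simp [condN]
  | succ n ih =>
    intro u hu
    rw [condN, condN, hκ u hu]
    refine Finset.sum_congr rfl (fun i _ => ?_)
    rw [ih _ (hA u hu i), hκ _ (hA u hu i), hσ u hu i]

theorem condInf_equiv (γ : ℕ → ℕ → ℝ) (κ κ' : List ℕ → ℕ) (σ : List ℕ → List ℕ) (A : Set (List ℕ))
    (hA : ∀ u ∈ A, ∀ i, i :: u ∈ A) (hσ : ∀ u ∈ A, ∀ i, σ (i :: u) = i :: σ u)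
    (hκ : ∀ u ∈ A, κ' u = κ (σ u)) (u : List ℕ) (hu : u ∈ A) :
    condInf γ κ' u = condInf γ κ (σ u) := by
  unfold condInf
  exact iInf_congr (fun n => condN_equiv γ κ κ' σ A hA hσ hκ n u hu)

end Pool.Agent.V1195.GW
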