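import Mathlib

open MeasureTheory Set
open scoped ENNReal InnerProductSpace

namespace Pool.Agent.V1195.HaarShift

/-- The real Hilbert space `L²(ℝ)`. -/
abbrev L2R : Type := Lp ℝ 2 (volume : Measure ℝ)

/-- The dyadic interval `[k 2^j, (k+1) 2^j)`. -/
def D (j k : ℤ) : Set ℝ := Ico ((k : ℝ) * 2 ^ j) (((k : ℝ) + 1) * 2 ^ j)

theorem measurableSet_D (j k : ℤ) : MeasurableSet (D j k) := measurableSet_Ico

theorem two_zpow_pos (j : ℤ) : (0 : ℝ) < 2 ^ j := by positivity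

theorem volume_D (j k : ℤ) : volume (D j k) = ENNReal.ofReal (2 ^ j) := by
  unfold D
  rw [Real.volume_Ico]
  congr 1
  ring

theorem D_ne_top (j k : ℤ) : volume (D j k) ≠ ∞ := by
  rw [volume_D]; exact ENNReal.ofReal_ne_top

theorem volReal_D (j k : ℤ) : volume.real (D j k) = 2 ^ j := by
  rw [Measure.real, volume_D, ENNReal.toReal_ofReal (two_zpow_pos j).le]

/-- The indicator function of a dyadic interval, as an element of `L²(ℝ)`. -/
noncomputable def ind (j k : ℤ) : L2R :=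
  indicatorConstLp 2 (measurableSet_D j k) (D_ne_top j k) (1 : ℝ)

/-- The Haar function `h_J = |J|^{-1/2} (1_{J_+} - 1_{J_-})` of `J = [k 2^j, (k+1) 2^j)`. -/
noncomputable def haar (j k : ℤ) : L2R :=
  (Real.sqrt (2 ^ j))⁻¹ • (ind (j - 1) (2 * k + 1) - ind (j - 1) (2 * k))

theorem two_zpow_sub_one (j : ℤ) : (2 : ℝ) ^ (j - 1) = 2 ^ j / 2 := by
  rw [zpow_sub_one₀ (by norm_num)]; ring

theorem D_split (j k : ℤ) : D j k = D (j - 1) (2 * k) ∪ D (j - 1) (2 * k + 1) := by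
  unfold D
  rw [two_zpow_sub_one]
  have h := two_zpow_pos j
  have e1 : ((2 * k : ℤ) : ℝ) * (2 ^ j / 2) = k * 2 ^ j := by push_cast; ring
  have e2 : (((2 * k : ℤ) : ℝ) + 1) * (2 ^ j / 2) = k * 2 ^ j + 2 ^ j / 2 := by push_cast; ring
  have e3 : ((2 * k + 1 : ℤ) : ℝ) * (2 ^ j / 2) = k * 2 ^ j + 2 ^ j / 2 := by push_cast; ring
  have e4 : (((2 * k + 1 : ℤ) : ℝ) + 1) * (2 ^ j / 2) = (k + 1) * 2 ^ j := by push_cast; ring
  rw [e1, e2, e3, e4]
  rw [Ico_union_Ico_eq_Ico (by linarith) (by nlinarith)]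

theorem mem_D_iff (j k : ℤ) (x : ℝ) : x ∈ D j k ↔ ⌊x / 2 ^ j⌋ = k := by
  unfold D
  rw [Int.floor_eq_iff, mem_Ico, le_div_iff₀ (two_zpow_pos j), div_lt_iff₀ (two_zpow_pos j)]

theorem D_disjoint (j : ℤ) {k l : ℤ} (h : k ≠ l) : Disjoint (D j k) (D j l) := by
  rw [Set.disjoint_left]
  intro x hx hy
  rw [mem_D_iff] at hx hy
  exact h (hx.symm.trans hy)

theorem D_split_disjoint (j k : ℤ) : Disjoint (D (j - 1) (2 * k)) (D (j - 1) (2 * k + 1)) :=
  D_disjoint _ (by omega)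

theorem D_subset (j k : ℤ) (n : ℕ) : D (j - n) k ⊆ D j (k / 2 ^ n) := by
  intro x hx
  rw [mem_D_iff] at hx ⊢
  rw [← hx]
  have e : x / 2 ^ j = (x / 2 ^ (j - n : ℤ)) / ((2 ^ n : ℕ) : ℝ) := by
    rw [zpow_sub₀ (by norm_num : (2 : ℝ) ≠ 0)]
    push_cast
    rw [zpow_natCast]
    field_simp
  rw [e, Int.floor_div_natCast]
  norm_cast

theorem D_subset_or_disjoint (j k m : ℤ) (n : ℕ) :
    (k / 2 ^ n = m ∧ D (j - n) k ⊆ D j m) ∨ (k / 2 ^ n ≠ m ∧ Disjoint (D (j - n) k) (D j m)) := by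
  by_cases h : k / 2 ^ n = m
  · left
    refine ⟨h, ?_⟩
    rw [← h]; exact D_subset j k n
  · right
    exact ⟨h, (D_disjoint j h).mono_left (D_subset j k n)⟩

theorem inner_ind_ind (j k : ℤ) (n : ℕ) (m : ℤ) :
    ⟪ind (j - n) k, ind j m⟫_ℝ = if k / 2 ^ n = m then (2 : ℝ) ^ (j - n : ℤ) else 0 := by
  unfold ind
  rw [L2.real_inner_indicatorConstLp_one_indicatorConstLp_one (measurableSet_D _ _)
    (measurableSet_D _ _) (D_ne_top _ _) (D_ne_top _ _)]
  rcases D_subset_or_disjoint j k m n with ⟨h1, h2⟩ | ⟨h1, h2⟩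
  · rw [if_pos h1, inter_eq_left.2 h2, volReal_D]
  · rw [if_neg h1, h2.inter_eq, measureReal_empty]

theorem inner_ind_self (j k m : ℤ) :
    ⟪ind j k, ind j m⟫_ℝ = if k = m then (2 : ℝ) ^ j else 0 := by
  have := inner_ind_ind j k 0 m
  simpa using this

theorem ind_split (j k : ℤ) : ind j k = ind (j - 1) (2 * k) + ind (j - 1) (2 * k + 1) := by
  unfold ind
  rw [← indicatorConstLp_disjoint_union _ _ _ _ (D_split_disjoint j k)]
  congr 1
  exact D_split j k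

theorem inner_haar_ind (j k : ℤ) (n : ℕ) (m : ℤ) : ⟪haar j k, ind (j + n) m⟫_ℝ = 0 := by
  unfold haar
  rw [real_inner_smul_left, inner_sub_left]
  have e : j - 1 = (j + n) - ((n + 1 : ℕ) : ℤ) := by push_cast; ring
  rw [e, inner_ind_ind, inner_ind_ind]
  have e2 : (2 * k + 1) / 2 ^ (n + 1) = (2 * k) / 2 ^ (n + 1) := by
    rw [pow_succ', ← Int.ediv_ediv_of_nonneg (by norm_num),
      ← Int.ediv_ediv_of_nonneg (by norm_num)]
    congr 1
    omega
  rw [e2, sub_self, mul_zero]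

theorem inner_haar_haar_lt (j k : ℤ) (n : ℕ) (m : ℤ) :
    ⟪haar j k, haar (j + (n + 1 : ℕ)) m⟫_ℝ = 0 := by
  conv_lhs => rw [show haar (j + (n + 1 : ℕ)) m = (Real.sqrt (2 ^ (j + (n + 1 : ℕ) : ℤ)))⁻¹ •
    (ind (j + n) (2 * m + 1) - ind (j + n) (2 * m)) from by
      unfold haar
      congr 3 <;> push_cast <;> ring_nf]
  rw [real_inner_smul_right, inner_sub_right, inner_haar_ind, inner_haar_ind]
  simp

theorem inner_haar_self (j k m : ℤ) : ⟪haar j k, haar j m⟫_ℝ = if k = m then 1 else 0 := by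
  unfold haar
  rw [real_inner_smul_left, real_inner_smul_right, inner_sub_left, inner_sub_right,
    inner_sub_right, inner_ind_self, inner_ind_self, inner_ind_self, inner_ind_self]
  have h := two_zpow_pos j
  have hs : Real.sqrt (2 ^ j) * Real.sqrt (2 ^ j) = 2 ^ j := Real.mul_self_sqrt h.le
  have hs0 : Real.sqrt (2 ^ j) ≠ 0 := (Real.sqrt_pos.2 h).ne'
  by_cases hk : k = m
  · subst hk
    rw [if_pos rfl, if_neg (by omega), if_neg (by omega), if_pos rfl, if_pos rfl,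
      two_zpow_sub_one]
    field_simp
    nlinarith
  · rw [if_neg (by omega), if_neg (by omega), if_neg (by omega), if_neg (by omega), if_neg hk]
    simp

theorem inner_haar_haar (j k j' k' : ℤ) :
    ⟪haar j k, haar j' k'⟫_ℝ = if j = j' ∧ k = k' then 1 else 0 := by
  rcases lt_trichotomy j j' with h | h | h
  · obtain ⟨n, hn⟩ : ∃ n : ℕ, j' = j + (n + 1 : ℕ) := ⟨(j' - j - 1).toNat, by omega⟩
    rw [if_neg (by omega), hn, inner_haar_haar_lt]
  · subst h
    rw [inner_haar_self]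
    simp
  · obtain ⟨n, hn⟩ : ∃ n : ℕ, j = j' + (n + 1 : ℕ) := ⟨(j - j' - 1).toNat, by omega⟩
    rw [if_neg (by omega), hn, real_inner_comm, inner_haar_haar_lt]

end Pool.Agent.V1195.HaarShift
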