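import Pool.Agent.V1195.HaarPoly

namespace Pool.Agent.V1195.HaarG

open Pool.Agent.V1195.HaarPoly

/-- the polynomial `p` (times 100) -/
noncomputable def P (t : ℝ) : ℝ := t - 86 * t ^ 2 + 141 * t ^ 3 - 56 * t ^ 4

/-- the Bellman minorant (times 100) -/
noncomputable def G (x y x' y' : ℝ) : ℝ :=
  50 * ((1 - x) * y ^ 2 + (1 - x') * y' ^ 2) + (P x + P x') / 2
    - (x * (1 - x) + x' * (1 - x')) * (17 * (y - y') ^ 2 + 7 * (x - x') ^ 2)

noncomputable def L (x y : ℝ) : ℝ :=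
  50*(1-y) + (-43 + 423/2*x - 168*x^2) - 28*(x*(1-x)) - 68*(y*(1-y))

noncomputable def S (x y : ℝ) : ℝ := x*(1-x)+y*(1-y)

noncomputable def ρ (x : ℝ) : ℝ := min x (1 - x)

theorem g1_nonneg (x y : ℝ) (hx0 : 0 ≤ x) (hx1 : x ≤ 1) (hy0 : 0 ≤ y) (hy1 : y ≤ 1) :
    0 ≤ 7 * S x y * (x - y) ^ 2 + (ρ x) ^ 2 * L x y := by
  unfold S L ρ
  rcases le_total x (1 - x) with h | h
  · rw [min_eq_left h]
    rcases le_total y (1 / 2) with h1 | h1
    · rcases le_total y x with h2 | h2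
      · exact g1a1 x y (by linarith) (by linarith) (by linarith)
      · exact g1a2 x y (by linarith) (by linarith) (by linarith)
    · rcases le_total (x + y) 1 with h2 | h2
      · exact g1a3 x y (by linarith) (by linarith) (by linarith)
      · exact g1a4 x y (by linarith) (by linarith) (by linarith)
  · rw [min_eq_right h]
    rcases le_total (1 / 2) y with h1 | h1
    · rcases le_total x y with h2 | h2
      · exact g1b1 x y (by linarith) (by linarith) (by linarith)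
      · exact g1b2 x y (by linarith) (by linarith) (by linarith)
    · rcases le_total 1 (x + y) with h2 | h2
      · exact g1b3 x y (by linarith) (by linarith) (by linarith)
      · exact g1b4 x y (by linarith) (by linarith) (by linarith)

noncomputable def H2 (x y : ℝ) : ℝ :=
  68 * S x y * (7 * S x y * (x-y)^2 + (ρ x)^2 * L x y + (ρ y)^2 * L y x
    + 136*((ρ x)^2*(ρ y)^2)) - 10000*((ρ x)^2*(ρ y)^2)

theorem H2_symm (x y : ℝ) : H2 x y = H2 y x := by
  unfold H2 S
  ring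

theorem H2_nonneg_of_le (x y : ℝ) (hx0 : 0 ≤ x) (hx1 : x ≤ 1) (hy0 : 0 ≤ y) (hy1 : y ≤ 1)
    (hyx : y ≤ x) : 0 ≤ H2 x y := by
  unfold H2 S L ρ
  rcases le_total x (1 - x) with h | h
  · rw [min_eq_left h, min_eq_left (by linarith : y ≤ 1 - y)]
    exact g2i x y (by linarith) (by linarith) (by linarith)
  · rw [min_eq_right h]
    rcases le_total y (1 - y) with h1 | h1
    · rw [min_eq_left h1]
      rcases le_total (x + y) 1 with h2 | h2
      · exact g2iii1 x y (by linarith) (by linarith) (by linarith)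
      · exact g2iii2 x y (by linarith) (by linarith) (by linarith)
    · rw [min_eq_right h1]
      exact g2ii x y (by linarith) (by linarith) (by linarith)

theorem H2_nonneg (x y : ℝ) (hx0 : 0 ≤ x) (hx1 : x ≤ 1) (hy0 : 0 ≤ y) (hy1 : y ≤ 1) :
    0 ≤ H2 x y := by
  rcases le_total y x with h | h
  · exact H2_nonneg_of_le x y hx0 hx1 hy0 hy1 h
  · rw [H2_symm]; exact H2_nonneg_of_le y x hy0 hy1 hx0 hx1 h

/-- bilinear interpolation -/
theorem bilin (A B C E s t r q : ℝ) (hs0 : 0 ≤ s) (hs : s ≤ r) (ht0 : 0 ≤ t) (ht : t ≤ q)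
    (h00 : 0 ≤ A) (h10 : 0 ≤ A + B * r) (h01 : 0 ≤ A + C * q)
    (h11 : 0 ≤ A + B * r + C * q + E * (r * q)) : 0 ≤ A + B * s + C * t + E * (s * t) := by
  obtain ⟨σ, hσ0, hσ1, hσ⟩ : ∃ σ : ℝ, 0 ≤ σ ∧ σ ≤ 1 ∧ s = σ * r := by
    rcases eq_or_lt_of_le (le_trans hs0 hs) with h | h
    · exact ⟨0, le_rfl, zero_le_one, by nlinarith⟩
    · exact ⟨s / r, by positivity, by rw [div_le_one h]; exact hs, by field_simp⟩
  obtain ⟨τ, hτ0, hτ1, hτ⟩ : ∃ τ : ℝ, 0 ≤ τ ∧ τ ≤ 1 ∧ t = τ * q := by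
    rcases eq_or_lt_of_le (le_trans ht0 ht) with h | h
    · exact ⟨0, le_rfl, zero_le_one, by nlinarith⟩
    · exact ⟨t / q, by positivity, by rw [div_le_one h]; exact ht, by field_simp⟩
  subst hσ hτ
  have e : A + B * (σ * r) + C * (τ * q) + E * (σ * r * (τ * q))
      = (1 - σ) * (1 - τ) * A + σ * (1 - τ) * (A + B * r) + (1 - σ) * τ * (A + C * q)
        + σ * τ * (A + B * r + C * q + E * (r * q)) := by ring
  rw [e]
  have a1 : 0 ≤ 1 - σ := by linarith
  have a2 : 0 ≤ 1 - τ := by linarith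
  positivity

theorem R_nonneg (x x' η α β : ℝ) (hx0 : 0 ≤ x) (hx1 : x ≤ 1) (hy0 : 0 ≤ x') (hy1 : x' ≤ 1)
    (hα : |α| ≤ ρ x) (hβ : |β| ≤ ρ x') :
    0 ≤ S x x' * (17 * η ^ 2 + 7 * (x - x') ^ 2) - 100 * (η * α * β) + α ^ 2 * L x x'
      + β ^ 2 * L x' x + 136 * (α ^ 2 * β ^ 2) := by
  have hX : 0 ≤ x * (1 - x) := mul_nonneg hx0 (by linarith)
  have hX' : 0 ≤ x' * (1 - x') := mul_nonneg hy0 (by linarith)
  have hS : 0 ≤ S x x' := by unfold S; linarith
  have hα2 : α ^ 2 ≤ (ρ x) ^ 2 := by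
    rw [← sq_abs α]; exact pow_le_pow_left₀ (abs_nonneg _) hα 2
  have hβ2 : β ^ 2 ≤ (ρ x') ^ 2 := by
    rw [← sq_abs β]; exact pow_le_pow_left₀ (abs_nonneg _) hβ 2
  rcases eq_or_lt_of_le hS with h | h
  · -- S = 0
    have h1 : x * (1 - x) = 0 := by unfold S at h; linarith
    have h2 : x' * (1 - x') = 0 := by unfold S at h; linarith
    have r1 : ρ x = 0 := by
      unfold ρ
      rcases mul_eq_zero.1 h1 with e | e
      · rw [e]; norm_num
      · rw [e]; exact min_eq_right hx0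
    have r2 : ρ x' = 0 := by
      unfold ρ
      rcases mul_eq_zero.1 h2 with e | e
      · rw [e]; norm_num
      · rw [e]; exact min_eq_right hy0
    have e1 : α = 0 := by
      rw [r1] at hα; exact abs_eq_zero.1 (le_antisymm hα (abs_nonneg _))
    have e2 : β = 0 := by
      rw [r2] at hβ; exact abs_eq_zero.1 (le_antisymm hβ (abs_nonneg _))
    rw [e1, e2, ← h]
    norm_num
  · have key : 0 ≤ 68 * S x x' * (7 * S x x' * (x - x') ^ 2)
        + (68 * S x x' * L x x') * α ^ 2 + (68 * S x x' * L x' x) * β ^ 2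
        + (68 * S x x' * 136 - 10000) * (α ^ 2 * β ^ 2) := by
      refine bilin _ _ _ _ _ _ ((ρ x) ^ 2) ((ρ x') ^ 2) (sq_nonneg _) hα2 (sq_nonneg _) hβ2
        (by positivity) ?_ ?_ ?_
      · have := g1_nonneg x x' hx0 hx1 hy0 hy1
        have h3 := mul_nonneg (by positivity : 0 ≤ 68 * S x x') this
        nlinarith
      · have := g1_nonneg x' x hy0 hy1 hx0 hx1
        have e : S x' x = S x x' := by unfold S; ring
        rw [e] at this
        have h3 := mul_nonneg (by positivity : 0 ≤ 68 * S x x') this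
        nlinarith
      · have := H2_nonneg x x' hx0 hx1 hy0 hy1
        unfold H2 at this
        nlinarith
    have h4 : 0 ≤ 68 * S x x' * (S x x' * (17 * η ^ 2 + 7 * (x - x') ^ 2)
        - 100 * (η * α * β) + α ^ 2 * L x x' + β ^ 2 * L x' x + 136 * (α ^ 2 * β ^ 2)) := by
      have e : 68 * S x x' * (S x x' * (17 * η ^ 2 + 7 * (x - x') ^ 2)
        - 100 * (η * α * β) + α ^ 2 * L x x' + β ^ 2 * L x' x + 136 * (α ^ 2 * β ^ 2))
        = (34 * S x x' * η - 100 * (α * β)) ^ 2 + (68 * S x x' * (7 * S x x' * (x - x') ^ 2)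
        + (68 * S x x' * L x x') * α ^ 2 + (68 * S x x' * L x' x) * β ^ 2
        + (68 * S x x' * 136 - 10000) * (α ^ 2 * β ^ 2)) := by ring
      rw [e]
      positivity
    exact nonneg_of_mul_nonneg_right h4 (by positivity)

theorem G_step (x y x' y' α β : ℝ) (h1 : 0 ≤ x - α) (h2 : 0 ≤ x + α) (h3 : x - α ≤ 1)
    (h4 : x + α ≤ 1) (h5 : 0 ≤ x' - β) (h6 : 0 ≤ x' + β) (h7 : x' - β ≤ 1) (h8 : x' + β ≤ 1) :
    G x y x' y' ≤ (G (x - α) (y - β) (x + α) (y + β)
      + G (x' - β) (y' + α) (x' + β) (y' - α)) / 2 := by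
  have hα : |α| ≤ ρ x := by
    unfold ρ
    rw [le_min_iff, abs_le, abs_le]
    constructor <;> constructor <;> linarith
  have hβ : |β| ≤ ρ x' := by
    unfold ρ
    rw [le_min_iff, abs_le, abs_le]
    constructor <;> constructor <;> linarith
  have R := R_nonneg x x' (y - y') α β (by linarith) (by linarith) (by linarith) (by linarith)
    hα hβ
  have e : (G (x - α) (y - β) (x + α) (y + β)
      + G (x' - β) (y' + α) (x' + β) (y' - α)) / 2 - G x y x' y'
      = S x x' * (17 * (y - y') ^ 2 + 7 * (x - x') ^ 2) - 100 * ((y - y') * α * β)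
        + α ^ 2 * L x x' + β ^ 2 * L x' x + 136 * (α ^ 2 * β ^ 2) := by
    unfold G P S L
    ring
  linarith

theorem G_diag_one (y : ℝ) : G 1 y 1 y = 0 := by
  unfold G P; norm_num

theorem G_diag_zero (y : ℝ) : G 0 y 0 y = 100 * y ^ 2 := by
  unfold G P; ring

/-- lower bound near the origin -/
theorem G_lower (x y x' y' : ℝ) (hx0 : 0 ≤ x) (hx1 : x ≤ 1) (hy0 : 0 ≤ x') (hy1 : x' ≤ 1) :
    (x + x') / 2 * (1 - 100 * (x + x') - 34 * (y - y') ^ 2) ≤ G x y x' y' := by
  have b1 : 0 ≤ (1 - x) * y ^ 2 := mul_nonneg (by linarith) (sq_nonneg _)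
  have b2 : 0 ≤ (1 - x') * y' ^ 2 := mul_nonneg (by linarith) (sq_nonneg _)
  have b3 : x - 86 * x ^ 2 ≤ P x := by
    unfold P
    have : 0 ≤ x ^ 3 * (141 - 56 * x) := mul_nonneg (by positivity) (by linarith)
    nlinarith
  have b4 : x' - 86 * x' ^ 2 ≤ P x' := by
    unfold P
    have : 0 ≤ x' ^ 3 * (141 - 56 * x') := mul_nonneg (by positivity) (by linarith)
    nlinarith
  have b5 : (x * (1 - x) + x' * (1 - x')) ≤ x + x' := by nlinarith [sq_nonneg x, sq_nonneg x']
  have b6 : 0 ≤ (17 * (y - y') ^ 2 + 7 * (x - x') ^ 2) := by positivity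
  have b7 := mul_le_mul_of_nonneg_right b5 b6
  have b8 : (x - x') ^ 2 ≤ (x + x') := by
    have : |x - x'| ≤ 1 := by rw [abs_le]; constructor <;> linarith
    have h1 : (x - x') ^ 2 ≤ |x - x'| := by
      rw [← sq_abs]; nlinarith [abs_nonneg (x - x')]
    have h2 : |x - x'| ≤ x + x' := by rw [abs_le]; constructor <;> linarith
    linarith
  have b9 : (x + x') * (7 * (x - x') ^ 2) ≤ (x + x') * (7 * (x + x')) :=
    mul_le_mul_of_nonneg_left (by linarith) (by linarith)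
  unfold G
  nlinarith [mul_nonneg hx0 hy0]

end Pool.Agent.V1195.HaarG
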