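import Pool.Agent.V1195.HaarOp
import Pool.Agent.V1195.HaarG

open MeasureTheory Set Filter Topology
open scoped ENNReal InnerProductSpace symmDiff

namespace Pool.Agent.V1195.HaarShift

open Pool.Agent.V1195.HaarG

/-- the average of `u` over a dyadic interval -/
noncomputable def av (u : Lp ℝ 2 (volume : Measure ℝ)) (j k : ℤ) : ℝ := ⟪ind j k, u⟫_ℝ / 2 ^ j

theorem av_split (u : Lp ℝ 2 (volume : Measure ℝ)) (j k : ℤ) :
    av u j k = (av u (j - 1) (2 * k) + av u (j - 1) (2 * k + 1)) / 2 := by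
  unfold av
  rw [ind_split j k, inner_add_left, two_zpow_sub_one]
  have := two_zpow_pos j
  field_simp

theorem inner_haar_av (u : Lp ℝ 2 (volume : Measure ℝ)) (j k : ℤ) :
    ⟪haar j k, u⟫_ℝ
      = (Real.sqrt (2 ^ j))⁻¹ * (2 ^ j / 2) * (av u (j - 1) (2 * k + 1) - av u (j - 1) (2 * k)) := by
  unfold av haar
  rw [real_inner_smul_left, inner_sub_left, two_zpow_sub_one]
  have := two_zpow_pos j
  field_simp

theorem coef_pos (j : ℤ) : 0 < (Real.sqrt (2 ^ j))⁻¹ * ((2 : ℝ) ^ j / 2) := by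
  have := two_zpow_pos j
  have := Real.sqrt_pos.2 this
  positivity

variable {T : Lp ℝ 2 (volume : Measure ℝ) →L[ℝ] Lp ℝ 2 (volume : Measure ℝ)}

theorem shift_even (hT : IsHaarShift T) (u : Lp ℝ 2 (volume : Measure ℝ)) (j k : ℤ) :
    av (T u) (j - 1) (2 * (2 * k) + 1) - av (T u) (j - 1) (2 * (2 * k))
      = av u (j - 1) (2 * (2 * k + 1) + 1) - av u (j - 1) (2 * (2 * k + 1)) := by
  have h := haar_shift_even hT u j k
  rw [inner_haar_av, inner_haar_av] at h
  exact mul_left_cancel₀ (coef_pos j).ne' h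

theorem shift_odd (hT : IsHaarShift T) (u : Lp ℝ 2 (volume : Measure ℝ)) (j k : ℤ) :
    av (T u) (j - 1) (2 * (2 * k + 1) + 1) - av (T u) (j - 1) (2 * (2 * k + 1))
      = -(av u (j - 1) (2 * (2 * k) + 1) - av u (j - 1) (2 * (2 * k))) := by
  have h := haar_shift_odd hT u j k
  rw [inner_haar_av, inner_haar_av, ← mul_neg] at h
  exact mul_left_cancel₀ (coef_pos j).ne' h

/-- the Bellman functional on a dyadic interval -/
noncomputable def Phi (u v : Lp ℝ 2 (volume : Measure ℝ)) (j k : ℤ) : ℝ :=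
  G (av u (j - 1) (2 * k)) (av v (j - 1) (2 * k)) (av u (j - 1) (2 * k + 1))
    (av v (j - 1) (2 * k + 1))

theorem Phi_step (hT : IsHaarShift T) (u : Lp ℝ 2 (volume : Measure ℝ))
    (h01 : ∀ j k : ℤ, 0 ≤ av u j k ∧ av u j k ≤ 1) (j k : ℤ) :
    Phi u (T u) j k ≤ (Phi u (T u) (j - 1) (2 * k) + Phi u (T u) (j - 1) (2 * k + 1)) / 2 := by
  set α : ℝ := (av u (j - 1 - 1) (2 * (2 * k) + 1) - av u (j - 1 - 1) (2 * (2 * k))) / 2 with hα
  set β : ℝ := (av u (j - 1 - 1) (2 * (2 * k + 1) + 1) - av u (j - 1 - 1) (2 * (2 * k + 1))) / 2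
    with hβ
  have s1 := av_split u (j - 1) (2 * k)
  have s2 := av_split u (j - 1) (2 * k + 1)
  have s3 := av_split (T u) (j - 1) (2 * k)
  have s4 := av_split (T u) (j - 1) (2 * k + 1)
  have e1 := shift_even hT u (j - 1) k
  have e2 := shift_odd hT u (j - 1) k
  have a1 : av u (j - 1 - 1) (2 * (2 * k)) = av u (j - 1) (2 * k) - α := by rw [hα]; linarith
  have a2 : av u (j - 1 - 1) (2 * (2 * k) + 1) = av u (j - 1) (2 * k) + α := by rw [hα]; linarith
  have a3 : av u (j - 1 - 1) (2 * (2 * k + 1)) = av u (j - 1) (2 * k + 1) - β := by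
    rw [hβ]; linarith
  have a4 : av u (j - 1 - 1) (2 * (2 * k + 1) + 1) = av u (j - 1) (2 * k + 1) + β := by
    rw [hβ]; linarith
  have b1 : av (T u) (j - 1 - 1) (2 * (2 * k)) = av (T u) (j - 1) (2 * k) - β := by
    rw [hβ]; linarith
  have b2 : av (T u) (j - 1 - 1) (2 * (2 * k) + 1) = av (T u) (j - 1) (2 * k) + β := by
    rw [hβ]; linarith
  have b3 : av (T u) (j - 1 - 1) (2 * (2 * k + 1)) = av (T u) (j - 1) (2 * k + 1) + α := by
    rw [hα]; linarith
  have b4 : av (T u) (j - 1 - 1) (2 * (2 * k + 1) + 1) = av (T u) (j - 1) (2 * k + 1) - α := by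
    rw [hα]; linarith
  unfold Phi
  rw [a1, a2, a3, a4, b1, b2, b3, b4]
  apply G_step
  · rw [← a1]; exact (h01 _ _).1
  · rw [← a2]; exact (h01 _ _).1
  · rw [← a1]; exact (h01 _ _).2
  · rw [← a2]; exact (h01 _ _).2
  · rw [← a3]; exact (h01 _ _).1
  · rw [← a4]; exact (h01 _ _).1
  · rw [← a3]; exact (h01 _ _).2
  · rw [← a4]; exact (h01 _ _).2

theorem integrable_sq (v : Lp ℝ 2 (volume : Measure ℝ)) : Integrable (fun x => (v x) ^ 2) :=
  (Lp.memLp v).integrable_sq

theorem integral_sq (v : Lp ℝ 2 (volume : Measure ℝ)) : ∫ x, (v x) ^ 2 = ‖v‖ ^ 2 := by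
  rw [← real_inner_self_eq_norm_sq, L2.inner_def]
  congr 1
  ext x
  simp [pow_two]

theorem setIntegral_D (v : Lp ℝ 2 (volume : Measure ℝ)) (j k : ℤ) :
    ∫ x in D j k, v x = 2 ^ j * av v j k := by
  have h := L2.inner_indicatorConstLp_one (𝕜 := ℝ) (measurableSet_D j k) (D_ne_top j k) v
  unfold av ind
  rw [h]
  have := two_zpow_pos j
  field_simp

theorem jensen (v : Lp ℝ 2 (volume : Measure ℝ)) (j k : ℤ) :
    2 ^ j * (av v j k) ^ 2 ≤ ∫ x in D j k, (v x) ^ 2 := by
  set b := av v j k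
  have hi : IntegrableOn (fun x => v x) (D j k) :=
    integrableOn_Lp_of_measure_ne_top v fact_one_le_two_ennreal.elim (D_ne_top j k)
  have hi2 : IntegrableOn (fun x => (v x) ^ 2) (D j k) := (integrable_sq v).integrableOn
  have hc : IntegrableOn (fun _ : ℝ => b ^ 2) (D j k) := by
    rw [integrableOn_const_iff]
    exact Or.inr (D_ne_top j k).lt_top
  have h0 : 0 ≤ ∫ x in D j k, (v x - b) ^ 2 := integral_nonneg (fun x => sq_nonneg _)
  have h1 : ∫ x in D j k, (v x - b) ^ 2
      = (∫ x in D j k, (v x) ^ 2) - 2 * b * (∫ x in D j k, v x) + b ^ 2 * 2 ^ j := by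
    have e : (fun x => (v x - b) ^ 2) = fun x => ((v x) ^ 2 - 2 * b * v x) + b ^ 2 := by
      ext x; ring
    have hi3 : IntegrableOn (fun x => 2 * b * v x) (D j k) := hi.const_mul _
    have hi4 : IntegrableOn (fun x => (v x) ^ 2 - 2 * b * v x) (D j k) := hi2.sub hi3
    rw [e, integral_add hi4 hc, integral_sub hi2 hi3,
      integral_const_mul, setIntegral_const, volReal_D, smul_eq_mul]
    ring
  rw [h1, setIntegral_D] at h0
  nlinarith

/-- mass outside `V` -/
noncomputable def E (V : Set ℝ) (v : Lp ℝ 2 (volume : Measure ℝ)) (A : Set ℝ) : ℝ :=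
  ∫ x in A \ V, (v x) ^ 2

theorem E_union {V : Set ℝ} (hV : MeasurableSet V) (v : Lp ℝ 2 (volume : Measure ℝ))
    {A B : Set ℝ} (hB : MeasurableSet B) (h : Disjoint A B) :
    E V v (A ∪ B) = E V v A + E V v B := by
  unfold E
  rw [union_sdiff_distrib]
  exact setIntegral_union (h.mono sdiff_subset sdiff_subset) (hB.diff hV)
    (integrable_sq v).integrableOn (integrable_sq v).integrableOn

theorem E_mono {V : Set ℝ} (v : Lp ℝ 2 (volume : Measure ℝ)) {A B : Set ℝ} (h : A ⊆ B) :
    E V v A ≤ E V v B := by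
  unfold E
  exact setIntegral_mono_set (integrable_sq v).integrableOn
    (Eventually.of_forall (fun x => sq_nonneg _))
    (sdiff_subset_sdiff_left h).eventuallyLE

theorem E_nonneg {V : Set ℝ} (v : Lp ℝ 2 (volume : Measure ℝ)) {A : Set ℝ} : 0 ≤ E V v A :=
  integral_nonneg (fun _ => sq_nonneg _)

section Step

variable {V : Set ℝ} (hV : MeasurableSet V) (hV' : volume V ≠ ∞)

theorem av_indicator (j k : ℤ) :
    av (indicatorConstLp 2 hV hV' (1 : ℝ)) j k = volume.real (D j k ∩ V) / 2 ^ j := by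
  unfold av ind
  rw [L2.real_inner_indicatorConstLp_one_indicatorConstLp_one (measurableSet_D _ _) hV
    (D_ne_top _ _) hV']

theorem av_indicator_mem (j k : ℤ) :
    0 ≤ av (indicatorConstLp 2 hV hV' (1 : ℝ)) j k
      ∧ av (indicatorConstLp 2 hV hV' (1 : ℝ)) j k ≤ 1 := by
  rw [av_indicator]
  have := two_zpow_pos j
  refine ⟨by positivity, ?_⟩
  rw [div_le_one this, ← volReal_D j k]
  exact measureReal_mono inter_subset_left (D_ne_top j k)

theorem base_case (hT : IsHaarShift T) (j : ℤ)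
    (hstep : ∀ k, D j k ⊆ V ∨ Disjoint (D j k) V) (k : ℤ) :
    2 ^ j * Phi (indicatorConstLp 2 hV hV' (1 : ℝ)) (T (indicatorConstLp 2 hV hV' (1 : ℝ))) j k
      ≤ 100 * E V (T (indicatorConstLp 2 hV hV' (1 : ℝ))) (D j k) := by
  set u := indicatorConstLp 2 hV hV' (1 : ℝ) with hu
  have hl : ∀ k, D (j - 1) (2 * k) ⊆ D j k := fun k => by
    rw [D_split j k]; exact subset_union_left
  have hr : ∀ k, D (j - 1) (2 * k + 1) ⊆ D j k := fun k => by
    rw [D_split j k]; exact subset_union_right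
  have c1 : ∀ k, D j k ⊆ V → av u (j - 1) (2 * k) = 1 ∧ av u (j - 1) (2 * k + 1) = 1 := by
    intro k h
    rw [hu, av_indicator, av_indicator, inter_eq_left.2 ((hl k).trans h),
      inter_eq_left.2 ((hr k).trans h), volReal_D, volReal_D]
    have := two_zpow_pos (j - 1)
    exact ⟨div_self this.ne', div_self this.ne'⟩
  have c0 : ∀ k, Disjoint (D j k) V → av u (j - 1) (2 * k) = 0 ∧ av u (j - 1) (2 * k + 1) = 0 := by
    intro k h
    rw [hu, av_indicator, av_indicator, (h.mono_left (hl k)).inter_eq,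
      (h.mono_left (hr k)).inter_eq, measureReal_empty, zero_div]
    exact ⟨rfl, rfl⟩
  have cc : ∀ k, av u (j - 1) (2 * k + 1) - av u (j - 1) (2 * k) = 0 := by
    intro k
    rcases hstep k with h | h
    · rw [(c1 k h).1, (c1 k h).2, sub_self]
    · rw [(c0 k h).1, (c0 k h).2, sub_self]
  have cv : av (T u) (j - 1) (2 * k + 1) = av (T u) (j - 1) (2 * k) := by
    rcases Int.even_or_odd' k with ⟨m, hm | hm⟩
    · have := shift_even hT u j m
      rw [cc, ← hm] at this
      linarith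
    · have := shift_odd hT u j m
      rw [cc, ← hm] at this
      linarith
  have cs : av (T u) j k = av (T u) (j - 1) (2 * k) := by
    rw [av_split, cv]; ring
  unfold Phi
  rw [cv]
  rcases hstep k with h | h
  · rw [(c1 k h).1, (c1 k h).2, G_diag_one, mul_zero]
    exact mul_nonneg (by norm_num) (E_nonneg _)
  · rw [(c0 k h).1, (c0 k h).2, G_diag_zero, ← cs]
    have hE : E V (T u) (D j k) = ∫ x in D j k, (T u x) ^ 2 := by
      unfold E
      rw [h.sdiff_eq_left]
    rw [hE]
    have := jensen (T u) j k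
    linarith

theorem Phi_le_E (hT : IsHaarShift T) (j : ℤ)
    (hstep : ∀ k, D j k ⊆ V ∨ Disjoint (D j k) V) (m : ℕ) (k : ℤ) :
    2 ^ (j + m) * Phi (indicatorConstLp 2 hV hV' (1 : ℝ))
      (T (indicatorConstLp 2 hV hV' (1 : ℝ))) (j + m) k
      ≤ 100 * E V (T (indicatorConstLp 2 hV hV' (1 : ℝ))) (D (j + m) k) := by
  induction m generalizing k with
  | zero => simpa using base_case hV hV' hT j hstep k
  | succ m ih =>
    set u := indicatorConstLp 2 hV hV' (1 : ℝ) with hu
    have e : (j + (m + 1 : ℕ) : ℤ) - 1 = j + m := by push_cast; ring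
    have h1 := Phi_step hT u (av_indicator_mem hV hV') (j + (m + 1 : ℕ)) k
    rw [e] at h1
    have h2 := ih (2 * k)
    have h3 := ih (2 * k + 1)
    have h4 : E V (T u) (D (j + (m + 1 : ℕ)) k)
        = E V (T u) (D (j + m) (2 * k)) + E V (T u) (D (j + m) (2 * k + 1)) := by
      rw [D_split (j + (m + 1 : ℕ)) k, E_union hV _ (measurableSet_D _ _) (D_split_disjoint _ _), e]
    rw [h4]
    have h5 : (2 : ℝ) ^ (j + (m + 1 : ℕ) : ℤ) = 2 * 2 ^ (j + m : ℤ) := by
      have : (j + (m + 1 : ℕ) : ℤ) = (j + m) + 1 := by push_cast; ring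
      rw [this, zpow_add_one₀ (by norm_num)]
      ring
    rw [h5]
    have h6 := two_zpow_pos (j + m)
    have h7 := mul_le_mul_of_nonneg_left h1 (by positivity : (0 : ℝ) ≤ 2 * 2 ^ (j + m : ℤ))
    linarith

theorem top_bound (hT : IsHaarShift T) (j : ℤ) (k : ℤ) (hj :
      2 ^ j * Phi (indicatorConstLp 2 hV hV' (1 : ℝ)) (T (indicatorConstLp 2 hV hV' (1 : ℝ))) j k
      ≤ 100 * E V (T (indicatorConstLp 2 hV hV' (1 : ℝ))) (D j k)) :
    volume.real (D j k ∩ V) * (1 - (472 * volume.real V) / 2 ^ j)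
      ≤ 100 * E V (T (indicatorConstLp 2 hV hV' (1 : ℝ))) (D j k) := by
  set u := indicatorConstLp 2 hV hV' (1 : ℝ) with hu
  refine le_trans ?_ hj
  have h2 := two_zpow_pos j
  have hnu : ‖T u‖ ^ 2 = volume.real V := by
    rw [norm_T hT, ← real_inner_self_eq_norm_sq, hu,
      L2.real_inner_indicatorConstLp_one_indicatorConstLp_one hV hV hV' hV', inter_self]
  have hy : ∀ k', (av (T u) (j - 1) k') ^ 2 ≤ 2 * volume.real V / 2 ^ j := by
    intro k'
    have h3 := jensen (T u) (j - 1) k'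
    have h4 : ∫ x in D (j - 1) k', (T u x) ^ 2 ≤ ∫ x, (T u x) ^ 2 :=
      setIntegral_le_integral (integrable_sq _) (Eventually.of_forall (fun x => sq_nonneg _))
    rw [integral_sq, hnu] at h4
    rw [two_zpow_sub_one] at h3
    rw [le_div_iff₀ h2]
    nlinarith
  have hyy : (av (T u) (j - 1) (2 * k) - av (T u) (j - 1) (2 * k + 1)) ^ 2
      ≤ 8 * volume.real V / 2 ^ j := by
    have h3 := hy (2 * k)
    have h4 := hy (2 * k + 1)
    have e : 8 * volume.real V / 2 ^ j = 4 * (2 * volume.real V / 2 ^ j) := by ring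
    rw [e]
    nlinarith [sq_nonneg (av (T u) (j - 1) (2 * k) + av (T u) (j - 1) (2 * k + 1))]
  have hG := G_lower (av u (j - 1) (2 * k)) (av (T u) (j - 1) (2 * k)) (av u (j - 1) (2 * k + 1))
    (av (T u) (j - 1) (2 * k + 1)) (av_indicator_mem hV hV' _ _).1 (av_indicator_mem hV hV' _ _).2
    (av_indicator_mem hV hV' _ _).1 (av_indicator_mem hV hV' _ _).2
  have hs := av_split u j k
  have ha : av u j k = volume.real (D j k ∩ V) / 2 ^ j := av_indicator hV hV' j k
  have ha1 : av u j k ≤ volume.real V / 2 ^ j := by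
    rw [ha]
    exact div_le_div_of_nonneg_right (measureReal_mono inter_subset_right hV') h2.le
  have ha0 : 0 ≤ av u j k := (av_indicator_mem hV hV' _ _).1
  have hsum : av u (j - 1) (2 * k) + av u (j - 1) (2 * k + 1) = 2 * av u j k := by linarith
  rw [hsum] at hG
  have hvol : volume.real (D j k ∩ V) = 2 ^ j * av u j k := by
    rw [ha]; field_simp
  rw [hvol]
  unfold Phi
  have hfac : 1 - (472 * volume.real V) / 2 ^ j ≤ 1 - 100 * (2 * av u j k)
      - 34 * (av (T u) (j - 1) (2 * k) - av (T u) (j - 1) (2 * k + 1)) ^ 2 := by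
    have e : (472 * volume.real V) / 2 ^ j
        = 200 * (volume.real V / 2 ^ j) + 34 * (8 * volume.real V / 2 ^ j) := by ring
    rw [e]
    linarith
  calc 2 ^ j * av u j k * (1 - (472 * volume.real V) / 2 ^ j)
      = 2 ^ j * (av u j k * (1 - (472 * volume.real V) / 2 ^ j)) := by ring
    _ ≤ 2 ^ j * (av u j k * (1 - 100 * (2 * av u j k)
      - 34 * (av (T u) (j - 1) (2 * k) - av (T u) (j - 1) (2 * k + 1)) ^ 2)) :=
        mul_le_mul_of_nonneg_left (mul_le_mul_of_nonneg_left hfac ha0) h2.le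
    _ ≤ _ := by
        refine mul_le_mul_of_nonneg_left ?_ h2.le
        refine le_trans (le_of_eq ?_) hG
        ring

end Step

theorem D_zero (j : ℤ) : D j 0 = Ico 0 (2 ^ j) := by
  unfold D; simp

theorem D_neg_one (j : ℤ) : D j (-1) = Ico (-2 ^ j) 0 := by
  unfold D; simp

/-- the result for finite unions of dyadic intervals -/
theorem W_bound (hT : IsHaarShift T) (n : ℕ) (F : Finset ℤ) :
    volume.real (W n F) ≤ 100 * E (W n F)
      (T (indicatorConstLp 2 (measurableSet_W n F) (W_ne_top n F) (1 : ℝ))) univ := by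
  set V := W n F with hVdef
  have hV := measurableSet_W n F
  have hV' := W_ne_top n F
  set v := T (indicatorConstLp 2 (measurableSet_W n F) (W_ne_top n F) (1 : ℝ)) with hv
  have hstep : ∀ k, D (-n) k ⊆ V ∨ Disjoint (D (-n) k) V := by
    intro k
    by_cases hk : k ∈ F
    · left
      intro x hx
      exact mem_iUnion₂.2 ⟨k, hk, hx⟩
    · right
      rw [hVdef]
      unfold W
      rw [Set.disjoint_iUnion₂_right]
      intro l hl
      exact D_disjoint _ (fun e => hk (e ▸ hl))
  have hb : Bornology.IsBounded V := by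
    rw [hVdef]
    unfold W
    rw [Bornology.isBounded_biUnion_finset]
    intro k _
    exact Metric.isBounded_Ico _ _
  obtain ⟨R, hR⟩ := hb.subset_closedBall 0
  have hlim : Tendsto (fun m : ℕ => (2 : ℝ) ^ ((-n : ℤ) + m)) atTop atTop := by
    have e : (fun m : ℕ => (2 : ℝ) ^ ((-n : ℤ) + m)) = fun m : ℕ => (2 : ℝ) ^ (-n : ℤ) * 2 ^ m := by
      ext m
      rw [zpow_add₀ (by norm_num), zpow_natCast]
    rw [e]
    exact (tendsto_pow_atTop_atTop_of_one_lt (by norm_num)).const_mul_atTop (two_zpow_pos _)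
  have hlim2 : Tendsto (fun m : ℕ => volume.real V * (1 - (472 * volume.real V)
      / 2 ^ ((-n : ℤ) + m))) atTop (𝓝 (volume.real V * (1 - 0))) :=
    (tendsto_const_nhds.sub (Tendsto.div_atTop tendsto_const_nhds hlim)).const_mul _
  rw [sub_zero, mul_one] at hlim2
  refine le_of_tendsto hlim2 ?_
  filter_upwards [hlim.eventually_gt_atTop R] with m hm
  set j : ℤ := (-n : ℤ) + m with hj
  have hsub : V ⊆ D j 0 ∪ D j (-1) := by
    intro x hx
    have h1 := hR hx
    rw [Metric.mem_closedBall, Real.dist_eq, sub_zero, abs_le] at h1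
    rw [D_zero, D_neg_one]
    rcases le_or_gt 0 x with h | h
    · exact Or.inl ⟨h, lt_of_le_of_lt h1.2 hm⟩
    · exact Or.inr ⟨by linarith [h1.1], h⟩
  have hdisj : Disjoint (D j 0) (D j (-1)) := D_disjoint _ (by norm_num)
  have t1 := top_bound hV hV' hT j 0 (Phi_le_E hV hV' hT (-n) hstep m 0)
  have t2 := top_bound hV hV' hT j (-1) (Phi_le_E hV hV' hT (-n) hstep m (-1))
  have hvol : volume.real V = volume.real (D j 0 ∩ V) + volume.real (D j (-1) ∩ V) := by
    rw [← measureReal_union (hdisj.mono inter_subset_left inter_subset_left)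
      ((measurableSet_D _ _).inter hV) (measure_ne_top_of_subset inter_subset_right hV')
      (measure_ne_top_of_subset inter_subset_right hV'), ← union_inter_distrib_right,
      inter_eq_right.2 hsub]
  have hE : E V v (D j 0) + E V v (D j (-1)) ≤ E V v univ := by
    rw [← E_union hV v (measurableSet_D _ _) hdisj]
    exact E_mono v (subset_univ _)
  calc volume.real V * (1 - (472 * volume.real V) / 2 ^ j)
      = volume.real (D j 0 ∩ V) * (1 - (472 * volume.real V) / 2 ^ j)
        + volume.real (D j (-1) ∩ V) * (1 - (472 * volume.real V) / 2 ^ j) := by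
          rw [← add_mul, ← hvol]
    _ ≤ 100 * E V v (D j 0) + 100 * E V v (D j (-1)) := add_le_add t1 t2
    _ ≤ 100 * E V v univ := by linarith

theorem norm_sq_indicator {V : Set ℝ} (hV : MeasurableSet V) (hV' : volume V ≠ ∞) :
    ‖(indicatorConstLp 2 hV hV' (1 : ℝ) : Lp ℝ 2 (volume : Measure ℝ))‖ ^ 2 = volume.real V := by
  rw [← real_inner_self_eq_norm_sq,
    L2.real_inner_indicatorConstLp_one_indicatorConstLp_one hV hV hV' hV', inter_self]

theorem W_bound' (hT : IsHaarShift T) (n : ℕ) (F : Finset ℤ) :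
    ∫ x in W n F, (T (indicatorConstLp 2 (measurableSet_W n F) (W_ne_top n F) (1 : ℝ)) x) ^ 2
      ≤ 99 / 100 * volume.real (W n F) := by
  have h := W_bound hT n F
  set v := T (indicatorConstLp 2 (measurableSet_W n F) (W_ne_top n F) (1 : ℝ)) with hv
  have h1 : (∫ x in W n F, (v x) ^ 2) + E (W n F) v univ = ‖v‖ ^ 2 := by
    unfold E
    rw [← compl_eq_univ_sdiff, integral_add_compl (measurableSet_W n F) (integrable_sq v),
      integral_sq]
  rw [hv, norm_T hT, norm_sq_indicator, ← hv] at h1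
  linarith

/-- the result for all sets of finite measure -/
theorem main (hT : IsHaarShift T) {V : Set ℝ} (hV : MeasurableSet V) (hV' : volume V ≠ ∞) :
    ∫ x in V, (T (indicatorConstLp 2 hV hV' (1 : ℝ)) x) ^ 2 ≤ 99 / 100 * volume.real V := by
  obtain ⟨n, F, hnF⟩ := exists_W_seq V hV hV'
  set u := indicatorConstLp 2 hV hV' (1 : ℝ) with hu
  set w : ℕ → Lp ℝ 2 (volume : Measure ℝ) := fun i =>
    indicatorConstLp 2 (measurableSet_W (n i) (F i)) (W_ne_top (n i) (F i)) (1 : ℝ) with hw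
  have hlim : Tendsto w atTop (𝓝 u) :=
    tendsto_indicatorConstLp_set (p := 2) (c := (1 : ℝ)) (hs := hV) (hμs := hV')
    (ht := fun i => measurableSet_W (n i) (F i)) (hμt := fun i => W_ne_top (n i) (F i))
    (by norm_num) hnF
  -- mass of T u on V \ W_i tends to 0
  have hA : Tendsto (fun i => ∫ x in V \ W (n i) (F i), (T u x) ^ 2) atTop (𝓝 0) := by
    have h1 : Tendsto (fun i => volume (V \ W (n i) (F i))) atTop (𝓝 0) := by
      refine tendsto_of_tendsto_of_tendsto_of_le_of_le tendsto_const_nhds hnF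
        (fun i => zero_le) (fun i => measure_mono ?_)
      intro x hx
      exact Or.inr hx
    exact (integrable_sq (T u)).tendsto_setIntegral_nhds_zero h1
  have hB : Tendsto (fun i => ‖T u - T (w i)‖ ^ 2) atTop (𝓝 0) := by
    have h1 : Tendsto (fun i => T (w i)) atTop (𝓝 (T u)) := (T.continuous.tendsto u).comp hlim
    have h2 : Tendsto (fun i => ‖T u - T (w i)‖ ^ 2) atTop (𝓝 (‖T u - T u‖ ^ 2)) :=
      ((tendsto_const_nhds.sub h1).norm).pow 2
    simpa using h2
  have hC : Tendsto (fun i => volume.real (W (n i) (F i))) atTop (𝓝 (volume.real V)) := by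
    have h1 : Tendsto (fun i => ‖w i‖ ^ 2) atTop (𝓝 (‖u‖ ^ 2)) := hlim.norm.pow 2
    rw [hu, norm_sq_indicator] at h1
    refine h1.congr (fun i => ?_)
    rw [hw]
    exact norm_sq_indicator _ _
  -- for every θ > 0
  have key : ∀ θ : ℝ, 0 < θ → ∫ x in V, (T u x) ^ 2 ≤ (1 + θ) * (99 / 100 * volume.real V) := by
    intro θ hθ
    have hlim3 : Tendsto (fun i => (1 + θ) * (99 / 100 * volume.real (W (n i) (F i)))
        + (1 + 1 / θ) * ‖T u - T (w i)‖ ^ 2 + ∫ x in V \ W (n i) (F i), (T u x) ^ 2) atTop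
        (𝓝 ((1 + θ) * (99 / 100 * volume.real V) + (1 + 1 / θ) * 0 + 0)) :=
      (((hC.const_mul _).const_mul _).add (hB.const_mul _)).add hA
    rw [mul_zero, add_zero, add_zero] at hlim3
    refine ge_of_tendsto hlim3 (Eventually.of_forall (fun i => ?_))
    have hWm := measurableSet_W (n i) (F i)
    have s1 : ∫ x in V, (T u x) ^ 2 ≤ (∫ x in W (n i) (F i), (T u x) ^ 2)
        + ∫ x in V \ W (n i) (F i), (T u x) ^ 2 := by
      rw [← setIntegral_union disjoint_sdiff_right (hV.diff hWm) (integrable_sq _).integrableOn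
        (integrable_sq _).integrableOn]
      refine setIntegral_mono_set (integrable_sq (T u)).integrableOn
        (Eventually.of_forall (fun x => sq_nonneg _)) (LE.le.eventuallyLE ?_)
      intro x hx
      by_cases h : x ∈ W (n i) (F i)
      · exact Or.inl h
      · exact Or.inr ⟨hx, h⟩
    have s2 : ∫ x in W (n i) (F i), (T u x) ^ 2
        ≤ (1 + θ) * (∫ x in W (n i) (F i), (T (w i) x) ^ 2)
          + (1 + 1 / θ) * ‖T u - T (w i)‖ ^ 2 := by
      have e1 : ∫ x in W (n i) (F i), ((T u - T (w i) : Lp ℝ 2 (volume : Measure ℝ)) x) ^ 2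
          ≤ ‖T u - T (w i)‖ ^ 2 := by
        rw [← integral_sq]
        exact setIntegral_le_integral (integrable_sq _)
          (Eventually.of_forall (fun x => sq_nonneg _))
      have e2 : ∫ x in W (n i) (F i), (T u x) ^ 2
          ≤ ∫ x in W (n i) (F i), ((1 + θ) * (T (w i) x) ^ 2
            + (1 + 1 / θ) * ((T u - T (w i) : Lp ℝ 2 (volume : Measure ℝ)) x) ^ 2) := by
        refine setIntegral_mono_ae (integrable_sq _).integrableOn
          (((integrable_sq _).const_mul _).add ((integrable_sq _).const_mul _)).integrableOn ?_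
        filter_upwards [Lp.coeFn_sub (T u) (T (w i))] with x hx
        rw [hx, Pi.sub_apply]
        have : 0 ≤ (θ * (T (w i) x) - (T u x - T (w i) x)) ^ 2 / θ := by positivity
        have e : (1 + θ) * (T (w i) x) ^ 2 + (1 + 1 / θ) * (T u x - T (w i) x) ^ 2 - (T u x) ^ 2
            = (θ * (T (w i) x) - (T u x - T (w i) x)) ^ 2 / θ := by
          field_simp
          ring
        linarith
      rw [integral_add ((integrable_sq _).const_mul _).integrableOn
        ((integrable_sq _).const_mul _).integrableOn, integral_const_mul, integral_const_mul] at e2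
      have e3 : (1 + 1 / θ) * ∫ x in W (n i) (F i),
          ((T u - T (w i) : Lp ℝ 2 (volume : Measure ℝ)) x) ^ 2
          ≤ (1 + 1 / θ) * ‖T u - T (w i)‖ ^ 2 := mul_le_mul_of_nonneg_left e1 (by positivity)
      linarith
    have s3 := W_bound' hT (n i) (F i)
    have s4 := mul_le_mul_of_nonneg_left s3 (by positivity : 0 ≤ 1 + θ)
    linarith
  have hlim4 : Tendsto (fun θ : ℝ => (1 + θ) * (99 / 100 * volume.real V)) (𝓝[>] 0)
      (𝓝 ((1 + 0) * (99 / 100 * volume.real V))) := by
    refine Tendsto.mul_const _ (tendsto_const_nhds.add ?_)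
    exact tendsto_nhdsWithin_of_tendsto_nhds tendsto_id
  rw [add_zero, one_mul] at hlim4
  refine ge_of_tendsto hlim4 ?_
  filter_upwards [self_mem_nhdsWithin] with θ hθ
  exact key θ hθ

end Pool.Agent.V1195.HaarShift
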