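import Pool.Agent.V1195.HaarDy

open MeasureTheory Set Filter Topology
open scoped ENNReal InnerProductSpace symmDiff

namespace Pool.Agent.V1195.HaarShift

/-- `T` is the Haar shift: a bounded linear operator on `L²(ℝ)` with `T h_{I_+} = h_{I_-}` and
`T h_{I_-} = - h_{I_+}` for all dyadic intervals `I` (the halves of the dyadic interval
`[k 2^{j+1}, (k+1) 2^{j+1})` are `D j (2k)` (left) and `D j (2k+1)` (right)). -/
def IsHaarShift (T : L2R →L[ℝ] L2R) : Prop :=
  ∀ j k : ℤ, T (haar j (2 * k + 1)) = haar j (2 * k) ∧ T (haar j (2 * k)) = -haar j (2 * k + 1)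

/-- the Haar system -/
def HS : Set (Lp ℝ 2 (volume : Measure ℝ)) := range (fun p : ℤ × ℤ => haar p.1 p.2)

theorem haar_mem_span (j k : ℤ) : haar j k ∈ Submodule.span ℝ HS :=
  Submodule.subset_span ⟨(j, k), rfl⟩

theorem haar_smul (j k : ℤ) :
    ind (j - 1) (2 * k + 1) - ind (j - 1) (2 * k) = Real.sqrt (2 ^ j) • haar j k := by
  unfold haar
  rw [smul_smul, mul_inv_cancel₀ (Real.sqrt_pos.2 (two_zpow_pos j)).ne', one_smul]

theorem ind_parent (j k : ℤ) :
    ∃ m : ℤ, ind j k - (1 / 2 : ℝ) • ind (j + 1) m ∈ Submodule.span ℝ HS := by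
  refine ⟨k / 2, ?_⟩
  have h1 := haar_smul (j + 1) (k / 2)
  have h2 := ind_split (j + 1) (k / 2)
  rw [add_sub_cancel_right] at h1 h2
  rcases Int.even_or_odd' k with ⟨m, hm | hm⟩
  · have e : k / 2 = m := by omega
    rw [e] at h1 h2 ⊢
    rw [hm]
    have e3 : ind j (2 * m) - (1 / 2 : ℝ) • ind (j + 1) m
        = (-(1 / 2 : ℝ)) • (Real.sqrt (2 ^ (j + 1)) • haar (j + 1) m) := by
      rw [← h1, h2]
      module
    rw [e3]
    exact Submodule.smul_mem _ _ (Submodule.smul_mem _ _ (haar_mem_span _ _))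
  · have e : k / 2 = m := by omega
    rw [e] at h1 h2 ⊢
    rw [hm]
    have e3 : ind j (2 * m + 1) - (1 / 2 : ℝ) • ind (j + 1) m
        = ((1 / 2 : ℝ)) • (Real.sqrt (2 ^ (j + 1)) • haar (j + 1) m) := by
      rw [← h1, h2]
      module
    rw [e3]
    exact Submodule.smul_mem _ _ (Submodule.smul_mem _ _ (haar_mem_span _ _))

theorem ind_ancestor (j k : ℤ) (n : ℕ) :
    ∃ m : ℤ, ind j k - ((1 / 2 : ℝ) ^ n) • ind (j + n) m ∈ Submodule.span ℝ HS := by
  induction n with
  | zero => exact ⟨k, by simp⟩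
  | succ n ih =>
    obtain ⟨m, hm⟩ := ih
    obtain ⟨m', hm'⟩ := ind_parent (j + n) m
    refine ⟨m', ?_⟩
    have e : ind j k - ((1 / 2 : ℝ) ^ (n + 1)) • ind (j + (n + 1 : ℕ)) m'
        = (ind j k - ((1 / 2 : ℝ) ^ n) • ind (j + n) m)
          + ((1 / 2 : ℝ) ^ n) • (ind (j + n) m - (1 / 2 : ℝ) • ind (j + n + 1) m') := by
      have : (j + (n + 1 : ℕ) : ℤ) = j + n + 1 := by push_cast; ring
      rw [this, pow_succ]
      module
    rw [e]
    exact Submodule.add_mem _ hm (Submodule.smul_mem _ _ hm')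

theorem norm_ind_sq (j k : ℤ) : ‖ind j k‖ ^ 2 = 2 ^ j := by
  rw [← real_inner_self_eq_norm_sq, inner_ind_self, if_pos rfl]

theorem ind_mem_closure (j k : ℤ) : ind j k ∈ closure (Submodule.span ℝ HS : Set _) := by
  rw [Metric.mem_closure_iff]
  intro ε hε
  have h2 := two_zpow_pos j
  obtain ⟨n, hn⟩ := exists_pow_lt_of_lt_one (show 0 < ε ^ 2 / 2 ^ j by positivity)
    (show (1 / 2 : ℝ) < 1 by norm_num)
  obtain ⟨m, hm⟩ := ind_ancestor j k n
  refine ⟨_, hm, ?_⟩
  rw [dist_eq_norm, sub_sub_cancel]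
  have : ‖((1 / 2 : ℝ) ^ n) • ind (j + n) m‖ ^ 2 < ε ^ 2 := by
    rw [norm_smul, mul_pow, norm_ind_sq, Real.norm_of_nonneg (by positivity),
      zpow_add₀ (by norm_num), zpow_natCast]
    have e : ((1 / 2 : ℝ) ^ n) ^ 2 * (2 ^ j * 2 ^ n) = (1 / 2 : ℝ) ^ n * 2 ^ j := by
      rw [one_div, inv_pow]
      field_simp
    rw [e]
    rwa [lt_div_iff₀ h2] at hn
  exact lt_of_pow_lt_pow_left₀ 2 hε.le this

/-- finite unions of dyadic intervals of length `2^{-n}` -/
def W (n : ℕ) (F : Finset ℤ) : Set ℝ := ⋃ k ∈ F, D (-n) k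

theorem measurableSet_W (n : ℕ) (F : Finset ℤ) : MeasurableSet (W n F) :=
  Finset.measurableSet_biUnion F (fun k _ => measurableSet_D _ k)

theorem W_ne_top (n : ℕ) (F : Finset ℤ) : volume (W n F) ≠ ∞ := by
  unfold W
  refine ((measure_biUnion_finset_le F _).trans_lt ?_).ne
  exact ENNReal.sum_lt_top.2 (fun k _ => (D_ne_top _ k).lt_top)

theorem ind_W_mem (n : ℕ) (F : Finset ℤ) :
    indicatorConstLp 2 (measurableSet_W n F) (W_ne_top n F) (1 : ℝ)
      ∈ closure (Submodule.span ℝ HS : Set _) := by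
  classical
  induction F using Finset.induction_on with
  | empty =>
    have : indicatorConstLp 2 (measurableSet_W n ∅) (W_ne_top n ∅) (1 : ℝ)
        = (0 : Lp ℝ 2 (volume : Measure ℝ)) := by
      have h : W n ∅ = ∅ := by simp [W]
      rw [← indicatorConstLp_empty (p := 2) (c := (1 : ℝ)) (μ := (volume : Measure ℝ))]
      congr 1
    rw [this]
    exact subset_closure (Submodule.zero_mem _)
  | insert k F hk ih =>
    have h : W n (insert k F) = D (-n) k ∪ W n F := by
      simp [W]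
    have hd : Disjoint (D (-n) k) (W n F) := by
      unfold W
      rw [Set.disjoint_iUnion₂_right]
      intro l hl
      exact D_disjoint _ (fun e => hk (e ▸ hl))
    have e : indicatorConstLp 2 (measurableSet_W n (insert k F)) (W_ne_top n (insert k F)) (1 : ℝ)
        = ind (-n) k + indicatorConstLp 2 (measurableSet_W n F) (W_ne_top n F) (1 : ℝ) := by
      unfold ind
      rw [← indicatorConstLp_disjoint_union (measurableSet_D _ _) (measurableSet_W n F)
        (D_ne_top _ _) (W_ne_top n F) hd]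
      congr 1
    rw [e]
    have := (Submodule.span ℝ HS).topologicalClosure.add_mem (ind_mem_closure (-n) k) ih
    exact this

/-- every measurable set of finite measure is approximated by finite unions of dyadic intervals -/
theorem exists_W (V : Set ℝ) (hV : MeasurableSet V) (hV' : volume V ≠ ∞) (ε : ℝ≥0∞) (hε : ε ≠ 0) :
    ∃ (n : ℕ) (F : Finset ℤ), volume (W n F ∆ V) < ε := by
  classical
  have hε2 : ε / 2 ≠ 0 := by simpa using hε
  obtain ⟨K, hKV, hK, hK'⟩ := hV.exists_isCompact_sdiff_lt hV' hε2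
  obtain ⟨U, hVU, hU, -, hU'⟩ := hV.exists_isOpen_sdiff_lt hV' hε2
  obtain ⟨δ, hδ, hδU⟩ := hK.exists_thickening_subset_open hU (hKV.trans hVU)
  obtain ⟨n, hn⟩ := exists_pow_lt_of_lt_one hδ (show (1 / 2 : ℝ) < 1 by norm_num)
  obtain ⟨R, hR⟩ := hK.isBounded.subset_closedBall 0
  set F : Finset ℤ := (Finset.Icc ⌊(-R) / 2 ^ (-(n : ℤ))⌋ ⌊R / 2 ^ (-(n : ℤ))⌋).filter
    (fun k => (D (-n) k ∩ K).Nonempty) with hF
  have hKW : K ⊆ W n F := by
    intro x hx
    have h1 := hR hx
    rw [Metric.mem_closedBall, Real.dist_eq, sub_zero, abs_le] at h1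
    have hmem : x ∈ D (-n) ⌊x / 2 ^ (-(n : ℤ))⌋ := (mem_D_iff _ _ _).2 rfl
    refine mem_iUnion₂.2 ⟨⌊x / 2 ^ (-(n : ℤ))⌋, ?_, hmem⟩
    rw [hF, Finset.mem_filter, Finset.mem_Icc]
    refine ⟨⟨Int.floor_le_floor (div_le_div_of_nonneg_right h1.1 (two_zpow_pos _).le),
      Int.floor_le_floor (div_le_div_of_nonneg_right h1.2 (two_zpow_pos _).le)⟩, ⟨x, hmem, hx⟩⟩
  have hWU : W n F ⊆ U := by
    intro y hy
    obtain ⟨k, hk, hyk⟩ := mem_iUnion₂.1 hy
    rw [hF, Finset.mem_filter] at hk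
    obtain ⟨x, hxk, hxK⟩ := hk.2
    apply hδU
    rw [Metric.mem_thickening_iff]
    refine ⟨x, hxK, ?_⟩
    refine lt_of_lt_of_le ?_ hn.le
    have e : (1 / 2 : ℝ) ^ n = 2 ^ (-(n : ℤ)) := by
      rw [zpow_neg, zpow_natCast, one_div, inv_pow]
    rw [e, Real.dist_eq, abs_lt]
    unfold D at hyk hxk
    rw [mem_Ico] at hyk hxk
    constructor <;> nlinarith [hyk.1, hyk.2, hxk.1, hxk.2]
  refine ⟨n, F, ?_⟩
  have hsub : W n F ∆ V ⊆ (U \ V) ∪ (V \ K) := by
    intro x hx
    rcases hx with ⟨h1, h2⟩ | ⟨h1, h2⟩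
    · exact Or.inl ⟨hWU h1, h2⟩
    · exact Or.inr ⟨h1, fun h => h2 (hKW h)⟩
  calc volume (W n F ∆ V) ≤ volume ((U \ V) ∪ (V \ K)) := measure_mono hsub
    _ ≤ volume (U \ V) + volume (V \ K) := measure_union_le _ _
    _ < ε / 2 + ε / 2 := ENNReal.add_lt_add hU' hK'
    _ = ε := ENNReal.add_halves ε

theorem exists_W_seq (V : Set ℝ) (hV : MeasurableSet V) (hV' : volume V ≠ ∞) :
    ∃ (n : ℕ → ℕ) (F : ℕ → Finset ℤ),
      Tendsto (fun i => volume (W (n i) (F i) ∆ V)) atTop (𝓝 0) := by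
  have h : ∀ i : ℕ, ∃ (n : ℕ) (F : Finset ℤ), volume (W n F ∆ V) < ((i : ℝ≥0∞) + 1)⁻¹ := by
    intro i
    exact exists_W V hV hV' _ (by simp)
  choose n F hnF using h
  refine ⟨n, F, ?_⟩
  refine tendsto_of_tendsto_of_tendsto_of_le_of_le tendsto_const_nhds ?_
    (fun i => zero_le) (fun i => (hnF i).le)
  have := ENNReal.tendsto_inv_nat_nhds_zero
  have h2 := (tendsto_add_atTop_iff_nat 1).2 this
  simpa using h2

theorem indicator_mem_closure (V : Set ℝ) (hV : MeasurableSet V) (hV' : volume V ≠ ∞) :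
    indicatorConstLp 2 hV hV' (1 : ℝ) ∈ closure (Submodule.span ℝ HS : Set _) := by
  obtain ⟨n, F, h⟩ := exists_W_seq V hV hV'
  have := tendsto_indicatorConstLp_set (p := 2) (c := (1 : ℝ)) (hs := hV) (hμs := hV')
    (ht := fun i => measurableSet_W (n i) (F i)) (hμt := fun i => W_ne_top (n i) (F i))
    (by norm_num) h
  rw [← closure_closure]
  exact mem_closure_of_tendsto this (Eventually.of_forall (fun i => ind_W_mem _ _))

theorem HS_dense : closure (Submodule.span ℝ HS : Set (Lp ℝ 2 (volume : Measure ℝ))) = univ := by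
  rw [eq_univ_iff_forall]
  intro f
  refine Lp.induction (by norm_num)
    (fun f => f ∈ closure (Submodule.span ℝ HS : Set (Lp ℝ 2 (volume : Measure ℝ)))) ?_ ?_ ?_ f
  · intro c s hs hμs
    have h := indicator_mem_closure s hs hμs.ne
    have e : (Lp.simpleFunc.indicatorConst 2 hs hμs.ne c : Lp ℝ 2 (volume : Measure ℝ))
        = c • indicatorConstLp 2 hs hμs.ne (1 : ℝ) := by
      rw [Lp.simpleFunc.coe_indicatorConst]
      ext1
      refine indicatorConstLp_coeFn.trans ?_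
      refine EventuallyEq.trans ?_ (Lp.coeFn_smul _ _).symm
      filter_upwards [indicatorConstLp_coeFn (p := 2) (hs := hs) (hμs := hμs.ne) (c := (1 : ℝ))
        (μ := (volume : Measure ℝ))] with x hx
      rw [Pi.smul_apply, hx]
      by_cases hxs : x ∈ s <;> simp [hxs]
    rw [e]
    exact (Submodule.span ℝ HS).topologicalClosure.smul_mem c h
  · intro f g hf hg _ h1 h2
    exact (Submodule.span ℝ HS).topologicalClosure.add_mem h1 h2
  · exact isClosed_closure

section Op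

variable {T : Lp ℝ 2 (volume : Measure ℝ) →L[ℝ] Lp ℝ 2 (volume : Measure ℝ)}

theorem ext_haar {f g : Lp ℝ 2 (volume : Measure ℝ) →L[ℝ] ℝ}
    (h : ∀ j k : ℤ, f (haar j k) = g (haar j k)) (u : Lp ℝ 2 (volume : Measure ℝ)) : f u = g u := by
  have h1 : Set.EqOn f g HS := by
    rintro _ ⟨p, rfl⟩
    exact h p.1 p.2
  have h2 := ContinuousLinearMap.eqOn_closure_span h1
  exact h2 (by rw [HS_dense]; trivial)

theorem haar_shift_even (hT : IsHaarShift T) (u : Lp ℝ 2 (volume : Measure ℝ)) (j k : ℤ) :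
    ⟪haar j (2 * k), T u⟫_ℝ = ⟪haar j (2 * k + 1), u⟫_ℝ := by
  have := ext_haar (f := (innerSL ℝ (haar j (2 * k))).comp T)
    (g := innerSL ℝ (haar j (2 * k + 1))) (fun j' k' => ?_) u
  · simpa using this
  · rw [ContinuousLinearMap.comp_apply, innerSL_apply_apply, innerSL_apply_apply]
    rcases Int.even_or_odd' k' with ⟨m, hm | hm⟩
    · rw [hm, (hT j' m).2, inner_neg_right, inner_haar_haar, inner_haar_haar,
        if_neg (by omega), if_neg (by omega), neg_zero]
    · rw [hm, (hT j' m).1, inner_haar_haar, inner_haar_haar]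
      by_cases h : j = j' ∧ k = m
      · rw [if_pos (by omega), if_pos (by omega)]
      · rw [if_neg (by omega), if_neg (by omega)]

theorem haar_shift_odd (hT : IsHaarShift T) (u : Lp ℝ 2 (volume : Measure ℝ)) (j k : ℤ) :
    ⟪haar j (2 * k + 1), T u⟫_ℝ = -⟪haar j (2 * k), u⟫_ℝ := by
  have := ext_haar (f := (innerSL ℝ (haar j (2 * k + 1))).comp T)
    (g := -innerSL ℝ (haar j (2 * k))) (fun j' k' => ?_) u
  · simpa using this
  · rw [ContinuousLinearMap.comp_apply, neg_apply, innerSL_apply_apply,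
      innerSL_apply_apply]
    rcases Int.even_or_odd' k' with ⟨m, hm | hm⟩
    · rw [hm, (hT j' m).2, inner_neg_right, inner_haar_haar, inner_haar_haar]
      by_cases h : j = j' ∧ k = m
      · rw [if_pos (by omega), if_pos (by omega)]
      · rw [if_neg (by omega), if_neg (by omega)]
    · rw [hm, (hT j' m).1, inner_haar_haar, inner_haar_haar, if_neg (by omega),
        if_neg (by omega), neg_zero]

theorem isometry_haar (hT : IsHaarShift T) (u v : Lp ℝ 2 (volume : Measure ℝ)) :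
    ⟪T u, T v⟫_ℝ = ⟪u, v⟫_ℝ := by
  have h1 : ∀ (j k : ℤ) (v : Lp ℝ 2 (volume : Measure ℝ)),
      ⟪T (haar j k), T v⟫_ℝ = ⟪haar j k, v⟫_ℝ := by
    intro j k v
    rcases Int.even_or_odd' k with ⟨m, hm | hm⟩
    · rw [hm, (hT j m).2, inner_neg_left, haar_shift_odd hT, neg_neg]
    · rw [hm, (hT j m).1, haar_shift_even hT]
  have := ext_haar (f := (innerSL ℝ (T v)).comp T) (g := innerSL ℝ v) (fun j k => ?_) u
  · rw [ContinuousLinearMap.comp_apply, innerSL_apply_apply, innerSL_apply_apply] at this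
    rw [real_inner_comm, this, real_inner_comm]
  · rw [ContinuousLinearMap.comp_apply, innerSL_apply_apply, innerSL_apply_apply,
      real_inner_comm, h1, real_inner_comm]

theorem norm_T (hT : IsHaarShift T) (u : Lp ℝ 2 (volume : Measure ℝ)) : ‖T u‖ = ‖u‖ := by
  have := isometry_haar hT u u
  rw [real_inner_self_eq_norm_sq, real_inner_self_eq_norm_sq] at this
  exact (pow_left_inj₀ (norm_nonneg _) (norm_nonneg _) (by norm_num)).1 this

end Op

end Pool.Agent.V1195.HaarShift
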