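import Mathlib

namespace Pool.Agent.V1195.HaarPoly

/-! Polynomial inequalities for the Bellman function of `MP_02a511_an`
(Bernstein-type certificates on triangles). -/

theorem g2i_1 (a b c : ℝ) (ha : 0 ≤ a) (hb : 0 ≤ b) (hc : 0 ≤ c) :
    0 ≤ (119/2)*a^3*b^3 + 238*a^3*b^2*c + 357*a^3*b*c^2 + 238*a^3*c^3 + (7667/8)*a^2*b^4 + (34323/8)*a^2*b^3*c + (44419/8)*a^2*b^2*c^2 + 2524*a^2*b*c^3 + (2167/2)*a^2*c^4 + (16337/16)*a*b^5 + (93177/16)*a*b^4*c + (163311/16)*a*b^3*c^2 + (56513/8)*a*b^2*c^3 + (25913/8)*a*b*c^4 + (3449/4)*a*c^5 + (2227/8)*b^6 + (7905/4)*b^5*c + 4339*b^4*c^2 + (62527/16)*b^3*c^3 + (15373/8)*b^2*c^4 + (4259/8)*b*c^5 + (135/4)*c^6 := by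
  positivity

theorem g2i (x y : ℝ) (h0 : 0 ≤ (-2*x + (1))) (h1 : 0 ≤ (2*x + (-2)*y + (0))) (h2 : 0 ≤ ((2)*y + (0))) :
    0 ≤ 68*(x*(1-x)+y*(1-y))*(7*(x*(1-x)+y*(1-y))*(x-y)^2 + (x)^2*(50*(1-y) + (-43 + 423/2*x - 168*x^2) - 28*(x*(1-x)) - 68*(y*(1-y))) + (y)^2*(50*(1-x) + (-43 + 423/2*y - 168*y^2) - 28*(y*(1-y)) - 68*(x*(1-x))) + 136*((x)^2*(y)^2)) - 10000*((x)^2*(y)^2) := by
  have k := g2i_1 (-2*x + (1)) (2*x + (-2)*y + (0)) ((2)*y + (0)) h0 h1 h2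
  refine le_of_le_of_eq k ?_
  ring

theorem g2ii_1 (a b c : ℝ) (ha : 0 ≤ a) (hb : 0 ≤ b) (hc : 0 ≤ c) :
    0 ≤ (17/4)*a^3*b^3 + 17*a^3*b^2*c + (51/2)*a^3*b*c^2 + 17*a^3*c^3 + (901/2)*a^2*b^4 + (17187/8)*a^2*b^3*c + (23305/8)*a^2*b^2*c^2 + (3059/2)*a^2*b*c^3 + 752*a^2*c^4 + (5695/16)*a*b^5 + (35683/16)*a*b^4*c + (65629/16)*a*b^3*c^2 + (28599/8)*a*b^2*c^3 + (21051/8)*a*b*c^4 + (3007/4)*a*c^5 + (527/8)*b^6 + (1955/4)*b^5*c + (7291/8)*b^4*c^2 + (12717/16)*b^3*c^3 + (7247/8)*b^2*c^4 + (3817/8)*b*c^5 + (135/4)*c^6 := by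
  positivity

theorem g2ii (x y : ℝ) (h0 : 0 ≤ ((2)*y + (-1))) (h1 : 0 ≤ (2*x + (-2)*y + (0))) (h2 : 0 ≤ (-2*x + (2))) :
    0 ≤ 68*(x*(1-x)+y*(1-y))*(7*(x*(1-x)+y*(1-y))*(x-y)^2 + (1-x)^2*(50*(1-y) + (-43 + 423/2*x - 168*x^2) - 28*(x*(1-x)) - 68*(y*(1-y))) + (1-y)^2*(50*(1-x) + (-43 + 423/2*y - 168*y^2) - 28*(y*(1-y)) - 68*(x*(1-x))) + 136*((1-x)^2*(1-y)^2)) - 10000*((1-x)^2*(1-y)^2) := by
  have k := g2ii_1 ((2)*y + (-1)) (2*x + (-2)*y + (0)) (-2*x + (2)) h0 h1 h2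
  refine le_of_le_of_eq k ?_
  ring

theorem g2iii1_1 (a b c : ℝ) (ha : 0 ≤ a) (hb : 0 ≤ b) (hc : 0 ≤ c) :
    0 ≤ (2227/8)*a^6 + (19771/16)*a^5*b + (7905/4)*a^5*c + (6647/4)*a^4*b^2 + (117691/16)*a^4*b*c + 4339*a^4*c^2 + (2669/4)*a^3*b^3 + (65603/8)*a^3*b^2*c + (219717/16)*a^3*b*c^2 + (62527/16)*a^3*c^3 + 119*a^2*b^4 + 2907*a^2*b^3*c + (48245/4)*a^2*b^2*c^2 + (39961/4)*a^2*b*c^3 + (15373/8)*a^2*c^4 + 476*a*b^4*c + (13787/4)*a*b^3*c^2 + (21673/4)*a*b^2*c^3 + (31455/8)*a*b*c^4 + (4259/8)*a*c^5 + 476*b^4*c^2 + (1207/2)*b^3*c^3 + (4147/4)*b^2*c^4 + 807*b*c^5 + (135/4)*c^6 := by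
  positivity

theorem g2iii1 (x y : ℝ) (h0 : 0 ≤ (-2*x + (-2)*y + (2))) (h1 : 0 ≤ (2*x + (-1))) (h2 : 0 ≤ ((2)*y + (0))) :
    0 ≤ 68*(x*(1-x)+y*(1-y))*(7*(x*(1-x)+y*(1-y))*(x-y)^2 + (1-x)^2*(50*(1-y) + (-43 + 423/2*x - 168*x^2) - 28*(x*(1-x)) - 68*(y*(1-y))) + (y)^2*(50*(1-x) + (-43 + 423/2*y - 168*y^2) - 28*(y*(1-y)) - 68*(x*(1-x))) + 136*((1-x)^2*(y)^2)) - 10000*((1-x)^2*(y)^2) := by
  have k := g2iii1_1 (-2*x + (-2)*y + (2)) (2*x + (-1)) ((2)*y + (0)) h0 h1 h2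
  refine le_of_le_of_eq k ?_
  ring

theorem g2iii2_1 (a b c : ℝ) (ha : 0 ≤ a) (hb : 0 ≤ b) (hc : 0 ≤ c) :
    0 ≤ (119/4)*a^4*b^2 + 119*a^4*b*c + 119*a^4*c^2 + (697/16)*a^3*b^3 + (527/2)*a^3*b^2*c + (16303/32)*a^3*b*c^2 + (5015/16)*a^3*c^3 + (3009/128)*a^2*b^4 + (25823/128)*a^2*b^3*c + (18487/32)*a^2*b^2*c^2 + (11721/16)*a^2*b*c^3 + (22813/64)*a^2*c^4 + (6137/512)*a*b^5 + (52785/512)*a*b^4*c + (157319/512)*a*b^3*c^2 + (68515/128)*a*b^2*c^3 + (138951/256)*a*b*c^4 + (6595/32)*a*c^5 + (4845/1024)*b^6 + (9571/256)*b^5*c + (25275/256)*b^4*c^2 + (83931/512)*b^3*c^3 + (27987/128)*b^2*c^4 + (42127/256)*b*c^5 + (2957/64)*c^6 := by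
  positivity

theorem g2iii2_2 (a b c : ℝ) (ha : 0 ≤ a) (hb : 0 ≤ b) (hc : 0 ≤ c) :
    0 ≤ (4845/1024)*a^6 + (22933/512)*a^5*b + (9571/256)*a^5*c + (6001/32)*a^4*b^2 + (138635/512)*a^4*b*c + (25275/256)*a^4*c^2 + (27013/64)*a^3*b^3 + (111673/128)*a^3*b^2*c + (247081/512)*a^3*b*c^2 + (83931/512)*a^3*c^3 + (32589/64)*a^2*b^4 + (46835/32)*a^2*b^3*c + (282539/256)*a^2*b^2*c^2 + (114763/256)*a^2*b*c^3 + (27987/128)*a^2*c^4 + (9537/32)*a*b^5 + (37689/32)*a*b^4*c + (163023/128)*a*b^3*c^2 + (71501/128)*a*b^2*c^3 + (84945/256)*a*b*c^4 + (42127/256)*a*c^5 + (527/8)*b^6 + (11033/32)*b^5*c + (34081/64)*b^4*c^2 + (20609/64)*b^3*c^3 + (18623/128)*b^2*c^4 + (15747/128)*b*c^5 + (2957/64)*c^6 := by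
  positivity

theorem g2iii2_3 (a b c : ℝ) (ha : 0 ≤ a) (hb : 0 ≤ b) (hc : 0 ≤ c) (hs : a + b + c = 1) :
    0 ≤ 119*a^4*b^2 + 238*a^4*b*c + 119*a^4*c^2 + (5015/16)*a^3*b^3 + (8687/16)*a^3*b^2*c + 102*a^3*b*c^2 + (-255/2)*a^3*c^3 + (22813/64)*a^2*b^4 + (8397/16)*a^2*b^3*c + (-511/16)*a^2*b^2*c^2 + (-1921/16)*a^2*b*c^3 + (357/8)*a^2*c^4 + (6595/32)*a*b^5 + (47699/128)*a*b^4*c + (4837/32)*a*b^3*c^2 + (26699/64)*a*b^2*c^3 + (20213/32)*a*b*c^4 + (3213/16)*a*c^5 + (2957/64)*b^6 + (15747/128)*b^5*c + (18623/128)*b^4*c^2 + (20609/64)*b^3*c^3 + (34081/64)*b^2*c^4 + (11033/32)*b*c^5 + (527/8)*c^6 := by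
  obtain rfl : a = 1 - b - c := by linarith
  rcases le_total c (1 - b - c) with h | h
  · have k := g2iii2_1 ((1 - b - c) - c) (2 * c) b (by linarith) (by linarith) (by linarith)
    refine le_of_le_of_eq k ?_
    ring
  · have k := g2iii2_2 (2 * (1 - b - c)) (c - (1 - b - c)) b (by linarith) (by linarith) (by linarith)
    refine le_of_le_of_eq k ?_
    ring

theorem g2iii2_4 (a b c : ℝ) (ha : 0 ≤ a) (hb : 0 ≤ b) (hc : 0 ≤ c) :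
    0 ≤ (2957/64)*a^6 + (11147/32)*a^5*b + (15747/128)*a^5*c + (68333/64)*a^4*b^2 + (109771/128)*a^4*b*c + (18623/128)*a^4*c^2 + (26991/16)*a^3*b^3 + (39433/16)*a^3*b^2*c + (32409/32)*a^3*b*c^2 + (20609/64)*a^3*c^3 + (2789/2)*a^2*b^4 + (14017/4)*a^2*b^3*c + (40847/16)*a^2*b^2*c^2 + (96955/64)*a^2*b*c^3 + (34081/64)*a^2*c^4 + (2019/4)*a*b^5 + (18249/8)*a*b^4*c + (20897/8)*a*b^3*c^2 + (33207/16)*a*b^2*c^3 + (47949/32)*a*b*c^4 + (11033/32)*a*c^5 + (135/4)*b^6 + (3817/8)*b^5*c + (7247/8)*b^4*c^2 + (12717/16)*b^3*c^3 + (7291/8)*b^2*c^4 + (1955/4)*b*c^5 + (527/8)*c^6 := by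
  positivity

theorem g2iii2_5 (a b c : ℝ) (ha : 0 ≤ a) (hb : 0 ≤ b) (hc : 0 ≤ c) (hs : a + b + c = 1) :
    0 ≤ (527/8)*a^6 + (3213/16)*a^5*b + (1955/4)*a^5*c + (357/8)*a^4*b^2 + (18785/16)*a^4*b*c + (7291/8)*a^4*c^2 + (-255/2)*a^3*b^3 + (1139/8)*a^3*b^2*c + (28263/16)*a^3*b*c^2 + (12717/16)*a^3*c^3 + 119*a^2*b^4 + (-272)*a^2*b^3*c + (-103/4)*a^2*b^2*c^2 + (6403/4)*a^2*b*c^3 + (7247/8)*a^2*c^4 + 476*a*b^4*c + (1071/4)*a*b^3*c^2 + (2157/4)*a*b^2*c^3 + (17413/8)*a*b*c^4 + (3817/8)*a*c^5 + 476*b^4*c^2 + (1207/2)*b^3*c^3 + (4147/4)*b^2*c^4 + 807*b*c^5 + (135/4)*c^6 := by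
  obtain rfl : a = 1 - b - c := by linarith
  rcases le_total c b with h | h
  · have k := g2iii2_3 (b - c) (2 * c) (1 - b - c) (by linarith) (by linarith) (by linarith) (by ring)
    refine le_of_le_of_eq k ?_
    ring
  · have k := g2iii2_4 (2 * b) (c - b) (1 - b - c) (by linarith) (by linarith) (by linarith)
    refine le_of_le_of_eq k ?_
    ring

theorem g2iii2 (x y : ℝ) (h0 : 0 ≤ (2*x + (2)*y + (-2))) (h1 : 0 ≤ ((-2)*y + (1))) (h2 : 0 ≤ (-2*x + (2))) :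
    0 ≤ 68*(x*(1-x)+y*(1-y))*(7*(x*(1-x)+y*(1-y))*(x-y)^2 + (1-x)^2*(50*(1-y) + (-43 + 423/2*x - 168*x^2) - 28*(x*(1-x)) - 68*(y*(1-y))) + (y)^2*(50*(1-x) + (-43 + 423/2*y - 168*y^2) - 28*(y*(1-y)) - 68*(x*(1-x))) + 136*((1-x)^2*(y)^2)) - 10000*((1-x)^2*(y)^2) := by
  have k := g2iii2_5 (2*x + (2)*y + (-2)) ((-2)*y + (1)) (-2*x + (2)) h0 h1 h2 (by ring)
  refine le_of_le_of_eq k ?_
  ring

theorem g1a1_1 (a b c : ℝ) (ha : 0 ≤ a) (hb : 0 ≤ b) (hc : 0 ≤ c) :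
    0 ≤ (7/4)*a^2*b^2 + (7/2)*a^2*b*c + (7/4)*a^2*c^2 + (437/16)*a*b^3 + (1061/16)*a*b^2*c + (797/16)*a*b*c^2 + (187/16)*a*c^3 + (131/8)*b^4 + (203/4)*b^3*c + (113/2)*b^2*c^2 + 28*b*c^3 + (87/16)*c^4 := by
  positivity

theorem g1a1 (x y : ℝ) (h0 : 0 ≤ (-2*x + (1))) (h1 : 0 ≤ (2*x + (-2)*y + (0))) (h2 : 0 ≤ ((2)*y + (0))) :
    0 ≤ 7*(x*(1-x)+y*(1-y))*(x-y)^2 + (x)^2*(50*(1-y) + (-43 + 423/2*x - 168*x^2) - 28*(x*(1-x)) - 68*(y*(1-y))) := by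
  have k := g1a1_1 (-2*x + (1)) (2*x + (-2)*y + (0)) ((2)*y + (0)) h0 h1 h2
  refine le_of_le_of_eq k ?_
  ring

theorem g1a2_1 (a b c : ℝ) (ha : 0 ≤ a) (hb : 0 ≤ b) (hc : 0 ≤ c) :
    0 ≤ (7/64)*a^5*c^2 + (7/512)*a^4*b^3 + (7/256)*a^4*b^2*c + (81/256)*a^4*b*c^2 + (691/1024)*a^4*c^3 + (217/4096)*a^3*b^4 + (329/2048)*a^3*b^3*c + (603/2048)*a^3*b^2*c^2 + (927/512)*a^3*b*c^3 + (813/512)*a^3*c^4 + (315/4096)*a^2*b^5 + (1281/4096)*a^2*b^4*c + (77/512)*a^2*b^3*c^2 + (3249/2048)*a^2*b^2*c^3 + (891/256)*a^2*b*c^4 + (463/256)*a^2*c^5 + (203/4096)*a*b^6 + (259/1024)*a*b^5*c + (537/4096)*a*b^4*c^2 + (993/2048)*a*b^3*c^3 + (4805/2048)*a*b^2*c^4 + (1431/512)*a*b*c^5 + (515/512)*a*c^6 + (49/4096)*b^7 + (301/4096)*b^6*c + (279/4096)*b^5*c^2 + (133/4096)*b^4*c^3 + (475/1024)*b^3*c^4 + (2103/2048)*b^2*c^5 + (207/256)*b*c^6 + (225/1024)*c^7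 := by
  positivity

theorem g1a2_2 (a b c : ℝ) (ha : 0 ≤ a) (hb : 0 ≤ b) (hc : 0 ≤ c) :
    0 ≤ (21/256)*a^4 + (133/512)*a^3*b + (7/32)*a^3*c + (449/2048)*a^2*b^2 + (511/1024)*a^2*b*c + (105/512)*a^2*c^2 + (487/8192)*a*b^3 + (527/2048)*a*b^2*c + (623/2048)*a*b*c^2 + (21/256)*a*c^3 + (131/8192)*b^4 + (409/8192)*b^3*c + (661/8192)*b^2*c^2 + (245/4096)*b*c^3 + (49/4096)*c^4 := by
  positivity

theorem g1a2_3 (a b c : ℝ) (ha : 0 ≤ a) (hb : 0 ≤ b) (hc : 0 ≤ c) :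
    0 ≤ (131/8192)*a^6 + (823/8192)*a^5*b + (671/8192)*a^5*c + (3271/8192)*a^4*b^2 + (637/2048)*a^4*b*c + (805/4096)*a^4*c^2 + (8001/8192)*a^3*b^3 + (6823/8192)*a^3*b^2*c + (3545/8192)*a^3*b*c^2 + (2221/8192)*a^3*c^3 + (5313/4096)*a^2*b^4 + (6771/4096)*a^2*b^3*c + (4143/8192)*a^2*b^2*c^2 + (815/2048)*a^2*b*c^3 + (1739/8192)*a^2*c^4 + (1751/2048)*a*b^5 + (3355/2048)*a*b^4*c + (1453/2048)*a*b^3*c^2 + (327/4096)*a*b^2*c^3 + (243/1024)*a*b*c^4 + (343/4096)*a*c^5 + (225/1024)*b^6 + (603/1024)*b^5*c + (897/2048)*b^4*c^2 + (53/2048)*b^3*c^3 + (27/4096)*b^2*c^4 + (63/1024)*b*c^5 + (49/4096)*c^6 := by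
  positivity

theorem g1a2_4 (a b c : ℝ) (ha : 0 ≤ a) (hb : 0 ≤ b) (hc : 0 ≤ c) (hs : a + b + c = 1) :
    0 ≤ (49/4096)*a^4 + (21/256)*a^3*b + (77/2048)*a^3*c + (105/512)*a^2*b^2 + (203/1024)*a^2*b*c + (-165/2048)*a^2*c^2 + (7/32)*a*b^3 + (175/512)*a*b^2*c + (-159/512)*a*b*c^2 + (153/1024)*a*c^3 + (21/256)*b^4 + (49/256)*b^3*c + (-97/512)*b^2*c^2 + (-49/1024)*b*c^3 + (225/1024)*c^4 := by
  obtain rfl : a = 1 - b - c := by linarith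
  rcases le_total c b with h | h
  · have k := g1a2_2 (b - c) (2 * c) (1 - b - c) (by linarith) (by linarith) (by linarith)
    refine le_of_le_of_eq k ?_
    ring
  · have k := g1a2_3 (2 * b) (c - b) (1 - b - c) (by linarith) (by linarith) (by linarith)
    refine le_of_le_of_eq k ?_
    ring

theorem g1a2_5 (a b c : ℝ) (ha : 0 ≤ a) (hb : 0 ≤ b) (hc : 0 ≤ c) (hs : a + b + c = 1) :
    0 ≤ (7/64)*a^2*b^2 + (355/1024)*a*b^3 + (-31/128)*a*b^2*c + (7/64)*a*b*c^2 + (7/64)*a*c^3 + (225/1024)*b^4 + (-49/1024)*b^3*c + (-97/512)*b^2*c^2 + (49/256)*b*c^3 + (21/256)*c^4 := by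
  obtain rfl : a = 1 - b - c := by linarith
  rcases le_total c (1 - b - c) with h | h
  · have k := g1a2_1 ((1 - b - c) - c) (2 * c) b (by linarith) (by linarith) (by linarith)
    refine le_of_le_of_eq k ?_
    ring
  · have k := g1a2_4 (2 * (1 - b - c)) (c - (1 - b - c)) b (by linarith) (by linarith) (by linarith) (by ring)
    refine le_of_le_of_eq k ?_
    ring

theorem g1a2_6 (a b c : ℝ) (ha : 0 ≤ a) (hb : 0 ≤ b) (hc : 0 ≤ c) :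
    0 ≤ (151/128)*a^4 + (679/256)*a^3*b + (847/256)*a^3*c + (503/256)*a^2*b^2 + (1321/256)*a^2*b*c + (1691/512)*a^2*c^2 + (307/512)*a*b^3 + (2521/1024)*a*b^2*c + (3359/1024)*a*b*c^2 + (1445/1024)*a*c^3 + (293/4096)*b^4 + (775/2048)*b^3*c + (1571/2048)*b^2*c^2 + (349/512)*b*c^3 + (225/1024)*c^4 := by
  positivity

theorem g1a2_7 (a b c : ℝ) (ha : 0 ≤ a) (hb : 0 ≤ b) (hc : 0 ≤ c) :
    0 ≤ (21/256)*a^5 + (175/512)*a^4*b + (49/128)*a^4*c + (981/2048)*a^3*b^2 + (961/1024)*a^3*b*c + (197/512)*a^3*c^2 + (2283/8192)*a^2*b^3 + (2853/4096)*a^2*b^2*c + (461/1024)*a^2*b*c^2 + (29/512)*a^2*c^3 + (309/4096)*a*b^4 + (485/2048)*a*b^3*c + (2069/8192)*a*b^2*c^2 + (559/4096)*a*b*c^3 + (181/4096)*a*c^4 + (131/8192)*b^5 + (385/4096)*b^4*c + (995/4096)*b^3*c^2 + (2789/8192)*b^2*c^3 + (253/1024)*b*c^4 + (293/4096)*c^5 := by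
  positivity

theorem g1a2_8 (a b c : ℝ) (ha : 0 ≤ a) (hb : 0 ≤ b) (hc : 0 ≤ c) :
    0 ≤ (131/8192)*a^4 + (561/8192)*a^3*b + (639/8192)*a^3*c + (1009/4096)*a^2*b^2 + (755/2048)*a^2*b*c + (1351/8192)*a^2*c^2 + (851/2048)*a*b^3 + (1877/2048)*a*b^2*c + (1375/2048)*a*b*c^2 + (719/4096)*a*c^3 + (225/1024)*b^4 + (349/512)*b^3*c + (1571/2048)*b^2*c^2 + (775/2048)*b*c^3 + (293/4096)*c^4 := by
  positivity

theorem g1a2_9 (a b c : ℝ) (ha : 0 ≤ a) (hb : 0 ≤ b) (hc : 0 ≤ c) (hs : a + b + c = 1) :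
    0 ≤ (293/4096)*a^4 + (-7/256)*a^3*b + (775/2048)*a^3*c + (43/512)*a^2*b^2 + (-49/256)*a^2*b*c + (1571/2048)*a^2*c^2 + (77/256)*a*b^3 + (-75/512)*a*b^2*c + (-217/1024)*a*b*c^2 + (349/512)*a*c^3 + (21/256)*b^4 + (49/256)*b^3*c + (-97/512)*b^2*c^2 + (-49/1024)*b*c^3 + (225/1024)*c^4 := by
  obtain rfl : a = 1 - b - c := by linarith
  rcases le_total c b with h | h
  · have k := g1a2_7 (b - c) (2 * c) (1 - b - c) (by linarith) (by linarith) (by linarith)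
    refine le_of_le_of_eq k ?_
    ring
  · have k := g1a2_8 (2 * b) (c - b) (1 - b - c) (by linarith) (by linarith) (by linarith)
    refine le_of_le_of_eq k ?_
    ring

theorem g1a2_10 (a b c : ℝ) (ha : 0 ≤ a) (hb : 0 ≤ b) (hc : 0 ≤ c) (hs : a + b + c = 1) :
    0 ≤ (225/1024)*a^4 + (1445/1024)*a^3*b + (-49/1024)*a^3*c + (1691/512)*a^2*b^2 + (-23/512)*a^2*b*c + (-97/512)*a^2*c^2 + (847/256)*a*b^3 + (101/256)*a*b^2*c + (-111/128)*a*b*c^2 + (49/256)*a*c^3 + (151/128)*b^4 + (75/128)*b^3*c + (-125/128)*b^2*c^2 + (35/128)*b*c^3 + (21/256)*c^4 := by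
  obtain rfl : a = 1 - b - c := by linarith
  rcases le_total c b with h | h
  · have k := g1a2_6 (b - c) (2 * c) (1 - b - c) (by linarith) (by linarith) (by linarith)
    refine le_of_le_of_eq k ?_
    ring
  · have k := g1a2_9 (2 * b) (c - b) (1 - b - c) (by linarith) (by linarith) (by linarith) (by ring)
    refine le_of_le_of_eq k ?_
    ring

theorem g1a2_11 (a b c : ℝ) (ha : 0 ≤ a) (hb : 0 ≤ b) (hc : 0 ≤ c) (hs : a + b + c = 1) :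
    0 ≤ (7/16)*a^2*c^2 + (7/64)*a*b^3 + (7/32)*a*b^2*c + (-31/32)*a*b*c^2 + (243/128)*a*c^3 + (21/256)*b^4 + (35/128)*b^3*c + (-125/128)*b^2*c^2 + (75/128)*b*c^3 + (151/128)*c^4 := by
  obtain rfl : a = 1 - b - c := by linarith
  rcases le_total c (1 - b - c) with h | h
  · have k := g1a2_5 ((1 - b - c) - c) (2 * c) b (by linarith) (by linarith) (by linarith) (by ring)
    refine le_of_le_of_eq k ?_
    ring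
  · have k := g1a2_10 (2 * (1 - b - c)) (c - (1 - b - c)) b (by linarith) (by linarith) (by linarith) (by ring)
    refine le_of_le_of_eq k ?_
    ring

theorem g1a2_12 (a b c : ℝ) (ha : 0 ≤ a) (hb : 0 ≤ b) (hc : 0 ≤ c) :
    0 ≤ (7/16)*a^4 + (49/32)*a^3*b + (21/16)*a^3*c + (161/128)*a^2*b^2 + (203/64)*a^2*b*c + (21/16)*a^2*c^2 + (243/1024)*a*b^3 + (93/64)*a*b^2*c + (259/128)*a*b*c^2 + (35/64)*a*c^3 + (43/1024)*b^4 + (175/1024)*b^3*c + (225/512)*b^2*c^2 + (105/256)*b*c^3 + (21/256)*c^4 := by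
  positivity

theorem g1a2_13 (a b c : ℝ) (ha : 0 ≤ a) (hb : 0 ≤ b) (hc : 0 ≤ c) :
    0 ≤ (151/128)*a^4 + (679/256)*a^3*b + (511/256)*a^3*c + (503/256)*a^2*b^2 + (691/256)*a^2*b*c + (431/512)*a^2*c^2 + (307/512)*a*b^3 + (1163/1024)*a*b^2*c + (643/1024)*a*b*c^2 + (101/1024)*a*c^3 + (293/4096)*b^4 + (397/2048)*b^3*c + (437/2048)*b^2*c^2 + (69/512)*b*c^3 + (43/1024)*c^4 := by
  positivity

theorem g1a2_14 (a b c : ℝ) (ha : 0 ≤ a) (hb : 0 ≤ b) (hc : 0 ≤ c) :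
    0 ≤ (293/4096)*a^5 + (181/4096)*a^4*b + (1087/4096)*a^4*c + (29/512)*a^3*b^2 + (397/2048)*a^3*b*c + (417/1024)*a^3*c^2 + (197/512)*a^2*b^3 + (19/32)*a^2*b^2*c + (955/2048)*a^2*b*c^2 + (713/2048)*a^2*c^3 + (49/128)*a*b^4 + (611/512)*a*b^3*c + (1175/1024)*a*b^2*c^2 + (17/32)*a*b*c^3 + (181/1024)*a*c^4 + (21/256)*b^5 + (63/128)*b^4*c + (435/512)*b^3*c^2 + (625/1024)*b^2*c^3 + (109/512)*b*c^4 + (43/1024)*c^5 := by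
  positivity

theorem g1a2_15 (a b c : ℝ) (ha : 0 ≤ a) (hb : 0 ≤ b) (hc : 0 ≤ c) (hs : a + b + c = 1) :
    0 ≤ (43/1024)*a^4 + (101/1024)*a^3*b + (175/1024)*a^3*c + (431/512)*a^2*b^2 + (-219/512)*a^2*b*c + (225/512)*a^2*c^2 + (511/256)*a*b^3 + (-151/256)*a*b^2*c + (-17/64)*a*b*c^2 + (105/256)*a*c^3 + (151/128)*b^4 + (75/128)*b^3*c + (-125/128)*b^2*c^2 + (35/128)*b*c^3 + (21/256)*c^4 := by
  obtain rfl : a = 1 - b - c := by linarith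
  rcases le_total c b with h | h
  · have k := g1a2_13 (b - c) (2 * c) (1 - b - c) (by linarith) (by linarith) (by linarith)
    refine le_of_le_of_eq k ?_
    ring
  · have k := g1a2_14 (2 * b) (c - b) (1 - b - c) (by linarith) (by linarith) (by linarith)
    refine le_of_le_of_eq k ?_
    ring

theorem g1a2_16 (a b c : ℝ) (ha : 0 ≤ a) (hb : 0 ≤ b) (hc : 0 ≤ c) (hs : a + b + c = 1) :
    0 ≤ (21/256)*a^4 + (35/64)*a^3*b + (35/128)*a^3*c + (21/16)*a^2*b^2 + (91/64)*a^2*b*c + (-125/128)*a^2*c^2 + (21/16)*a*b^3 + (77/32)*a*b^2*c + (-47/16)*a*b*c^2 + (75/128)*a*c^3 + (7/16)*b^4 + (21/16)*b^3*c + (-49/32)*b^2*c^2 + (-93/128)*b*c^3 + (151/128)*c^4 := by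
  obtain rfl : a = 1 - b - c := by linarith
  rcases le_total c b with h | h
  · have k := g1a2_12 (b - c) (2 * c) (1 - b - c) (by linarith) (by linarith) (by linarith)
    refine le_of_le_of_eq k ?_
    ring
  · have k := g1a2_15 (2 * b) (c - b) (1 - b - c) (by linarith) (by linarith) (by linarith) (by ring)
    refine le_of_le_of_eq k ?_
    ring

theorem g1a2_17 (a b c : ℝ) (ha : 0 ≤ a) (hb : 0 ≤ b) (hc : 0 ≤ c) (hs : a + b + c = 1) :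
    0 ≤ (7/16)*a^2*b^2 + (243/128)*a*b^3 + (-45/16)*a*b^2*c + (7/8)*a*b*c^2 + (7/8)*a*c^3 + (151/128)*b^4 + (-93/128)*b^3*c + (-49/32)*b^2*c^2 + (21/16)*b*c^3 + (7/16)*c^4 := by
  obtain rfl : a = 1 - b - c := by linarith
  rcases le_total c (1 - b - c) with h | h
  · have k := g1a2_11 ((1 - b - c) - c) (2 * c) b (by linarith) (by linarith) (by linarith) (by ring)
    refine le_of_le_of_eq k ?_
    ring
  · have k := g1a2_16 (2 * (1 - b - c)) (c - (1 - b - c)) b (by linarith) (by linarith) (by linarith) (by ring)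
    refine le_of_le_of_eq k ?_
    ring

theorem g1a2_18 (a b c : ℝ) (ha : 0 ≤ a) (hb : 0 ≤ b) (hc : 0 ≤ c) :
    0 ≤ (87/16)*a^4 + (435/32)*a^3*b + (535/32)*a^3*c + (657/64)*a^2*b^2 + (843/32)*a^2*b*c + (1111/64)*a^2*c^2 + (385/128)*a*b^3 + (1543/128)*a*b^2*c + (2123/128)*a*b*c^2 + (965/128)*a*c^3 + (83/256)*b^4 + (217/128)*b^3*c + (457/128)*b^2*c^2 + (109/32)*b*c^3 + (151/128)*c^4 := by
  positivity

theorem g1a2_19 (a b c : ℝ) (ha : 0 ≤ a) (hb : 0 ≤ b) (hc : 0 ≤ c) :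
    0 ≤ (7/16)*a^8 + (105/32)*a^7*b + (7/2)*a^7*c + (1281/128)*a^6*b^2 + (1295/64)*a^6*b*c + (77/8)*a^6*c^2 + (16595/1024)*a^5*b^3 + (23841/512)*a^5*b^2*c + (10735/256)*a^5*b*c^2 + (1515/128)*a^5*c^3 + (15463/1024)*a^4*b^4 + (55677/1024)*a^4*b^3*c + (8755/128)*a^4*b^2*c^2 + (141/4)*a^4*b*c^3 + (1563/256)*a^4*c^4 + (4175/512)*a^3*b^5 + (1085/32)*a^3*b^4*c + (26299/512)*a^3*b^3*c^2 + (8771/256)*a^3*b^2*c^3 + (1179/128)*a^3*b*c^4 + (9/16)*a^3*c^5 + (1259/512)*a^2*b^6 + (5691/512)*a^2*b^5*c + (9461/512)*a^2*b^4*c^2 + (7029/512)*a^2*b^3*c^3 + (573/128)*a^2*b^2*c^4 + (55/64)*a^2*b*c^5 + (37/128)*a^2*c^6 + (415/1024)*a*b^7 + (1067/512)*a*b^6*c + (2323/512)*a*b^5*c^2 + (815/128)*a*b^4*c^3 + (7703/1024)*a*b^3*c^4 + (3577/512)*a*b^2*c^5 + (987/256)*a*b*c^6 + (113/128)*a*c^7 + (43/1024)*b^8 + (341/1024)*b^7*c + (683/512)*b^6*c^2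 + (1785/512)*b^5*c^3 + (6267/1024)*b^4*c^4 + (7161/1024)*b^3*c^5 + (631/128)*b^2*c^6 + (31/16)*b*c^7 + (83/256)*c^8 := by
  positivity

theorem g1a2_20 (a b c : ℝ) (ha : 0 ≤ a) (hb : 0 ≤ b) (hc : 0 ≤ c) :
    0 ≤ (43/1024)*a^4 + (101/1024)*a^3*b + (169/1024)*a^3*c + (431/512)*a^2*b^2 + (261/256)*a^2*b*c + (27/64)*a^2*c^2 + (511/256)*a*b^3 + (1013/256)*a*b^2*c + (673/256)*a*b*c^2 + (41/64)*a*c^3 + (151/128)*b^4 + (109/32)*b^3*c + (457/128)*b^2*c^2 + (217/128)*b*c^3 + (83/256)*c^4 := by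
  positivity

theorem g1a2_21 (a b c : ℝ) (ha : 0 ≤ a) (hb : 0 ≤ b) (hc : 0 ≤ c) (hs : a + b + c = 1) :
    0 ≤ (83/256)*a^4 + (-53/128)*a^3*b + (217/128)*a^3*c + (-241/128)*a^2*b*c + (457/128)*a^2*c^2 + (7/4)*a*b^3 + (-49/32)*a*b^2*c + (-295/128)*a*b*c^2 + (109/32)*a*c^3 + (7/16)*b^4 + (21/16)*b^3*c + (-49/32)*b^2*c^2 + (-93/128)*b*c^3 + (151/128)*c^4 := by
  obtain rfl : a = 1 - b - c := by linarith
  rcases le_total c b with h | h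
  · have k := g1a2_19 (b - c) (2 * c) (1 - b - c) (by linarith) (by linarith) (by linarith)
    refine le_of_le_of_eq k ?_
    ring
  · have k := g1a2_20 (2 * b) (c - b) (1 - b - c) (by linarith) (by linarith) (by linarith)
    refine le_of_le_of_eq k ?_
    ring

theorem g1a2_22 (a b c : ℝ) (ha : 0 ≤ a) (hb : 0 ≤ b) (hc : 0 ≤ c) (hs : a + b + c = 1) :
    0 ≤ (151/128)*a^4 + (965/128)*a^3*b + (-93/128)*a^3*c + (1111/64)*a^2*b^2 + (-99/64)*a^2*b*c + (-49/32)*a^2*c^2 + (535/32)*a*b^3 + (81/32)*a*b^2*c + (-7)*a*b*c^2 + (21/16)*a*c^3 + (87/16)*b^4 + (87/16)*b^3*c + (-63/8)*b^2*c^2 + (7/4)*b*c^3 + (7/16)*c^4 := by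
  obtain rfl : a = 1 - b - c := by linarith
  rcases le_total c b with h | h
  · have k := g1a2_18 (b - c) (2 * c) (1 - b - c) (by linarith) (by linarith) (by linarith)
    refine le_of_le_of_eq k ?_
    ring
  · have k := g1a2_21 (2 * b) (c - b) (1 - b - c) (by linarith) (by linarith) (by linarith) (by ring)
    refine le_of_le_of_eq k ?_
    ring

theorem g1a2_23 (a b c : ℝ) (ha : 0 ≤ a) (hb : 0 ≤ b) (hc : 0 ≤ c) (hs : a + b + c = 1) :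
    0 ≤ (7/4)*a^2*c^2 + (7/8)*a*b^3 + (7/4)*a*b^2*c + (-45/4)*a*b*c^2 + (187/16)*a*c^3 + (7/16)*b^4 + (7/4)*b^3*c + (-63/8)*b^2*c^2 + (87/16)*b*c^3 + (87/16)*c^4 := by
  obtain rfl : a = 1 - b - c := by linarith
  rcases le_total c (1 - b - c) with h | h
  · have k := g1a2_17 ((1 - b - c) - c) (2 * c) b (by linarith) (by linarith) (by linarith) (by ring)
    refine le_of_le_of_eq k ?_
    ring
  · have k := g1a2_22 (2 * (1 - b - c)) (c - (1 - b - c)) b (by linarith) (by linarith) (by linarith) (by ring)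
    refine le_of_le_of_eq k ?_
    ring

theorem g1a2 (x y : ℝ) (h0 : 0 ≤ ((-2)*y + (1))) (h1 : 0 ≤ (-2*x + (2)*y + (0))) (h2 : 0 ≤ (2*x + (0))) :
    0 ≤ 7*(x*(1-x)+y*(1-y))*(x-y)^2 + (x)^2*(50*(1-y) + (-43 + 423/2*x - 168*x^2) - 28*(x*(1-x)) - 68*(y*(1-y))) := by
  have k := g1a2_23 ((-2)*y + (1)) (-2*x + (2)*y + (0)) (2*x + (0)) h0 h1 h2 (by ring)
  refine le_of_le_of_eq k ?_
  ring

theorem g1a3_1 (a b c : ℝ) (ha : 0 ≤ a) (hb : 0 ≤ b) (hc : 0 ≤ c) :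
    0 ≤ (7/2)*a^3*b + (7/2)*a^3*c + (55/16)*a^2*b^2 + (49/4)*a^2*b*c + (21/4)*a^2*c^2 + (91/128)*a*b^3 + (73/16)*a*b^2*c + (77/8)*a*b*c^2 + (21/8)*a*c^3 + (35/128)*b^4 + (43/128)*b^3*c + (49/32)*b^2*c^2 + (35/16)*b*c^3 + (7/16)*c^4 := by
  positivity

theorem g1a3_2 (a b c : ℝ) (ha : 0 ≤ a) (hb : 0 ≤ b) (hc : 0 ≤ c) :
    0 ≤ (87/16)*a^4 + (435/32)*a^3*b + (335/32)*a^3*c + (657/64)*a^2*b^2 + (471/32)*a^2*b*c + (367/64)*a^2*c^2 + (385/128)*a*b^3 + (767/128)*a*b^2*c + (571/128)*a*b*c^2 + (189/128)*a*c^3 + (83/256)*b^4 + (115/128)*b^3*c + (151/128)*b^2*c^2 + (29/32)*b*c^3 + (35/128)*c^4 := by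
  positivity

theorem g1a3_3 (a b c : ℝ) (ha : 0 ≤ a) (hb : 0 ≤ b) (hc : 0 ≤ c) :
    0 ≤ (83/256)*a^8 + (113/128)*a^7*b + (281/128)*a^7*c + (37/128)*a^6*b^2 + (669/128)*a^6*b*c + (215/32)*a^6*c^2 + (9/16)*a^5*b^3 + (55/16)*a^5*b^2*c + (1889/128)*a^5*b*c^2 + (197/16)*a^5*c^3 + (1563/256)*a^4*b^4 + (93/8)*a^4*b^3*c + (2087/128)*a^4*b^2*c^2 + (3323/128)*a^4*b*c^3 + (3813/256)*a^4*c^4 + (1515/128)*a^3*b^5 + (4803/128)*a^3*b^4*c + (1405/32)*a^3*b^3*c^2 + (2295/64)*a^3*b^2*c^3 + (3813/128)*a^3*b*c^4 + (1555/128)*a^3*c^5 + (77/8)*a^2*b^6 + (5747/128)*a^2*b^5*c + (9887/128)*a^2*b^4*c^2 + (2135/32)*a^2*b^3*c^3 + (317/8)*a^2*b^2*c^4 + (2729/128)*a^2*b*c^5 + (825/128)*a^2*c^6 + (7/2)*a*b^7 + (721/32)*a*b^6*c + (6977/128)*a*b^5*c^2 + (2107/32)*a*b^4*c^3 + (2899/64)*a*b^3*c^4 + (343/16)*a*b^2*c^5 + (1089/128)*a*b*c^6 + 2*a*c^7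 + (7/16)*b^8 + (63/16)*b^7*c + (413/32)*b^6*c^2 + (2731/128)*b^5*c^3 + (2559/128)*b^4*c^4 + (731/64)*b^3*c^5 + (289/64)*b^2*c^6 + (183/128)*b*c^7 + (35/128)*c^8 := by
  positivity

theorem g1a3_4 (a b c : ℝ) (ha : 0 ≤ a) (hb : 0 ≤ b) (hc : 0 ≤ c) (hs : a + b + c = 1) :
    0 ≤ (35/128)*a^4 + (189/128)*a^3*b + (43/128)*a^3*c + (367/64)*a^2*b^2 + (-163/64)*a^2*b*c + (49/32)*a^2*c^2 + (335/32)*a*b^3 + (-63/32)*a*b^2*c + (-7/2)*a*b*c^2 + (35/16)*a*c^3 + (87/16)*b^4 + (87/16)*b^3*c + (-63/8)*b^2*c^2 + (7/4)*b*c^3 + (7/16)*c^4 := by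
  obtain rfl : a = 1 - b - c := by linarith
  rcases le_total c b with h | h
  · have k := g1a3_2 (b - c) (2 * c) (1 - b - c) (by linarith) (by linarith) (by linarith)
    refine le_of_le_of_eq k ?_
    ring
  · have k := g1a3_3 (2 * b) (c - b) (1 - b - c) (by linarith) (by linarith) (by linarith)
    refine le_of_le_of_eq k ?_
    ring

theorem g1a3_5 (a b c : ℝ) (ha : 0 ≤ a) (hb : 0 ≤ b) (hc : 0 ≤ c) (hs : a + b + c = 1) :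
    0 ≤ (7/16)*a^4 + (21/8)*a^3*b + (7/4)*a^3*c + (21/4)*a^2*b^2 + (35/4)*a^2*b*c + (-63/8)*a^2*c^2 + (7/2)*a*b^3 + 14*a*b^2*c + (-81/4)*a*b*c^2 + (87/16)*a*c^3 + 7*b^3*c + (-29/4)*b^2*c^2 + (-13/16)*b*c^3 + (87/16)*c^4 := by
  obtain rfl : a = 1 - b - c := by linarith
  rcases le_total c b with h | h
  · have k := g1a3_1 (b - c) (2 * c) (1 - b - c) (by linarith) (by linarith) (by linarith)
    refine le_of_le_of_eq k ?_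
    ring
  · have k := g1a3_4 (2 * b) (c - b) (1 - b - c) (by linarith) (by linarith) (by linarith) (by ring)
    refine le_of_le_of_eq k ?_
    ring

theorem g1a3 (x y : ℝ) (h0 : 0 ≤ (-2*x + (-2)*y + (2))) (h1 : 0 ≤ ((2)*y + (-1))) (h2 : 0 ≤ (2*x + (0))) :
    0 ≤ 7*(x*(1-x)+y*(1-y))*(x-y)^2 + (x)^2*(50*(1-y) + (-43 + 423/2*x - 168*x^2) - 28*(x*(1-x)) - 68*(y*(1-y))) := by
  have k := g1a3_5 (-2*x + (-2)*y + (2)) ((2)*y + (-1)) (2*x + (0)) h0 h1 h2 (by ring)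
  refine le_of_le_of_eq k ?_
  ring

theorem g1a4_1 (a b c : ℝ) (ha : 0 ≤ a) (hb : 0 ≤ b) (hc : 0 ≤ c) :
    0 ≤ (7/2)*a^7*b + (7/2)*a^7*c + (279/16)*a^6*b^2 + (59/2)*a^6*b*c + (17/2)*a^6*c^2 + (4539/128)*a^5*b^3 + (5277/64)*a^5*b^2*c + (1501/32)*a^5*b*c^2 + (49/16)*a^5*c^3 + (4831/128)*a^4*b^4 + (14049/128)*a^4*b^3*c + (6025/64)*a^4*b^2*c^2 + (753/32)*a^4*b*c^3 + (9/8)*a^4*c^4 + (1447/64)*a^3*b^5 + 80*a^3*b^4*c + (6663/64)*a^3*b^3*c^2 + (2597/32)*a^3*b^2*c^3 + (893/16)*a^3*b*c^4 + (171/8)*a^3*c^5 + (507/64)*a^2*b^6 + (2367/64)*a^2*b^5*c + (5507/64)*a^2*b^4*c^2 + (9673/64)*a^2*b^3*c^3 + (5967/32)*a^2*b^2*c^4 + (2021/16)*a^2*b*c^5 + 34*a^2*c^6 + (231/128)*a*b^7 + (847/64)*a*b^6*c + (3379/64)*a*b^5*c^2 + (1085/8)*a*b^4*c^3 + (27511/128)*a*b^3*c^4 + (12697/64)*a*b^2*c^5 + (3113/32)*a*b*c^6 + (313/16)*a*c^7 + (35/128)*b^8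 + (377/128)*b^7*c + (121/8)*b^6*c^2 + (2891/64)*b^5*c^3 + (10579/128)*b^4*c^4 + (11981/128)*b^3*c^5 + (4093/64)*b^2*c^6 + (773/32)*b*c^7 + (31/8)*c^8 := by
  positivity

theorem g1a4_2 (a b c : ℝ) (ha : 0 ≤ a) (hb : 0 ≤ b) (hc : 0 ≤ c) :
    0 ≤ (35/128)*a^4 + (189/128)*a^3*b + (237/128)*a^3*c + (367/64)*a^2*b^2 + (365/32)*a^2*b*c + (389/64)*a^2*c^2 + (335/32)*a*b^3 + (797/32)*a*b^2*c + (781/32)*a*b*c^2 + (277/32)*a*c^3 + (87/16)*b^4 + (31/2)*b^3*c + 19*b^2*c^2 + (53/4)*b*c^3 + (31/8)*c^4 := by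
  positivity

theorem g1a4_3 (a b c : ℝ) (ha : 0 ≤ a) (hb : 0 ≤ b) (hc : 0 ≤ c) (hs : a + b + c = 1) :
    0 ≤ (31/8)*a^4 + (65/16)*a^3*b + (53/4)*a^3*c + (-11/2)*a^2*b^2 + (173/16)*a^2*b*c + 19*a^2*c^2 + (7/2)*a*b^3 + (-15/2)*a*b^2*c + (53/16)*a*b*c^2 + (31/2)*a*c^3 + 7*b^3*c + (-29/4)*b^2*c^2 + (-13/16)*b*c^3 + (87/16)*c^4 := by
  obtain rfl : a = 1 - b - c := by linarith
  rcases le_total c b with h | h
  · have k := g1a4_1 (b - c) (2 * c) (1 - b - c) (by linarith) (by linarith) (by linarith)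
    refine le_of_le_of_eq k ?_
    ring
  · have k := g1a4_2 (2 * b) (c - b) (1 - b - c) (by linarith) (by linarith) (by linarith)
    refine le_of_le_of_eq k ?_
    ring

theorem g1a4 (x y : ℝ) (h0 : 0 ≤ (2*x + (2)*y + (-2))) (h1 : 0 ≤ (-2*x + (1))) (h2 : 0 ≤ ((-2)*y + (2))) :
    0 ≤ 7*(x*(1-x)+y*(1-y))*(x-y)^2 + (x)^2*(50*(1-y) + (-43 + 423/2*x - 168*x^2) - 28*(x*(1-x)) - 68*(y*(1-y))) := by
  have k := g1a4_3 (2*x + (2)*y + (-2)) (-2*x + (1)) ((-2)*y + (2)) h0 h1 h2 (by ring)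
  refine le_of_le_of_eq k ?_
  ring

theorem g1b1_1 (a b c : ℝ) (ha : 0 ≤ a) (hb : 0 ≤ b) (hc : 0 ≤ c) :
    0 ≤ (1/8)*a^2*b^2 + (1/4)*a^2*b*c + (1/8)*a^2*c^2 + (211/16)*a*b^3 + (583/16)*a*b^2*c + (519/16)*a*b*c^2 + (161/16)*a*c^3 + (31/8)*b^4 + (53/4)*b^3*c + 19*b^2*c^2 + (31/2)*b*c^3 + (87/16)*c^4 := by
  positivity

theorem g1b1 (x y : ℝ) (h0 : 0 ≤ (2*x + (-1))) (h1 : 0 ≤ (-2*x + (2)*y + (0))) (h2 : 0 ≤ ((-2)*y + (2))) :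
    0 ≤ 7*(x*(1-x)+y*(1-y))*(x-y)^2 + (1-x)^2*(50*(1-y) + (-43 + 423/2*x - 168*x^2) - 28*(x*(1-x)) - 68*(y*(1-y))) := by
  have k := g1b1_1 (2*x + (-1)) (-2*x + (2)*y + (0)) ((-2)*y + (2)) h0 h1 h2
  refine le_of_le_of_eq k ?_
  ring

theorem g1b2_1 (a b c : ℝ) (ha : 0 ≤ a) (hb : 0 ≤ b) (hc : 0 ≤ c) :
    0 ≤ (1/128)*a^5*c^2 + (7/512)*a^4*b^3 + (7/256)*a^4*b^2*c + (1/256)*a^4*b*c^2 + (197/1024)*a^4*c^3 + (217/4096)*a^3*b^4 + (329/2048)*a^3*b^3*c + (123/2048)*a^3*b^2*c^2 + (339/512)*a^3*b*c^3 + (345/512)*a^3*c^4 + (315/4096)*a^2*b^5 + (1281/4096)*a^2*b^4*c + (157/512)*a^2*b^3*c^2 + (2121/2048)*a^2*b^2*c^3 + (489/256)*a^2*b*c^4 + (121/128)*a^2*c^5 + (203/4096)*a*b^6 + (259/1024)*a*b^5*c + (1657/4096)*a*b^4*c^2 + (1841/2048)*a*b^3*c^3 + (3989/2048)*a*b^2*c^4 + (947/512)*a*b*c^5 + (307/512)*a*c^6 + (49/4096)*b^7 +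 (301/4096)*b^6*c + (663/4096)*b^5*c^2 + (1357/4096)*b^4*c^3 + (739/1024)*b^3*c^4 + (1935/2048)*b^2*c^5 + (153/256)*b*c^6 + (147/1024)*c^7 := by
  positivity

theorem g1b2_2 (a b c : ℝ) (ha : 0 ≤ a) (hb : 0 ≤ b) (hc : 0 ≤ c) :
    0 ≤ (49/4096)*a^4 + (21/256)*a^3*b + (77/2048)*a^3*c + (105/512)*a^2*b^2 + (203/1024)*a^2*b*c + (27/2048)*a^2*c^2 + (7/32)*a*b^3 + (175/512)*a*b^2*c + (37/512)*a*b*c^2 + (171/1024)*a*c^3 + (21/256)*b^4 + (49/256)*b^3*c + (51/512)*b^2*c^2 + (169/1024)*b*c^3 + (147/1024)*c^4 := by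
  positivity

theorem g1b2_3 (a b c : ℝ) (ha : 0 ≤ a) (hb : 0 ≤ b) (hc : 0 ≤ c) (hs : a + b + c = 1) :
    0 ≤ (1/128)*a^2*b^2 + (173/1024)*a*b^3 + (-7/128)*a*b^2*c + (7/64)*a*b*c^2 + (7/64)*a*c^3 + (147/1024)*b^4 + (169/1024)*b^3*c + (51/512)*b^2*c^2 + (49/256)*b*c^3 + (21/256)*c^4 := by
  obtain rfl : a = 1 - b - c := by linarith
  rcases le_total c (1 - b - c) with h | h
  · have k := g1b2_1 ((1 - b - c) - c) (2 * c) b (by linarith) (by linarith) (by linarith)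
    refine le_of_le_of_eq k ?_
    ring
  · have k := g1b2_2 (2 * (1 - b - c)) (c - (1 - b - c)) b (by linarith) (by linarith) (by linarith)
    refine le_of_le_of_eq k ?_
    ring

theorem g1b2_4 (a b c : ℝ) (ha : 0 ≤ a) (hb : 0 ≤ b) (hc : 0 ≤ c) :
    0 ≤ (147/1024)*a^4 + (1003/1024)*a^3*b + (169/1024)*a^3*c + (1249/512)*a^2*b^2 + (535/512)*a^2*b*c + (51/512)*a^2*c^2 + (665/256)*a*b^3 + (563/256)*a*b^2*c + (37/128)*a*b*c^2 + (49/256)*a*c^3 + (125/128)*b^4 + (197/128)*b^3*c + (23/128)*b^2*c^2 + (35/128)*b*c^3 + (21/256)*c^4 := by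
  positivity

theorem g1b2_5 (a b c : ℝ) (ha : 0 ≤ a) (hb : 0 ≤ b) (hc : 0 ≤ c) (hs : a + b + c = 1) :
    0 ≤ (1/32)*a^2*c^2 + (7/64)*a*b^3 + (7/32)*a*b^2*c + (-7/32)*a*b*c^2 + (165/128)*a*c^3 + (21/256)*b^4 + (35/128)*b^3*c + (23/128)*b^2*c^2 + (197/128)*b*c^3 + (125/128)*c^4 := by
  obtain rfl : a = 1 - b - c := by linarith
  rcases le_total c (1 - b - c) with h | h
  · have k := g1b2_3 ((1 - b - c) - c) (2 * c) b (by linarith) (by linarith) (by linarith) (by ring)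
    refine le_of_le_of_eq k ?_
    ring
  · have k := g1b2_4 (2 * (1 - b - c)) (c - (1 - b - c)) b (by linarith) (by linarith) (by linarith)
    refine le_of_le_of_eq k ?_
    ring

theorem g1b2_6 (a b c : ℝ) (ha : 0 ≤ a) (hb : 0 ≤ b) (hc : 0 ≤ c) :
    0 ≤ (21/256)*a^4 + (35/64)*a^3*b + (35/128)*a^3*c + (21/16)*a^2*b^2 + (91/64)*a^2*b*c + (23/128)*a^2*c^2 + (21/16)*a*b^3 + (77/32)*a*b^2*c + (15/16)*a*b*c^2 + (197/128)*a*c^3 + (7/16)*b^4 + (21/16)*b^3*c + (19/16)*b^2*c^2 + (229/128)*b*c^3 + (125/128)*c^4 := by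
  positivity

theorem g1b2_7 (a b c : ℝ) (ha : 0 ≤ a) (hb : 0 ≤ b) (hc : 0 ≤ c) (hs : a + b + c = 1) :
    0 ≤ (1/32)*a^2*b^2 + (165/128)*a*b^3 + (-1/2)*a*b^2*c + (7/8)*a*b*c^2 + (7/8)*a*c^3 + (125/128)*b^4 + (229/128)*b^3*c + (19/16)*b^2*c^2 + (21/16)*b*c^3 + (7/16)*c^4 := by
  obtain rfl : a = 1 - b - c := by linarith
  rcases le_total c (1 - b - c) with h | h
  · have k := g1b2_5 ((1 - b - c) - c) (2 * c) b (by linarith) (by linarith) (by linarith) (by ring)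
    refine le_of_le_of_eq k ?_
    ring
  · have k := g1b2_6 (2 * (1 - b - c)) (c - (1 - b - c)) b (by linarith) (by linarith) (by linarith)
    refine le_of_le_of_eq k ?_
    ring

theorem g1b2_8 (a b c : ℝ) (ha : 0 ≤ a) (hb : 0 ≤ b) (hc : 0 ≤ c) :
    0 ≤ (125/128)*a^4 + (835/128)*a^3*b + (229/128)*a^3*c + (1007/64)*a^2*b^2 + (719/64)*a^2*b*c + (19/16)*a^2*c^2 + (509/32)*a*b^3 + (751/32)*a*b^2*c + (31/8)*a*b*c^2 + (21/16)*a*c^3 + (87/16)*b^4 + (261/16)*b^3*c + 3*b^2*c^2 + (7/4)*b*c^3 + (7/16)*c^4 := by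
  positivity

theorem g1b2_9 (a b c : ℝ) (ha : 0 ≤ a) (hb : 0 ≤ b) (hc : 0 ≤ c) (hs : a + b + c = 1) :
    0 ≤ (1/8)*a^2*c^2 + (7/8)*a*b^3 + (7/4)*a*b^2*c + (-2)*a*b*c^2 + (161/16)*a*c^3 + (7/16)*b^4 + (7/4)*b^3*c + 3*b^2*c^2 + (261/16)*b*c^3 + (87/16)*c^4 := by
  obtain rfl : a = 1 - b - c := by linarith
  rcases le_total c (1 - b - c) with h | h
  · have k := g1b2_7 ((1 - b - c) - c) (2 * c) b (by linarith) (by linarith) (by linarith) (by ring)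
    refine le_of_le_of_eq k ?_
    ring
  · have k := g1b2_8 (2 * (1 - b - c)) (c - (1 - b - c)) b (by linarith) (by linarith) (by linarith)
    refine le_of_le_of_eq k ?_
    ring

theorem g1b2 (x y : ℝ) (h0 : 0 ≤ ((2)*y + (-1))) (h1 : 0 ≤ (2*x + (-2)*y + (0))) (h2 : 0 ≤ (-2*x + (2))) :
    0 ≤ 7*(x*(1-x)+y*(1-y))*(x-y)^2 + (1-x)^2*(50*(1-y) + (-43 + 423/2*x - 168*x^2) - 28*(x*(1-x)) - 68*(y*(1-y))) := by
  have k := g1b2_9 ((2)*y + (-1)) (2*x + (-2)*y + (0)) (-2*x + (2)) h0 h1 h2 (by ring)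
  refine le_of_le_of_eq k ?_
  ring

theorem g1b3_1 (a b c : ℝ) (ha : 0 ≤ a) (hb : 0 ≤ b) (hc : 0 ≤ c) :
    0 ≤ (7/16)*a^4 + (21/8)*a^3*b + (7/4)*a^3*c + (21/4)*a^2*b^2 + (35/4)*a^2*b*c + 3*a^2*c^2 + (7/2)*a*b^3 + 14*a*b^2*c + 14*a*b*c^2 + (261/16)*a*c^3 + 7*b^3*c + (129/8)*b^2*c^2 + (361/16)*b*c^3 + (87/16)*c^4 := by
  positivity

theorem g1b3 (x y : ℝ) (h0 : 0 ≤ (2*x + (2)*y + (-2))) (h1 : 0 ≤ ((-2)*y + (1))) (h2 : 0 ≤ (-2*x + (2))) :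
    0 ≤ 7*(x*(1-x)+y*(1-y))*(x-y)^2 + (1-x)^2*(50*(1-y) + (-43 + 423/2*x - 168*x^2) - 28*(x*(1-x)) - 68*(y*(1-y))) := by
  have k := g1b3_1 (2*x + (2)*y + (-2)) ((-2)*y + (1)) (-2*x + (2)) h0 h1 h2
  refine le_of_le_of_eq k ?_
  ring

theorem g1b4_1 (a b c : ℝ) (ha : 0 ≤ a) (hb : 0 ≤ b) (hc : 0 ≤ c) :
    0 ≤ (131/8)*a^4 + (639/16)*a^3*b + (203/4)*a^3*c + (143/8)*a^2*b^2 + (1695/16)*a^2*b*c + (113/2)*a^2*c^2 + (7/2)*a*b^3 + (157/4)*a*b^2*c + (1375/16)*a*b*c^2 + 28*a*c^3 + 7*b^3*c + (129/8)*b^2*c^2 + (361/16)*b*c^3 + (87/16)*c^4 := by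
  positivity

theorem g1b4 (x y : ℝ) (h0 : 0 ≤ (-2*x + (-2)*y + (2))) (h1 : 0 ≤ (2*x + (-1))) (h2 : 0 ≤ ((2)*y + (0))) :
    0 ≤ 7*(x*(1-x)+y*(1-y))*(x-y)^2 + (1-x)^2*(50*(1-y) + (-43 + 423/2*x - 168*x^2) - 28*(x*(1-x)) - 68*(y*(1-y))) := by
  have k := g1b4_1 (-2*x + (-2)*y + (2)) (2*x + (-1)) ((2)*y + (0)) h0 h1 h2
  refine le_of_le_of_eq k ?_
  ring


end Pool.Agent.V1195.HaarPoly
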